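import Mathlib

set_option autoImplicit false

namespace Pool.Agent.Lib.H25AbSq

/-- `(x, y)` is the Parikh vector (number of `false`, number of `true`) of an initial segment of `w`. -/
def Pt (w : List Bool) (x y : ℕ) : Prop :=
  ∃ u v : List Bool, w = u ++ v ∧ u.count false = x ∧ u.count true = y

lemma Pt.left {w : List Bool} {x y : ℕ} (h : Pt w x y) (z : List Bool) : Pt (w ++ z) x y := by
  obtain ⟨u, v, rfl, h1, h2⟩ := h
  exact ⟨u, v ++ z, by simp, h1, h2⟩

lemma Pt.right {w : List Bool} {x y : ℕ} (h : Pt w x y) (z : List Bool) {x' y' : ℕ}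
    (hx : x' = z.count false + x) (hy : y' = z.count true + y) : Pt (z ++ w) x' y' := by
  obtain ⟨u, v, rfl, h1, h2⟩ := h
  exact ⟨z ++ u, v, by simp, by simp [h1, hx], by simp [h2, hy]⟩

lemma Pt.le {w : List Bool} {x y : ℕ} (h : Pt w x y) : x ≤ w.count false ∧ y ≤ w.count true := by
  obtain ⟨u, v, rfl, h1, h2⟩ := h
  simp [← h1, ← h2]

def e (r s : ℤ) : Fin 6 → ℤ × ℤ :=
  ![(r + s, r), (r, r + s), (2 * r + s, 2 * r + s), (-(r + s), -r), (-r, -(r + s)),
    (-(2 * r + s), -(2 * r + s))]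

def Inv (t : ℕ) : Prop :=
  ∃ (A M : List Bool) (r p q : ℕ) (D : Finset (ℤ × ℤ)),
    A.count false = 2 * r ∧ A.count true = 2 * r ∧ M.count false = r ∧ M.count true = r ∧
    p ≤ r ∧ q ≤ r ∧ 3 * r = t * 3 ^ t ∧ D.card = 6 ^ t ∧
    ∀ d ∈ D, 2 * (d.1 - d.2) < 3 ^ t ∧ 2 * (d.2 - d.1) < 3 ^ t ∧
      ∃ x1 y1 x2 y2 x3 y3 : ℕ, Pt A x1 y1 ∧ Pt M x2 y2 ∧ Pt A x3 y3 ∧
        x1 + x3 = 2 * (x2 + p) ∧ y1 + y3 = 2 * (y2 + q) ∧
        (x3 : ℤ) - x1 = 2 * d.1 ∧ (y3 : ℤ) - y1 = 2 * d.2

lemma inv_zero : Inv 0 := by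
  refine ⟨[], [], 0, 0, 0, {(0, 0)}, by simp, by simp, by simp, by simp, le_rfl, le_rfl, by simp,
    by simp, ?_⟩
  intro d hd
  simp only [Finset.mem_singleton] at hd
  subst hd
  refine ⟨by simp, by simp, 0, 0, 0, 0, 0, 0, ⟨[], [], rfl, rfl, rfl⟩, ⟨[], [], rfl, rfl, rfl⟩,
    ⟨[], [], rfl, rfl, rfl⟩, by simp, by simp, by simp, by simp⟩

lemma inv_succ (t : ℕ) (h : Inv t) : Inv (t + 1) := by
  obtain ⟨A, M, r, p, q, D, hA0, hA1, hM0, hM1, hp, hq, hr, hD, H⟩ := h
  obtain ⟨s, hs⟩ : ∃ s : ℕ, s = 3 ^ t := ⟨_, rfl⟩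
  have hsz : (3 : ℤ) ^ t = s := by rw [hs]; push_cast; rfl
  rw [hsz] at H
  have hspos : 0 < s := by rw [hs]; positivity
  have hbound : ∀ d ∈ D, d.1 ≤ r ∧ -(r : ℤ) ≤ d.1 ∧ d.2 ≤ r ∧ -(r : ℤ) ≤ d.2 := by
    intro d hd
    obtain ⟨-, -, x1, y1, x2, y2, x3, y3, h1, h2, h3, -, -, h6, h7⟩ := H d hd
    have := h1.le
    have := h3.le
    omega
  let A1 := A ++ List.replicate (2 * s) false
  let A2 := A1 ++ A ++ List.replicate (2 * s) true
  let M1 := M ++ List.replicate s true
  let M2 := M1 ++ M ++ List.replicate s false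
  have a10 : A1.count false = 2 * r + 2 * s := by simp [A1, hA0, List.count_replicate]
  have a11 : A1.count true = 2 * r := by simp [A1, hA1, List.count_replicate]
  have a20 : A2.count false = 4 * r + 2 * s := by
    simp [A2, a10, hA0, List.count_replicate]; omega
  have a21 : A2.count true = 4 * r + 2 * s := by
    simp [A2, a11, hA1, List.count_replicate]; omega
  have m10 : M1.count false = r := by simp [M1, hM0, List.count_replicate]
  have m11 : M1.count true = r + s := by simp [M1, hM1, List.count_replicate]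
  have m20 : M2.count false = 2 * r + s := by
    simp [M2, m10, hM0, List.count_replicate]; omega
  have m21 : M2.count true = 2 * r + s := by
    simp [M2, m11, hM1, List.count_replicate]; omega
  have PA0 : ∀ x y, Pt A x y → Pt (A2 ++ A) x y := by
    intro x y h
    exact ((((h.left _).left _).left _).left _)
  have PA1 : ∀ x y, Pt A x y → Pt (A2 ++ A) (2 * r + 2 * s + x) (2 * r + y) := by
    intro x y h
    exact (((h.right A1 (by rw [a10]) (by rw [a11])).left _).left _)
  have PA2 : ∀ x y, Pt A x y → Pt (A2 ++ A) (4 * r + 2 * s + x) (4 * r + 2 * s + y) := by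
    intro x y h
    exact h.right A2 (by rw [a20]) (by rw [a21])
  have PM0 : ∀ x y, Pt M x y → Pt (M2 ++ M) x y := by
    intro x y h
    exact ((((h.left _).left _).left _).left _)
  have PM1 : ∀ x y, Pt M x y → Pt (M2 ++ M) (r + x) (r + s + y) := by
    intro x y h
    exact (((h.right M1 (by rw [m10]) (by rw [m11])).left _).left _)
  have PM2 : ∀ x y, Pt M x y → Pt (M2 ++ M) (2 * r + s + x) (2 * r + s + y) := by
    intro x y h
    exact h.right M2 (by rw [m20]) (by rw [m21])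
  refine ⟨A2 ++ A, M2 ++ M, 3 * r + s, p + r + s, q + r,
    ((Finset.univ : Finset (Fin 6)) ×ˢ D).image (fun z => e r s z.1 + z.2), ?_, ?_, ?_, ?_,
    by omega, by omega, ?_, ?_, ?_⟩
  · simp [a20, hA0]; omega
  · simp [a21, hA1]; omega
  · simp [m20, hM0]; omega
  · simp [m21, hM1]; omega
  · rw [pow_succ, ← hs]; rw [← hs] at hr; nlinarith
  · rw [Finset.card_image_of_injOn, Finset.card_product, hD]
    · simp [pow_succ, mul_comm]
    · rintro ⟨i, d⟩ hd ⟨j, d'⟩ hd' hij
      simp only [Finset.coe_product, Set.mem_prod, Finset.mem_coe] at hd hd'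
      have b1 := hbound d hd.2
      have b2 := hbound d' hd'.2
      have c1 := (H d hd.2).1
      have c2 := (H d hd.2).2.1
      have c3 := (H d' hd'.2).1
      have c4 := (H d' hd'.2).2.1
      have e1 := congrArg Prod.fst hij
      have e2 := congrArg Prod.snd hij
      simp only [Prod.fst_add, Prod.snd_add] at e1 e2
      have hij' : i = j := by
        fin_cases i <;> fin_cases j <;> simp [e] at e1 e2 ⊢ <;> omega
      subst hij'
      have : d = d' := by
        ext <;> omega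
      rw [this]
  · intro d hd
    simp only [Finset.mem_image, Finset.mem_product, Finset.mem_univ, true_and] at hd
    obtain ⟨⟨i, d0⟩, hd0, rfl⟩ := hd
    obtain ⟨c1, c2, x1, y1, x2, y2, x3, y3, h1, h2, h3, h4, h5, h6, h7⟩ := H d0 hd0
    rw [pow_succ, hsz]
    simp only at hd0 c1 c2 h6 h7
    fin_cases i
    · refine ⟨by simp [e]; omega, by simp [e]; omega, _, _, _, _, _, _, PA0 _ _ h1, PM0 _ _ h2,
        PA1 _ _ h3, by omega, by omega, by simp [e]; omega, by simp [e]; omega⟩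
    · refine ⟨by simp [e]; omega, by simp [e]; omega, _, _, _, _, _, _, PA1 _ _ h1, PM2 _ _ h2,
        PA2 _ _ h3, by omega, by omega, by simp [e]; omega, by simp [e]; omega⟩
    · refine ⟨by simp [e]; omega, by simp [e]; omega, _, _, _, _, _, _, PA0 _ _ h1, PM1 _ _ h2,
        PA2 _ _ h3, by omega, by omega, by simp [e]; omega, by simp [e]; omega⟩
    · refine ⟨by simp [e]; omega, by simp [e]; omega, _, _, _, _, _, _, PA1 _ _ h1, PM0 _ _ h2,
        PA0 _ _ h3, by omega, by omega, by simp [e]; omega, by simp [e]; omega⟩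
    · refine ⟨by simp [e]; omega, by simp [e]; omega, _, _, _, _, _, _, PA2 _ _ h1, PM2 _ _ h2,
        PA1 _ _ h3, by omega, by omega, by simp [e]; omega, by simp [e]; omega⟩
    · refine ⟨by simp [e]; omega, by simp [e]; omega, _, _, _, _, _, _, PA2 _ _ h1, PM1 _ _ h2,
        PA0 _ _ h3, by omega, by omega, by simp [e]; omega, by simp [e]; omega⟩

lemma inv_all (t : ℕ) : Inv t := by
  induction t with
  | zero => exact inv_zero
  | succ t ih => exact inv_succ t ih

lemma len_eq (u : List Bool) : u.length = u.count false + u.count true := by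
  induction u with
  | nil => simp
  | cons a u ih => cases a <;> simp only [List.length_cons, List.count_cons, ih] <;> simp <;> omega

/-- three points of `w` in arithmetic progression give a factorisation `w = l ++ u ++ v ++ z` -/
lemma factor_of_pts {w : List Bool} {x1 y1 x2 y2 x3 y3 : ℕ} (h1 : Pt w x1 y1) (h2 : Pt w x2 y2)
    (h3 : Pt w x3 y3) (hx : x1 + x3 = 2 * x2) (hy : y1 + y3 = 2 * y2)
    (hlt : x1 + y1 ≤ x2 + y2) :
    ∃ l u v z : List Bool, w = l ++ u ++ v ++ z ∧ x1 + u.count false = x2 ∧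
      y1 + u.count true = y2 ∧ v.count false = u.count false ∧ v.count true = u.count true := by
  obtain ⟨u1, v1, e1, a1, b1⟩ := h1
  obtain ⟨u2, v2, e2, a2, b2⟩ := h2
  obtain ⟨u3, v3, e3, a3, b3⟩ := h3
  have l1 := len_eq u1
  have l2 := len_eq u2
  have l3 := len_eq u3
  have k12 : ∃ m, u2 = u1 ++ m := by
    rcases List.append_eq_append_iff.mp (e1.symm.trans e2) with ⟨m, hm, -⟩ | ⟨m, hm, -⟩
    · exact ⟨m, hm⟩
    · have : m = [] := by
        apply List.eq_nil_of_length_eq_zero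
        have := congrArg List.length hm
        simp at this
        omega
      subst this
      exact ⟨[], by simpa using hm.symm⟩
  have k23 : ∃ m, u3 = u2 ++ m := by
    rcases List.append_eq_append_iff.mp (e2.symm.trans e3) with ⟨m, hm, -⟩ | ⟨m, hm, -⟩
    · exact ⟨m, hm⟩
    · have : m = [] := by
        apply List.eq_nil_of_length_eq_zero
        have := congrArg List.length hm
        simp at this
        omega
      subst this
      exact ⟨[], by simpa using hm.symm⟩
  obtain ⟨u, rfl⟩ := k12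
  obtain ⟨v, rfl⟩ := k23
  simp only [List.count_append] at a2 b2 a3 b3
  exact ⟨u1, u, v, v3, e3, by omega, by omega, by omega, by omega⟩

/-- For every `t ≥ 1` a binary word of length at most `6 t 3^t` with `6^t` inequivalent
abelian squares. -/
theorem many (t : ℕ) (ht : 1 ≤ t) : ∃ (w : List Bool) (S : Finset (ℕ × ℕ)),
    w.length ≤ 6 * t * 3 ^ t ∧ S.card = 6 ^ t ∧ ∀ c ∈ S, ∃ l u v z : List Bool,
      w = l ++ u ++ v ++ z ∧ u ≠ [] ∧ u.count false = c.1 ∧ u.count true = c.2 ∧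
        v.count false = c.1 ∧ v.count true = c.2 := by
  obtain ⟨A, M, r, p, q, D, hA0, hA1, hM0, hM1, hp, hq, hr, hD, H⟩ := inv_all t
  have hrpos : 0 < r := by
    have : 0 < t * 3 ^ t := by positivity
    omega
  let W1 := A ++ List.replicate r false ++ List.replicate r true
  let W2 := W1 ++ M ++ List.replicate (2 * r - 2 * p) false ++ List.replicate (2 * r - 2 * q) true
  have a10 : W1.count false = 3 * r := by simp [W1, hA0, List.count_replicate]; omega
  have a11 : W1.count true = 3 * r := by simp [W1, hA1, List.count_replicate]; omega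
  have a20 : W2.count false = 6 * r - 2 * p := by
    simp [W2, a10, hM0, List.count_replicate]; omega
  have a21 : W2.count true = 6 * r - 2 * q := by
    simp [W2, a11, hM1, List.count_replicate]; omega
  have hbound : ∀ d ∈ D, d.1 ≤ r ∧ -(r : ℤ) ≤ d.1 ∧ d.2 ≤ r ∧ -(r : ℤ) ≤ d.2 := by
    intro d hd
    obtain ⟨-, -, x1, y1, x2, y2, x3, y3, h1, h2, h3, -, -, h6, h7⟩ := H d hd
    have := h1.le
    have := h3.le
    omega
  refine ⟨W2 ++ A, D.image (fun d : ℤ × ℤ => ((3 * (r : ℤ) - p + d.1).toNat, (3 * (r : ℤ) - q + d.2).toNat)), ?_, ?_, ?_⟩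
  · rw [len_eq]
    simp only [List.count_append, a20, a21, hA0, hA1]
    have : 6 * t * 3 ^ t = 6 * (t * 3 ^ t) := by ring
    omega
  · rw [Finset.card_image_of_injOn, hD]
    intro d hd d' hd' hdd
    have b1 := hbound d hd
    have b2 := hbound d' hd'
    have e1 := congrArg Prod.fst hdd
    have e2 := congrArg Prod.snd hdd
    simp only at e1 e2
    ext <;> omega
  · intro c hc
    simp only [Finset.mem_image] at hc
    obtain ⟨d, hd, rfl⟩ := hc
    obtain ⟨-, -, x1, y1, x2, y2, x3, y3, h1, h2, h3, h4, h5, h6, h7⟩ := H d hd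
    have b1 := hbound d hd
    have g1 := h1.le
    have g2 := h2.le
    have g3 := h3.le
    have P1 : Pt (W2 ++ A) x1 y1 := (((((h1.left _).left _).left _).left _).left _).left _
    have P2 : Pt (W2 ++ A) (3 * r + x2) (3 * r + y2) :=
      (((h2.right W1 (by rw [a10]) (by rw [a11])).left _).left _).left _
    have P3 : Pt (W2 ++ A) (6 * r - 2 * p + x3) (6 * r - 2 * q + y3) :=
      h3.right W2 (by rw [a20]) (by rw [a21])
    obtain ⟨l, u, v, z, e1, e2, e3, e4, e5⟩ :=
      factor_of_pts P1 P2 P3 (by omega) (by omega) (by omega)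
    refine ⟨l, u, v, z, e1, ?_, by simp only; omega, by simp only; omega, by simp only; omega,
      by simp only; omega⟩
    rintro rfl
    simp at e2
    omega

lemma growth (C : ℝ) : ∃ t : ℕ, 1 ≤ t ∧ ∀ n : ℕ, n ≤ 6 * t * 3 ^ t →
    C * (n : ℝ) ^ ((3 : ℝ) / 2) < 6 ^ t := by
  have h := tendsto_pow_const_div_const_pow_of_one_lt 3 (r := (4 : ℝ) / 3) (by norm_num)
  have hpos : (0 : ℝ) < 1 / (216 * (C ^ 2 + 1)) := by positivity
  have h2 := (h.eventually (gt_mem_nhds hpos)).and (Filter.eventually_ge_atTop 1)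
  obtain ⟨t, h3, h4⟩ := h2.exists
  refine ⟨t, h4, fun n hn => ?_⟩
  have hn' : (n : ℝ) ≤ 6 * t * 3 ^ t := by exact_mod_cast hn
  have hsq : ((n : ℝ) ^ ((3 : ℝ) / 2)) ^ 2 = (n : ℝ) ^ 3 := by
    rw [← Real.rpow_natCast, ← Real.rpow_mul (Nat.cast_nonneg n)]
    norm_num
  have h5 : (n : ℝ) ^ 3 ≤ (6 * t * 3 ^ t) ^ 3 := by gcongr
  have h6 : ((6 : ℝ) * t * 3 ^ t) ^ 3 = 216 * (t : ℝ) ^ 3 * 27 ^ t := by
    rw [show (27 : ℝ) = 3 ^ 3 by norm_num, ← pow_mul, mul_pow, mul_pow, ← pow_mul, mul_comm t 3]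
    norm_num
  have h7 : (t : ℝ) ^ 3 * (216 * (C ^ 2 + 1)) < (4 / 3) ^ t := by
    rw [div_lt_div_iff₀ (by positivity) (by positivity)] at h3
    linarith
  have h8 : ((4 : ℝ) / 3) ^ t * 27 ^ t = (6 ^ t) ^ 2 := by
    rw [← mul_pow, ← pow_mul, mul_comm t 2, pow_mul]
    norm_num
  have h9 : (C * (n : ℝ) ^ ((3 : ℝ) / 2)) ^ 2 < (6 ^ t) ^ 2 := by
    rw [mul_pow, hsq, ← h8]
    have h27 : (0 : ℝ) < 27 ^ t := by positivity
    calc C ^ 2 * (n : ℝ) ^ 3 ≤ (C ^ 2 + 1) * (216 * (t : ℝ) ^ 3 * 27 ^ t) := by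
          rw [← h6]; gcongr; linarith
      _ = ((t : ℝ) ^ 3 * (216 * (C ^ 2 + 1))) * 27 ^ t := by ring
      _ < _ := by gcongr
  exact lt_of_pow_lt_pow_left₀ 2 (by positivity) h9

end Pool.Agent.Lib.H25AbSq
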