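import Mathlib

set_option autoImplicit false

namespace Pool.Agent.Lib.H25AdjGen

section Abs
variable {A α : Type} [Ring A] (x : α → A)

def X (w : List α) : A := (w.map x).prod

lemma X_append (u v : List α) : X x (u ++ v) = X x u * X x v := by
  simp [X]

def J (n : ℕ) : AddSubgroup A := AddSubgroup.closure {z | ∃ w : List α, n ≤ w.length ∧ z = X x w}

lemma X_mem (w : List α) {n : ℕ} (h : n ≤ w.length) : X x w ∈ J x n :=
  AddSubgroup.subset_closure ⟨w, h, rfl⟩

lemma J_anti {n m : ℕ} (h : n ≤ m) {a : A} (ha : a ∈ J x m) : a ∈ J x n :=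
  AddSubgroup.closure_mono (by rintro z ⟨w, hw, rfl⟩; exact ⟨w, h.trans hw, rfl⟩) ha

lemma J_mul {n m k : ℕ} (hk : k ≤ n + m) {a b : A} (ha : a ∈ J x n) (hb : b ∈ J x m) :
    a * b ∈ J x k := by
  apply J_anti x hk
  induction ha using AddSubgroup.closure_induction with
  | mem a ha =>
    obtain ⟨u, hu, rfl⟩ := ha
    induction hb using AddSubgroup.closure_induction with
    | mem b hb =>
      obtain ⟨v, hv, rfl⟩ := hb
      rw [← X_append]
      exact X_mem x _ (by rw [List.length_append]; omega)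
    | zero => rw [mul_zero]; exact zero_mem _
    | add b c _ _ h1 h2 => rw [mul_add]; exact add_mem h1 h2
    | neg b _ h1 => rw [mul_neg]; exact neg_mem h1
  | zero => rw [zero_mul]; exact zero_mem _
  | add b c _ _ h1 h2 => rw [add_mul]; exact add_mem h1 h2
  | neg b _ h1 => rw [neg_mul]; exact neg_mem h1

variable (N : ℕ) (hN : ∀ w : List α, N < w.length → X x w = 0)
include hN

lemma J_zero {a : A} (ha : a ∈ J x (N + 1)) : a = 0 := by
  induction ha using AddSubgroup.closure_induction with
  | mem a ha => obtain ⟨u, hu, rfl⟩ := ha; exact hN u hu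
  | zero => rfl
  | add b c _ _ h1 h2 => rw [h1, h2, add_zero]
  | neg b _ h1 => rw [h1, neg_zero]

lemma inv_mem {n : ℕ} (hn : 1 ≤ n) (u : Aˣ) (hu : (u : A) - 1 ∈ J x n) :
    ((u⁻¹ : Aˣ) : A) - 1 ∈ J x n := by
  have e : ((u⁻¹ : Aˣ) : A) - 1 = -((u : A) - 1) - ((u : A) - 1) * (((u⁻¹ : Aˣ) : A) - 1) := by
    have := u.mul_inv
    rw [sub_mul, mul_sub, this]; noncomm_ring
  have key : ∀ k : ℕ, ∃ c ∈ J x n, ∃ d ∈ J x k,
      ((u⁻¹ : Aˣ) : A) - 1 = c + d * (((u⁻¹ : Aˣ) : A) - 1) := by
    intro k
    induction k with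
    | zero => exact ⟨0, zero_mem _, 1, X_mem x [] le_rfl, by rw [zero_add, one_mul]⟩
    | succ k ih =>
      obtain ⟨c, hc, d, hd, h⟩ := ih
      refine ⟨c - d * ((u : A) - 1), sub_mem hc (J_mul x (by omega) hd hu), -(d * ((u : A) - 1)),
        neg_mem (J_mul x (by omega) hd hu), ?_⟩
      generalize ((u⁻¹ : Aˣ) : A) - 1 = b at e h
      generalize (u : A) - 1 = a at e
      calc b = c + d * b := h
        _ = c + d * (-a - a * b) := by rw [← e]
        _ = _ := by noncomm_ring
  obtain ⟨c, hc, d, hd, h⟩ := key (N + 1)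
  rw [J_zero x N hN hd, zero_mul, add_zero] at h
  rw [h]; exact hc

variable (hrot : ∀ w : List α, 2 ≤ w.length → ∃ s, X x (w.rotate s) = 0)
  (H : Subgroup Aˣ) (hH : ∀ a, ∃ g ∈ H, (g : A) = 1 + x a)
include hrot hH

lemma word_approx : ∀ (n : ℕ) (w : List α), w.length = n → 1 ≤ n →
    ∃ h ∈ H, (h : A) - 1 - X x w ∈ J x (n + 1) := by
  intro n
  induction n using Nat.strong_induction_on with
  | _ n ih =>
    intro w hw hn
    rcases Nat.lt_or_ge 1 n with h2 | h2
    · obtain ⟨s, hs⟩ := hrot w (by omega)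
      rw [List.rotate_eq_drop_append_take_mod] at hs
      have hlt : s % w.length < w.length := Nat.mod_lt _ (by omega)
      generalize s % w.length = t at hs hlt
      rcases Nat.eq_zero_or_pos t with rfl | ht
      · refine ⟨1, one_mem _, ?_⟩
        simp only [List.drop_zero, List.take_zero, List.append_nil] at hs
        rw [hs]; simp
      · have l1 : (w.take t).length = t := by rw [List.length_take]; omega
        have l2 : (w.drop t).length = n - t := by rw [List.length_drop]; omega
        obtain ⟨u, hu, eu⟩ := ih t (by omega) _ l1 ht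
        obtain ⟨v, hv, ev⟩ := ih (n - t) (by omega) _ l2 (by omega)
        have xu := X_mem x (w.take t) l1.ge
        have xv := X_mem x (w.drop t) l2.ge
        have ew : X x w = X x (w.take t) * X x (w.drop t) := by
          rw [← X_append, List.take_append_drop]
        rw [X_append] at hs
        have au : (u : A) - 1 ∈ J x t := by
          have := add_mem (J_anti x (Nat.le_succ _) eu) xu
          rwa [sub_add_cancel] at this
        have av : (v : A) - 1 ∈ J x (n - t) := by
          have := add_mem (J_anti x (Nat.le_succ _) ev) xv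
          rwa [sub_add_cancel] at this
        have c1 := inv_mem x N hN le_rfl u (J_anti x ht au)
        have c2 := inv_mem x N hN le_rfl v (J_anti x (by omega) av)
        have c3 : ((u⁻¹ : Aˣ) : A) * ((v⁻¹ : Aˣ) : A) - 1 ∈ J x 1 := by
          have := add_mem (add_mem (J_mul x (k := 1) (by omega) c1 c2) c1) c2
          convert this using 1
          noncomm_ring
        refine ⟨u * v * u⁻¹ * v⁻¹, mul_mem (mul_mem (mul_mem hu hv) (inv_mem_iff.2 hu)) (inv_mem_iff.2 hv), ?_⟩
        have e1 : ((u * v * u⁻¹ * v⁻¹ : Aˣ) : A) - 1 =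
            ((u : A) * v - v * u) * (((u⁻¹ : Aˣ) : A) * ((v⁻¹ : Aˣ) : A)) := by
          simp only [Units.val_mul, sub_mul, mul_assoc]
          rw [Units.mul_inv_cancel_left, Units.mul_inv]
        rw [e1, ew]
        generalize ((u⁻¹ : Aˣ) : A) * ((v⁻¹ : Aˣ) : A) = c at c3
        generalize X x (w.take t) = p at *
        generalize X x (w.drop t) = q at *
        have m1 := J_mul x (k := n + 1) (by omega) eu av
        have m2 := J_mul x (k := n + 1) (by omega) xu ev
        have m3 := J_mul x (k := n + 1) (by omega) ev au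
        have m4 := J_mul x (k := n + 1) (by omega) xv eu
        have m5 := J_mul x (k := n) (by omega) au av
        have m6 := J_mul x (k := n) (by omega) av au
        have m7 := J_mul x (k := n + 1) le_rfl (sub_mem m5 m6) c3
        have := add_mem (sub_mem (add_mem m1 m2) (add_mem m3 m4)) m7
        have e2 : ((u : A) * v - v * u) * c - p * q =
            ((u : A) - 1 - p) * ((v : A) - 1) + p * ((v : A) - 1 - q) -
              (((v : A) - 1 - q) * ((u : A) - 1) + q * ((u : A) - 1 - p)) +
              (((u : A) - 1) * ((v : A) - 1) - ((v : A) - 1) * ((u : A) - 1)) * (c - 1) - q * p := by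
          noncomm_ring
        rw [e2, hs, sub_zero]
        exact this
    · obtain rfl : n = 1 := by omega
      obtain ⟨a, rfl⟩ := List.length_eq_one_iff.1 hw
      obtain ⟨g, hg, e⟩ := hH a
      refine ⟨g, hg, ?_⟩
      rw [e]; simp [X]

lemma elt_approx {n : ℕ} (hn : 1 ≤ n) {r : A} (hr : r ∈ J x n) :
    ∃ h ∈ H, (h : A) - 1 - r ∈ J x (n + 1) := by
  have aux : ∀ {r : A} {h : Aˣ}, r ∈ J x n → (h : A) - 1 - r ∈ J x (n + 1) → (h : A) - 1 ∈ J x n :=
    fun h1 h2 => by
      have := add_mem (J_anti x (Nat.le_succ _) h2) h1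
      rwa [sub_add_cancel] at this
  induction hr using AddSubgroup.closure_induction with
  | mem a ha =>
    obtain ⟨w, hw, rfl⟩ := ha
    rcases hw.eq_or_lt with h | h
    · exact word_approx x N hN hrot H hH n w h.symm hn
    · refine ⟨1, one_mem _, ?_⟩
      simpa using X_mem x w h
  | zero => exact ⟨1, one_mem _, by simp⟩
  | add b c hb hc h1 h2 =>
    obtain ⟨u, hu, eu⟩ := h1
    obtain ⟨v, hv, ev⟩ := h2
    refine ⟨u * v, mul_mem hu hv, ?_⟩
    have := add_mem (add_mem eu ev) (J_mul x (k := n + 1) (by omega) (aux hb eu) (aux hc ev))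
    convert this using 1
    rw [Units.val_mul]; noncomm_ring
  | neg b hb h1 =>
    obtain ⟨u, hu, eu⟩ := h1
    refine ⟨u⁻¹, inv_mem_iff.2 hu, ?_⟩
    have := sub_mem (neg_mem eu)
      (J_mul x (k := n + 1) (by omega) (aux hb eu) (inv_mem x N hN hn u (aux hb eu)))
    convert this using 1
    rw [sub_mul, mul_sub, u.mul_inv]; noncomm_ring

theorem generated {r : A} (hr : r ∈ J x 1) : ∃ h ∈ H, (h : A) = 1 + r := by
  have key : ∀ k : ℕ, ∃ h ∈ H, ∃ s ∈ J x (k + 1), 1 + r = (h : A) * (1 + s) := by
    intro k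
    induction k with
    | zero => exact ⟨1, one_mem _, r, hr, by simp⟩
    | succ k ih =>
      obtain ⟨h, hh, s, hs, e⟩ := ih
      obtain ⟨u, hu, eu⟩ := elt_approx x N hN hrot H hH (by omega) hs
      have au : (u : A) - 1 ∈ J x (k + 1) := by
        have := add_mem (J_anti x (Nat.le_succ _) eu) hs
        rwa [sub_add_cancel] at this
      have bu := inv_mem x N hN (by omega) u au
      refine ⟨h * u, mul_mem hh hu, _,
        sub_mem (neg_mem eu) (J_mul x (k := k + 1 + 1) (by omega) bu eu), ?_⟩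
      rw [e, Units.val_mul, mul_assoc]
      congr 1
      have e3 : (1 : A) + (-((u : A) - 1 - s) - (((u⁻¹ : Aˣ) : A) - 1) * ((u : A) - 1 - s)) =
          ((u⁻¹ : Aˣ) : A) * (1 + s) := by
        have := u.inv_mul
        calc _ = 1 - ((u⁻¹ : Aˣ) : A) * u + ((u⁻¹ : Aˣ) : A) * (1 + s) := by noncomm_ring
          _ = _ := by rw [this, sub_self, zero_add]
      rw [e3, Units.mul_inv_cancel_left]
  obtain ⟨h, hh, s, hs, e⟩ := key N
  rw [J_zero x N hN hs, add_zero, mul_one] at e
  exact ⟨h, hh, e.symm⟩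

end Abs

/-- second coordinate of the morphic word -/
def ii (n : ℕ) : ℕ := if h : n % 3 = 1 then ii (n / 3) else (n / 3) % 3
decreasing_by omega

lemma ii_lt (n : ℕ) : ii n < 3 := by
  induction n using Nat.strong_induction_on with
  | _ n ih =>
    rw [ii]
    split_ifs with h
    · exact ih _ (by omega)
    · omega

lemma ii0 (q : ℕ) : ii (3 * q) = q % 3 := by
  rw [ii, dif_neg (by omega)]; omega
lemma ii1 (q : ℕ) : ii (3 * q + 1) = ii q := by
  rw [ii, dif_pos (by omega)]; congr 1; omega
lemma ii2 (q : ℕ) : ii (3 * q + 2) = q % 3 := by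
  rw [ii, dif_neg (by omega)]; omega

/-- no conjugacy class of length at least two consists of factors -/
theorem no_rot : ∀ (l : ℕ), 2 ≤ l → ∀ (c d : ℕ → ℕ), (∀ t, c (t + l) = c t) → (∀ t, d (t + l) = d t) →
    ¬ ∀ s, ∃ m, ∀ j < l, (m + j) % 3 = c (s + j) ∧ ii (m + j) = d (s + j) := by
  intro l
  induction l using Nat.strong_induction_on with
  | _ l ih =>
    intro hl c d hc hd H
    have step : ∀ t, c (t + 1) = (c t + 1) % 3 := fun t => by
      obtain ⟨m, hm⟩ := H t
      have h0 := (hm 0 (by omega)).1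
      have h1 := (hm 1 (by omega)).1
      simp only [add_zero] at h0
      omega
    have c0 : c 0 < 3 := by
      obtain ⟨m, hm⟩ := H 0
      have h0 := (hm 0 (by omega)).1
      simp only [add_zero] at h0
      omega
    have cf : ∀ t, c t = (c 0 + t) % 3 := fun t => by
      induction t with
      | zero => omega
      | succ t iht => rw [step, iht]; omega
    have l3 : l % 3 = 0 := by
      have h1 := hc 0
      have h2 := cf (0 + l)
      omega
    obtain ⟨l', rfl⟩ : ∃ l', l = 3 * l' := ⟨l / 3, by omega⟩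
    obtain ⟨s0, hs0⟩ : ∃ s0, (c 0 + s0) % 3 = 0 := ⟨3 - c 0, by omega⟩
    rcases Nat.lt_or_ge l' 2 with h1 | h1
    · obtain rfl : l' = 1 := by omega
      obtain ⟨m, hm⟩ := H s0
      obtain ⟨m', hm'⟩ := H (s0 + 2)
      have a0 := hm 0 (by omega)
      have a2 := (hm 2 (by omega)).2
      have b0 := hm' 0 (by omega)
      have b1 := (hm' 1 (by omega)).2
      rw [cf] at a0 b0
      obtain ⟨q, rfl⟩ : ∃ q, m = 3 * q := ⟨m / 3, by omega⟩
      obtain ⟨q', rfl⟩ : ∃ q, m' = 3 * q + 2 := ⟨m' / 3, by omega⟩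
      have e1 : 3 * q' + 2 + 1 = 3 * (q' + 1) := by ring
      have e2 : s0 + 2 + 1 = s0 + 3 * 1 := by ring
      rw [e1, e2, hd, ii0] at b1
      rw [ii2] at a2
      simp only [add_zero] at a0 b0
      rw [ii0] at a0
      rw [ii2] at b0
      omega
    · refine ih l' (by omega) h1 (fun t => d (s0 + 3 * t)) (fun t => d (s0 + 3 * t + 1))
        (fun t => ?_) (fun t => ?_) fun s => ?_
      · rw [← hd (s0 + 3 * t)]; congr 1; ring
      · rw [← hd (s0 + 3 * t + 1)]; congr 1; ring
      · obtain ⟨m, hm⟩ := H (s0 + 3 * s)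
        have a0 := (hm 0 (by omega)).1
        rw [cf] at a0
        obtain ⟨q, rfl⟩ : ∃ q, m = 3 * q := ⟨m / 3, by omega⟩
        refine ⟨q, fun j hj => ⟨?_, ?_⟩⟩
        · have := (hm (3 * j) (by omega)).2
          rw [← mul_add, ii0] at this
          rw [this]; congr 1; ring
        · have := (hm (3 * j + 1) (by omega)).2
          rw [← add_assoc, ← mul_add, ii1] at this
          rw [this]; congr 1; ring

end Pool.Agent.Lib.H25AdjGen
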