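import Mathlib

set_option autoImplicit false

namespace Pool.Agent.Lib.H25BilAlg

/-- A module with a chosen bilinear product, as a nonassociative algebra. -/
def Alg {F A : Type} [CommRing F] [AddCommGroup A] [Module F A] (_m : A →ₗ[F] A →ₗ[F] A) : Type := A

variable {F A : Type} [CommRing F] [AddCommGroup A] [Module F A] (m : A →ₗ[F] A →ₗ[F] A)

instance : AddCommGroup (Alg m) := inferInstanceAs (AddCommGroup A)
instance : Module F (Alg m) := inferInstanceAs (Module F A)

instance : NonUnitalNonAssocRing (Alg m) where
  mul x y := m x y
  left_distrib a b c := map_add (m a) b c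
  right_distrib a b c := LinearMap.map_add₂ m a b c
  zero_mul a := LinearMap.map_zero₂ m a
  mul_zero a := map_zero (m a)

lemma mul_def (x y : Alg m) : x * y = m x y := rfl

instance : IsScalarTower F (Alg m) (Alg m) where
  smul_assoc r x y := LinearMap.map_smul₂ m r x y

instance : SMulCommClass F (Alg m) (Alg m) where
  smul_comm r x y := (map_smul (m x) r y).symm

end Pool.Agent.Lib.H25BilAlg
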