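import Mathlib

set_option autoImplicit false

namespace Pool.Agent.Lib.H25Bisym

open Filter Topology

/-- iterated left / right multiplications by `c`, applied to `b` -/
def T {X : Type} (G : X → X → X) : List Bool → X → X → X
  | [], _, b => b
  | true :: w, c, b => G c (T G w c b)
  | false :: w, c, b => G (T G w c b) c

lemma T_gt {X : Type} [LinearOrder X] (G : X → X → X) (hr : ∀ x, G x x = x)
    (m1 : ∀ x, StrictMono (G x)) (m2 : ∀ y, StrictMono (fun x => G x y)) (w : List Bool)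
    (c b : X) (h : c < b) : c < T G w c b := by
  induction w with
  | nil => exact h
  | cons a w ih =>
    cases a
    · have := m2 c ih
      simp only [hr] at this
      exact this
    · have := m1 c ih
      simp only [hr] at this
      exact this

lemma T_self {X : Type} (G : X → X → X) (hr : ∀ x, G x x = x) (w : List Bool) (c : X) :
    T G w c c = c := by
  induction w with
  | nil => rfl
  | cons a w ih => cases a <;> simp [T, ih, hr]

lemma crux {X : Type} [LinearOrder X] (f : X → ℝ) (hf : StrictMono f)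
    (nest : ∀ u v : ℕ → X, Monotone u → Antitone v → (∀ k, u k ≤ v k) →
      ∃ y, ∀ k, u k ≤ y ∧ y ≤ v k)
    (G : X → X → X) (hr : ∀ x, G x x = x)
    (hm : ∀ x y u v, G (G x y) (G u v) = G (G x u) (G y v))
    (m1 : ∀ x, StrictMono (G x)) (m2 : ∀ y, StrictMono (fun x => G x y))
    (c b L : X) (hcb : c < b) (hL : c < L) : ∃ w, T G w c b < L := by
  by_contra hcon
  push Not at hcon
  let P : X → X → Prop := fun u v => ∃ w, G (T G w c b) u < G c v
  have P0 : P c b := by
    refine ⟨[true], ?_⟩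
    have h1 : c < G c b := T_gt G hr m1 m2 [true] c b hcb
    have := m1 (G c b) h1
    rw [hr] at this
    exact this
  have P1 : ∀ u v, P u v → P u (G u v) := by
    rintro u v ⟨w, hw⟩
    refine ⟨true :: w, ?_⟩
    have e1 : G (G c (T G w c b)) u = G (G c u) (G (T G w c b) u) := by
      rw [← hm, hr]
    have e2 : G c (G u v) = G (G c u) (G c v) := by
      rw [← hm, hr]
    change G (G c (T G w c b)) u < _
    rw [e1, e2]
    exact m1 _ hw
  have P2 : ∀ u v, P u v → P (G u v) v := by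
    rintro u v ⟨w, hw⟩
    refine ⟨false :: w, ?_⟩
    change G (G (T G w c b) c) (G u v) < _
    rw [hm]
    have := m2 (G c v) hw
    simp only [hr] at this
    exact this
  have P3 : ∀ u v, P u v → G L u < G c v := by
    rintro u v ⟨w, hw⟩
    exact lt_of_le_of_lt ((m2 u).monotone (hcon w)) hw
  have P4 : ∀ u v, P u v → u < v := by
    intro u v h
    exact (m1 c).lt_iff_lt.mp (lt_trans (m2 u hL) (P3 u v h))
  let W : X → X → ℝ := fun u v => f (G L v) - f (G c u)
  have step : ∀ p : {p : X × X // P p.1 p.2}, ∃ q : {p : X × X // P p.1 p.2},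
      p.1.1 ≤ q.1.1 ∧ q.1.2 ≤ p.1.2 ∧ W q.1.1 q.1.2 ≤ W p.1.1 p.1.2 / 2 := by
    rintro ⟨⟨u, v⟩, h⟩
    have a1 := P1 u v h
    have a2 := P2 u v h
    have a3 := P1 _ _ a1
    have a4 := P2 _ _ a1
    have a5 := hf (P3 _ _ a4)
    by_cases hc : W u (G u (G u v)) ≤ W u v / 2
    · exact ⟨⟨(u, G u (G u v)), a3⟩, le_rfl, ((P4 _ _ a4).trans (P4 _ _ a2)).le, hc⟩
    · refine ⟨⟨(G u v, v), a2⟩, (P4 _ _ a1).le, le_rfl, ?_⟩
      simp only [W] at hc ⊢
      linarith
  choose nx hn1 hn2 hn3 using step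
  let s : ℕ → {p : X × X // P p.1 p.2} := fun k => nx^[k] ⟨(c, b), P0⟩
  have hs : ∀ k, s (k + 1) = nx (s k) := fun k => Function.iterate_succ_apply' _ _ _
  obtain ⟨y, hy⟩ := nest (fun k => (s k).1.1) (fun k => (s k).1.2)
    (monotone_nat_of_le_succ fun k => by rw [hs]; exact hn1 _)
    (antitone_nat_of_succ_le fun k => by rw [hs]; exact hn2 _)
    (fun k => (P4 _ _ (s k).2).le)
  have hW : ∀ k, W (s k).1.1 (s k).1.2 ≤ W c b * (1 / 2) ^ k := by
    intro k
    induction k with
    | zero => simp [s]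
    | succ k ih =>
      rw [hs]
      have := hn3 (s k)
      rw [pow_succ]
      linarith
  have hd : 0 < f (G L y) - f (G c y) := sub_pos.mpr (hf (m2 y hL))
  have hle : ∀ k, f (G L y) - f (G c y) ≤ W c b * (1 / 2) ^ k := by
    intro k
    have b1 := hf.monotone ((m1 c).monotone (hy k).1)
    have b2 := hf.monotone ((m1 L).monotone (hy k).2)
    have := hW k
    simp only [W] at this ⊢
    linarith
  have ht : Tendsto (fun k : ℕ => W c b * (1 / 2 : ℝ) ^ k) atTop (𝓝 (W c b * 0)) :=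
    (tendsto_pow_atTop_nhds_zero_of_lt_one (by norm_num) (by norm_num)).const_mul _
  have := ge_of_tendsto' ht hle
  linarith

lemma upper {X : Type} [LinearOrder X] [TopologicalSpace X] [OrderClosedTopology X]
    (f : X → ℝ) (hf : StrictMono f)
    (nest : ∀ u v : ℕ → X, Monotone u → Antitone v → (∀ k, u k ≤ v k) →
      ∃ y, ∀ k, u k ≤ y ∧ y ≤ v k)
    (G : X → X → X) (hr : ∀ x, G x x = x)
    (hm : ∀ x y u v, G (G x y) (G u v) = G (G x u) (G y v))
    (m1 : ∀ x, StrictMono (G x)) (m2 : ∀ y, StrictMono (fun x => G x y))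
    {ι : Type} [Fintype ι] (F : (ι → X) → X) (hF : ∀ x y, (∀ i, x i ≤ y i) → F x ≤ F y)
    (hFr : ∀ x, F (fun _ => x) = x)
    (hFG : ∀ x y, F (fun i => G (x i) (y i)) = G (F x) (F y)) (x : ι → X) (L : X)
    (hL : F x < L) : ∀ᶠ x' in 𝓝 x, F x' < L := by
  classical
  have h1 : ∀ i, ∃ b, x i ≤ b ∧ (x i < b ∨ (∀ z, z ≤ x i)) := by
    intro i
    by_cases h : ∀ z, z ≤ x i
    · exact ⟨x i, le_rfl, Or.inr h⟩
    · push Not at h
      obtain ⟨z, hz⟩ := h
      exact ⟨z, hz.le, Or.inl hz⟩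
  choose bb hbb using h1
  obtain ⟨b, hb1, hb2⟩ : ∃ b, L ≤ b ∧ ∀ i, bb i ≤ b := by
    refine ⟨(insert L (Finset.univ.image bb)).max' (Finset.insert_nonempty _ _), ?_, fun i => ?_⟩
    · exact Finset.le_max' _ _ (Finset.mem_insert_self _ _)
    · exact Finset.le_max' _ _ (Finset.mem_insert_of_mem (Finset.mem_image_of_mem _ (by simp)))
  obtain ⟨w, hw⟩ := crux f hf nest G hr hm m1 m2 (F x) b L (hL.trans_le hb1) hL
  have hT : ∀ w : List Bool, F (fun i => T G w (x i) b) = T G w (F x) b := by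
    intro w
    induction w with
    | nil => exact hFr b
    | cons a w ih =>
      cases a
      · simp only [T]; rw [hFG, ih]
      · simp only [T]; rw [hFG, ih]
  have h2 : ∀ i, ∀ᶠ x' in 𝓝 x, x' i ≤ T G w (x i) b := by
    intro i
    by_cases h : x i < b
    · have := T_gt G hr m1 m2 w _ _ h
      have h3 : ∀ᶠ x' in 𝓝 x, x' i < T G w (x i) b :=
        (continuous_apply i).continuousAt.eventually_lt continuousAt_const this
      exact h3.mono fun _ h => h.le
    · rcases (hbb i).2 with h' | h'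
      · exact absurd (h'.trans_le (hb2 i)) h
      · have : b = x i := le_antisymm (h' b) ((hbb i).1.trans (hb2 i))
        rw [this, T_self G hr]
        exact Eventually.of_forall fun z => h' _
  filter_upwards [eventually_all.mpr h2] with z hz
  exact lt_of_le_of_lt (hF _ _ hz) (by rw [hT]; exact hw)

theorem cont (I : Set ℝ) (hI : I.OrdConnected) (G : I → I → I) (hr : ∀ x, G x x = x)
    (hm : ∀ x y u v, G (G x y) (G u v) = G (G x u) (G y v))
    (m1 : ∀ x, StrictMono (G x)) (m2 : ∀ y, StrictMono (fun x => G x y))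
    {ι : Type} [Fintype ι] (F : (ι → I) → I) (hF : ∀ x y, (∀ i, x i ≤ y i) → F x ≤ F y)
    (hFr : ∀ x, F (fun _ => x) = x)
    (hFG : ∀ x y, F (fun i => G (x i) (y i)) = G (F x) (F y)) : Continuous F := by
  have nest : ∀ u v : ℕ → I, Monotone u → Antitone v → (∀ k, u k ≤ v k) →
      ∃ y, ∀ k, u k ≤ y ∧ y ≤ v k := by
    intro u v hu hv huv
    have h1 : ∀ k l, (u k : ℝ) ≤ v l := fun k l =>
      (hu (le_max_left k l)).trans ((huv _).trans (hv (le_max_right k l)))
    have hb : BddAbove (Set.range fun k => (u k : ℝ)) := ⟨v 0, by rintro _ ⟨k, rfl⟩; exact h1 k 0⟩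
    have h2 : ∀ k, (u k : ℝ) ≤ ⨆ k, (u k : ℝ) := fun k => le_ciSup hb k
    have h3 : ∀ k, ⨆ k, (u k : ℝ) ≤ v k := fun k => ciSup_le fun l => h1 l k
    exact ⟨⟨_, hI.out (u 0).2 (v 0).2 ⟨h2 0, h3 0⟩⟩, fun k => ⟨h2 k, h3 k⟩⟩
  have : OrderTopology I := @orderTopology_of_ordConnected ℝ _ _ _ I hI
  rw [continuous_iff_continuousAt]
  intro x
  refine tendsto_order.2 ⟨fun L hL => ?_, fun L hL => ?_⟩
  · exact upper (X := (↥I)ᵒᵈ) (fun z => -((OrderDual.ofDual z : I) : ℝ))
      (fun a b h => neg_lt_neg h)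
      (fun u v hu hv huv => by
        obtain ⟨y, hy⟩ := nest v u hv hu huv
        exact ⟨y, fun k => ⟨(hy k).2, (hy k).1⟩⟩)
      G hr hm (fun x a b h => m1 x h) (fun x a b h => m2 x h) F (fun x y h => hF y x h) hFr hFG
      x L hL
  · exact upper (fun z : I => (z : ℝ)) (fun a b h => h) nest G hr hm m1 m2 F hF hFr hFG x L hL

end Pool.Agent.Lib.H25Bisym
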