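import Mathlib

/-! A 6-graph with minimum codegree about n/5 and no spanning tight component. -/

namespace Pool.Agent.H25Codeg

open Finset

def tabN : ℕ := 150610394495018157927983457867264340434376402810866260001594669884768057582893763206133941828501789250126452524025506648382805011685479411660416662940534517572900947662820757882412916427927110500061647189676843500881590856975972813040466166147190457249500442882811634699676453394779413630790645123072780917303451965060493523426121290943712588467436777860581059197259033568658364016154796466626800389739840447766566807577977412637471908358303814592462509475430468355863110451360674302492051122947266969301184076312382563028618462424110178616089789252547997617141306529610712664408310802513799996133644414387288015350782013575632743983238796544564188761787687532548394941737155034004068389946013366646195139575213752477910439554570037991698288861822156209500228622482874624851028148811432164322932578292847072605474396435246602086809405626946168795300874387442015494007554701000640215407999252665219181869387566506516559962122170678736694339331116877949034985159783836762635069036331707528030671864468901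834693954241412259740573484521985338624275075576457866568913437399989058560673327713669639053693549365915075103246699600193569003856592885090026478210305101107333158357834908972209251098756929502127782074806017547574721354753797103143397649678691775656100422025643667435860032664360792861110142240936067263481074486062251007977005492098352958431410094810749026843025358314272132727196410861432146172029983313359727808551669184433822533171650573415157235049461943372227401439659314329149363595974749702395651575442338604431104201502479359440170517642534811495334173798816460831513538597638566934644300134510434217624956659628774320570324359475899099087452082874876255126356272117111641969383169104350206967745071366449601482779643123969252084147883107611470224801458783761311700864190590538994363358964873448418649461437516917077587241595740511969335624094766044675471649132007755823875239691855577844313402954300775939432168084633120683570203649538705296787355844811752603592883280421880336449348901651068599650616093582828190616775986877589349714125267535218155513148582174713405947517770979190934471429644834096082512476257301613659772511097390267853316733360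09548953462686714710392674340532220555795776989061499077682031665442501016545136437742958112025487817320766169398656428761489535595505666798005327587581803350433818039674379424032939404521643687817408384864306030744475949883367531624087881833766786814512768695467268304964920451280890817317245567032682417662440910791997757614784769756640497152955902422240007390898202028963021665830708365119583993529368621366364497429874189506941268014759237986803971696189474913840294269134474790167544551834753455462273027412085516153909857705984146232526691748375096837942974541344093698510231910881007126309309619843326802475654184232174504206369029554940101947389560111614819792466254708434921758494318871781427910477054303179918800888051321193275292899492014483959721123572875625575984269472255063883306779002593471517347935607713170380066884859534415307299983651062180457728393457691682132100074941680430167141638460288212594544413748643586494099207911616746950133152057218856940972605910844627218288478607680914223336086060843565005827447787736270932327202158216635838933711953895131213116678530132110349802635133780050649970114415307911802554424918420435054114113194723292569001835003326166381835735889191709652221321226469966563532876586875027906868075569230693261818941280602207486889658871741926664665440398822792717782307386679582597678092484066065757802931010847627473946679778825272533521663251416574660076790718177259297928265097419558550595269653518331697312069202085714219886535046005012065275377398653611128477536200828697940042917560109145210315650800840067458054091566664390515179298489520223526346725917128291665069158563880578814703965250874163331072000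

def look (a b c d e u v : ℕ) : ℕ :=
  (tabN >>> (6 * ((a + 6 * b + 36 * c + 216 * d + 1296 * e + 7776 * u + 15552 * v) % 2129))) % 64

def val (t : ℕ → ℕ) : ℕ := look (t 0) (t 1) (t 2) (t 3) (t 4) (t 5) (t 6)

def lab (t : ℕ → ℕ) : ℕ := val t % 8

def ext (t : ℕ → ℕ) : ℕ := val t / 8

def mk (a b c d e u v : ℕ) : ℕ → ℕ := fun i =>
  if i = 0 then a else if i = 1 then b else if i = 2 then c else if i = 3 then d
  else if i = 4 then e else if i = 5 then u else if i = 6 then v else 0

def up (t : ℕ → ℕ) (p : ℕ) : ℕ → ℕ := fun i => if i = p then t i + 1 else t i

def dn (t : ℕ → ℕ) (q : ℕ) : ℕ → ℕ := fun i => if i = q then t i - 1 else t i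

def Ok (t : ℕ → ℕ) : Prop :=
  ext t < 5 ∧ lab t < 7 ∧ up t (ext t) (lab t) = 0 ∧
    ∀ q < 7, 0 < up t (ext t) q → lab (dn (up t (ext t)) q) = lab t

instance (t : ℕ → ℕ) : Decidable (Ok t) := by unfold Ok; infer_instance

set_option synthInstance.maxSize 2000 in
lemma chk : ∀ u < 2, ∀ v < 2, ∀ a < 6, ∀ b < 6 - a, ∀ c < 6 - a - b, ∀ d < 6 - a - b - c,
    a + b + c + d + u + v ≤ 5 → Ok (mk a b c d (5 - (a + b + c + d + u + v)) u v) := by
  decide +kernel

lemma ok_of (t : ℕ → ℕ) (hs : t 0 + t 1 + t 2 + t 3 + t 4 + t 5 + t 6 = 5) (h5 : t 5 ≤ 1)
    (h6 : t 6 ≤ 1) : Ok t := by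
  have h := chk (t 5) (by omega) (t 6) (by omega) (t 0) (by omega) (t 1) (by omega) (t 2)
    (by omega) (t 3) (by omega) (by omega)
  rw [show 5 - (t 0 + t 1 + t 2 + t 3 + t 5 + t 6) = t 4 by omega] at h
  set s := mk (t 0) (t 1) (t 2) (t 3) (t 4) (t 5) (t 6) with hs
  have hst : ∀ i < 7, s i = t i := by
    intro i hi
    interval_cases i <;> simp [hs, mk]
  have hv : ∀ t1 t2 : ℕ → ℕ, (∀ i < 7, t1 i = t2 i) → val t1 = val t2 := by
    intro t1 t2 h
    unfold val
    rw [h 0 (by omega), h 1 (by omega), h 2 (by omega), h 3 (by omega), h 4 (by omega),
      h 5 (by omega), h 6 (by omega)]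
  have e1 : ext s = ext t := by unfold ext; rw [hv s t hst]
  have e2 : lab s = lab t := by unfold lab; rw [hv s t hst]
  obtain ⟨a1, a2, a3, a4⟩ := h
  rw [e1] at a1 a3 a4
  rw [e2] at a2 a3 a4
  have hu : ∀ i < 7, up s (ext t) i = up t (ext t) i := by
    intro i hi; unfold up; rw [hst i hi]
  refine ⟨a1, a2, by rw [← hu _ a2]; exact a3, fun q hq h0 => ?_⟩
  rw [← a4 q hq (by rw [hu q hq]; exact h0)]
  unfold lab
  rw [hv _ (dn (up s (ext t)) q)]
  intro i hi
  unfold dn; rw [hu i hi]

variable {V : Type} [Fintype V] [DecidableEq V]

def cnt (cls : V → ℕ) (S : Finset V) : ℕ → ℕ := fun q => (S.filter (fun x => cls x = q)).card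

omit [Fintype V] in
lemma cnt_insert (cls : V → ℕ) (S : Finset V) (x : V) (hx : x ∉ S) :
    cnt cls (insert x S) = up (cnt cls S) (cls x) := by
  funext q
  unfold cnt up
  rw [filter_insert]
  by_cases h : cls x = q
  · rw [if_pos h, if_pos h.symm, card_insert_of_notMem (fun h' => hx (mem_filter.mp h').1)]
  · rw [if_neg h, if_neg (Ne.symm h)]

omit [Fintype V] in
lemma cnt_erase (cls : V → ℕ) (e : Finset V) (y : V) (hy : y ∈ e) :
    cnt cls (e.erase y) = dn (cnt cls e) (cls y) := by
  have h := cnt_insert cls (e.erase y) y (notMem_erase y e)
  rw [insert_erase hy] at h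
  rw [h]
  funext q
  unfold dn up
  split_ifs <;> simp

def Col (cls : V → ℕ) (e : Finset V) (c : ℕ) : Prop :=
  c < 7 ∧ (∀ y ∈ e, lab (cnt cls (e.erase y)) = c) ∧ ∀ x ∈ e, cls x ≠ c

theorem core (cls : V → ℕ) (m : ℕ) (h7 : ∀ x, cls x < 7)
    (hm : ∀ p < 5, m ≤ (univ.filter (fun x => cls x = p)).card)
    (h5 : (univ.filter (fun x => cls x = 5)).card ≤ 1)
    (h6 : (univ.filter (fun x => cls x = 6)).card ≤ 1) :
    ∃ (H : Finset (Finset V)) (c : Finset V → ℕ), (∀ e ∈ H, e.card = 6) ∧
      (∀ S : Finset V, S.card = 5 → m - 5 ≤ (H.filter (fun e => S ⊆ e)).card) ∧
      (∀ e ∈ H, ∀ f ∈ H, 5 ≤ (e ∩ f).card → c e = c f) ∧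
      (∀ e ∈ H, c e < 7 ∧ ∀ x ∈ e, cls x ≠ c e) := by
  classical
  let c : Finset V → ℕ := fun e => if h : ∃ c, Col cls e c then h.choose else 0
  have hc : ∀ e, (∃ c, Col cls e c) → Col cls e (c e) := by
    intro e h
    simp only [c, dif_pos h]
    exact h.choose_spec
  refine ⟨univ.filter (fun e => e.card = 6 ∧ ∃ c, Col cls e c), c,
    fun e he => (mem_filter.mp he).2.1, fun S hS => ?_, fun e he f hf hef => ?_, fun e he => ?_⟩
  · have hsum : ∑ q ∈ range 7, cnt cls S q = 5 := by
      rw [← hS]
      exact (card_eq_sum_card_fiberwise (f := cls) (s := S) (t := range 7)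
        (fun x _ => by simpa using h7 x)).symm
    simp only [sum_range_succ, sum_range_zero, zero_add] at hsum
    have hle : ∀ q, cnt cls S q ≤ (univ.filter (fun x => cls x = q)).card :=
      fun q => card_le_card (filter_subset_filter _ (subset_univ _))
    obtain ⟨a1, a2, a3, a4⟩ := ok_of (cnt cls S) hsum ((hle 5).trans h5) ((hle 6).trans h6)
    have hcard : m - 5 ≤ (univ.filter (fun x => cls x = ext (cnt cls S)) \ S).card := by
      have := le_card_sdiff S (univ.filter (fun x => cls x = ext (cnt cls S)))
      have := hm _ a1
      omega
    refine hcard.trans (card_le_card_of_injOn (fun x => insert x S) ?_ ?_)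
    · intro x hx
      simp only [coe_sdiff, coe_filter, mem_univ, true_and, Set.mem_sdiff, Set.mem_ofPred_eq,
        mem_coe] at hx
      obtain ⟨hx1, hx2⟩ := hx
      simp only [coe_filter, mem_filter, mem_univ, true_and, Set.mem_ofPred_eq]
      have hI := cnt_insert cls S x hx2
      rw [hx1] at hI
      have pos : ∀ y ∈ insert x S, 0 < up (cnt cls S) (ext (cnt cls S)) (cls y) := by
        intro y hy
        rw [← hI]
        exact card_pos.mpr ⟨y, mem_filter.mpr ⟨hy, rfl⟩⟩
      refine ⟨⟨by rw [card_insert_of_notMem hx2, hS], lab (cnt cls S), a2, fun y hy => ?_,
        fun y hy h => ?_⟩, subset_insert _ _⟩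
      · rw [cnt_erase cls _ y hy, hI]
        exact a4 _ (h7 y) (pos y hy)
      · have := pos y hy
        rw [h, a3] at this
        omega
    · intro x hx y hy hxy
      simp only [coe_sdiff, coe_filter, mem_univ, true_and, Set.mem_sdiff, Set.mem_ofPred_eq,
        mem_coe] at hx hy
      have : x ∈ insert y S := by
        have h' : insert x S = insert y S := hxy
        rw [← h']; exact mem_insert_self _ _
      rcases mem_insert.mp this with h | h
      · exact h
      · exact absurd h hx.2
  · obtain ⟨g, hg1, hg2⟩ := exists_subset_card_eq hef
    have key : ∀ e : Finset V, e.card = 6 → (∃ c, Col cls e c) → g ⊆ e → c e = lab (cnt cls g) := by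
      intro e h1 h2 h3
      obtain ⟨x, hx1, hx2⟩ := exists_mem_notMem_of_card_lt_card (s := g) (t := e) (by omega)
      have : g = e.erase x := by
        apply eq_of_subset_of_card_le
        · intro y hy
          exact mem_erase.mpr ⟨fun h => hx2 (h ▸ hy), h3 hy⟩
        · rw [card_erase_of_mem hx1]; omega
      rw [this]
      exact ((hc e h2).2.1 x hx1).symm
    have e1 := (mem_filter.mp he).2
    have f1 := (mem_filter.mp hf).2
    rw [key e e1.1 e1.2 (hg1.trans inter_subset_left), key f f1.1 f1.2 (hg1.trans inter_subset_right)]
  · have := hc e (mem_filter.mp he).2.2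
    exact ⟨this.1, this.2.2⟩

theorem exists_H (m : ℕ) (hm : 32 ≤ m) (n : ℕ) (hn : n = 5 * m + 2) :
    ∃ (H : Finset (Finset (Fin n))) (c : Finset (Fin n) → ℕ), (∀ e ∈ H, e.card = 6) ∧
      (∀ S : Finset (Fin n), S.card = 5 → n ≤ 6 * (H.filter (fun e => S ⊆ e)).card) ∧
      (∀ e ∈ H, ∀ f ∈ H, 5 ≤ (e ∩ f).card → c e = c f) ∧
      (∀ e ∈ H, ∃ z : Fin n, ∀ f ∈ H, c f = c e → z ∉ f) := by
  let cls : Fin n → ℕ := fun x => if x.val < 2 then x.val + 5 else (x.val - 2) % 5
  have one : ∀ q, 5 ≤ q → (univ.filter (fun x => cls x = q)).card ≤ 1 := by
    intro q hq
    refine card_le_one.mpr fun a ha b hb => ?_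
    simp only [mem_filter, mem_univ, true_and, cls] at ha hb
    apply Fin.ext
    split_ifs at ha hb <;> omega
  obtain ⟨H, c, h1, h2, h3, h4⟩ := core cls m (fun x => by simp only [cls]; split_ifs <;> omega)
    (fun p hp => by
      have : (range m).card ≤ (univ.filter (fun x => cls x = p)).card := by
        refine card_le_card_of_injOn
          (fun i => if h : i < m then (⟨5 * i + p + 2, by omega⟩ : Fin n) else ⟨0, by omega⟩) ?_ ?_
        · intro i hi
          have hi' : i < m := by simpa using hi
          simp only [dif_pos hi', coe_filter, mem_univ, true_and, Set.mem_ofPred_eq, cls]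
          split_ifs <;> omega
        · intro i hi j hj hij
          have hi' : i < m := by simpa using hi
          have hj' : j < m := by simpa using hj
          simp only [dif_pos hi', dif_pos hj', Fin.mk.injEq] at hij
          omega
      simpa using this) (one 5 le_rfl) (one 6 (by omega))
  refine ⟨H, c, h1, fun S hS => ?_, h3, fun e he => ?_⟩
  · have := h2 S hS
    omega
  · have h7 := (h4 e he).1
    obtain ⟨z, hz⟩ : ∃ z : Fin n, cls z = c e := by
      by_cases h : c e < 5
      · refine ⟨⟨c e + 2, by omega⟩, ?_⟩
        simp only [cls]; split_ifs <;> omega
      · refine ⟨⟨c e - 5, by omega⟩, ?_⟩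
        simp only [cls]; split_ifs <;> omega
    exact ⟨z, fun f hf hfe hzf => (h4 f hf).2 z hzf (by rw [hz, hfe])⟩

end Pool.Agent.H25Codeg
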