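import Mathlib

set_option autoImplicit false

namespace Pool.Agent.Lib.H25DegQ1

open Filter Topology Cardinal BoundedContinuousFunction

lemma exists_form (E : Type) [AddCommGroup E] [Module ℝ E] (h1 : #E ≤ 𝔠)
    (h2 : 𝔠 ≤ Module.rank ℝ E) : ∃ B : E →ₗ[ℝ] E →ₗ[ℝ] ℝ, (∀ x y, B x y = B y x) ∧
      ∀ (v : ℕ → E) (c : ℕ → ℝ), LinearIndependent ℝ v → ∃ x, ∀ j, B x (v j) = c j := by
  classical
  let b := Module.Basis.ofVectorSpace ℝ E
  have h3 : #((ℕ → E × ℝ) × (ℕ → ℕ)) ≤ #(Module.Basis.ofVectorSpaceIndex ℝ E) := by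
    rw [b.mk_eq_rank'']
    refine le_trans ?_ h2
    have h4 : #(ℕ → E × ℝ) ≤ 𝔠 := by
      rw [Cardinal.mk_arrow]
      simp only [Cardinal.mk_prod, lift_id, Cardinal.mk_real, Cardinal.mk_nat]
      calc (#E * 𝔠) ^ ℵ₀ ≤ (𝔠 * 𝔠) ^ ℵ₀ :=
            Cardinal.power_le_power_right (mul_le_mul' h1 le_rfl)
        _ = 𝔠 := by simp
    calc #((ℕ → E × ℝ) × (ℕ → ℕ)) = #(ℕ → E × ℝ) * #(ℕ → ℕ) := by simp
      _ ≤ 𝔠 * 𝔠 := mul_le_mul' h4 (by simp)
      _ = 𝔠 := by simp
  obtain ⟨e⟩ := (Cardinal.le_def _ _).1 h3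
  let g := Function.invFun e
  have hg : ∀ s, g (e s) = s := Function.leftInverse_invFun e.injective
  let φ : (ℕ → E × ℝ) → (E →ₗ[ℝ] ℝ) := fun d =>
    if h : ∃ φ : E →ₗ[ℝ] ℝ, ∀ j, φ (d j).1 = (d j).2 then h.choose else 0
  let lt : (ℕ → ℕ) → (ℕ → ℕ) → Prop := fun h h' => ∀ᶠ n in atTop, h n < h' n
  have asym : ∀ h h', lt h h' → ¬ lt h' h := by
    intro h h' a1 a2
    obtain ⟨n, hn1, hn2⟩ := (a1.and a2).exists
    omega
  let β : Module.Basis.ofVectorSpaceIndex ℝ E → Module.Basis.ofVectorSpaceIndex ℝ E → ℝ :=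
    fun i k => if lt (g k).2 (g i).2 then φ (g i).1 (b k)
      else if lt (g i).2 (g k).2 then φ (g k).1 (b i) else 0
  have βsymm : ∀ i k, β i k = β k i := by
    intro i k
    by_cases a1 : lt (g k).2 (g i).2
    · simp [β, a1, asym _ _ a1]
    · by_cases a2 : lt (g i).2 (g k).2 <;> simp [β, a1, a2]
  let B : E →ₗ[ℝ] E →ₗ[ℝ] ℝ := b.constr ℝ fun i => b.constr ℝ fun k => β i k
  have hB : ∀ i k, B (b i) (b k) = β i k := by
    intro i k
    simp only [B, Module.Basis.constr_basis]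
  refine ⟨B, ?_, ?_⟩
  · have : B = B.flip := by
      refine b.ext fun i => b.ext fun k => ?_
      rw [LinearMap.flip_apply, hB, hB, βsymm]
    intro x y
    conv_lhs => rw [this]
    rfl
  · intro v c hv
    have hex : ∃ φ : E →ₗ[ℝ] ℝ, ∀ j, φ (v j) = c j := by
      obtain ⟨l, hl⟩ := LinearMap.exists_leftInverse_of_injective (Finsupp.linearCombination ℝ v)
        (LinearMap.ker_eq_bot.2 hv)
      refine ⟨(Finsupp.linearCombination ℝ c).comp l, fun j => ?_⟩
      have := LinearMap.congr_fun hl (Finsupp.single j 1)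
      simp only [LinearMap.comp_apply, Finsupp.linearCombination_single, one_smul,
        LinearMap.id_apply] at this
      simp [this]
    let d : ℕ → E × ℝ := fun j => (v j, c j)
    have hφ : ∀ j, φ d (v j) = c j := by
      have h' : ∃ φ : E →ₗ[ℝ] ℝ, ∀ j, φ (d j).1 = (d j).2 := hex
      simp only [φ, dif_pos h']
      exact h'.choose_spec
    let H : ℕ → ℕ := fun n => 1 + ∑ j ∈ Finset.range (n + 1),
      ∑ k ∈ (b.repr (v j)).support, (g k).2 n
    refine ⟨b (e (d, H)), fun j => ?_⟩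
    rw [← hφ j, ← b.linearCombination_repr (v j), Finsupp.linearCombination_apply, Finsupp.sum,
      map_sum, map_sum]
    refine Finset.sum_congr rfl fun k hk => ?_
    rw [map_smul, map_smul, hB]
    have : lt (g k).2 H := by
      filter_upwards [eventually_ge_atTop j] with n hn
      have a1 : (g k).2 n ≤ ∑ k ∈ (b.repr (v j)).support, (g k).2 n :=
        Finset.single_le_sum (f := fun k => (g k).2 n) (fun _ _ => Nat.zero_le _) hk
      have a2 : ∑ k ∈ (b.repr (v j)).support, (g k).2 n ≤ ∑ j ∈ Finset.range (n + 1),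
          ∑ k ∈ (b.repr (v j)).support, (g k).2 n :=
        Finset.single_le_sum (f := fun j => ∑ k ∈ (b.repr (v j)).support, (g k).2 n)
          (fun _ _ => Nat.zero_le _) (Finset.mem_range.2 (by omega))
      simp only [H]
      omega
    simp only [β, hg, this, if_true]

lemma card_le : #(ℕ →ᵇ ℝ) ≤ 𝔠 := by
  refine (Cardinal.mk_le_of_injective (f := fun f : ℕ →ᵇ ℝ => (f : ℕ → ℝ))
    DFunLike.coe_injective).trans ?_
  simp [Cardinal.mk_real]

lemma rank_ge : 𝔠 ≤ Module.rank ℝ (ℕ →ᵇ ℝ) := by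
  let w : Set.Icc (0 : ℝ) 1 → (ℕ →ᵇ ℝ) := fun t =>
    ofNormedAddCommGroupDiscrete (fun n => (t : ℝ) ^ n) 1 fun n => by
      rw [Real.norm_eq_abs, abs_of_nonneg (pow_nonneg t.2.1 n)]
      exact pow_le_one₀ t.2.1 t.2.2
  let L : (ℕ →ᵇ ℝ) →ₗ[ℝ] (Multiplicative ℕ → ℝ) :=
    { toFun := fun f n => f n.toAdd
      map_add' := fun _ _ => rfl
      map_smul' := fun _ _ => rfl }
  have h1 := (linearIndependent_monoidHom (Multiplicative ℕ) ℝ).comp
    (fun t : Set.Icc (0 : ℝ) 1 => powersHom ℝ (t : ℝ))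
    ((powersHom ℝ).injective.comp Subtype.val_injective)
  have h2 : LinearIndependent ℝ w := LinearIndependent.of_comp L h1
  have h3 := h2.cardinal_le_rank
  rwa [Cardinal.mk_Icc_real (by norm_num)] at h3

theorem counter (E : Type) [NormedAddCommGroup E] [NormedSpace ℝ E] (h1 : #E ≤ 𝔠)
    (h2 : 𝔠 ≤ Module.rank ℝ E) : ∃ B : E →ₗ[ℝ] E →ₗ[ℝ] ℝ, (∀ x y, B x y = B y x) ∧
      (¬ Continuous fun x => B x x) ∧ ∀ x : ℕ → E, Tendsto x atTop (𝓝 0) →
        ∃ y, ¬ Tendsto (fun n => |B (x n + y) (x n + y)|) atTop atTop := by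
  obtain ⟨B, hs, hB⟩ := exists_form E h1 h2
  have hexp : ∀ x y, B (x + y) (x + y) = B x x + 2 * B y x + B y y := by
    intro x y
    simp only [map_add, LinearMap.add_apply, hs x y]
    ring
  refine ⟨B, hs, fun hc => ?_, fun x hx => ?_⟩
  · let b := Module.Basis.ofVectorSpace ℝ E
    have : Infinite (Module.Basis.ofVectorSpaceIndex ℝ E) := by
      rw [Cardinal.infinite_iff, b.mk_eq_rank'']
      exact Cardinal.aleph0_le_continuum.trans h2
    let e := Infinite.natEmbedding (Module.Basis.ofVectorSpaceIndex ℝ E)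
    obtain ⟨y, hy⟩ := hB (fun j => b (e j)) (fun j => (j + 1) * ‖b (e j)‖)
      (b.linearIndependent.comp e e.injective)
    have hn : ∀ j, 0 < ‖b (e j)‖ := fun j => norm_pos_iff.2 (b.ne_zero _)
    let w : ℕ → E := fun j => (1 / ((j + 1) * ‖b (e j)‖) : ℝ) • b (e j)
    have hw : Tendsto w atTop (𝓝 0) := by
      rw [tendsto_zero_iff_norm_tendsto_zero]
      refine tendsto_one_div_add_atTop_nhds_zero_nat.congr fun j => ?_
      have := hn j
      simp only [w, norm_smul, Real.norm_eq_abs]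
      rw [abs_of_pos (by positivity)]
      field_simp
    have hw1 : ∀ j, B y (w j) = 1 := by
      intro j
      have := hn j
      simp only [w, map_smul, hy j, smul_eq_mul]
      field_simp
    have t1 := (hc.tendsto 0).comp hw
    have t2 := (hc.tendsto (0 + y)).comp (hw.add_const y)
    have t3 := (t1.add_const (2 * 1)).add_const (B y y)
    have := tendsto_nhds_unique t2 (t3.congr fun j => by
      simp only [Function.comp_apply, hexp, hw1])
    simp at this
  · by_cases hfin : FiniteDimensional ℝ (Submodule.span ℝ (Set.range x))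
    · refine ⟨0, fun h => ?_⟩
      set W := Submodule.span ℝ (Set.range x)
      let B' : W →ₗ[ℝ] (W →L[ℝ] ℝ) :=
        (LinearMap.toContinuousLinearMap : (W →ₗ[ℝ] ℝ) ≃ₗ[ℝ] _).toLinearMap.comp
          (B.domRestrict₁₂ W W)
      have hc : Continuous fun w : W => |B' w w| :=
        (B'.continuous_of_finiteDimensional.clm_apply continuous_id).abs
      have hx' : Tendsto (fun n => (⟨x n, Submodule.subset_span ⟨n, rfl⟩⟩ : W)) atTop (𝓝 0) :=
        tendsto_subtype_rng.2 hx
      have h3 := (hc.tendsto 0).comp hx'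
      simp only [add_zero] at h
      exact not_tendsto_atTop_of_tendsto_nhds h3 h
    · obtain ⟨s, hs1, hs2, hs3⟩ := exists_linearIndependent ℝ (Set.range x)
      have hinf : s.Infinite := fun hf => hfin (hs2 ▸ FiniteDimensional.span_of_finite ℝ hf)
      let e := hinf.natEmbedding
      obtain ⟨y, hy⟩ := hB (fun j => (e j : E)) (fun j => -B (e j) (e j) / 2)
        (hs3.comp e e.injective)
      refine ⟨y, fun h => ?_⟩
      obtain ⟨N, hN⟩ := eventually_atTop.1 (h.eventually_gt_atTop |B y y|)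
      have hsub : Set.range (fun j => (e j : E)) ⊆ x '' (Set.Iio N) := by
        rintro _ ⟨j, rfl⟩
        obtain ⟨n, hn⟩ := hs1 (e j).2
        refine ⟨n, ?_, hn⟩
        by_contra hlt
        have := hN n (not_lt.1 hlt)
        rw [hexp, hn, hy j] at this
        ring_nf at this
        exact lt_irrefl _ this
      exact Set.infinite_range_of_injective (Subtype.val_injective.comp e.injective)
        (((Set.finite_Iio N).image x).subset hsub)

end Pool.Agent.Lib.H25DegQ1
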