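import Mathlib

set_option autoImplicit false

namespace Pool.Agent.Lib.H25DegQ2

open Filter Topology Polynomial Finset

noncomputable def L (m i : ℕ) : ℝ[X] := Lagrange.basis (range (m + 1)) (fun k : ℕ => (k : ℝ)) i

lemma interp {m : ℕ} {P : ℝ[X]} (hP : P.natDegree ≤ m) :
    P = ∑ i ∈ range (m + 1), C (P.eval (i : ℝ)) * L m i := by
  have h := Lagrange.eq_interpolate (s := range (m + 1)) (v := fun k : ℕ => (k : ℝ)) (f := P)
    (fun a _ b _ h => Nat.cast_injective h) (by
      rw [card_range]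
      exact lt_of_le_of_lt (degree_le_of_natDegree_le hP) (by exact_mod_cast Nat.lt_succ_self m))
  rw [Lagrange.interpolate_apply] at h
  exact h

lemma poly_ext {P Q : ℝ[X]} (h : ∀ t : ℚ, P.eval (t : ℝ) = Q.eval (t : ℝ)) : P = Q := by
  apply eq_of_infinite_eval_eq
  refine (Set.infinite_range_of_injective (f := fun t : ℚ => (t : ℝ)) Rat.cast_injective).mono ?_
  rintro _ ⟨t, rfl⟩
  exact h t

variable {E : Type} [NormedAddCommGroup E] [NormedSpace ℝ E]

def Deg (m : ℕ) (F : E → ℝ) : Prop :=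
  ∀ x h : E, ∃ P : ℝ[X], P.natDegree ≤ m ∧ ∀ t : ℚ, F (x + (t : ℝ) • h) = P.eval (t : ℝ)

noncomputable def D (m : ℕ) (F : E → ℝ) (x h : E) : ℝ :=
  ∑ i ∈ range (m + 1), F (x + (i : ℝ) • h) * (L m i).coeff m

lemma D_eq {m : ℕ} {F : E → ℝ} {x h : E} {P : ℝ[X]} (hP : P.natDegree ≤ m)
    (hF : ∀ t : ℚ, F (x + (t : ℝ) • h) = P.eval (t : ℝ)) : D m F x h = P.coeff m := by
  conv_rhs => rw [interp hP]
  rw [finsetSum_coeff]
  refine sum_congr rfl fun i _ => ?_
  rw [coeff_C_mul, ← Rat.cast_natCast, hF]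

lemma val_eq {m : ℕ} {F : E → ℝ} (hF : Deg m F) (x h : E) (t : ℚ) :
    F (x + (t : ℝ) • h) = ∑ i ∈ range (m + 1), F (x + (i : ℝ) • h) * (L m i).eval (t : ℝ) := by
  obtain ⟨P, hP, hx⟩ := hF x h
  rw [hx]
  conv_lhs => rw [interp hP]
  rw [eval_finsetSum]
  refine sum_congr rfl fun i _ => ?_
  rw [eval_mul, eval_C, ← Rat.cast_natCast, hx]

lemma D_smul {m : ℕ} {F : E → ℝ} (hF : Deg m F) (x h : E) (r : ℚ) :
    D m F x ((r : ℝ) • h) = (r : ℝ) ^ m * D m F x h := by
  obtain ⟨P, hP, hx⟩ := hF x h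
  rw [D_eq hP hx, D_eq (P := P.comp (C (r : ℝ) * X))]
  · rw [comp_C_mul_X_coeff, mul_comm]
  · rw [natDegree_le_iff_coeff_eq_zero] at hP ⊢
    intro N hN
    rw [comp_C_mul_X_coeff, hP N hN, zero_mul]
  · intro t
    have := hx (r * t)
    push_cast at this
    rw [eval_comp, eval_mul, eval_C, eval_X, ← this, smul_smul, mul_comm]

lemma D_shift {m : ℕ} {F : E → ℝ} (hF : Deg m F) (y h : E) : D m F y h = D m F 0 h := by
  choose P hP1 hP2 using fun i : ℕ => hF ((i : ℝ) • y) h
  have hG : ∀ s t : ℚ, F ((t : ℝ) • h + (s : ℝ) • y) =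
      ∑ i ∈ range (m + 1), (P i).eval (t : ℝ) * (L m i).eval (s : ℝ) := by
    intro s t
    rw [val_eq hF]
    refine sum_congr rfl fun i _ => ?_
    rw [← hP2, add_comm]
  let g : ℕ → ℕ → ℝ := fun j k => ∑ i ∈ range (m + 1), (L m i).coeff j * (P i).coeff k
  have hg : ∀ j, 1 ≤ j → g j m = 0 := by
    intro j0 hj0
    let K : ℝ[X] := ∑ z ∈ antidiagonal (j0 + m), C (g z.1 z.2) * X ^ z.1
    have hK : K = 0 := by
      apply poly_ext
      intro a
      obtain ⟨Q, hQ1, hQ2⟩ := hF 0 (h + (a : ℝ) • y)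
      have hQ : Q = ∑ i ∈ range (m + 1), (L m i).comp (C (a : ℝ) * X) * P i := by
        apply poly_ext
        intro u
        have := hG (a * u) u
        push_cast at this
        rw [← hQ2, zero_add, smul_add, smul_smul, mul_comm (u : ℝ), this, eval_finsetSum]
        refine sum_congr rfl fun i _ => ?_
        rw [eval_mul, eval_comp, eval_mul, eval_C, eval_X, mul_comm]
      have h0 : Q.coeff (j0 + m) = 0 := coeff_eq_zero_of_natDegree_lt (by omega)
      rw [hQ, finsetSum_coeff] at h0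
      simp only [coeff_mul, comp_C_mul_X_coeff] at h0
      rw [sum_comm] at h0
      rw [eval_zero, ← h0, eval_finsetSum]
      refine sum_congr rfl fun z _ => ?_
      simp only [eval_mul, eval_C, eval_pow, eval_X, g, sum_mul]
      refine sum_congr rfl fun i _ => ?_
      ring
    have h1 : K.coeff j0 = g j0 m := by
      rw [finsetSum_coeff, sum_eq_single (j0, m)]
      · simp
      · intro z hz hne
        rw [coeff_C_mul, coeff_X_pow, if_neg, mul_zero]
        intro e
        rw [HasAntidiagonal.mem_antidiagonal] at hz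
        apply hne
        ext <;> simp <;> omega
      · simp
    rw [← h1, hK, coeff_zero]
  let R : ℝ[X] := ∑ i ∈ range (m + 1), L m i * C ((P i).coeff m)
  have hR : R.natDegree ≤ 0 := by
    rw [natDegree_le_iff_coeff_eq_zero]
    intro N hN
    rw [← hg N hN, finsetSum_coeff]
    simp only [coeff_mul_C, g]
  have hD : ∀ s : ℚ, D m F ((s : ℝ) • y) h = R.eval (s : ℝ) := by
    intro s
    rw [D_eq (P := ∑ i ∈ range (m + 1), P i * C ((L m i).eval (s : ℝ)))]
    · rw [finsetSum_coeff, eval_finsetSum]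
      refine sum_congr rfl fun i _ => ?_
      rw [coeff_mul_C, eval_mul, eval_C, mul_comm]
    · refine natDegree_sum_le_of_forall_le _ _ fun i _ => (natDegree_mul_C_le _ _).trans (hP1 i)
    · intro t
      rw [add_comm, hG, eval_finsetSum]
      simp
  have h1 := hD 1
  have h0 := hD 0
  rw [eq_C_of_natDegree_le_zero hR, eval_C] at h1 h0
  simp only [Rat.cast_one, one_smul, Rat.cast_zero, zero_smul] at h1 h0
  rw [h1, h0]

lemma top_part {m : ℕ} {F : E → ℝ} (hF : Deg m F) (x h : E) : ∃ P : ℝ[X], P.natDegree ≤ m ∧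
    (∀ t : ℚ, D m F 0 (x + (t : ℝ) • h) = P.eval (t : ℝ)) ∧ P.coeff m = D m F 0 h := by
  choose P hP1 hP2 using fun i : ℕ => hF ((i : ℝ) • x) ((i : ℝ) • h)
  refine ⟨∑ i ∈ range (m + 1), P i * C ((L m i).coeff m), ?_, ?_, ?_⟩
  · exact natDegree_sum_le_of_forall_le _ _ fun i _ => (natDegree_mul_C_le _ _).trans (hP1 i)
  · intro t
    rw [eval_finsetSum, D]
    refine sum_congr rfl fun i _ => ?_
    rw [eval_mul, eval_C, ← hP2, zero_add, smul_add, smul_comm (i : ℝ) (t : ℝ) h]
  · have h1 : ∑ i ∈ range (m + 1), (i : ℝ) ^ m * (L m i).coeff m = 1 := by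
      have := congrArg (fun Q : ℝ[X] => Q.coeff m) (interp (P := X ^ m) (m := m) (by simp))
      simp only [coeff_X_pow_self, finsetSum_coeff, coeff_C_mul, eval_pow, eval_X] at this
      exact this.symm
    rw [finsetSum_coeff, ← one_mul (D m F 0 h), ← h1, sum_mul]
    refine sum_congr rfl fun i _ => ?_
    rw [coeff_mul_C, ← D_eq (hP1 i) (hP2 i), D_shift hF, ← Rat.cast_natCast, D_smul hF]
    ring

lemma cont_of_bdd {m : ℕ} {T : E → ℝ} (hT : Deg m T) {r M : ℝ} (hr : 0 < r)
    (hM : ∀ z, ‖z‖ < r → |T z| ≤ M) : Continuous T := by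
  have h1 : ∀ R : ℝ, ∃ M', ∀ z, ‖z‖ ≤ R → |T z| ≤ M' := by
    intro R
    obtain ⟨N, hN⟩ := exists_nat_gt (m * |R| / r)
    have hN0 : (0 : ℝ) < N := lt_of_le_of_lt (by positivity) hN
    refine ⟨∑ i ∈ range (m + 1), M * |(L m i).eval (N : ℝ)|, fun z hz => ?_⟩
    have := val_eq hT 0 ((1 / N : ℝ) • z) N
    rw [zero_add, smul_smul, Rat.cast_natCast, mul_one_div_cancel hN0.ne', one_smul] at this
    rw [this]
    refine (abs_sum_le_sum_abs _ _).trans (sum_le_sum fun i hi => ?_)
    rw [abs_mul]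
    refine mul_le_mul_of_nonneg_right (hM _ ?_) (abs_nonneg _)
    have hi' : (i : ℝ) ≤ m := by exact_mod_cast Nat.lt_succ_iff.1 (mem_range.1 hi)
    rw [zero_add, norm_smul, norm_smul, Real.norm_natCast, Real.norm_eq_abs,
      abs_of_pos (by positivity)]
    rw [div_lt_iff₀ hr] at hN
    have h2 : ‖z‖ ≤ |R| := hz.trans (le_abs_self _)
    calc (i : ℝ) * (1 / N * ‖z‖) ≤ m * (1 / N * |R|) := by gcongr
      _ = m * |R| / N := by ring
      _ < r := by rw [div_lt_iff₀ hN0]; linarith
  rw [Metric.continuous_iff]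
  intro z ε hε
  obtain ⟨M', hM'⟩ := h1 (‖z‖ + m)
  have hc : Continuous fun e : ℝ => ∑ i ∈ range (m + 1),
      M' * |(L m i).eval e - (L m i).eval 0| := by fun_prop
  obtain ⟨δ, hδ, hδ'⟩ := Metric.continuous_iff.1 hc 0 ε hε
  obtain ⟨q, hq0, hq1⟩ := exists_rat_btwn hδ
  refine ⟨q, hq0, fun a ha => ?_⟩
  have h3 := hδ' q (by rw [Real.dist_eq, sub_zero, abs_of_pos hq0]; exact hq1)
  simp only [sub_self, abs_zero, mul_zero, sum_const_zero, Real.dist_eq, sub_zero] at h3
  have e1 := val_eq hT z ((1 / q : ℝ) • (a - z)) q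
  have e0 := val_eq hT z ((1 / q : ℝ) • (a - z)) 0
  rw [smul_smul, mul_one_div_cancel hq0.ne', one_smul, add_sub_cancel] at e1
  rw [Rat.cast_zero, zero_smul, add_zero] at e0
  rw [Real.dist_eq, e1, e0, ← sum_sub_distrib]
  refine lt_of_le_of_lt ((abs_sum_le_sum_abs _ _).trans (sum_le_sum fun i hi => ?_))
    ((le_abs_self _).trans_lt h3)
  rw [← mul_sub, abs_mul]
  refine mul_le_mul_of_nonneg_right (hM' _ ?_) (abs_nonneg _)
  have hi' : (i : ℝ) ≤ m := by exact_mod_cast Nat.lt_succ_iff.1 (mem_range.1 hi)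
  refine (norm_add_le _ _).trans ?_
  rw [norm_smul, norm_smul, Real.norm_natCast, Real.norm_eq_abs, abs_of_pos (by positivity)]
  rw [dist_eq_norm] at ha
  have : 1 / (q : ℝ) * ‖a - z‖ ≤ 1 := by
    rw [one_div, inv_mul_le_iff₀ hq0]; linarith
  nlinarith [Nat.cast_nonneg (α := ℝ) i]

theorem main (m : ℕ) : ∀ F : E → ℝ, Deg m F → ¬ Continuous F →
    ∃ x : ℕ → E, Tendsto x atTop (𝓝 0) ∧ ∀ y M, ∃ᶠ n in atTop, M ≤ |F (x n + y)| := by
  induction m with
  | zero =>
    intro F hF hc
    exfalso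
    apply hc
    have : F = fun _ => F 0 := by
      funext h
      obtain ⟨P, hP, hx⟩ := hF 0 h
      have h1 := hx 1
      have h0 := hx 0
      rw [eq_C_of_natDegree_le_zero hP, eval_C] at h1 h0
      simp only [Rat.cast_one, one_smul, Rat.cast_zero, zero_smul, zero_add] at h1 h0
      rw [h1, h0]
    rw [this]
    exact continuous_const
  | succ m ih =>
    intro F hF hc
    by_cases hb : ∃ r M, 0 < r ∧ ∀ z, ‖z‖ < r → |D (m + 1) F 0 z| ≤ M
    · obtain ⟨r, M, hr, hM⟩ := hb
      have hT : Deg (m + 1) (D (m + 1) F 0) := fun x h => by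
        obtain ⟨P, h1, h2, -⟩ := top_part hF x h
        exact ⟨P, h1, h2⟩
      have hTc := cont_of_bdd hT hr hM
      have hG : Deg m (fun z => F z - D (m + 1) F 0 z) := by
        intro x h
        obtain ⟨P, h1, h2, h3⟩ := top_part hF x h
        obtain ⟨Q, h4, h5⟩ := hF x h
        refine ⟨Q - P, ?_, fun t => by simp only [eval_sub, h2, h5]⟩
        rw [natDegree_le_iff_coeff_eq_zero] at h1 h4 ⊢
        intro N hN
        rw [coeff_sub]
        rcases Nat.lt_or_eq_of_le (Nat.succ_le_of_lt hN) with h | h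
        · rw [h1 N h, h4 N h, sub_zero]
        · subst h
          rw [h3, ← D_eq (natDegree_le_iff_coeff_eq_zero.2 h4) h5, D_shift hF, sub_self]
      obtain ⟨x, hx, H⟩ := ih _ hG (fun h => hc ((h.add hTc).congr fun z => by simp))
      refine ⟨x, hx, fun y M => ?_⟩
      have h1 : Tendsto (fun n => |D (m + 1) F 0 (x n + y)|) atTop (𝓝 |D (m + 1) F 0 (0 + y)|) :=
        ((hTc.tendsto _).comp (hx.add_const y)).abs
      have h2 := h1.eventually_lt_const (lt_add_one _)
      refine ((H y (M + (|D (m + 1) F 0 (0 + y)| + 1))).and_eventually h2).mono fun n hn => ?_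
      have := abs_sub (F (x n + y)) (D (m + 1) F 0 (x n + y))
      linarith [hn.1, hn.2]
    · push Not at hb
      choose y hy1 hy2 using fun k : ℕ => hb (1 / ((k : ℝ) + 1)) k (by positivity)
      have hy : Tendsto y atTop (𝓝 0) := by
        rw [tendsto_zero_iff_norm_tendsto_zero]
        exact squeeze_zero (fun _ => norm_nonneg _) (fun k => (hy1 k).le)
          tendsto_one_div_add_atTop_nhds_zero_nat
      refine ⟨fun n => ((n % (m + 2) : ℕ) : ℝ) • y (n / (m + 2)), ?_, fun z M => ?_⟩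
      · rw [tendsto_zero_iff_norm_tendsto_zero] at hy ⊢
        have h1 : Tendsto (fun n : ℕ => n / (m + 2)) atTop atTop :=
          Nat.tendsto_div_const_atTop (by omega)
        have h2 := (hy.comp h1).const_mul ((m + 2 : ℕ) : ℝ)
        rw [mul_zero] at h2
        refine squeeze_zero (fun _ => norm_nonneg _) (fun n => ?_) h2
        rw [norm_smul, Real.norm_natCast]
        exact mul_le_mul_of_nonneg_right
          (by exact_mod_cast (Nat.mod_lt n (by omega)).le) (norm_nonneg _)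
      · by_contra hcon
        rw [not_frequently] at hcon
        obtain ⟨N, hN⟩ := eventually_atTop.1 hcon
        obtain ⟨k, hk⟩ := exists_nat_gt (max (N : ℝ)
          (∑ i ∈ range (m + 1 + 1), M * |(L (m + 1) i).coeff (m + 1)|))
        have hk1 : N < k := by exact_mod_cast (le_max_left _ _).trans_lt hk
        have h3 := hy2 k
        rw [← D_shift hF z, D] at h3
        refine absurd ((le_max_right _ _).trans_lt (hk.trans h3)) (not_lt.2 ?_)
        refine (abs_sum_le_sum_abs _ _).trans (sum_le_sum fun i hi => ?_)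
        rw [abs_mul]
        refine mul_le_mul_of_nonneg_right ?_ (abs_nonneg _)
        have hi' := mem_range.1 hi
        have := hN (i + (m + 2) * k) (by nlinarith)
        beta_reduce at this
        rw [Nat.add_mul_mod_self_left, Nat.mod_eq_of_lt (by omega),
          Nat.add_mul_div_left _ _ (by omega), Nat.div_eq_of_lt (by omega), zero_add,
          add_comm] at this
        exact (not_le.1 this).le

end Pool.Agent.Lib.H25DegQ2
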