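import Mathlib

set_option autoImplicit false

namespace Pool.Agent.Lib.H25Det

open Matrix

def Is01 (x : ℚ) : Prop := x = 0 ∨ x = 1

/-- a 0-1 matrix of size `m` with determinant `W` and a 0-1 row replacement with determinant `G`. -/
def Good (m : ℕ) (W G : ℚ) : Prop :=
  ∃ (ι : Type) (_ : Fintype ι) (_ : DecidableEq ι), Fintype.card ι = m ∧
    ∃ (M : Matrix ι ι ℚ) (i0 : ι) (v : ι → ℚ), (∀ i j, Is01 (M i j)) ∧ (∀ j, Is01 (v j)) ∧
      M.det = W ∧ (M.updateRow i0 v).det = G

lemma block_det {ι κ : Type} [Fintype ι] [DecidableEq ι] [Fintype κ] [DecidableEq κ]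
    (M : Matrix ι ι ℚ) (i0 : ι) (v : ι → ℚ) (B : Matrix κ κ ℚ) (u c x : κ → ℚ)
    (hc : B *ᵥ c = u) :
    (fromBlocks M (vecMulVec (Pi.single i0 1) x) (vecMulVec u v) B).det =
      B.det * (M.det - (x ⬝ᵥ c) * (M.updateRow i0 v).det) := by
  have h1 : fromBlocks M (vecMulVec (Pi.single i0 1) x) (vecMulVec u v) B *
      fromBlocks 1 0 (-(vecMulVec c v)) 1 =
      fromBlocks (M.updateRow i0 (M i0 + (-(x ⬝ᵥ c)) • v)) (vecMulVec (Pi.single i0 1) x) 0 B := by
    rw [fromBlocks_multiply]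
    congr 1
    · ext i j
      by_cases h : i = i0
      · subst h
        simp [Matrix.mul_apply, vecMulVec_apply, dotProduct, Finset.sum_mul, mul_assoc]
      · simp [Matrix.mul_apply, vecMulVec_apply, h, updateRow_ne h]
    · simp
    · ext i j
      have := congrFun hc i
      simp only [mulVec, dotProduct] at this
      simp [Matrix.mul_apply, vecMulVec_apply, ← this, Finset.sum_mul, mul_assoc]
    · simp
  have h2 := congrArg det h1
  rw [det_mul, det_fromBlocks_zero₁₂, det_fromBlocks_zero₂₁, det_updateRow_add,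
    det_updateRow_smul] at h2
  simp only [det_one, mul_one, updateRow_eq_self] at h2
  rw [h2]
  ring

lemma step {κ : Type} [Fintype κ] [DecidableEq κ] (B : Matrix κ κ ℚ) (hB : ∀ i j, Is01 (B i j))
    (u c x y : κ → ℚ) (hu : ∀ i, Is01 (u i)) (hx : ∀ i, Is01 (x i)) (hy : ∀ i, Is01 (y i))
    (hc : B *ᵥ c = u) {m : ℕ} {W G : ℚ} (h : Good m W G) :
    Good (m + Fintype.card κ) (B.det * (W - (x ⬝ᵥ c) * G)) (B.det * (-(y ⬝ᵥ c) * G)) := by
  obtain ⟨ι, i1, i2, hm, M, i0, v, hM, hv, hW, hG⟩ := h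
  refine ⟨ι ⊕ κ, inferInstance, inferInstance, by simp [hm],
    fromBlocks M (vecMulVec (Pi.single i0 1) x) (vecMulVec u v) B, Sum.inl i0, Sum.elim 0 y,
    ?_, ?_, ?_, ?_⟩
  · rintro (i | i) (j | j)
    · simpa using hM i j
    · by_cases h : i = i0
      · subst h; simpa [vecMulVec_apply] using hx j
      · simp [vecMulVec_apply, h, Is01]
    · simp only [fromBlocks_apply₂₁, vecMulVec_apply]
      rcases hu i with h | h <;> rcases hv j with h' | h' <;> simp [h, h', Is01]
    · simpa using hB i j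
  · rintro (j | j)
    · simp [Is01]
    · simpa using hy j
  · rw [block_det M i0 v B u c x hc, hW, hG]
  · have : (fromBlocks M (vecMulVec (Pi.single i0 1) x) (vecMulVec u v) B).updateRow (Sum.inl i0)
        (Sum.elim 0 y) =
        fromBlocks (M.updateRow i0 0) (vecMulVec (Pi.single i0 1) y) (vecMulVec u v) B := by
      ext (i | i) (j | j)
      · by_cases h : i = i0
        · subst h; simp
        · simp [updateRow_apply, h]
      · by_cases h : i = i0
        · subst h; simp [vecMulVec_apply]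
        · simp [updateRow_apply, h, vecMulVec_apply]
      · simp [updateRow_apply]
      · simp [updateRow_apply]
    rw [this, block_det (M.updateRow i0 0) i0 v B u c y hc]
    have h0 : (M.updateRow i0 0).det = 0 := by
      apply det_eq_zero_of_row_eq_zero i0
      simp
    rw [h0, updateRow_idem, hG]
    ring

lemma good_one : Good 1 0 1 := by
  refine ⟨Unit, inferInstance, inferInstance, by simp, 0, (), fun _ => 1, ?_, ?_, ?_, ?_⟩
  · simp [Is01]
  · simp [Is01]
  · simp
  · simp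

/-! ### the certificate -/

def bit (n i : ℕ) : ℤ := if n.testBit i then 1 else 0

def Bl : List ℕ := [504,12004,1846,6776,7326,10013,2894,12399,11563,10931,6083,6565,14674,13226]

def Cl : List (List ℤ) := [[-288,-3632,-2484,288,-1884,2848,-228,2784,1340,4256,3812,2596,-2736,-4860],[-892,-2921,3329,-3517,2248,-4896,2968,2744,966,3384,1274,-3472,344,379],[-988,1747,2501,-3421,1620,1932,2892,3672,-4466,-1076,-3334,3272,-568,-1241],[2356,-2131,-3929,2053,2920,2176,2600,740,2510,-1504,-1546,-2376,-4072,2281],[3092,-2647,2419,1317,1856,2736,-2696,-496,-2874,3296,-1490,-1172,2920,-2935],[1608,1173,5051,2801,-2708,-4144,-3136,2092,2806,-248,-2178,1672,-2360,681],[3928,2997,-1393,481,-2228,-1612,1640,3180,-1130,-1220,3366,-2584,2044,-4259],[4444,2156,-3556,-4444,3352,-836,-156,-1808,-2796,2912,1680,848,-1872,2244],[2208,-1548,1408,-2208,-3192,1680,1748,-3708,1484,-3236,168,3612,3340,1988],[-4000,504,772,4000,-2652,2324,2712,-2484,-2944,2284,1996,-1176,-2728,3044],[-1028,3692,2156,1028,2828,368,-4488,-1820,5028,-4404,3564,-2736,-948,-1916],[-2612,1352,-2688,2612,1284,-1604,3076,-4144,3580,1368,-1924,2724,1640,-2192],[-4372,-1248,-232,4372,1528,124,-4196,1112,-1948,-3976,1776,2912,2556,3380],[-1352,4015,-2843,-3057,-1496,3572,-2540,1312,-78,384,-3170,-2020,4792,3639]]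

def Ul : List (ℕ × ℕ) := [(15361,12069),(12998,12312),(6057,4404),(2633,1075),(5775,7427),(8810,5911),(436,11745),(10480,5367),(9050,12149),(15245,8340),(12950,5793),(1363,7069)]

def Bz (i j : Fin 14) : ℤ := bit (Bl.getD i 0) j
def Cz (i j : Fin 14) : ℤ := (Cl.getD i []).getD j 0
def cz (u : ℕ) (i : Fin 14) : ℤ := ∑ j : Fin 14, Cz i j * bit u j

lemma BC : ∀ i j : Fin 14, ∑ l : Fin 14, Bz i l * Cz l j = if i = j then 17636 else 0 := by
  decide +kernel

lemma gam : ∀ p ∈ Ul, ∑ i : Fin 14, bit p.2 i * cz p.1 i = 1 := by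
  decide +kernel

def fold (T : ℕ) : ℕ := (T % 2 ^ 17636) ||| (T >>> 17636)

def sums (u : ℕ) : List (Fin 14) → ℕ
  | [] => 1
  | i :: l => fold (sums u l ||| (sums u l <<< (cz u i % 17636).toNat))

def cover : List (ℕ × ℕ) → ℕ
  | [] => 0
  | p :: l => sums p.1 (List.finRange 14) ||| cover l

lemma cover_eq : cover Ul = 2 ^ 17636 - 1 := by
  decide +kernel

lemma sums_spec (u : ℕ) (l : List (Fin 14)) (hl : l.Nodup) (r : ℕ) (hr : (sums u l).testBit r) :
    ∃ x : Fin 14 → ℤ, (∀ i, x i = 0 ∨ x i = 1) ∧ (∀ i, i ∉ l → x i = 0) ∧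
      (17636 : ℤ) ∣ (∑ i, x i * cz u i) - r := by
  induction l generalizing r with
  | nil =>
    refine ⟨0, by simp, by simp, ?_⟩
    have : r = 0 := by
      simpa [sums, Nat.testBit_one_eq_true_iff_self_eq_zero] using hr
    simp [this]
  | cons a l ih =>
    rw [List.nodup_cons] at hl
    have key : ∀ r : ℕ, (sums u l ||| (sums u l <<< (cz u a % 17636).toNat)).testBit r →
        ∃ x : Fin 14 → ℤ, (∀ i, x i = 0 ∨ x i = 1) ∧ (∀ i, i ∉ a :: l → x i = 0) ∧
          (17636 : ℤ) ∣ (∑ i, x i * cz u i) - r := by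
      intro r hr
      rw [Nat.testBit_lor, Bool.or_eq_true, Nat.testBit_shiftLeft, Bool.and_eq_true,
        decide_eq_true_eq] at hr
      rcases hr with hr | ⟨h1, hr⟩
      · obtain ⟨x, hx, hx', hd⟩ := ih hl.2 r hr
        exact ⟨x, hx, fun i hi => hx' i (fun h => hi (List.mem_cons_of_mem _ h)), hd⟩
      · obtain ⟨x, hx, hx', hd⟩ := ih hl.2 _ hr
        refine ⟨x + Pi.single a 1, ?_, ?_, ?_⟩
        · intro i
          by_cases h : i = a
          · subst h; simp [hx' i hl.1]
          · simpa [h] using hx i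
        · intro i hi
          rw [List.mem_cons, not_or] at hi
          simp [hi.1, hx' i hi.2]
        · have h2 : ∑ i, (x + Pi.single a 1 : Fin 14 → ℤ) i * cz u i =
              ∑ i, x i * cz u i + cz u a := by
            simp [add_mul, Finset.sum_add_distrib, Pi.single_apply]
          rw [h2]
          have h3 : 0 ≤ cz u a % 17636 := Int.emod_nonneg _ (by norm_num)
          generalize ∑ i, x i * cz u i = S at *
          generalize cz u a = ca at *
          omega
    simp only [sums, fold] at hr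
    rw [Nat.testBit_lor, Bool.or_eq_true, Nat.testBit_mod_two_pow, Nat.testBit_shiftRight,
      Bool.and_eq_true] at hr
    rcases hr with ⟨-, hr⟩ | hr
    · exact key r hr
    · obtain ⟨x, hx, hx', hd⟩ := key _ hr
      refine ⟨x, hx, hx', ?_⟩
      generalize ∑ i, x i * cz u i = S at *
      omega

lemma cover_spec (L : List (ℕ × ℕ)) (r : ℕ) (hr : (cover L).testBit r) :
    ∃ p ∈ L, ∃ x : Fin 14 → ℤ, (∀ i, x i = 0 ∨ x i = 1) ∧
      (17636 : ℤ) ∣ (∑ i, x i * cz p.1 i) - r := by
  induction L with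
  | nil => simp [cover] at hr
  | cons p L ih =>
    rw [cover, Nat.testBit_lor, Bool.or_eq_true] at hr
    rcases hr with hr | hr
    · obtain ⟨x, hx, -, hd⟩ := sums_spec p.1 _ (List.nodup_finRange 14) r hr
      exact ⟨p, List.mem_cons_self, x, hx, hd⟩
    · obtain ⟨q, hq, x, hx, hd⟩ := ih hr
      exact ⟨q, List.mem_cons_of_mem _ hq, x, hx, hd⟩

def Bq : Matrix (Fin 14) (Fin 14) ℚ := fun i j => (Bz i j : ℚ)
def Cq : Matrix (Fin 14) (Fin 14) ℚ := fun i j => (Cz i j : ℚ)

lemma BCq : Bq * Cq = (17636 : ℚ) • (1 : Matrix (Fin 14) (Fin 14) ℚ) := by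
  ext i j
  have := congrArg (fun z : ℤ => (z : ℚ)) (BC i j)
  simp only [Int.cast_sum, Int.cast_mul] at this
  rw [Matrix.mul_apply]
  simp only [Bq, Cq, this]
  by_cases h : i = j <;> simp [h, Matrix.one_apply]

lemma detB_ne : Bq.det ≠ 0 := by
  intro h
  have := congrArg det BCq
  rw [det_mul, h, det_smul, det_one, zero_mul, mul_one] at this
  exact absurd this.symm (pow_ne_zero _ (by norm_num))

lemma bit01 (n i : ℕ) : Is01 (bit n i : ℚ) := by
  unfold bit Is01
  split_ifs <;> simp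

/-- one step of the recursion, for every residue `r` -/
lemma digit (r : ℕ) (hr : r < 17636) : ∃ a : ℤ, (17636 : ℤ) ∣ a - r ∧
    ∀ (m : ℕ) (W G : ℚ), Good m W G →
      Good (m + 14) (Bq.det / 17636 * (17636 * W - a * G)) (Bq.det / 17636 * (-G)) := by
  have h1 : (cover Ul).testBit r := by
    rw [cover_eq, Nat.testBit_two_pow_sub_one]
    simpa using hr
  obtain ⟨p, hp, x, hx, hd⟩ := cover_spec Ul r h1
  refine ⟨_, hd, fun m W G h => ?_⟩
  have hc : Bq *ᵥ (fun i => (cz p.1 i : ℚ) / 17636) = fun i : Fin 14 => (bit p.1 i : ℚ) := by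
    have e1 : (fun i => (cz p.1 i : ℚ) / 17636) =
        (1 / 17636 : ℚ) • (Cq *ᵥ fun i : Fin 14 => (bit p.1 i : ℚ)) := by
      funext i
      simp [cz, Cq, mulVec, dotProduct]
      ring
    rw [e1, mulVec_smul, mulVec_mulVec, BCq, smul_mulVec, one_mulVec, smul_smul]
    norm_num
  have := step Bq (fun i j => bit01 _ _) (fun i : Fin 14 => (bit p.1 i : ℚ))
    (fun i => (cz p.1 i : ℚ) / 17636) (fun i => (x i : ℚ)) (fun i : Fin 14 => (bit p.2 i : ℚ))
    (fun i => bit01 _ _) (fun i => by rcases hx i with h | h <;> simp [h, Is01])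
    (fun i => bit01 _ _) hc h
  have g := congrArg (fun z : ℤ => (z : ℚ)) (gam p hp)
  simp only [Int.cast_sum, Int.cast_mul, Int.cast_one] at g
  have e2 : ((fun i : Fin 14 => (bit p.2 i : ℚ)) ⬝ᵥ fun i => (cz p.1 i : ℚ) / 17636) = 1 / 17636 := by
    rw [← g, Finset.sum_div]
    simp only [dotProduct, mul_div_assoc]
  have e3 : ((fun i : Fin 14 => (x i : ℚ)) ⬝ᵥ fun i => (cz p.1 i : ℚ) / 17636) =
      ((∑ i, x i * cz p.1 i : ℤ) : ℚ) / 17636 := by
    push_cast
    rw [Finset.sum_div]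
    simp only [dotProduct, mul_div_assoc]
  rw [e2, e3, Fintype.card_fin] at this
  convert this using 1 <;> ring

lemma many_gen (β : ℕ) (lam : ℚ) (digit : ∀ r : ℕ, r < β → ∃ a : ℤ, (β : ℤ) ∣ a - r ∧
    ∀ (m : ℕ) (W G : ℚ), Good m W G → Good (m + 14) (lam * (β * W - a * G)) (lam * (-G)))
    (t : ℕ) : ∃ P : Finset ℤ, P.card = β ^ t ∧ ∀ p ∈ P,
    Good (1 + 14 * t) (lam ^ t * p) (lam ^ t * (-1) ^ t) := by
  induction t with
  | zero => exact ⟨{0}, by simp, by simpa using good_one⟩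
  | succ t ih =>
    obtain ⟨P, hP, H⟩ := ih
    choose! a ha1 ha2 using digit
    refine ⟨(Finset.range β ×ˢ P).image (fun z => β * z.2 - a z.1 * (-1) ^ t), ?_, ?_⟩
    · rw [Finset.card_image_of_injOn, Finset.card_product, hP, Finset.card_range, pow_succ,
        mul_comm]
      rintro ⟨r, p⟩ h ⟨r', p'⟩ h' e
      simp only [Finset.coe_product, Set.mem_prod, Finset.mem_coe, Finset.mem_range] at h h'
      obtain ⟨k1, b1⟩ := ha1 r h.1
      obtain ⟨k2, b2⟩ := ha1 r' h'.1
      have b3 := h.1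
      have b4 := h'.1
      simp only at e
      have hdv : (β : ℤ) ∣ (r : ℤ) - r' := by
        rcases neg_one_pow_eq_or ℤ t with s | s <;> rw [s] at e
        · exact ⟨p - p' - k1 + k2, by linarith⟩
        · exact ⟨p' - p - k1 + k2, by linarith⟩
      have : r = r' := by
        have := Int.eq_zero_of_abs_lt_dvd hdv (by rw [abs_lt]; constructor <;> omega)
        omega
      subst this
      have hβ : (β : ℤ) ≠ 0 := by omega
      have : p = p' := mul_left_cancel₀ hβ (by linarith)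
      rw [this]
    · intro q hq
      simp only [Finset.mem_image, Finset.mem_product, Finset.mem_range] at hq
      obtain ⟨⟨r, p⟩, ⟨h1, h2⟩, rfl⟩ := hq
      have := ha2 r h1 _ _ _ (H p h2)
      convert this using 1
      · ring
      · simp only [Int.cast_sub, Int.cast_mul, Int.cast_pow, Int.cast_neg, Int.cast_one,
          Int.cast_natCast]
        ring
      · ring

lemma many (t : ℕ) : ∃ P : Finset ℤ, P.card = 17636 ^ t ∧ ∀ p ∈ P,
    Good (1 + 14 * t) ((Bq.det / 17636) ^ t * p) ((Bq.det / 17636) ^ t * (-1) ^ t) :=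
  many_gen 17636 _ (by simpa using digit) t

/-- from a 0-1 rational matrix of size `m ≤ n` to a sign matrix of size `n + 1` -/
lemma to_sign {m : ℕ} {W G : ℚ} (h : Good m W G) (n : ℕ) (hn : m ≤ n) :
    ∃ d : ℤ, (d : ℚ) = (-1) ^ n * W ∧ ∃ M : Matrix (Fin (n + 1)) (Fin (n + 1)) ℤ,
      (∀ i j, M i j = 1 ∨ M i j = -1) ∧ M.det = 2 ^ n * d := by
  obtain ⟨ι, i1, i2, hm, M, i0, v, hM, hv, hW, hG⟩ := h
  let M0 : Matrix ι ι ℤ := fun i j => if M i j = 1 then 1 else 0
  have hM0 : (M0.det : ℚ) = W := by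
    rw [← hW, Int.cast_det]
    congr 1
    ext i j
    rcases hM i j with h | h <;> simp [M0, h]
  let M1 : Matrix (ι ⊕ Fin (n - m)) (ι ⊕ Fin (n - m)) ℤ := fromBlocks M0 0 0 1
  have hM1 : M1.det = M0.det := by simp [M1]
  have hM1' : ∀ i j, M1 i j = 0 ∨ M1 i j = 1 := by
    rintro (i | i) (j | j)
    · simp only [M1, M0, fromBlocks_apply₁₁]; split_ifs <;> simp
    · simp [M1]
    · simp [M1]
    · simp only [M1, fromBlocks_apply₂₂, Matrix.one_apply]; split_ifs <;> simp
  have hc : Fintype.card (ι ⊕ Fin (n - m)) = n := by simp [hm]; omega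
  let M2 : Matrix (Unit ⊕ (ι ⊕ Fin (n - m))) (Unit ⊕ (ι ⊕ Fin (n - m))) ℤ :=
    fromBlocks 1 (Matrix.of fun _ _ => 1) (Matrix.of fun _ _ => 1)
      (Matrix.of fun i j => 1 - 2 * M1 i j)
  have hM2 : M2.det = (-2) ^ n * M1.det := by
    rw [det_fromBlocks_one₁₁]
    have : (Matrix.of fun i j => 1 - 2 * M1 i j) -
        (Matrix.of fun (_ : ι ⊕ Fin (n - m)) (_ : Unit) => (1 : ℤ)) *
        (Matrix.of fun (_ : Unit) (_ : ι ⊕ Fin (n - m)) => (1 : ℤ)) = (-2 : ℤ) • M1 := by
      ext i j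
      simp [Matrix.mul_apply]
    rw [this, det_smul, hc]
  have hc2 : Fintype.card (Unit ⊕ (ι ⊕ Fin (n - m))) = n + 1 := by
    rw [Fintype.card_sum, hc]; simp [add_comm]
  let e := Fintype.equivFinOfCardEq hc2
  refine ⟨(-1) ^ n * M0.det, by rw [Int.cast_mul, hM0]; simp, reindex e e M2, ?_, ?_⟩
  · intro i j
    simp only [reindex_apply, submatrix_apply]
    generalize e.symm i = i'
    generalize e.symm j = j'
    rcases i' with i' | i' <;> rcases j' with j' | j'
    · simp [M2]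
    · simp [M2]
    · simp [M2]
    · rcases hM1' i' j' with h | h <;> simp [M2, h]
  · rw [det_reindex_self, hM2, hM1, show (-2 : ℤ) = 2 * (-1) by norm_num, mul_pow]
    ring

end Pool.Agent.Lib.H25Det
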