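import Mathlib

set_option autoImplicit false

open Filter Topology Finset

namespace Pool.Agent.Lib.helper25.Khov

def Good (d : ℕ) (f : ℕ → ℕ) : Prop :=
  ∃ N : ℕ, Tendsto (fun h : ℕ => (d.factorial : ℝ) * ((f h : ℝ) / (h : ℝ) ^ d)) atTop (𝓝 (N : ℝ))

lemma shift (c : ℝ) (d : ℕ) : Tendsto (fun h : ℕ => ((h + c) / h : ℝ) ^ d) atTop (𝓝 1) := by
  have : Tendsto (fun h : ℕ => 1 + c / (h : ℝ)) atTop (𝓝 (1 + 0)) :=
    (tendsto_const_div_atTop_nhds_zero_nat c).const_add 1
  have := this.pow d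
  rw [add_zero, one_pow] at this
  refine this.congr' ?_
  filter_upwards [eventually_gt_atTop 0] with h hh
  have : (h : ℝ) ≠ 0 := by positivity
  congr 1; field_simp

lemma Good.sum {ι : Type} (s : Finset ι) {d : ℕ} {f : ι → ℕ → ℕ} (h : ∀ i ∈ s, Good d (f i)) :
    Good d fun k => ∑ i ∈ s, f i k := by
  choose! N hN using h
  refine ⟨∑ i ∈ s, N i, ?_⟩
  simpa only [Nat.cast_sum, sum_div, mul_sum] using tendsto_finsetSum s hN

lemma choose_lim (b a : ℕ) :
    Tendsto (fun h : ℕ => (b.factorial : ℝ) * (((b + (h - a)).choose b : ℝ) / (h : ℝ) ^ b)) atTop (𝓝 1) := by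
  have h1 := (Asymptotics.isEquivalent_iff_tendsto_one (by
    filter_upwards [eventually_gt_atTop 0] with h hh; positivity)).1 (isEquivalent_choose b)
  have h2 : Tendsto (fun h : ℕ => b + (h - a)) atTop atTop :=
    tendsto_atTop_mono (fun h => Nat.le_add_left _ _) (tendsto_sub_atTop_nat a)
  have := (h1.comp h2).mul (shift ((b : ℝ) - a) b)
  rw [mul_one] at this
  refine this.congr' ?_
  filter_upwards [eventually_gt_atTop a] with h hh
  have e : ((b + (h - a) : ℕ) : ℝ) = h + (b - a) := by push_cast [hh.le]; ring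
  have : (h : ℝ) ≠ 0 := by have : 0 < h := by omega
                           positivity
  have : ((b + (h - a) : ℕ) : ℝ) ≠ 0 := by have : 0 < b + (h - a) := by omega
                                           positivity
  simp only [Function.comp, Pi.div_apply, ← e, div_pow]
  field_simp

lemma good_of_choose {d : ℕ} {C : ℝ} {f : ℕ → ℕ} (b a : ℕ)
    (hf : ∀ h, a ≤ h → f h = (b + (h - a) - 1).choose (h - a))
    (hb : ∀ h : ℕ, (f h : ℝ) ≤ C * (h + 1) ^ d) : Good d f := by
  rcases b with _ | b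
  · refine ⟨0, (tendsto_const_nhds (x := ((0 : ℕ) : ℝ))).congr' ?_⟩
    filter_upwards [eventually_gt_atTop a] with h hh
    rw [hf h hh.le, Nat.choose_eq_zero_of_lt (by omega)]; simp
  have hf' : ∀ᶠ h in atTop, f h = (b + (h - a)).choose b := by
    filter_upwards [eventually_ge_atTop a] with h hh
    rw [hf h hh, show b + 1 + (h - a) - 1 = b + (h - a) by omega, Nat.choose_symm_add]
  have hl : Tendsto (fun h : ℕ => (b.factorial : ℝ) * ((f h : ℝ) / (h : ℝ) ^ b)) atTop (𝓝 1) :=
    (choose_lim b a).congr' (by filter_upwards [hf'] with h hh; rw [hh])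
  have inv : ∀ k, k ≠ 0 → Tendsto (fun h : ℕ => ((h : ℝ) ^ k)⁻¹) atTop (𝓝 0) := fun k hk =>
    ((tendsto_pow_atTop hk).comp tendsto_natCast_atTop_atTop).inv_tendsto_atTop
  rcases lt_trichotomy b d with h | rfl | h
  · obtain ⟨k, rfl⟩ := Nat.exists_eq_add_of_lt h
    refine ⟨0, ?_⟩
    have := ((hl.mul (inv (k + 1) (by omega))).const_mul (((b + k + 1).factorial : ℝ) / b.factorial))
    simp only [mul_zero] at this
    refine (Nat.cast_zero (R := ℝ)).symm ▸ this.congr fun h => ?_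
    rw [show b + k + 1 = b + (k + 1) by ring, pow_add _ b]
    field_simp
  · exact ⟨1, by simpa using hl⟩
  · obtain ⟨k, rfl⟩ := Nat.exists_eq_add_of_lt h
    have := ((shift 1 d).mul (inv (k + 1) (by omega))).const_mul (((d + k + 1).factorial : ℝ) * C)
    simp only [mul_zero] at this
    refine absurd (le_of_tendsto_of_tendsto hl this ?_) (by norm_num)
    filter_upwards [eventually_gt_atTop 0] with h hh
    rw [show d + k + 1 = d + (k + 1) by ring, pow_add, div_pow]
    calc _ ≤ ((d + (k + 1)).factorial : ℝ) * (C * (h + 1) ^ d / ((h : ℝ) ^ d * h ^ (k + 1))) := by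
          gcongr; exact hb h
      _ = _ := by field_simp

lemma mem_pa {s : ℕ} {J : Finset (Fin s)} {k : ℕ} {m : Fin s → ℕ} :
    m ∈ piAntidiag J k ↔ ∑ v ∈ J, m v = k ∧ ∀ i, m i ≠ 0 → i ∈ J := mem_piAntidiag

lemma card_box {s : ℕ} (θ : Fin s → ℕ) (B k : ℕ) (hθ : ∀ v, θ v ≤ B) (hk : ∑ v, θ v ≤ k) :
    #{m ∈ piAntidiag univ k | (fun v => min (m v) B) = θ} =
      (#{v | θ v = B} + (k - ∑ v, θ v) - 1).choose (k - ∑ v, θ v) := by
  rw [← card_finsuppAntidiag_nat_eq_choose, finsuppAntidiag, card_map, card_attach]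
  symm
  refine card_nbij' (fun m => m + θ) (fun m => m - θ) ?_ ?_ ?_ ?_
  · intro m hm
    simp only [coe_filter, mem_coe, mem_pa, mem_filter, mem_univ, true_and, Set.mem_ofPred_eq,
      Pi.add_apply, sum_add_distrib, implies_true, and_true] at hm ⊢
    have : ∑ v, m v = ∑ v with θ v = B, m v := (sum_filter_of_ne fun v _ h => hm.2 v h).symm
    refine ⟨by omega, funext fun v => ?_⟩
    have := hm.2 v
    have := hθ v
    omega
  · intro m hm
    simp only [coe_filter, mem_coe, mem_pa, mem_filter, mem_univ, true_and, Set.mem_ofPred_eq,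
      Pi.sub_apply, implies_true, and_true] at hm ⊢
    have h1 : ∀ v, min (m v) B = θ v := congrFun hm.2
    have h2 : ∀ v, m v - θ v ≠ 0 → θ v = B := fun v => by have := h1 v; omega
    refine ⟨?_, h2⟩
    rw [sum_filter_of_ne fun v _ h => h2 v h, sum_tsub_distrib _ fun v _ => by have := h1 v; omega, hm.1]
  · intro m _; simp
  · intro m hm
    simp only [coe_filter, Set.mem_ofPred_eq] at hm
    funext v
    have := congrFun hm.2 v
    simp only [Pi.add_apply, Pi.sub_apply]; omega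

lemma trunc {s : ℕ} (I : Set (Fin s → ℕ)) (hI : IsUpperSet I) :
    ∃ B, ∀ B', B ≤ B' → ∀ m, m ∈ I ↔ (fun v => min (m v) B') ∈ I := by
  have hf : {m | Minimal (· ∈ I) m}.Finite :=
    WellQuasiOrderedLE.finite_of_isAntichain (setOfPred_minimal_antichain _)
  obtain ⟨u, hu⟩ := hf.bddAbove
  refine ⟨univ.sup u, fun B' hB m => ⟨fun hm => ?_, hI fun v => min_le_left _ _⟩⟩
  obtain ⟨b, hb, hm⟩ := exists_minimal_le_of_wellFoundedLT (· ∈ I) m hm
  exact hI (fun v => le_min (hb v) ((hu hm v).trans ((le_sup (mem_univ v)).trans hB))) hm.1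

theorem khov {α : Type} [AddCommGroup α] {s t : ℕ} (a : Fin s → α) (ρ : Fin t → α) (j : Fin t → ℕ)
    (d : ℕ) (C : ℝ) (f : ℕ → ℕ)
    (hf : ∀ h, f h = Set.ncard {y | ∃ i, ∃ m : Fin s → ℕ, j i + ∑ v, m v = h ∧ y = ρ i + ∑ v, m v • a v})
    (hb : ∀ h : ℕ, (f h : ℝ) ≤ C * (h + 1) ^ d) : Good d f := by
  classical
  let ev : Fin t × (Fin s → ℕ) → α × ℕ := fun p => (ρ p.1 + ∑ v, p.2 v • a v, j p.1 + ∑ v, p.2 v)
  let o : Fin t × (Fin s → ℕ) → Fin t ×ₗ Lex (Fin s → ℕ) := fun p => toLex (p.1, toLex p.2)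
  let I : Fin t → Set (Fin s → ℕ) := fun i => {m | ∃ p, ev p = ev (i, m) ∧ o p < o (i, m)}
  have hI : ∀ i, IsUpperSet (I i) := by
    rintro i m m' hm ⟨p, h1, h2⟩
    obtain ⟨w, rfl⟩ := exists_add_of_le hm
    refine ⟨(p.1, p.2 + w), ?_, ?_⟩
    · simp only [ev, Prod.mk.injEq, Pi.add_apply, add_smul, sum_add_distrib, ← add_assoc] at h1 ⊢
      rw [h1.1, h1.2]; exact ⟨rfl, rfl⟩
    · simp only [o, Prod.Lex.toLex_lt_toLex] at h2 ⊢
      exact h2.imp id fun h => ⟨h.1, add_lt_add_left h.2 (toLex w)⟩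
  choose B hB using fun i => trunc (I i) (hI i)
  let B0 := univ.sup B
  let T : Finset (Fin t × (Fin s → ℕ)) :=
    {p ∈ univ ×ˢ Fintype.piFinset fun _ => range (B0 + 1) | p.2 ∉ I p.1}
  let g : Fin t × (Fin s → ℕ) → ℕ → ℕ := fun p h =>
    #{m ∈ piAntidiag univ (h - j p.1) | j p.1 ≤ h ∧ (fun v => min (m v) B0) = p.2}
  have key : ∀ h, f h = ∑ p ∈ T, g p h := fun h => by
    let Mn : Finset (Fin t × (Fin s → ℕ)) :=
      {p ∈ univ.biUnion fun i => {i} ×ˢ piAntidiag univ (h - j i) | j p.1 ≤ h ∧ p.2 ∉ I p.1}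
    have hM : ∀ p, p ∈ Mn ↔ j p.1 + ∑ v, p.2 v = h ∧ p.2 ∉ I p.1 := fun p => by
      simp only [Mn, mem_filter, mem_biUnion, mem_univ, true_and, mem_product, mem_singleton,
        mem_pa, implies_true, and_true, exists_eq_left']
      constructor <;> rintro ⟨h1, h2⟩
      · exact ⟨by omega, h2.2⟩
      · exact ⟨by omega, by omega, h2⟩
    have e1 : f h = #Mn := by
      rw [hf, ← Set.ncard_coe_finset, ← Set.InjOn.ncard_image (f := fun p => (ev p).1)]
      · congr 1; ext y
        simp only [Set.mem_ofPred_eq, Set.mem_image, mem_coe, hM]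
        constructor
        · rintro ⟨i, m, h1, rfl⟩
          obtain ⟨_, ⟨p, hp, rfl⟩, hm⟩ := wellFounded_lt.has_min (o '' {p | ev p = ev (i, m)})
            ⟨_, (i, m), rfl, rfl⟩
          exact ⟨p, ⟨(congrArg Prod.snd hp).trans h1, fun ⟨q, h3, h4⟩ => hm _ ⟨q, h3.trans hp, rfl⟩ h4⟩,
            congrArg Prod.fst hp⟩
        · rintro ⟨p, hp, rfl⟩
          exact ⟨p.1, p.2, hp.1, rfl⟩
      · intro p hp q hq e
        rw [mem_coe, hM] at hp hq
        have e' : ev p = ev q := Prod.ext e (hp.1.trans hq.1.symm)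
        rcases lt_trichotomy (o p) (o q) with h | h | h
        · exact absurd ⟨p, e', h⟩ hq.2
        · simpa [o, Prod.ext_iff] using h
        · exact absurd ⟨q, e'.symm, h⟩ hp.2
    rw [e1, card_eq_sum_card_fiberwise (t := T) (f := fun p => (p.1, fun v => min (p.2 v) B0))]
    · refine sum_congr rfl fun p hp => card_nbij' Prod.snd (fun m => (p.1, m)) ?_ ?_ ?_ fun _ _ => rfl
      · rintro q hq
        simp only [coe_filter, Set.mem_ofPred_eq, hM, mem_pa, mem_univ, implies_true, and_true] at hq ⊢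
        obtain ⟨hq, rfl⟩ := hq
        exact ⟨by have := hq.1; simp only; omega, by have := hq.1; simp only; omega, rfl⟩
      · intro m hm
        simp only [coe_filter, Set.mem_ofPred_eq, hM, mem_pa, mem_univ, implies_true, and_true] at hm ⊢
        refine ⟨⟨by omega, ?_⟩, by rw [hm.2.2]⟩
        rw [hB _ B0 (le_sup (mem_univ _)), hm.2.2]
        exact (mem_filter.1 hp).2
      · rintro q hq
        simp only [coe_filter, Set.mem_ofPred_eq] at hq
        rw [← hq.2]
    · intro p hp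
      rw [mem_coe, hM] at hp
      simp only [T, coe_filter, mem_product, mem_univ, true_and, Fintype.mem_piFinset, mem_range,
        Set.mem_ofPred_eq]
      exact ⟨fun v => Nat.lt_succ_of_le (min_le_right _ _), by
        rw [← hB _ B0 (le_sup (mem_univ _))]; exact hp.2⟩
  rw [show f = fun h => ∑ p ∈ T, g p h from funext key]
  refine Good.sum T fun p hp => good_of_choose (C := C) #{v | p.2 v = B0} (j p.1 + ∑ v, p.2 v)
    (fun h hh => ?_) fun h => le_trans ?_ (hb h)
  · have hp' : ∀ v, p.2 v ≤ B0 := fun v => by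
      simp only [T, mem_filter, mem_product, Fintype.mem_piFinset, mem_range] at hp
      exact Nat.lt_succ_iff.1 (hp.1.2 v)
    simp only [g, show j p.1 ≤ h by omega, true_and]
    rw [card_box p.2 B0 _ hp' (by omega), Nat.sub_sub]
  · rw [key]; exact_mod_cast single_le_sum (f := fun p => g p h) (fun _ _ => Nat.zero_le _) hp

end Pool.Agent.Lib.helper25.Khov
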