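import Mathlib
import Pool.Agent.Lib.helper25.Khov

set_option autoImplicit false

open Finset Filter Topology Pointwise Matrix

namespace Pool.Agent.Lib.helper25.EqC

variable {n s : ℕ} (A : Matrix (Fin n) (Fin n) ℤ) (τ : Fin n → ℤ) (r : ℕ) (v : Fin s → Fin n → ℤ)

def cst (R : Type) [CommRing R] : (Fin n → ℤ) →+ (Fin n → R) where
  toFun z i := z i
  map_zero' := by ext; simp
  map_add' _ _ := by ext; simp

lemma cst_apply (R : Type) [CommRing R] (z : Fin n → ℤ) (i : Fin n) : cst R z i = z i := rfl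

lemma cst_inj : Function.Injective (cst ℝ (n := n)) := fun _ _ h => funext fun i =>
  Int.cast_injective (congrFun h i)

lemma cst_mulVec (R : Type) [CommRing R] (B : Matrix (Fin n) (Fin n) ℤ) (z : Fin n → ℤ) :
    cst R (B *ᵥ z) = B.map (Int.cast : ℤ → R) *ᵥ cst R z := by
  ext i; simp [cst_apply, mulVec, dotProduct]

noncomputable def ph : Module.End ℝ ((Fin n → ℝ) × ℝ) :=
  ((A.map (Int.cast : ℤ → ℝ)).mulVecLin.coprod (LinearMap.toSpanSingleton ℝ _ (cst ℝ τ))).prod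
    (LinearMap.snd ℝ _ _)

lemma ph_apply (x : Fin n → ℝ) (h : ℝ) :
    ph A τ (x, h) = (A.map (Int.cast : ℤ → ℝ) *ᵥ x + h • cst ℝ τ, h) := rfl

lemma ph_pow (k : ℕ) (x : Fin n → ℝ) (h : ℝ) : (ph A τ ^ k) (x, h) =
    ((A ^ k).map (Int.cast : ℤ → ℝ) *ᵥ x + h • cst ℝ (∑ j ∈ range k, (A ^ j) *ᵥ τ), h) := by
  induction k with
  | zero => simp
  | succ k ih =>
    rw [pow_succ', Module.End.mul_apply, ih, ph_apply, sum_range_succ', mulVec_add, mulVec_mulVec,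
      mulVec_smul, ← cst_mulVec, pow_succ', mulVec_sum]
    simp only [mulVec_mulVec, ← pow_succ', pow_zero, one_mulVec, map_add, smul_add, add_assoc]
    congr 3
    rw [pow_succ']; exact (Matrix.map_mul (f := Int.castRingHom ℝ)).symm

noncomputable def sg : Module.End ℝ ((Fin n → ℝ) × ℝ) := ∑ k ∈ range r, ph A τ ^ k

def sz : ((Fin n → ℤ) × ℤ) →+ (Fin n → ℤ) where
  toFun p := ∑ k ∈ range r, ((A ^ k) *ᵥ p.1 + p.2 • ∑ j ∈ range k, (A ^ j) *ᵥ τ)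
  map_zero' := by simp
  map_add' _ _ := by simp [mulVec_add, add_smul, sum_add_distrib]; abel

lemma sg_cst (x : Fin n → ℤ) (h : ℤ) :
    sg A τ r (cst ℝ x, h) = (cst ℝ (sz A τ r (x, h)), (r : ℝ) * h) := by
  simp [sg, sz, ph_pow, Prod.ext_iff, Prod.fst_sum, Prod.snd_sum, cst_mulVec, Int.cast_smul_eq_zsmul,
    -zsmul_eq_mul]

lemma sg_fix {p : (Fin n → ℝ) × ℝ} (h : ph A τ p = p) : sg A τ r p = (r : ℝ) • p := by
  have : ∀ k, (ph A τ ^ k) p = p := fun k => by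
    induction k with
    | zero => rfl
    | succ k ih => rw [pow_succ, Module.End.mul_apply, h, ih]
  simp [sg, this, Nat.cast_smul_eq_nsmul]

lemma ph_sg (hA : A ^ r = 1) (hτ : ∑ j ∈ range r, (A ^ j) *ᵥ τ = 0) (p : (Fin n → ℝ) × ℝ) :
    ph A τ (sg A τ r p) = sg A τ r p := by
  have h1 : ph A τ ^ r = 1 := LinearMap.ext fun ⟨x, h⟩ => by simp [ph_pow, hA, hτ]
  have := congr($(mul_neg_geom_sum (ph A τ) r) p)
  rw [h1, sub_self] at this
  exact (sub_eq_zero.1 this).symm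

def Cone : Set ((Fin n → ℝ) × ℝ) :=
  {p | ∃ l : Fin s → ℝ, (∀ i, 0 ≤ l i) ∧ p = ∑ i, l i • (cst ℝ (v i), (1 : ℝ))}

variable {v A τ r}

lemma Cone.add {p q} (hp : p ∈ Cone v) (hq : q ∈ Cone v) : p + q ∈ Cone v := by
  obtain ⟨l, h, rfl⟩ := hp
  obtain ⟨l', h', rfl⟩ := hq
  exact ⟨l + l', fun i => add_nonneg (h i) (h' i), by simp only [Pi.add_apply, add_smul, sum_add_distrib]⟩

lemma Cone.smul {p} {c : ℝ} (hc : 0 ≤ c) (hp : p ∈ Cone v) : c • p ∈ Cone v := by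
  obtain ⟨l, h, rfl⟩ := hp
  exact ⟨c • l, fun i => mul_nonneg hc (h i), by simp only [smul_sum, Pi.smul_apply, smul_assoc]⟩

lemma Cone.sum {ι : Type} (t : Finset ι) {p : ι → (Fin n → ℝ) × ℝ} (hp : ∀ i ∈ t, p i ∈ Cone v) :
    ∑ i ∈ t, p i ∈ Cone v :=
  sum_induction _ (· ∈ Cone v) (fun _ _ => Cone.add) ⟨0, fun _ => le_rfl, by simp⟩ hp

lemma Cone.gen (i : Fin s) : (cst ℝ (v i), (1 : ℝ)) ∈ Cone v :=
  ⟨Pi.single i 1, fun j => by by_cases h : j = i <;> simp [h], by simp [Pi.single_apply, ite_smul]⟩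

lemma Cone.snd {l : Fin s → ℝ} {x : Fin n → ℝ} {h : ℝ}
    (e : (x, h) = ∑ i, l i • (cst ℝ (v i), (1 : ℝ))) : x = ∑ i, l i • cst ℝ (v i) ∧ h = ∑ i, l i := by
  simpa [Prod.ext_iff, Prod.fst_sum, Prod.snd_sum] using e

lemma Cone.zero {x : Fin n → ℝ} (hx : (x, (0 : ℝ)) ∈ Cone v) : x = 0 := by
  obtain ⟨l, h, e⟩ := hx
  obtain ⟨rfl, e'⟩ := Cone.snd e
  simp [fun i => (sum_eq_zero_iff_of_nonneg fun i _ => h i).1 e'.symm i (mem_univ _)]

lemma mem_cone {x : Fin n → ℝ} {h : ℝ} (hh : 0 < h) :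
    (x, h) ∈ Cone v ↔ x ∈ h • convexHull ℝ (Set.range fun i => cst ℝ (v i)) := by
  constructor
  · rintro ⟨l, hl, e⟩
    obtain ⟨rfl, e'⟩ := Cone.snd e
    refine ⟨∑ i, (l i / h) • cst ℝ (v i), (convex_convexHull ℝ _).sum_mem (fun i _ => div_nonneg (hl i) hh.le)
      (by rw [← sum_div, ← e', div_self hh.ne']) fun i _ => subset_convexHull ℝ _ ⟨i, rfl⟩, ?_⟩
    simp only [smul_sum, smul_smul, mul_div_cancel₀ _ hh.ne']
  · rintro ⟨y, hy, rfl⟩
    have : (y, (1 : ℝ)) ∈ Cone v := convexHull_min (t := {y | (y, (1 : ℝ)) ∈ Cone v})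
      (by rintro _ ⟨i, rfl⟩; exact Cone.gen i) (fun x hx y hy a b ha hb hab => by
        simpa [hab] using Cone.add (Cone.smul ha hx) (Cone.smul hb hy)) hy
    simpa using Cone.smul hh.le this

lemma Cone.sg (hP : ∀ i, ph A τ (cst ℝ (v i), 1) ∈ Cone v) {p} (hp : p ∈ Cone v) :
    sg A τ r p ∈ Cone v := by
  have h1 : ∀ p ∈ Cone v, ph A τ p ∈ Cone v := by
    rintro _ ⟨l, hl, rfl⟩
    simpa only [map_sum, map_smul] using Cone.sum _ fun i _ => Cone.smul (hl i) (hP i)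
  have h2 : ∀ k, (ph A τ ^ k) p ∈ Cone v := fun k => by
    induction k with
    | zero => exact hp
    | succ k ih => rw [pow_succ', Module.End.mul_apply]; exact h1 _ ih
  simpa only [EqC.sg, LinearMap.sum_apply] using Cone.sum _ fun k _ => h2 k

lemma bound : ∃ R : ℕ, ∀ (z : Fin n → ℤ) (h : ℕ), (cst ℝ z, (h : ℝ)) ∈ Cone v →
    ∀ j, z j ∈ Icc (-(R * h : ℤ)) (R * h) := by
  refine ⟨univ.sup fun p : Fin s × Fin n => (v p.1 p.2).natAbs, fun z h ⟨l, hl, e⟩ j => ?_⟩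
  obtain ⟨e1, e2⟩ := Cone.snd e
  rw [mem_Icc, ← abs_le, ← Int.cast_le (R := ℝ)]
  push_cast
  rw [← cst_apply ℝ, e1, e2, Finset.sum_apply, mul_sum]
  refine (abs_sum_le_sum_abs _ _).trans (sum_le_sum fun i _ => ?_)
  rw [Pi.smul_apply, smul_eq_mul, abs_mul, abs_of_nonneg (hl i), mul_comm, cst_apply]
  refine mul_le_mul_of_nonneg_right ?_ (hl i)
  have := le_sup (f := fun p : Fin s × Fin n => (v p.1 p.2).natAbs) (mem_univ (i, j))
  rw [← Int.cast_abs, Int.abs_eq_natAbs]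
  exact_mod_cast this

lemma fin (h : ℕ) : {z : Fin n → ℤ | (cst ℝ z, (h : ℝ)) ∈ Cone v}.Finite := by
  obtain ⟨R, hR⟩ := bound (v := v)
  exact (Fintype.piFinset fun _ => Icc (-(R * h : ℤ)) (R * h)).finite_toSet.subset
    fun z hz => by simpa only [mem_coe, Fintype.mem_piFinset] using hR z h hz

lemma exists_w (hs : 0 < s) (hv : affineSpan ℝ (Set.range fun i => cst ℝ (v i)) = ⊤) {Q : Type} [Finite Q]
    (u : Q → Fin n → ℤ) : ∃ (w : Fin n → ℤ) (c : ℕ), 0 < c ∧ (cst ℝ w, (c : ℝ)) ∈ Cone v ∧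
      ∀ q, (cst ℝ (w + u q), (c : ℝ)) ∈ Cone v ∧ (cst ℝ (w - u q), (c : ℝ)) ∈ Cone v := by
  have : ∀ q, ∃ b : Fin s → ℝ, ∑ i, b i = 0 ∧ cst ℝ (u q) = ∑ i, b i • cst ℝ (v i) := fun q => by
    have : cst ℝ (u q) ∈ vectorSpan ℝ (Set.range fun i => cst ℝ (v i)) := by
      rw [← direction_affineSpan, hv]; simp
    obtain ⟨t, w, h1, h2⟩ := (mem_vectorSpan_iff_eq_weightedVSub ℝ).1 this
    refine ⟨fun i => if i ∈ t then w i else 0, by simpa using h1, ?_⟩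
    rw [h2, t.weightedVSub_eq_linear_combination h1]
    simp [ite_smul]
  choose b hb0 hb using this
  obtain ⟨B, hB⟩ := (Set.finite_range fun p : Q × Fin s => |b p.1 p.2|).bddAbove
  obtain ⟨B', hB'⟩ := exists_nat_gt (max B 0)
  have h0 : 0 < B' := by exact_mod_cast (le_max_right _ _).trans_lt hB'
  have key : ∀ b : Fin s → ℝ, ∑ i, b i = 0 → (∀ i, |b i| ≤ B') →
      (cst ℝ (B' • ∑ i, v i) + ∑ i, b i • cst ℝ (v i), ((B' * s : ℕ) : ℝ)) ∈ Cone v := fun b h1 h2 =>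
    ⟨fun i => B' + b i, fun i => by have := neg_abs_le (b i); have := h2 i; linarith, by
      simp [Prod.ext_iff, Prod.fst_sum, Prod.snd_sum, add_smul, sum_add_distrib, h1, smul_sum, mul_comm,
        Nat.cast_smul_eq_nsmul, -nsmul_eq_mul]
      simp [mul_comm]⟩
  have hb' : ∀ q i, |b q i| ≤ B' := fun q i => (hB ⟨(q, i), rfl⟩).trans ((le_max_left _ _).trans hB'.le)
  refine ⟨B' • ∑ i, v i, B' * s, by positivity, by simpa using key 0 (by simp) (by simp), fun q => ⟨?_, ?_⟩⟩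
  · rw [map_add, hb]; exact key _ (hb0 q) (hb' q)
  · rw [map_sub, hb]
    simpa [sub_eq_add_neg] using key (-b q) (by simpa using hb0 q) (by simpa using hb' q)

lemma coords (W : Submodule ℝ (Fin n → ℝ)) : ∃ (k : ℕ) (a : Fin k → Fin n), k ≤ Module.finrank ℝ W ∧
    ∀ w ∈ W, (∀ i, w (a i) = 0) → w = 0 := by
  obtain ⟨κ, a, -, hsp, hli⟩ := exists_linearIndependent' ℝ
    fun i : Fin n => ((LinearMap.proj i) ∘ₗ W.subtype : Module.Dual ℝ W)
  have := hli.finite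
  have := Fintype.ofFinite κ
  refine ⟨_, a ∘ (Fintype.equivFin κ).symm, hli.fintype_card_le_finrank.trans_eq Subspace.dual_finrank_eq,
    fun w hw h => funext fun i => ?_⟩
  have : Submodule.span ℝ _ ≤ LinearMap.ker (Module.Dual.eval ℝ W ⟨w, hw⟩) := hsp ▸ Submodule.span_le.2 (by
    rintro _ ⟨k, rfl⟩; simpa using h (Fintype.equivFin κ k))
  exact this (Submodule.subset_span ⟨i, rfl⟩)

end Pool.Agent.Lib.helper25.EqC
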