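import Mathlib

set_option autoImplicit false

open Polynomial Module LinearMap

namespace Pool.Agent.Lib.helper25.EqD

lemma charpoly_eq {M N : Type} [AddCommGroup M] [AddCommGroup N] [Free ℤ M] [Free ℤ N]
    [Module.Finite ℤ M] [Module.Finite ℤ N] (f : End ℤ M) (f' : End ℤ N) (i : N →ₗ[ℤ] M)
    (hi : ker i = ⊥) (hr : finrank ℤ N = finrank ℤ M) (h : f ∘ₗ i = i ∘ₗ f') :
    f.charpoly = f'.charpoly := by
  let e := LinearEquiv.ofFinrankEq N M hr
  rw [← e.charpoly_conj f']
  refine Polynomial.funext fun t => ?_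
  let u : End ℤ M := i ∘ₗ e.symm.toLinearMap
  have hu : u.det ≠ 0 := by
    rw [Ne, det_eq_zero_iff_ker_ne_bot, not_not, ker_comp_of_ker_eq_bot _ hi]; simp
  have : (algebraMap ℤ _ t - f) * u = u * (algebraMap ℤ _ t - e.conj f') := by
    ext x
    have := congr($h (e.symm x))
    simp only [coe_comp, Function.comp] at this
    simp [u, this, LinearEquiv.conj_apply]
  have := congrArg LinearMap.det this
  rw [map_mul, map_mul, mul_comm] at this
  rw [LinearMap.eval_charpoly, LinearMap.eval_charpoly, mul_left_cancel₀ hu this]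

lemma pos {n r : ℕ} (A : Matrix (Fin n) (Fin n) ℤ) (hr : 0 < r) (hA : A ^ r = 1) (q : ℤ[X])
    (hq : q.Monic) (hd : q ∣ A.charpoly) : 0 ≤ q.eval 1 := by
  by_contra hc
  push Not at hc
  have e1 : (q.map (Int.castRingHom ℝ)).eval 1 < 0 := by
    rw [eval_one_map]; simpa using hc
  have hm := hq.map (Int.castRingHom ℝ)
  have hdeg : 0 < (q.map (Int.castRingHom ℝ)).degree := by
    by_contra h
    rw [(hm.degree_le_zero_iff_eq_one).1 (not_lt.1 h)] at e1
    norm_num at e1
  obtain ⟨y, hy1, hy2⟩ := (((tendsto_atTop_of_leadingCoeff_nonneg _ hdeg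
    (by rw [hm.leadingCoeff]; norm_num)).eventually_ge_atTop 0).and (Filter.eventually_ge_atTop 1)).exists
  obtain ⟨x, hx, h0⟩ := intermediate_value_Ioc hy2 (q.map (Int.castRingHom ℝ)).continuous.continuousOn
    ⟨e1, hy1⟩
  have h1 : (A.map (Int.castRingHom ℝ)).charpoly.eval x = 0 := by
    rw [Matrix.charpoly_map]
    exact eval_eq_zero_of_dvd_of_eval_eq_zero (Polynomial.map_dvd _ hd) h0
  rw [Matrix.eval_charpoly] at h1
  obtain ⟨v, hv, h2⟩ := Matrix.exists_mulVec_eq_zero_iff.2 h1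
  have h3 : ∀ k, ((A.map (Int.castRingHom ℝ)) ^ k).mulVec v = x ^ k • v := fun k => by
    induction k with
    | zero => simp
    | succ k ih =>
      have : (A.map (Int.castRingHom ℝ)).mulVec v = x • v := by
        rw [Matrix.sub_mulVec, sub_eq_zero] at h2
        rw [← h2]; ext i; simp [Matrix.mulVec_diagonal]
      rw [pow_succ, ← Matrix.mulVec_mulVec, this, Matrix.mulVec_smul, ih, smul_smul, pow_succ']
  have h4 := h3 r
  rw [← Matrix.map_pow, hA, Matrix.map_one _ (map_zero _) (map_one _), Matrix.one_mulVec] at h4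
  have h5 : (x ^ r - 1) • v = 0 := by rw [sub_smul, ← h4, one_smul, sub_self]
  exact (smul_ne_zero (sub_pos.2 (one_lt_pow₀ hx.1 hr.ne')).ne' hv) h5

theorem dvdD {n r : ℕ} (A : Matrix (Fin n) (Fin n) ℤ) (hr : 0 < r) (hA : A ^ r = 1)
    (f σ : End ℤ (Fin n → ℤ)) (hf : f = Matrix.toLin' A) (hσ : σ = ∑ k ∈ Finset.range r, f ^ k)
    (τ : Fin n → ℤ) (hτ : σ τ = 0) (ind : ℕ) (h1 : ind • τ ∈ range (1 - f)) (h0 : 0 < ind)
    (h2 : ∀ k, 0 < k → k • τ ∈ range (1 - f) → ind ≤ k) :
    (ker (1 - f) ⊔ ker σ).toAddSubgroup.index ≠ 0 ∧ ∃ D : ℕ,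
      eval 1 (A.charpoly /ₘ (X - C 1) ^ A.charpoly.rootMultiplicity 1) =
        (ker (1 - f) ⊔ ker σ).toAddSubgroup.index * ind * D := by
  have hfr : f ^ r = 1 := by rw [hf, ← Matrix.toLin'_pow, hA, Matrix.toLin'_one]; rfl
  have a1 : ∀ x, σ ((1 - f) x) = 0 := fun x => by
    have := congr($(geom_sum_mul_neg f r) x); simpa [hσ, hfr] using this
  have a2 : ∀ x, (1 - f) (σ x) = 0 := fun x => by
    have := congr($(mul_neg_geom_sum f r) x); simpa [hσ, hfr] using this
  have a3 : ∀ x, (1 - f) x = 0 → σ x = r • x := fun x hx => by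
    have hx' : f x = x := (sub_eq_zero.1 hx).symm
    have : ∀ k, (f ^ k) x = x := fun k => by
      induction k with
      | zero => rfl
      | succ k ih => rw [pow_succ, End.mul_apply, hx', ih]
    simp [hσ, this]
  have a4 : ∀ x, (1 - f) x = 0 → σ x = 0 → x = 0 := fun x h h' => by
    rw [a3 x h] at h'; exact (smul_eq_zero.1 h').resolve_left hr.ne'
  have hK : ∀ x ∈ ker σ, f x ∈ ker σ := fun x hx => by
    have := a1 x
    simp only [LinearMap.sub_apply, End.one_apply, map_sub, mem_ker.1 hx, zero_sub, neg_eq_zero] at this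
    exact this
  let g := f.restrict hK
  have hc : f.charpoly = (X - C 1) ^ finrank ℤ (ker (1 - f)) * g.charpoly := by
    have hi : ker ((ker (1 - f)).subtype.coprod (ker σ).subtype) = ⊥ := by
      refine ker_eq_bot'.2 fun ⟨x, y⟩ h => ?_
      have h' : x.1 = -y.1 := eq_neg_of_add_eq_zero_left h
      have := a4 x x.2 (by rw [h', map_neg, y.2, neg_zero])
      exact Prod.ext (Subtype.ext this) (Subtype.ext (by simpa [this] using h'))
    rw [charpoly_eq f (prodMap 1 g) _ hi, charpoly_prodMap, charpoly_one, C_1]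
    · refine le_antisymm (finrank_le_finrank_of_injective (ker_eq_bot.1 hi))
        (finrank_le_finrank_of_injective (f := (σ.codRestrict (ker (1 - f)) a2).prod
          ((1 - f).codRestrict (ker σ) a1)) (ker_eq_bot.1 (ker_eq_bot'.2 fun x hx => ?_)))
      exact a4 x (congrArg (fun p => p.2.1) hx) (congrArg (fun p => p.1.1) hx)
    · refine LinearMap.ext fun ⟨x, y⟩ => ?_
      have : f x = x := (sub_eq_zero.1 (mem_ker.1 x.2)).symm
      simp [g, this]
  have hker : ker (1 - g) = ⊥ := ker_eq_bot'.2 fun x hx =>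
    Subtype.ext (a4 x (congrArg Subtype.val hx) x.2)
  have hev : g.charpoly.eval 1 = (1 - g).det := by rw [LinearMap.eval_charpoly, map_one]
  have hne : g.charpoly.eval 1 ≠ 0 := by rwa [hev, Ne, det_eq_zero_iff_ker_ne_bot, not_not]
  rw [hf, Matrix.charpoly_toLin', ← hf] at hc
  have hD : eval 1 (A.charpoly /ₘ (X - C 1) ^ A.charpoly.rootMultiplicity 1) = g.charpoly.eval 1 := by
    rw [hc, mul_comm, rootMultiplicity_mul_X_sub_C_pow (charpoly_monic _).ne_zero,
      rootMultiplicity_eq_zero hne, zero_add, mul_comm, mul_divByMonic_cancel_left _ ((monic_X_sub_C _).pow _)]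
  have hp := pos A hr hA _ (charpoly_monic g) (hc ▸ Dvd.intro_left _ rfl)
  have hidx : (g.charpoly.eval 1).natAbs = (range (1 - g)).toAddSubgroup.index := by
    rw [hev]
    exact Submodule.natAbs_det_equiv (range (1 - g)) (LinearEquiv.ofInjective _ (ker_eq_bot.1 hker))
  let ψ := (1 - f).codRestrict (ker σ) a1
  have hle : (range (1 - g)).toAddSubgroup ≤ (range ψ).toAddSubgroup := by
    rintro _ ⟨x, rfl⟩; exact ⟨x, rfl⟩
  have he : (ker (1 - f) ⊔ ker σ).toAddSubgroup.index =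
      (range (1 - g)).toAddSubgroup.relIndex (range ψ).toAddSubgroup := by
    refine Eq.trans ?_ (AddSubgroup.index_comap (range (1 - g)).toAddSubgroup ψ.toAddMonoidHom)
    congr 1; ext x
    simp only [Submodule.mem_toAddSubgroup, Submodule.mem_sup, AddSubgroup.mem_comap, mem_range]
    constructor
    · rintro ⟨y, hy, z, hz, rfl⟩
      exact ⟨⟨z, hz⟩, Subtype.ext (by change (1 - f) z = (1 - f) (y + z); rw [map_add, hy, zero_add])⟩
    · rintro ⟨y, hy⟩
      have : (1 - f) y.1 = (1 - f) x := congrArg Subtype.val hy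
      exact ⟨x - y, by rw [mem_ker, map_sub, this, sub_self], y, y.2, by simp⟩
  have hm := AddSubgroup.relIndex_mul_index hle
  rw [← he, ← hidx] at hm
  have hn := mul_ne_zero_iff.1 (hm ▸ Int.natAbs_ne_zero.2 hne)
  have hdvd : ind ∣ (range ψ).toAddSubgroup.index := by
    have : Finite (ker σ ⧸ (range ψ).toAddSubgroup) := Nat.finite_of_card_ne_zero hn.2
    have k : ∀ k : ℕ, k • ((⟨τ, hτ⟩ : ker σ) : ker σ ⧸ (range ψ).toAddSubgroup) = 0 ↔
        k • τ ∈ range (1 - f) := fun k => by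
      rw [← QuotientAddGroup.mk_nsmul, QuotientAddGroup.eq_zero_iff]
      exact ⟨fun ⟨x, hx⟩ => ⟨x, congrArg Subtype.val hx⟩, fun ⟨x, hx⟩ => ⟨x, Subtype.ext hx⟩⟩
    rw [← le_antisymm (addOrderOf_le_of_nsmul_eq_zero h0 ((k _).2 h1))
      (h2 _ (addOrderOf_pos _) ((k _).1 (addOrderOf_nsmul_eq_zero _)))]
    exact addOrderOf_dvd_natCard _
  obtain ⟨D, hD'⟩ := hdvd
  refine ⟨hn.1, D, ?_⟩
  rw [hD, ← Int.natAbs_of_nonneg hp, ← hm, hD']; push_cast; ring

end Pool.Agent.Lib.helper25.EqD
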