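import Mathlib
import Pool.Agent.Lib.helper25.EqC

set_option autoImplicit false

open Finset Filter Topology Pointwise Matrix

namespace Pool.Agent.Lib.helper25.EqC

variable {n s : ℕ} (A : Matrix (Fin n) (Fin n) ℤ) (τ : Fin n → ℤ) (r : ℕ) (v : Fin s → Fin n → ℤ)

def XX (h : ℕ) : Set (Fin n → ℤ) := {z | (cst ℝ z, (h : ℝ)) ∈ Cone v ∧ A *ᵥ z + h • τ = z}

def YY (h : ℕ) : Set (Fin n → ℤ) :=
  {y | (cst ℝ y, ((r * h : ℕ) : ℝ)) ∈ Cone v ∧ ∃ x, y = sz A τ r (x, h)}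

variable {v A τ r}

lemma ph_cst {z : Fin n → ℤ} {h : ℕ} : ph A τ (cst ℝ z, h) = (cst ℝ z, (h : ℝ)) ↔ A *ᵥ z + h • τ = z := by
  rw [ph_apply, Prod.mk_left_inj, ← cst_mulVec, Nat.cast_smul_eq_nsmul, ← map_nsmul, ← map_add, cst_inj.eq_iff]

lemma sg_cst' (x : Fin n → ℤ) (h : ℕ) :
    sg A τ r (cst ℝ x, h) = (cst ℝ (sz A τ r (x, h)), ((r * h : ℕ) : ℝ)) := by
  simpa using sg_cst A τ r x h

lemma sz_fix {z : Fin n → ℤ} {h : ℕ} (hz : A *ᵥ z + h • τ = z) : sz A τ r (z, h) = r • z := by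
  have := sg_fix A τ r (ph_cst.2 hz)
  rw [sg_cst'] at this
  exact cst_inj (by simpa [Nat.cast_smul_eq_nsmul, -nsmul_eq_mul] using congrArg Prod.fst this)

lemma fix_sz (hA : A ^ r = 1) (hτ : ∑ j ∈ range r, (A ^ j) *ᵥ τ = 0) (x : Fin n → ℤ) (h : ℕ) :
    A *ᵥ sz A τ r (x, h) + (r * h) • τ = sz A τ r (x, h) :=
  ph_cst.1 (by rw [← sg_cst', ph_sg A τ r hA hτ])

lemma sz_mem (hP : ∀ i, ph A τ (cst ℝ (v i), 1) ∈ Cone v) {x : Fin n → ℤ} {h : ℕ}
    (hx : (cst ℝ x, (h : ℝ)) ∈ Cone v) : (cst ℝ (sz A τ r (x, h)), ((r * h : ℕ) : ℝ)) ∈ Cone v :=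
  sg_cst' (A := A) (τ := τ) (r := r) x h ▸ Cone.sg hP hx

lemma finX (h : ℕ) : (XX A τ v h).Finite := (fin h).subset fun _ h => h.1

lemma finY (h : ℕ) : (YY A τ r v h).Finite := (fin (r * h)).subset fun _ h => h.1

lemma goodY (hr : 0 < r) (hA : A ^ r = 1) (hτ : ∑ j ∈ range r, (A ^ j) *ᵥ τ = 0)
    (hP : ∀ i, ph A τ (cst ℝ (v i), 1) ∈ Cone v) (W : Submodule ℝ (Fin n → ℝ))
    (hW : ∀ (h : ℕ) x y, (x, (h : ℝ)) ∈ Cone v → ph A τ (x, h) = (x, (h : ℝ)) → (y, (h : ℝ)) ∈ Cone v →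
      ph A τ (y, h) = (y, (h : ℝ)) → x - y ∈ W) :
    Khov.Good (Module.finrank ℝ W) fun h => (YY A τ r v h).ncard := by
  have hF : {p : (Fin n → ℤ) × ℕ | p.2 ≤ s ∧ p.1 ∈ YY A τ r v p.2}.Finite :=
    (((Set.finite_Iic s).biUnion fun j _ => finY (A := A) (τ := τ) (r := r) (v := v) j).prod
      (Set.finite_Iic s)).subset fun p hp => ⟨Set.mem_biUnion hp.1 hp.2, hp.1⟩
  obtain ⟨t, e, -, he⟩ := hF.fin_param
  have ga : ∀ i, sg A τ r (cst ℝ (v i), 1) = (cst ℝ (sz A τ r (v i, 1)), (r : ℝ)) := fun i => by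
    simpa using sg_cst' (A := A) (τ := τ) (r := r) (v i) 1
  have gz : ∀ (x : Fin n → ℤ) (j : ℕ) (m : Fin s → ℕ), sz A τ r (x, j) + ∑ i, m i • sz A τ r (v i, 1) =
      sz A τ r (x + ∑ i, m i • v i, (j + ∑ i, m i : ℕ)) := fun x j m => by
    simp only [← map_nsmul, ← map_sum, ← map_add]
    congr 1
    simp [Prod.ext_iff, Prod.fst_sum, Prod.snd_sum]
  obtain ⟨R, hR⟩ := bound (v := v)
  refine Khov.khov (fun i => sz A τ r (v i, 1)) (fun i => (e i).1) (fun i => (e i).2) _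
    ((2 * R * r + 1) ^ Module.finrank ℝ W) _ (fun h => ?_) fun h => ?_
  · congr 1; ext y
    constructor
    · rintro ⟨⟨μ, hμ, hy⟩, x, hx⟩
      have h1 := congrArg (sg A τ r) hy
      rw [sg_fix A τ r (ph_cst.2 (hx ▸ fix_sz hA hτ x h)), map_sum] at h1
      simp only [map_smul, ga] at h1
      have hr' : (0 : ℝ) < r := by exact_mod_cast hr
      have h2 : ∑ i, μ i / r = h := by
        rw [← sum_div, ← (Cone.snd hy).2, div_eq_iff hr'.ne']; push_cast; ring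
      have h3 : ∀ i, (⌊μ i / r⌋₊ : ℝ) ≤ μ i / r := fun i => Nat.floor_le (div_nonneg (hμ i) hr'.le)
      have h4 : ∑ i, ⌊μ i / r⌋₊ ≤ h := by
        rw [← Nat.cast_le (α := ℝ), ← h2, Nat.cast_sum]; exact sum_le_sum fun i _ => h3 i
      have h5 : h ≤ ∑ i, ⌊μ i / r⌋₊ + s := by
        rw [← Nat.cast_le (α := ℝ), ← h2]
        simpa [sum_add_distrib] using sum_le_sum (s := univ) fun i _ => (Nat.lt_floor_add_one (μ i / r)).le
      obtain ⟨j, hj⟩ := Nat.exists_eq_add_of_le' h4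
      have : (y - ∑ i, ⌊μ i / r⌋₊ • sz A τ r (v i, 1), j) ∈ Set.range e := by
        refine he ▸ ⟨by simp only; omega, ?_, x - ∑ i, ⌊μ i / r⌋₊ • v i, ?_⟩
        · have := Cone.sum univ fun i _ => Cone.smul (sub_nonneg.2 (h3 i)) (Cone.sg (r := r) hP (Cone.gen i))
          simp only [ga, sub_smul, sum_sub_distrib, div_eq_inv_mul, mul_smul, ← smul_sum, ← h1,
            inv_smul_smul₀ hr'.ne'] at this
          convert this using 1
          simp [Prod.ext_iff, Prod.fst_sum, Prod.snd_sum, Nat.cast_smul_eq_nsmul, -nsmul_eq_mul,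
            div_eq_inv_mul, hj]
          simp [div_eq_inv_mul, mul_add, mul_sum, mul_comm]
        · simp only [sub_eq_iff_eq_add, gz, sub_add_cancel, ← hj, hx]
      obtain ⟨i, hi⟩ := this
      exact ⟨i, fun i => ⌊μ i / r⌋₊, by simp [hi, hj], by simp [hi]⟩
    · rintro ⟨i, m, rfl, rfl⟩
      obtain ⟨-, h1, x, hx⟩ : e i ∈ {p : (Fin n → ℤ) × ℕ | p.2 ≤ s ∧ p.1 ∈ YY A τ r v p.2} := he ▸ ⟨i, rfl⟩
      refine ⟨?_, _, by rw [hx, gz]⟩
      have := Cone.add h1 (Cone.sum univ fun i _ =>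
        Cone.smul (m i).cast_nonneg (Cone.sg (r := r) hP (Cone.gen i)))
      convert this using 1
      simp [ga, Prod.ext_iff, Prod.fst_sum, Prod.snd_sum, Nat.cast_smul_eq_nsmul, -nsmul_eq_mul]
      simp [mul_add, mul_sum, mul_comm]
  · obtain ⟨k, a, hk, ha⟩ := coords W
    have := Set.ncard_le_ncard_of_injOn (s := YY A τ r v h) (t := ↑(Fintype.piFinset fun _ : Fin k =>
      Icc (-(R * (r * h : ℕ) : ℤ)) (R * (r * h : ℕ)))) (fun y i => y (a i))
      (fun y hy => by simpa only [mem_coe, Fintype.mem_piFinset] using fun i => hR y _ hy.1 (a i))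
      (fun y ⟨h1, x, hx⟩ y' ⟨h2, x', hx'⟩ e => cst_inj (sub_eq_zero.1 (ha _ (hW _ _ _ h1
        (ph_cst.2 (hx ▸ fix_sz hA hτ x h)) h2 (ph_cst.2 (hx' ▸ fix_sz hA hτ x' h))) fun i => by
          simp [cst_apply, show y (a i) = y' (a i) from congrFun e i]))) (finite_toSet _)
    rw [Set.ncard_coe_finset] at this
    simp only [Fintype.card_piFinset, Int.card_Icc, prod_const, card_univ, Fintype.card_fin,
      show ((R : ℤ) * (r * h : ℕ) + 1 - -(R * (r * h : ℕ))).toNat = 2 * (R * (r * h)) + 1 by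
        rw [← Nat.cast_mul]; omega] at this
    rw [← mul_pow]
    calc ((YY A τ r v h).ncard : ℝ) ≤ (2 * (R * (r * h)) + 1) ^ k := by exact_mod_cast this
      _ ≤ (2 * (R * (r * h)) + 1) ^ Module.finrank ℝ W :=
        pow_le_pow_right₀ (le_add_of_nonneg_left (by positivity)) hk
      _ ≤ _ := by gcongr; nlinarith [show (0 : ℝ) ≤ R * r by positivity, show (0 : ℝ) ≤ h by positivity]

lemma compare (hs : 0 < s) (hv : affineSpan ℝ (Set.range fun i => cst ℝ (v i)) = ⊤) (hr : 0 < r)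
    (hA : A ^ r = 1) (hτ : ∑ j ∈ range r, (A ^ j) *ᵥ τ = 0) (hP : ∀ i, ph A τ (cst ℝ (v i), 1) ∈ Cone v)
    (H : AddSubgroup (Fin n → ℤ)) (hH : ∀ x, x ∈ H ↔ ∃ l k, A *ᵥ l = l ∧ sz A τ r (k, 0) = 0 ∧ l + k = x)
    (h0 : H.index ≠ 0) : ∃ c : ℕ, (∀ h, H.index * (XX A τ v h).ncard ≤ (YY A τ r v (h + c)).ncard) ∧
      ∀ h Z, A *ᵥ Z + (h + c) • τ = Z → (YY A τ r v h).ncard ≤ H.index * (XX A τ v (h + c)).ncard := by
  have : Finite ((Fin n → ℤ) ⧸ H) := Nat.finite_of_card_ne_zero h0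
  obtain ⟨w, c, -, hw, hu⟩ := exists_w hs hv (Quotient.out : (Fin n → ℤ) ⧸ H → _)
  have hr' : (0 : ℝ) < r := by exact_mod_cast hr
  have k : ∀ u, (cst ℝ (w + u), (c : ℝ)) ∈ Cone v →
      (cst ℝ (sz A τ r (r • w + u, (r * c : ℕ))), ((r * (r * c) : ℕ) : ℝ)) ∈ Cone v := fun u h => by
    refine sz_mem hP ?_
    obtain ⟨r, rfl⟩ := Nat.exists_eq_add_of_lt hr
    convert Cone.add (Cone.smul r.cast_nonneg hw) h using 1
    simp [Nat.cast_smul_eq_nsmul, -nsmul_eq_mul, add_smul, add_assoc]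
    simp [add_mul]
  have card : ∀ h, H.index * (XX A τ v h).ncard =
      ((Set.univ : Set ((Fin n → ℤ) ⧸ H)) ×ˢ XX A τ v h).ncard := fun h => by
    rw [Set.ncard_prod, Set.ncard_univ]; rfl
  refine ⟨r * c, fun h => ?_, fun h Z hZ => ?_⟩
  · rw [card]
    refine Set.ncard_le_ncard_of_injOn (fun p => r • p.2 + sz A τ r (r • w + p.1.out, (r * c : ℕ)))
      (fun p hp => ⟨?_, p.2 + (r • w + p.1.out), ?_⟩) (fun p hp q hq e => ?_) (finY _)
    · convert Cone.add (Cone.smul hr'.le hp.2.1) (k _ (hu p.1).1) using 1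
      simp [Nat.cast_smul_eq_nsmul, -nsmul_eq_mul]
      simp [mul_add]
    · rw [← sz_fix hp.2.2, ← map_add]; simp
    · simp only [← sz_fix hp.2.2, ← sz_fix hq.2.2, ← map_add] at e
      rw [← sub_eq_zero, ← map_sub] at e
      have h1 : A *ᵥ (p.2 - q.2) = p.2 - q.2 := by
        rw [mulVec_sub]; linear_combination (exp := 1) hp.2.2 - hq.2.2
      have h2 : p.1 = q.1 := by
        rw [← p.1.out_eq', ← q.1.out_eq', QuotientAddGroup.eq, hH]
        refine ⟨p.2 - q.2, -(p.2 - q.2 + (p.1.out - q.1.out)), h1, ?_, by abel⟩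
        rw [← neg_eq_zero, ← map_neg, ← e]; congr 1; simp; abel
      have h3 := sz_fix (τ := τ) (r := r) (h := 0) (z := p.2 - q.2) (by simpa using h1)
      have h4 : r • (p.2 - q.2) = 0 := by rw [← h3, ← e, h2]; congr 1; simp
      exact Prod.ext h2 (sub_eq_zero.1 ((smul_eq_zero.1 h4).resolve_left hr.ne'))
  · rw [card]
    refine le_trans (Set.ncard_le_ncard (fun y ⟨hy, x, hx⟩ => ?_) ((Set.finite_univ.prod (finX _)).image
      fun p => r • p.2 - sz A τ r (r • w - p.1.out, (r * c : ℕ)))) (Set.ncard_image_le (Set.finite_univ.prod (finX _)))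
    obtain ⟨l, k', h1, h2, h3⟩ := (hH _).1 (QuotientAddGroup.eq.1
      (QuotientAddGroup.out_eq' (s := H) (x + r • w - Z : Fin n → ℤ)))
    generalize ((x + r • w - Z : Fin n → ℤ) : (Fin n → ℤ) ⧸ H) = q at h3
    have h4 : A *ᵥ (Z + l) + (h + r * c) • τ = Z + l := by
      rw [mulVec_add, h1]; linear_combination (exp := 1) hZ
    have h5 : r • (Z + l) = y + sz A τ r (r • w - q.out, (r * c : ℕ)) := by
      rw [← sz_fix h4, hx, ← map_add, ← add_zero (sz A τ r (_, _)), ← h2, ← map_add]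
      congr 1; simp; linear_combination (exp := 1) h3
    refine ⟨(q, Z + l), ⟨trivial, ?_, h4⟩, by simp only [h5]; abel⟩
    have := Cone.smul (inv_pos.2 hr').le (Cone.add hy (k (-q.out) (by simpa [sub_eq_add_neg] using (hu q).2)))
    rw [Prod.mk_add_mk, ← map_add, ← sub_eq_add_neg, ← h5] at this
    convert this using 1
    simp [← Nat.cast_smul_eq_nsmul ℝ, -nsmul_eq_mul, smul_smul, inv_mul_cancel₀ hr'.ne']
    field_simp

lemma squeeze {d : ℕ} {f g : ℕ → ℕ} (hf : Khov.Good d f) {c ind : ℕ} (h0 : 0 < ind)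
    (h1 : ∀ h, g h ≤ f (h + c)) (h2 : ∀ h m, h + c = m * ind → f h ≤ g (h + c)) : ∃ N : ℕ,
      Tendsto (fun m : ℕ => (d.factorial : ℝ) * ((g (m * ind) : ℝ) / ((m * ind : ℕ) : ℝ) ^ d)) atTop (𝓝 N) := by
  obtain ⟨N, hN⟩ := hf
  have t : Tendsto (fun m : ℕ => m * ind) atTop atTop := tendsto_id.atTop_mul_const' h0
  have a := ((hN.comp (tendsto_add_atTop_nat c)).mul (Khov.shift c d)).comp t
  have b := ((hN.comp (tendsto_sub_atTop_nat c)).mul (Khov.shift (-c) d)).comp t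
  rw [mul_one] at a b
  refine ⟨N, tendsto_of_tendsto_of_tendsto_of_le_of_le' b a ?_ ?_⟩
  · filter_upwards [t.eventually_gt_atTop c] with m hm
    have := h2 (m * ind - c) m (by omega)
    rw [Nat.sub_add_cancel hm.le] at this
    have h3 : (0 : ℝ) < ((m * ind - c : ℕ) : ℝ) := by exact_mod_cast Nat.sub_pos_of_lt hm
    simp only [Function.comp, div_pow, ← sub_eq_add_neg, ← Nat.cast_sub hm.le]
    rw [mul_assoc, div_mul_div_cancel₀ (by positivity)]
    gcongr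
  · filter_upwards [t.eventually_gt_atTop c] with m hm
    have h3 : (0 : ℝ) < ((m * ind + c : ℕ) : ℝ) := by exact_mod_cast (by omega : 0 < m * ind + c)
    simp only [Function.comp, div_pow, ← Nat.cast_add]
    rw [mul_assoc, div_mul_div_cancel₀ (by positivity)]
    gcongr
    exact h1 _

end Pool.Agent.Lib.helper25.EqC
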