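import Mathlib

namespace Pool.Agent.Lib.helper25.Insc

open Finset

lemma finsler {X : Type*} [NormedAddCommGroup X] [NormedSpace ℝ X] [ProperSpace X]
    (H : Set X) (hH : IsClosed H) (hs : ∀ (c : ℝ), ∀ x ∈ H, c • x ∈ H) (q r : X → ℝ)
    (cq : Continuous q) (cr : Continuous r) (hq2 : ∀ (c : ℝ) x, q (c • x) = c ^ 2 * q x)
    (hr2 : ∀ (c : ℝ) x, r (c • x) = c ^ 2 * r x) (h1 : ∀ x ∈ H, q x ≤ 0)
    (h2 : ∀ x ∈ H, x ≠ 0 → q x = 0 → r x < 0) :
    ∃ c : ℝ, ∀ x ∈ H, x ≠ 0 → q x + c * r x < 0 := by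
  have hK : IsCompact (Metric.sphere (0 : X) 1 ∩ H) := (isCompact_sphere 0 1).inter_right hH
  have key : ∃ c : ℝ, ∀ x ∈ Metric.sphere (0 : X) 1 ∩ H, q x + c * r x < 0 := by
    have hK' : IsCompact ((Metric.sphere (0 : X) 1 ∩ H) ∩ {x | 0 ≤ r x}) :=
      hK.inter_right (isClosed_le continuous_const cr)
    rcases ((Metric.sphere (0 : X) 1 ∩ H) ∩ {x | 0 ≤ r x}).eq_empty_or_nonempty with he | hne
    · refine ⟨1, fun x hx => ?_⟩
      have : r x < 0 := by
        by_contra hc
        push Not at hc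
        have : x ∈ (Metric.sphere (0 : X) 1 ∩ H) ∩ {x | 0 ≤ r x} := ⟨hx, hc⟩
        rw [he] at this
        exact this
      have := h1 x hx.2
      linarith
    · obtain ⟨x0, hx0, hm0⟩ := hK'.exists_isMaxOn hne cq.continuousOn
      obtain ⟨x1, hx1, hm1⟩ := hK'.exists_isMaxOn hne cr.continuousOn
      have hx0ne : x0 ≠ 0 := by
        rintro rfl
        have := hx0.1.1
        simp at this
      have hd : q x0 < 0 := by
        rcases (h1 x0 hx0.1.2).lt_or_eq with h | h
        · exact h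
        · have := h2 x0 hx0.1.2 hx0ne h
          have h3 : 0 ≤ r x0 := hx0.2
          linarith
      have hM : 0 ≤ r x1 := hx1.2
      have hc : 0 < -q x0 / (r x1 + 1) := div_pos (by linarith) (by linarith)
      refine ⟨-q x0 / (r x1 + 1), fun x hx => ?_⟩
      by_cases hr : 0 ≤ r x
      · have e1 : q x ≤ q x0 := hm0 ⟨hx, hr⟩
        have e2 : r x ≤ r x1 := hm1 ⟨hx, hr⟩
        have e3 : -q x0 / (r x1 + 1) * (r x1 + 1) = -q x0 := by field_simp
        nlinarith
      · push Not at hr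
        have := h1 x hx.2
        nlinarith
  obtain ⟨c, hc⟩ := key
  refine ⟨c, fun x hx hx0 => ?_⟩
  have hn : 0 < ‖x‖ := norm_pos_iff.2 hx0
  have := hc (‖x‖⁻¹ • x) ⟨by simp [norm_smul, hn.ne'], hs _ _ hx⟩
  rw [hq2, hr2] at this
  have h3 : 0 < (‖x‖⁻¹) ^ 2 := by positivity
  by_contra hcon
  push Not at hcon
  nlinarith [mul_nonneg h3.le hcon]

variable {I : Type*}

lemma minker (t u : I → ℝ) : ∀ (n : ℕ) (s : Finset I), s.card = n → ∀ A : ℝ, (∀ i ∈ s, A < t i) →
    0 ≤ ∑ i ∈ s, ∑ j ∈ s, u i * u j * (min (t i) (t j) - A) ∧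
    (∑ i ∈ s, ∑ j ∈ s, u i * u j * (min (t i) (t j) - A) = 0 →
      ∀ τ, ∑ i ∈ s with t i = τ, u i = 0) := by
  classical
  intro n
  induction n using Nat.strong_induction_on with
  | _ n ih =>
  intro s hs A hA
  rcases s.eq_empty_or_nonempty with rfl | hne
  · simp
  obtain ⟨i0, hi0, hmin⟩ := s.exists_min_image t hne
  set s' := s.filter (fun i => t i0 < t i) with hs'
  have hlt : s'.card < n := by
    rw [← hs]
    refine Finset.card_lt_card ⟨Finset.filter_subset _ _, fun h => ?_⟩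
    have := h hi0
    simp [hs'] at this
  obtain ⟨ih1, ih2⟩ := ih _ hlt s' rfl (t i0) (fun i hi => (Finset.mem_filter.1 hi).2)
  have e1 : ∑ i ∈ s, ∑ j ∈ s, u i * u j * (min (t i) (t j) - t i0) =
      ∑ i ∈ s', ∑ j ∈ s', u i * u j * (min (t i) (t j) - t i0) := by
    symm
    rw [hs', Finset.sum_filter]
    refine Finset.sum_congr rfl fun i hi => ?_
    split_ifs with h
    · rw [Finset.sum_filter]
      refine Finset.sum_congr rfl fun j hj => ?_
      split_ifs with h'
      · rfl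
      · have : t j = t i0 := le_antisymm (not_lt.1 h') (hmin j hj)
        rw [this, min_eq_right h.le]
        simp
    · have : t i = t i0 := le_antisymm (not_lt.1 h) (hmin i hi)
      symm
      refine Finset.sum_eq_zero fun j hj => ?_
      rw [this, min_eq_left (hmin j hj)]
      simp
  have e2 : ∑ i ∈ s, ∑ j ∈ s, u i * u j * (min (t i) (t j) - A) =
      (t i0 - A) * (∑ i ∈ s, u i) ^ 2 +
        ∑ i ∈ s, ∑ j ∈ s, u i * u j * (min (t i) (t j) - t i0) := by
    rw [sq, Finset.sum_mul_sum, Finset.mul_sum, ← Finset.sum_add_distrib]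
    refine Finset.sum_congr rfl fun i _ => ?_
    rw [Finset.mul_sum, ← Finset.sum_add_distrib]
    refine Finset.sum_congr rfl fun j _ => ?_
    ring
  have hpos : 0 < t i0 - A := sub_pos.2 (hA i0 hi0)
  have h3 : 0 ≤ (t i0 - A) * (∑ i ∈ s, u i) ^ 2 := by positivity
  rw [e2, e1]
  refine ⟨by linarith, fun h τ => ?_⟩
  have h4 : ∑ i ∈ s', ∑ j ∈ s', u i * u j * (min (t i) (t j) - t i0) = 0 := by linarith
  have h5 : (t i0 - A) * (∑ i ∈ s, u i) ^ 2 = 0 := by linarith
  have h6 : ∑ i ∈ s, u i = 0 := by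
    rcases mul_eq_zero.1 h5 with h | h
    · exact absurd h hpos.ne'
    · exact pow_eq_zero_iff (two_ne_zero) |>.1 h
  have h7 := ih2 h4
  have h8 : ∑ i ∈ s', u i = 0 := by
    rw [← Finset.sum_fiberwise_of_maps_to (s := s') (t := s'.image t) (g := t)
      (fun i hi => Finset.mem_image_of_mem _ hi)]
    exact Finset.sum_eq_zero fun τ _ => h7 τ
  by_cases hτ : τ = t i0
  · have h9 := Finset.sum_filter_add_sum_filter_not s (fun i => t i0 < t i) u
    rw [← hs', h8, h6, zero_add] at h9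
    rw [← h9]
    refine Finset.sum_congr ?_ fun _ _ => rfl
    ext i
    simp only [Finset.mem_filter, hτ, not_lt]
    exact ⟨fun h => ⟨h.1, h.2.le⟩, fun h => ⟨h.1, le_antisymm h.2 (hmin i h.1)⟩⟩
  · rw [← h7 τ]
    refine Finset.sum_congr ?_ fun _ _ => rfl
    ext i
    simp only [hs', Finset.mem_filter]
    constructor
    · rintro ⟨h1, h2⟩
      exact ⟨⟨h1, lt_of_le_of_ne (hmin i h1) (fun h => hτ (by rw [← h2, h]))⟩, h2⟩
    · rintro ⟨⟨h1, -⟩, h2⟩
      exact ⟨h1, h2⟩

variable [Fintype I]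

/-- the energy pairing -/
noncomputable def En (t x y : I → ℝ) : ℝ := ∑ i, ∑ j, x i * y j * |t i - t j|

lemma En_comm (t x y : I → ℝ) : En t x y = En t y x := by
  unfold En
  rw [Finset.sum_comm]
  refine Finset.sum_congr rfl fun i _ => Finset.sum_congr rfl fun j _ => ?_
  rw [abs_sub_comm]
  ring

lemma En_neg (t u : I → ℝ) (hu : ∑ i, u i = 0) :
    En t u u ≤ 0 ∧ (En t u u = 0 → ∀ τ, ∑ i with t i = τ, u i = 0) := by
  classical
  obtain ⟨A, hA⟩ : ∃ A, ∀ i, A < t i := by
    refine ⟨-(∑ i, |t i|) - 1, fun i => ?_⟩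
    have h1 : |t i| ≤ ∑ i, |t i| :=
      Finset.single_le_sum (f := fun i => |t i|) (fun i _ => abs_nonneg _) (Finset.mem_univ i)
    have := neg_abs_le (t i)
    linarith
  obtain ⟨h1, h2⟩ := minker t u _ Finset.univ rfl A (fun i _ => hA i)
  have e : En t u u = -2 * ∑ i, ∑ j, u i * u j * (min (t i) (t j) - A) := by
    have e0 : ∀ i j, u i * u j * |t i - t j| = -2 * (u i * u j * (min (t i) (t j) - A)) +
        (u i * (t i - A)) * u j + u i * (u j * (t j - A)) := by
      intro i j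
      rcases le_total (t i) (t j) with h | h
      · rw [min_eq_left h, abs_of_nonpos (by linarith)]; ring
      · rw [min_eq_right h, abs_of_nonneg (by linarith)]; ring
    unfold En
    simp only [e0, Finset.sum_add_distrib, ← Finset.mul_sum, ← Finset.sum_mul, hu]
    simp
  rw [e]
  exact ⟨by linarith, fun h => h2 (by linarith)⟩

lemma En_point (t x y : I → ℝ) (hy : ∀ i, 0 ≤ y i) (hx : ∀ i, 0 ≤ x i) (hm : ∑ i, x i = ∑ i, y i)
    (hmean : ∑ i, x i * t i = ∑ i, y i * t i) (τ : ℝ) (h1 : ∀ i, x i ≠ 0 → t i = τ)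
    (h2 : ∀ j, y j ≠ 0 → (∀ k, y k ≠ 0 → t j ≤ t k) ∨ (∀ k, y k ≠ 0 → t k ≤ t j)) :
    En t x x + En t y y - En t x y = 0 := by
  have hM : 0 ≤ ∑ i, x i := Finset.sum_nonneg fun i _ => hx i
  have e1 : En t x x = 0 := by
    refine Finset.sum_eq_zero fun i _ => Finset.sum_eq_zero fun j _ => ?_
    by_cases hi : x i = 0
    · simp [hi]
    by_cases hj : x j = 0
    · simp [hj]
    simp [h1 i hi, h1 j hj]
  have e2 : ∑ i, x i * t i = (∑ i, x i) * τ := by
    rw [Finset.sum_mul]
    refine Finset.sum_congr rfl fun i _ => ?_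
    by_cases hi : x i = 0
    · simp [hi]
    · rw [h1 i hi]
  rw [e1, zero_add, sub_eq_zero, En_comm t x y]
  refine Finset.sum_congr rfl fun j _ => ?_
  by_cases hj : y j = 0
  · simp [hj]
  have e3 : ∑ i, y j * x i * |t j - t i| = y j * ((∑ i, x i) * |t j - τ|) := by
    rw [Finset.sum_mul, Finset.mul_sum]
    refine Finset.sum_congr rfl fun i _ => ?_
    by_cases hi : x i = 0
    · simp [hi]
    · rw [h1 i hi]; ring
  have e4 : ∑ k, y k * (t j - t k) = (∑ i, x i) * (t j - τ) := by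
    simp only [mul_sub, Finset.sum_sub_distrib, ← Finset.sum_mul]
    rw [← hmean, e2, hm]
  have e5 : ∑ k, y k * |t j - t k| = |∑ k, y k * (t j - t k)| := by
    rcases h2 j hj with h | h
    · have : ∀ k, y k * |t j - t k| = -(y k * (t j - t k)) := by
        intro k
        by_cases hk : y k = 0
        · simp [hk]
        · rw [abs_of_nonpos (by linarith [h k hk])]; ring
      have h0 : 0 ≤ ∑ k, y k * |t j - t k| :=
        Finset.sum_nonneg fun k _ => mul_nonneg (hy k) (abs_nonneg _)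
      simp only [this, Finset.sum_neg_distrib] at h0 ⊢
      rw [abs_of_nonpos (by linarith)]
    · have : ∀ k, y k * |t j - t k| = y k * (t j - t k) := by
        intro k
        by_cases hk : y k = 0
        · simp [hk]
        · rw [abs_of_nonneg (by linarith [h k hk])]
      have h0 : 0 ≤ ∑ k, y k * |t j - t k| :=
        Finset.sum_nonneg fun k _ => mul_nonneg (hy k) (abs_nonneg _)
      simp only [this] at h0 ⊢
      rw [abs_of_nonneg h0]
  rw [e3, ← abs_of_nonneg hM, ← abs_mul, ← e4, ← e5, Finset.mul_sum]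
  refine Finset.sum_congr rfl fun k _ => ?_
  ring

end Pool.Agent.Lib.helper25.Insc
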