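import Pool.Agent.Lib.helper25.InscA

namespace Pool.Agent.Lib.helper25.Insc

open Finset

variable {I : Type*} [Fintype I] [DecidableEq I]

noncomputable def pp (b : I → ℝ) (i : I) : ℝ := if b i = 0 then 1 else max (b i) 0
noncomputable def nn (b : I → ℝ) (i : I) : ℝ := if b i = 0 then 1 else max (-b i) 0

omit [Fintype I] [DecidableEq I] in
lemma pn (b : I → ℝ) (i : I) : pp b i - nn b i = b i ∧ 0 ≤ pp b i ∧ 0 ≤ nn b i ∧
    0 < pp b i + nn b i ∧ (b i ≠ 0 → pp b i ≠ 0 → 0 < b i) ∧ (b i ≠ 0 → nn b i ≠ 0 → b i < 0) := by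
  unfold pp nn
  rcases lt_trichotomy (b i) 0 with h | h | h
  · simp [h.ne, max_eq_right h.le, max_eq_left (neg_nonneg.2 h.le), h, h.le]
  · simp [h]
  · simp [h.ne', max_eq_left h.le, max_eq_right (neg_nonpos.2 h.le), h, h.le]

/-- minimal nonnegative vectors of the plane cut by `a`, `b` -/
structure Vert (a b s : I → ℝ) : Prop where
  ne : s ≠ 0
  nonneg : ∀ i, 0 ≤ s i
  ha : ∑ i, a i * s i = 0
  hb : ∑ i, b i * s i = 0
  min : ∀ z : I → ℝ, ∑ i, a i * z i = 0 → ∑ i, b i * z i = 0 → (∀ i, s i = 0 → z i = 0) →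
    ∃ c : ℝ, z = c • s

section
variable {a b s : I → ℝ} (hab : ∀ i, b i = 0 → a i = 0) (hv : Vert a b s)
include hab hv

lemma F1 (i : I) (hb : b i = 0) (hs : s i ≠ 0) (j : I) (hj : s j ≠ 0) : j = i := by
  obtain ⟨c, hc⟩ := hv.min (Pi.single i 1) (by simp [Pi.single_apply, hab i hb])
    (by simp [Pi.single_apply, hb]) (fun l hl => by
      have : l ≠ i := by rintro rfl; exact hs hl
      simp [this])
  have h1 := congrFun hc i
  by_contra hne
  have h2 := congrFun hc j
  simp [hne, hj] at h1 h2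
  simp [h2] at h1

lemma hat (i : I) : a i = a i / b i * b i := by
  by_cases h : b i = 0
  · simp [h, hab i h]
  · field_simp

lemma F2 (i j : I) (hij : i ≠ j) (hi : s i ≠ 0) (hj : s j ≠ 0) (ht : a i / b i = a j / b j) :
    b i * b j ≤ 0 := by
  obtain ⟨c, hc⟩ := hv.min (Pi.single i (b j) + Pi.single j (-b i))
    (by
      simp only [Pi.add_apply, mul_add, Finset.sum_add_distrib, Pi.single_apply, mul_ite, mul_zero,
        Finset.sum_ite_eq', Finset.mem_univ, if_true]
      rw [hat hab hv i, hat hab hv j, ht]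
      ring)
    (by
      simp only [Pi.add_apply, mul_add, Finset.sum_add_distrib, Pi.single_apply, mul_ite, mul_zero,
        Finset.sum_ite_eq', Finset.mem_univ, if_true]
      ring)
    (fun l hl => by
      have h1 : l ≠ i := by rintro rfl; exact hi hl
      have h2 : l ≠ j := by rintro rfl; exact hj hl
      simp [h1, h2])
  have h1 := congrFun hc i
  have h2 := congrFun hc j
  simp only [Pi.add_apply, Pi.single_eq_same, Pi.single_eq_of_ne hij, Pi.single_eq_of_ne hij.symm,
    add_zero, zero_add, Pi.smul_apply, smul_eq_mul] at h1 h2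
  have h3 : b i = -(c * s j) := by linarith
  rw [h3, h1]
  have := mul_nonneg (mul_nonneg (hv.nonneg i) (hv.nonneg j)) (mul_self_nonneg c)
  nlinarith

lemma F3 (i j k : I) (hik : i ≠ k) (hjk : j ≠ k) (hi : s i ≠ 0) (hj : s j ≠ 0) (hk : s k ≠ 0)
    (bi : b i ≠ 0) (bj : b j ≠ 0) (bk : b k ≠ 0) (ht : a i / b i ≠ a j / b j) (l : I)
    (hl : s l ≠ 0) : l = i ∨ l = j ∨ l = k := by
  obtain ⟨c, hc⟩ := hv.min (Pi.single i ((a j / b j - a k / b k) / b i) +
      Pi.single j ((a k / b k - a i / b i) / b j) + Pi.single k ((a i / b i - a j / b j) / b k))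
    (by
      simp only [Pi.add_apply, mul_add, Finset.sum_add_distrib, Pi.single_apply, mul_ite, mul_zero,
        Finset.sum_ite_eq', Finset.mem_univ, if_true]
      field_simp
      ring)
    (by
      simp only [Pi.add_apply, mul_add, Finset.sum_add_distrib, Pi.single_apply, mul_ite, mul_zero,
        Finset.sum_ite_eq', Finset.mem_univ, if_true]
      field_simp
      ring)
    (fun l hl => by
      have h1 : l ≠ i := by rintro rfl; exact hi hl
      have h2 : l ≠ j := by rintro rfl; exact hj hl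
      have h3 : l ≠ k := by rintro rfl; exact hk hl
      simp [h1, h2, h3])
  have h1 := congrFun hc k
  simp only [Pi.add_apply, Pi.single_eq_same, Pi.single_eq_of_ne hik.symm,
    Pi.single_eq_of_ne hjk.symm, add_zero, zero_add, Pi.smul_apply, smul_eq_mul] at h1
  have hc0 : c ≠ 0 := by
    rintro rfl
    rw [zero_mul, div_eq_zero_iff] at h1
    rcases h1 with h | h
    · exact ht (sub_eq_zero.1 h)
    · exact bk h
  by_contra hcon
  push Not at hcon
  have h2 := congrFun hc l
  simp [hcon.1, hcon.2.1, hcon.2.2, hc0, hl] at h2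

lemma noThree (ε : ℝ) (k j l : I) (hk : s k ≠ 0) (hj : s j ≠ 0) (hl : s l ≠ 0)
    (bk : 0 < ε * b k) (bj : 0 < ε * b j) (bl : 0 < ε * b l) (h1 : a k / b k < a j / b j)
    (h2 : a j / b j < a l / b l) : False := by
  have hb0 : ∀ i, 0 < ε * b i → b i ≠ 0 := fun i h h0 => by simp [h0] at h
  have hs := F3 hab hv k j l (by rintro rfl; linarith) (by rintro rfl; linarith) hk hj hl
    (hb0 _ bk) (hb0 _ bj) (hb0 _ bl) h1.ne
  have h3 : 0 < ∑ i, ε * (b i * s i) := by
    refine Finset.sum_pos' (fun i _ => ?_) ⟨j, Finset.mem_univ _, ?_⟩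
    · by_cases hi : s i = 0
      · simp [hi]
      · rw [← mul_assoc]
        refine mul_nonneg ?_ (hv.nonneg i)
        rcases hs i hi with rfl | rfl | rfl
        exacts [bk.le, bj.le, bl.le]
    · rw [← mul_assoc]
      exact mul_pos bj (lt_of_le_of_ne (hv.nonneg j) (Ne.symm hj))
  rw [← Finset.mul_sum, hv.hb] at h3
  simp at h3

omit hv in
lemma mass (z : I → ℝ) (ha : ∑ i, a i * z i = 0) (hb : ∑ i, b i * z i = 0) :
    ∑ i, pp b i * z i = ∑ i, nn b i * z i ∧
    ∑ i, pp b i * z i * (a i / b i) = ∑ i, nn b i * z i * (a i / b i) := by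
  constructor
  · rw [← sub_eq_zero, ← Finset.sum_sub_distrib, ← hb]
    refine Finset.sum_congr rfl fun i _ => ?_
    rw [← sub_mul, (pn b i).1]
  · rw [← sub_eq_zero, ← Finset.sum_sub_distrib, ← ha]
    refine Finset.sum_congr rfl fun i _ => ?_
    have : a i = a i / b i * b i := by
      by_cases h : b i = 0
      · simp [h, hab i h]
      · field_simp
    rw [← sub_mul, ← sub_mul, (pn b i).1]
    linear_combination (-(z i)) * this

lemma vert_q : En (fun i => a i / b i) (fun i => pp b i * s i) (fun i => pp b i * s i) +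
    En (fun i => a i / b i) (fun i => nn b i * s i) (fun i => nn b i * s i) -
    En (fun i => a i / b i) (fun i => pp b i * s i) (fun i => nn b i * s i) = 0 := by
  obtain ⟨m1, m2⟩ := mass hab s hv.ha hv.hb
  have hx : ∀ i, 0 ≤ pp b i * s i := fun i => mul_nonneg (pn b i).2.1 (hv.nonneg i)
  have hy : ∀ i, 0 ≤ nn b i * s i := fun i => mul_nonneg (pn b i).2.2.1 (hv.nonneg i)
  by_cases hz : ∃ i, b i = 0 ∧ s i ≠ 0
  · obtain ⟨i, hi, hsi⟩ := hz
    refine En_point _ _ _ hy hx m1 m2 (a i / b i) (fun j hj => ?_) (fun j hj => Or.inl fun k hk => ?_)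
    · rw [F1 hab hv i hi hsi j (right_ne_zero_of_mul hj)]
    · rw [F1 hab hv i hi hsi j (right_ne_zero_of_mul hj), F1 hab hv i hi hsi k (right_ne_zero_of_mul hk)]
  push Not at hz
  have hz' : ∀ i, s i ≠ 0 → b i ≠ 0 := fun i hi h => hi (hz i h)
  have px : ∀ i, pp b i * s i ≠ 0 → s i ≠ 0 ∧ 0 < b i := fun i hi =>
    ⟨right_ne_zero_of_mul hi, (pn b i).2.2.2.2.1 (hz' i (right_ne_zero_of_mul hi))
      (left_ne_zero_of_mul hi)⟩
  have py : ∀ i, nn b i * s i ≠ 0 → s i ≠ 0 ∧ b i < 0 := fun i hi =>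
    ⟨right_ne_zero_of_mul hi, (pn b i).2.2.2.2.2 (hz' i (right_ne_zero_of_mul hi))
      (left_ne_zero_of_mul hi)⟩
  by_cases hA : ∃ τ, ∀ i, pp b i * s i ≠ 0 → a i / b i = τ
  · obtain ⟨τ, hτ⟩ := hA
    refine En_point _ _ _ hy hx m1 m2 τ hτ (fun j hj => ?_)
    by_contra hcon
    push Not at hcon
    obtain ⟨⟨k, hk, h1⟩, ⟨l, hl, h2⟩⟩ := hcon
    exact noThree hab hv (-1) k j l (py k hk).1 (py j hj).1 (py l hl).1 (by linarith [(py k hk).2])
      (by linarith [(py j hj).2]) (by linarith [(py l hl).2]) h1 h2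
  have hB : ∃ τ, ∀ i, nn b i * s i ≠ 0 → a i / b i = τ := by
    by_contra hB
    push Not at hA hB
    obtain ⟨i, hi, -⟩ := hA 0
    obtain ⟨i', hi', h1⟩ := hA (a i / b i)
    obtain ⟨j, hj, -⟩ := hB 0
    obtain ⟨j', hj', h2⟩ := hB (a j / b j)
    have q1 := px i hi
    have q2 := px i' hi'
    have q3 := py j hj
    have q4 := py j' hj'
    rcases F3 hab hv i i' j (by rintro rfl; linarith [q1.2, q3.2])
      (by rintro rfl; linarith [q2.2, q3.2]) q1.1 q2.1 q3.1 q1.2.ne' q2.2.ne' q3.2.ne h1.symm j'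
      q4.1 with rfl | rfl | rfl
    · linarith [q1.2, q4.2]
    · linarith [q2.2, q4.2]
    · exact h2 rfl
  obtain ⟨τ, hτ⟩ := hB
  rw [En_comm _ (fun i => pp b i * s i) (fun i => nn b i * s i), add_comm]
  refine En_point _ _ _ hx hy m1.symm m2.symm τ hτ (fun j hj => ?_)
  by_contra hcon
  push Not at hcon
  obtain ⟨⟨k, hk, h1⟩, ⟨l, hl, h2⟩⟩ := hcon
  exact noThree hab hv 1 k j l (px k hk).1 (px j hj).1 (px l hl).1 (by linarith [(px k hk).2])
    (by linarith [(px j hj).2]) (by linarith [(px l hl).2]) h1 h2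

lemma vert_r (i j : I) (hij : i ≠ j) (ht : a i / b i = a j / b j) :
    (pp b i * pp b j + nn b i * nn b j) * s i * s j = 0 := by
  by_cases hi : s i = 0
  · simp [hi]
  by_cases hj : s j = 0
  · simp [hj]
  have bi : b i ≠ 0 := fun h => hij (F1 hab hv i h hi j hj).symm
  have bj : b j ≠ 0 := fun h => hij (F1 hab hv j h hj i hi)
  have h := F2 hab hv i j hij hi hj ht
  have h1 : pp b i * pp b j = 0 := by
    by_contra hc
    have := mul_pos ((pn b i).2.2.2.2.1 bi (left_ne_zero_of_mul hc))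
      ((pn b j).2.2.2.2.1 bj (right_ne_zero_of_mul hc))
    linarith
  have h2 : nn b i * nn b j = 0 := by
    by_contra hc
    have := mul_pos_of_neg_of_neg ((pn b i).2.2.2.2.2 bi (left_ne_zero_of_mul hc))
      ((pn b j).2.2.2.2.2 bj (right_ne_zero_of_mul hc))
    linarith
  simp [h1, h2]

lemma vert_l : 0 < ∑ i, pp b i * s i := by
  obtain ⟨m1, -⟩ := mass hab s hv.ha hv.hb
  obtain ⟨j, hj⟩ := Function.ne_iff.1 hv.ne
  have : 0 < ∑ i, (pp b i + nn b i) * s i :=
    Finset.sum_pos' (fun i _ => mul_nonneg (pn b i).2.2.2.1.le (hv.nonneg i))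
      ⟨j, Finset.mem_univ _, mul_pos (pn b j).2.2.2.1 (lt_of_le_of_ne (hv.nonneg j) (Ne.symm hj))⟩
  simp only [add_mul, Finset.sum_add_distrib] at this
  linarith

end

lemma En_sub (t x y : I → ℝ) : En t (fun i => x i - y i) (fun i => x i - y i) =
    En t x x + En t y y - En t x y - En t y x := by
  unfold En
  simp only [← Finset.sum_add_distrib, ← Finset.sum_sub_distrib]
  refine Finset.sum_congr rfl fun i _ => Finset.sum_congr rfl fun j _ => ?_
  ring

theorem exists_kernel (a b : I → ℝ) (hab : ∀ i, b i = 0 → a i = 0) :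
    ∃ (p : I → ℝ) (K : I → I → ℝ), (∀ i j, K i j = K j i) ∧
      (∀ s : I → ℝ, ∑ i, a i * s i = 0 → ∑ i, b i * s i = 0 → ∑ i, p i * s i = 0 → s ≠ 0 →
        ∑ i, ∑ j, K i j * s i * s j < 0) ∧
      ∀ s, Vert a b s → 0 < ∑ i, p i * s i ∧ ∑ i, ∑ j, K i j * s i * s j = 0 := by
  classical
  set t : I → ℝ := fun i => a i / b i with ht
  let K0 : I → I → ℝ := fun i j => (pp b i * pp b j + nn b i * nn b j -
    (pp b i * nn b j + nn b i * pp b j) / 2) * |t i - t j|
  let K1 : I → I → ℝ := fun i j =>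
    if i ≠ j ∧ t i = t j then pp b i * pp b j + nn b i * nn b j else 0
  have hq : ∀ s : I → ℝ, ∑ i, ∑ j, K0 i j * s i * s j =
      En t (fun i => pp b i * s i) (fun i => pp b i * s i) +
      En t (fun i => nn b i * s i) (fun i => nn b i * s i) -
      En t (fun i => pp b i * s i) (fun i => nn b i * s i) := by
    intro s
    have h2 : En t (fun i => pp b i * s i) (fun i => nn b i * s i) =
        (En t (fun i => pp b i * s i) (fun i => nn b i * s i) +
          En t (fun i => nn b i * s i) (fun i => pp b i * s i)) / 2 := by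
      rw [En_comm t (fun i => nn b i * s i)]
      ring
    rw [h2]
    unfold En
    simp only [← Finset.sum_add_distrib, ← Finset.sum_sub_distrib, Finset.sum_div]
    refine Finset.sum_congr rfl fun i _ => Finset.sum_congr rfl fun j _ => ?_
    simp only [K0]
    ring
  have hsc : ∀ (K : I → I → ℝ) (c : ℝ) (s : I → ℝ), ∑ i, ∑ j, K i j * (c • s) i * (c • s) j =
      c ^ 2 * ∑ i, ∑ j, K i j * s i * s j := by
    intro K c s
    simp only [Finset.mul_sum, Pi.smul_apply, smul_eq_mul]
    refine Finset.sum_congr rfl fun i _ => Finset.sum_congr rfl fun j _ => ?_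
    ring
  have hneg : ∀ s : I → ℝ, ∑ i, a i * s i = 0 → ∑ i, b i * s i = 0 → ∑ i, pp b i * s i = 0 →
      ∑ i, ∑ j, K0 i j * s i * s j ≤ 0 ∧ (s ≠ 0 → ∑ i, ∑ j, K0 i j * s i * s j = 0 →
        ∑ i, ∑ j, K1 i j * s i * s j < 0) := by
    intro s ha hb hp
    have hn : ∑ i, nn b i * s i = 0 := by rw [← (mass hab s ha hb).1, hp]
    obtain ⟨x1, x2⟩ := En_neg t (fun i => pp b i * s i) hp
    obtain ⟨y1, y2⟩ := En_neg t (fun i => nn b i * s i) hn
    obtain ⟨z1, -⟩ := En_neg t (fun i => pp b i * s i - nn b i * s i)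
      (by rw [Finset.sum_sub_distrib, hp, hn, sub_zero])
    rw [En_sub, En_comm t (fun i => nn b i * s i) (fun i => pp b i * s i)] at z1
    rw [hq]
    refine ⟨by linarith, fun hs h0 => ?_⟩
    have x3 := x2 (by linarith)
    have y3 := y2 (by linarith)
    have e : ∀ i, ∑ j, K1 i j * s i * s j = -((pp b i ^ 2 + nn b i ^ 2) * s i ^ 2) := by
      intro i
      have e1 : ∀ j, K1 i j * s i * s j =
          pp b i * s i * (if t j = t i then pp b j * s j else 0) +
          nn b i * s i * (if t j = t i then nn b j * s j else 0) -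
          (if j = i then (pp b i ^ 2 + nn b i ^ 2) * s i ^ 2 else 0) := by
        intro j
        simp only [K1]
        by_cases h1 : j = i
        · subst h1
          simp
          ring
        · by_cases h2 : t j = t i
          · rw [if_pos ⟨fun h => h1 h.symm, h2.symm⟩, if_pos h2, if_pos h2, if_neg h1]
            ring
          · rw [if_neg (fun h => h2 h.2.symm), if_neg h2, if_neg h2, if_neg h1]
            ring
      have x4 := x3 (t i)
      have y4 := y3 (t i)
      rw [Finset.sum_filter] at x4 y4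
      simp only [e1, Finset.sum_sub_distrib, Finset.sum_add_distrib, ← Finset.mul_sum, x4, y4,
        Finset.sum_ite_eq', Finset.mem_univ, if_true]
      ring
    simp only [e, Finset.sum_neg_distrib, neg_lt_zero]
    obtain ⟨j, hj⟩ := Function.ne_iff.1 hs
    refine Finset.sum_pos' (fun i _ => by positivity) ⟨j, Finset.mem_univ _, ?_⟩
    have h1 := (pn b j).2.2.2.1
    have h2 : 0 < pp b j ^ 2 + nn b j ^ 2 := by nlinarith [sq_nonneg (pp b j - nn b j)]
    have h3 : 0 < s j ^ 2 := by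
      have : s j ≠ 0 := hj
      positivity
    positivity
  obtain ⟨c, hc⟩ := finsler
    {s : I → ℝ | ∑ i, a i * s i = 0 ∧ ∑ i, b i * s i = 0 ∧ ∑ i, pp b i * s i = 0}
    ((isClosed_eq (by fun_prop) continuous_const).inter
      ((isClosed_eq (by fun_prop) continuous_const).inter
        (isClosed_eq (by fun_prop) continuous_const)))
    (fun c x hx => by
      obtain ⟨h1, h2, h3⟩ := hx
      have : ∀ w : I → ℝ, ∑ i, w i * (c • x) i = c * ∑ i, w i * x i := by
        intro w
        simp only [Finset.mul_sum, Pi.smul_apply, smul_eq_mul]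
        exact Finset.sum_congr rfl fun i _ => by ring
      exact ⟨by rw [this, h1, mul_zero], by rw [this, h2, mul_zero], by rw [this, h3, mul_zero]⟩)
    (fun s => ∑ i, ∑ j, K0 i j * s i * s j) (fun s => ∑ i, ∑ j, K1 i j * s i * s j)
    (by fun_prop) (by fun_prop) (hsc K0) (hsc K1) (fun s hs => (hneg s hs.1 hs.2.1 hs.2.2).1)
    (fun s hs => (hneg s hs.1 hs.2.1 hs.2.2).2)
  have hsum : ∀ s : I → ℝ, ∑ i, ∑ j, (K0 i j + c * K1 i j) * s i * s j =
      ∑ i, ∑ j, K0 i j * s i * s j + c * ∑ i, ∑ j, K1 i j * s i * s j := by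
    intro s
    simp only [Finset.mul_sum, ← Finset.sum_add_distrib]
    refine Finset.sum_congr rfl fun i _ => Finset.sum_congr rfl fun j _ => ?_
    ring
  refine ⟨pp b, fun i j => K0 i j + c * K1 i j, fun i j => ?_, fun s h1 h2 h3 h4 => ?_,
    fun s hs => ⟨vert_l hab hs, ?_⟩⟩
  · simp only [K0, K1]
    rw [abs_sub_comm (t i)]
    have : (i ≠ j ∧ t i = t j) ↔ (j ≠ i ∧ t j = t i) := ⟨fun h => ⟨h.1.symm, h.2.symm⟩,
      fun h => ⟨h.1.symm, h.2.symm⟩⟩
    simp only [this]
    split_ifs <;> ring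
  · rw [hsum]
    exact hc s ⟨h1, h2, h3⟩ h4
  · rw [hsum, hq, vert_q hab hs]
    have : ∑ i, ∑ j, K1 i j * s i * s j = 0 := by
      refine Finset.sum_eq_zero fun i _ => Finset.sum_eq_zero fun j _ => ?_
      simp only [K1]
      split_ifs with h
      · exact vert_r hab hs i j h.1 h.2
      · simp
    rw [this]
    simp

end Pool.Agent.Lib.helper25.Insc
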