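import Pool.Agent.Lib.helper25.InscB

namespace Pool.Agent.Lib.helper25.Insc

open Finset Module

lemma exists_ab {I : Type*} [Fintype I] [DecidableEq I] (L : Submodule ℝ (I → ℝ))
    (h : Fintype.card I ≤ finrank ℝ L + 2) :
    ∃ a b : I → ℝ, (∀ i, b i = 0 → a i = 0) ∧
      ∀ s, s ∈ L ↔ ∑ i, a i * s i = 0 ∧ ∑ i, b i * s i = 0 := by
  have h1 := Submodule.finrank_quotient_add_finrank L
  rw [Module.finrank_fintype_fun_eq_card] at h1
  have h2 : finrank ℝ ((I → ℝ) ⧸ L) ≤ finrank ℝ (ℝ × ℝ) := by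
    rw [Module.finrank_prod, Module.finrank_self]
    omega
  obtain ⟨g, hg⟩ := finrank_le_iff_exists_linearMap.1 h2
  let G : (I → ℝ) →ₗ[ℝ] ℝ × ℝ := g ∘ₗ L.mkQ
  have hG : ∀ s, s ∈ L ↔ G s = 0 := by
    intro s
    simp only [G, LinearMap.comp_apply]
    rw [map_eq_zero_iff g hg, Submodule.mkQ_apply, Submodule.Quotient.mk_eq_zero]
  let a0 : I → ℝ := fun i => (G fun j => if i = j then 1 else 0).1
  let b0 : I → ℝ := fun i => (G fun j => if i = j then 1 else 0).2
  have ha : ∀ s, (G s).1 = ∑ i, a0 i * s i := by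
    intro s
    rw [LinearMap.pi_apply_eq_sum_univ G s, Prod.fst_sum]
    exact Finset.sum_congr rfl fun i _ => by simp [a0, mul_comm]
  have hb : ∀ s, (G s).2 = ∑ i, b0 i * s i := by
    intro s
    rw [LinearMap.pi_apply_eq_sum_univ G s, Prod.snd_sum]
    exact Finset.sum_congr rfl fun i _ => by simp [b0, mul_comm]
  obtain ⟨θ, hθ⟩ := Infinite.exists_notMem_finset (univ.image fun i => -b0 i / a0 i)
  refine ⟨a0, fun i => b0 i + θ * a0 i, fun i hi => ?_, fun s => ?_⟩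
  · by_contra h0
    refine hθ (Finset.mem_image.2 ⟨i, Finset.mem_univ _, ?_⟩)
    field_simp
    linarith
  · have e : ∑ i, (b0 i + θ * a0 i) * s i = ∑ i, b0 i * s i + θ * ∑ i, a0 i * s i := by
      rw [Finset.mul_sum, ← Finset.sum_add_distrib]
      exact Finset.sum_congr rfl fun i _ => by ring
    rw [hG, e, ← ha, ← hb, Prod.ext_iff]
    simp only [Prod.fst_zero, Prod.snd_zero]
    constructor
    · rintro ⟨h1, h2⟩
      simp [h1, h2]
    · rintro ⟨h1, h2⟩
      refine ⟨h1, ?_⟩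
      simpa [h1] using h2

variable {W : Type*} [AddCommGroup W] [Module ℝ W] [FiniteDimensional ℝ W]

lemma exists_form {I : Type*} [Fintype I] (σ : W →ₗ[ℝ] (I → ℝ)) (hσ : Function.Injective σ)
    (h : Fintype.card I ≤ finrank ℝ W + 2) :
    ∃ (ℓ : W →ₗ[ℝ] ℝ) (B : LinearMap.BilinForm ℝ W), B.IsSymm ∧
      (∀ y, ℓ y = 0 → y ≠ 0 → B y y < 0) ∧
      ∀ y, y ≠ 0 → (∀ i, 0 ≤ σ y i) → (∀ z, (∀ i, σ y i = 0 → σ z i = 0) → ∃ c : ℝ, z = c • y) →
        0 < ℓ y ∧ B y y = 0 := by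
  classical
  obtain ⟨a, b, hab, hL⟩ := exists_ab (LinearMap.range σ)
    (by rw [LinearMap.finrank_range_of_inj hσ]; exact h)
  obtain ⟨p, K, hK, h1, h2⟩ := exists_kernel a b hab
  let ℓ : W →ₗ[ℝ] ℝ := ∑ i, p i • (LinearMap.proj i ∘ₗ σ)
  have hℓ : ∀ y, ℓ y = ∑ i, p i * σ y i := by
    intro y
    simp [ℓ, LinearMap.sum_apply]
  let B : LinearMap.BilinForm ℝ W := (Matrix.toBilin' (Matrix.of K)).comp σ σ
  have hB : ∀ y z, B y z = ∑ i, ∑ j, K i j * σ y i * σ z j := by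
    intro y z
    simp only [B, LinearMap.BilinForm.comp_apply, Matrix.toBilin'_apply, Matrix.of_apply]
    exact Finset.sum_congr rfl fun i _ => Finset.sum_congr rfl fun j _ => by ring
  refine ⟨ℓ, B, ⟨fun y z => ?_⟩, fun y hy hy0 => ?_, fun y hy0 hy hmin => ?_⟩
  · rw [hB, hB, Finset.sum_comm]
    exact Finset.sum_congr rfl fun i _ => Finset.sum_congr rfl fun j _ => by rw [hK]; ring
  · obtain ⟨q1, q2⟩ := (hL (σ y)).1 ⟨y, rfl⟩
    rw [hB]
    exact h1 _ q1 q2 (by rw [← hℓ, hy]) (fun h => hy0 (hσ (by rw [h, map_zero])))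
  · obtain ⟨q1, q2⟩ := (hL (σ y)).1 ⟨y, rfl⟩
    rw [hB, hℓ]
    refine h2 _ ⟨fun h => hy0 (hσ (by rw [h, map_zero])), hy, q1, q2, fun z z1 z2 z3 => ?_⟩
    obtain ⟨w, rfl⟩ := (hL z).2 ⟨z1, z2⟩
    obtain ⟨c, rfl⟩ := hmin w z3
    exact ⟨c, map_smul _ _ _⟩

lemma exists_sphere {d : ℕ} (hd : finrank ℝ W = d + 1) (ℓ : W →ₗ[ℝ] ℝ) (y1 : W) (hy1 : ℓ y1 = 1)
    (B : LinearMap.BilinForm ℝ W) (hB : B.IsSymm) (hneg : ∀ y, ℓ y = 0 → y ≠ 0 → B y y < 0) :
    ∃ (ρ : W →ₗ[ℝ] EuclideanSpace ℝ (Fin d)) (c : EuclideanSpace ℝ (Fin d)) (R : ℝ),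
      (∀ y, ρ y = 0 → ℓ y = 0 → y = 0) ∧ ∀ y, ℓ y = 1 → B y y = 0 → dist (ρ y) c = R := by
  classical
  have hH : finrank ℝ (LinearMap.ker ℓ) = d := by
    have h1 := LinearMap.finrank_range_add_finrank_ker ℓ
    have h2 : LinearMap.range ℓ = ⊤ := by
      rw [eq_top_iff]
      intro x _
      exact ⟨x • y1, by simp [hy1]⟩
    rw [h2, finrank_top, Module.finrank_self] at h1
    omega
  have hBs : ∀ x y, B x y = B y x := fun x y => by simpa using hB.eq x y
  obtain ⟨v0, hv0⟩ := LinearMap.BilinForm.exists_orthogonal_basis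
    (B := B.restrict (LinearMap.ker ℓ)) ⟨fun x y => by simpa using hBs _ _⟩
  let v : Basis (Fin d) ℝ (LinearMap.ker ℓ) := v0.reindex (finCongr hH)
  have hv : ∀ i j, i ≠ j → B (v i) (v j) = 0 := by
    intro i j hij
    have := hv0 (i := (finCongr hH).symm i) (j := (finCongr hH).symm j)
      (fun h => hij ((finCongr hH).symm.injective h))
    simpa [v, Function.onFun] using this
  have hβ : ∀ k, 0 < -B (v k) (v k) := fun k =>
    neg_pos.2 (hneg _ (v k).2 (fun h => v.ne_zero k (Subtype.ext h)))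
  let π : W →ₗ[ℝ] LinearMap.ker ℓ := LinearMap.codRestrict _ (LinearMap.id - ℓ.smulRight y1)
    (fun y => by simp [hy1])
  have hπ : ∀ y, (π y : W) = y - ℓ y • y1 := fun y => rfl
  let ρ : W →ₗ[ℝ] EuclideanSpace ℝ (Fin d) := (WithLp.linearEquiv 2 ℝ (Fin d → ℝ)).symm.toLinearMap ∘ₗ
    LinearMap.pi fun k => √(-B (v k) (v k)) • (v.coord k ∘ₗ π)
  have hρ : ∀ y k, ρ y k = √(-B (v k) (v k)) * v.repr (π y) k := fun y k => rfl
  let c : EuclideanSpace ℝ (Fin d) := WithLp.toLp 2 fun k => B y1 (v k) / √(-B (v k) (v k))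
  refine ⟨ρ, c, √(B y1 y1 + ∑ k, c k ^ 2), fun y h1 h2 => ?_, fun y h1 h2 => ?_⟩
  · have h3 : π y = 0 := by
      refine v.forall_coord_eq_zero_iff.1 fun k => ?_
      have h4 := hρ y k
      rw [h1] at h4
      rcases mul_eq_zero.1 h4.symm with h | h
      · exact absurd h (Real.sqrt_pos.2 (hβ k)).ne'
      · exact h
    have := hπ y
    rw [h3, h2] at this
    simpa using this.symm
  · rw [EuclideanSpace.dist_eq]
    congr 1
    have e1 : y = y1 + ∑ k, v.repr (π y) k • (v k : W) := by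
      have h3 := congrArg (fun x : LinearMap.ker ℓ => (x : W)) (v.sum_repr (π y))
      simp only [AddSubmonoidClass.coe_finsetSum, SetLike.val_smul] at h3
      rw [h3, hπ, h1]
      simp
    have e2 : ∀ j, B (∑ k, v.repr (π y) k • (v k : W)) (v j) = v.repr (π y) j * B (v j) (v j) := by
      intro j
      rw [map_sum, LinearMap.sum_apply, Finset.sum_eq_single j]
      · simp
      · intro k _ hk
        simp [hv k j hk]
      · simp
    have e3 : B y y = B y1 y1 + ∑ k, (2 * v.repr (π y) k * B y1 (v k) +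
        v.repr (π y) k ^ 2 * B (v k) (v k)) := by
      generalize v.repr (π y) = r at e1 e2 ⊢
      have e4 : B y1 (∑ k, r k • (v k : W)) = ∑ k, r k * B y1 (v k) := by
        rw [map_sum]; simp
      have e5 : B (∑ k, r k • (v k : W)) (∑ k, r k • (v k : W)) =
          ∑ k, r k ^ 2 * B (v k) (v k) := by
        rw [map_sum]
        refine Finset.sum_congr rfl fun k _ => ?_
        rw [map_smul, e2, smul_eq_mul]
        ring
      rw [e1]
      simp only [map_add, LinearMap.add_apply]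
      rw [hBs (∑ k, r k • (v k : W)) y1, e4, e5, Finset.sum_add_distrib]
      have : ∑ k, 2 * r k * B y1 (v k) = 2 * ∑ k, r k * B y1 (v k) := by
        rw [Finset.mul_sum]
        exact Finset.sum_congr rfl fun k _ => by ring
      rw [this]
      ring
    have e6 : ∀ k, dist (ρ y k) (c k) ^ 2 = c k ^ 2 - (2 * v.repr (π y) k * B y1 (v k) +
        v.repr (π y) k ^ 2 * B (v k) (v k)) := by
      intro k
      have hs := Real.sqrt_pos.2 (hβ k)
      have hq := Real.sq_sqrt (hβ k).le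
      have hc : √(-B (v k) (v k)) * c k = B y1 (v k) := by
        simp only [c]
        field_simp
      rw [Real.dist_eq, sq_abs, hρ]
      linear_combination (v.repr (π y) k) ^ 2 * hq - 2 * (v.repr (π y) k) * hc
    simp only [e6, Finset.sum_sub_distrib]
    linarith

end Pool.Agent.Lib.helper25.Insc
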