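import Pool.Agent.Lib.helper25.InscC

namespace Pool.Agent.Lib.helper25.Insc

open Finset Module

variable {E : Type*} [NormedAddCommGroup E] [NormedSpace ℝ E] [FiniteDimensional ℝ E]

omit [FiniteDimensional ℝ E] in
lemma val (V : Finset E) (f : Dual ℝ (E × ℝ)) (w : E → ℝ) (hw : ∑ y ∈ V, w y = 1) :
    f (∑ y ∈ V, w y • y, 1) = ∑ y ∈ V, w y * f (y, 1) := by
  have : ((∑ y ∈ V, w y • y, 1) : E × ℝ) = ∑ y ∈ V, w y • ((y, 1) : E × ℝ) := by
    ext
    · simp [Prod.fst_sum]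
    · simp [Prod.snd_sum, hw]
  rw [this, map_sum]
  simp only [map_smul, smul_eq_mul]

omit [FiniteDimensional ℝ E] in
lemma nonneg_hull (V : Finset E) (f : Dual ℝ (E × ℝ)) (hf : ∀ v ∈ V, 0 ≤ f (v, 1)) (x : E)
    (hx : x ∈ convexHull ℝ (V : Set E)) : 0 ≤ f (x, 1) := by
  obtain ⟨w, h1, h2, rfl⟩ := Finset.mem_convexHull'.1 hx
  rw [val V f w h2]
  exact Finset.sum_nonneg fun y hy => mul_nonneg (h1 y hy) (hf y hy)

omit [FiniteDimensional ℝ E] in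
lemma zero_face (V : Finset E) (f : Dual ℝ (E × ℝ)) (hf : ∀ v ∈ V, 0 ≤ f (v, 1)) :
    {x ∈ convexHull ℝ (V : Set E) | f (x, 1) = 0} =
      convexHull ℝ ((V.filter fun v => f (v, 1) = 0 : Finset E) : Set E) := by
  ext x
  constructor
  · rintro ⟨hx, h0⟩
    obtain ⟨w, h1, h2, rfl⟩ := Finset.mem_convexHull'.1 hx
    rw [val V f w h2, Finset.sum_eq_zero_iff_of_nonneg
      (fun y hy => mul_nonneg (h1 y hy) (hf y hy))] at h0
    have h3 : ∀ y ∈ V, ¬ f (y, 1) = 0 → w y = 0 := fun y hy h =>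
      (mul_eq_zero.1 (h0 y hy)).resolve_right h
    refine Finset.mem_convexHull'.2 ⟨w, fun y hy => h1 y (Finset.mem_filter.1 hy).1, ?_, ?_⟩
    · exact (Finset.sum_filter_of_ne fun y hy h => by
        by_contra hc; exact h (h3 y hy hc)).trans h2
    · exact Finset.sum_filter_of_ne fun y hy h => by by_contra hc; exact h (by simp [h3 y hy hc])
  · intro hx
    refine ⟨convexHull_mono (Finset.coe_subset.2 (Finset.filter_subset _ _)) hx, ?_⟩
    obtain ⟨w, -, h2, rfl⟩ := Finset.mem_convexHull'.1 hx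
    rw [val _ f w h2]
    exact Finset.sum_eq_zero fun y hy => by simp [(Finset.mem_filter.1 hy).2]

omit [FiniteDimensional ℝ E] in
lemma exposed_form (P F : Set E) (h : IsExposed ℝ P F) (hF : F.Nonempty) :
    ∃ f : Dual ℝ (E × ℝ), (∀ v ∈ P, 0 ≤ f (v, 1)) ∧ F = {x ∈ P | f (x, 1) = 0} := by
  obtain ⟨l, hl⟩ := h hF
  obtain ⟨x0, hx0⟩ := hF
  have h0 := hx0
  rw [hl] at h0
  refine ⟨l x0 • LinearMap.snd ℝ E ℝ - (l : E →ₗ[ℝ] ℝ) ∘ₗ LinearMap.fst ℝ E ℝ, fun v hv => ?_, ?_⟩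
  · simpa using h0.2 v hv
  · rw [hl]
    ext x
    simp only [Set.mem_ofPred_eq, LinearMap.sub_apply, LinearMap.smul_apply, LinearMap.snd_apply,
      smul_eq_mul, mul_one, LinearMap.comp_apply, LinearMap.fst_apply, ContinuousLinearMap.coe_coe]
    constructor
    · rintro ⟨h1, h2⟩
      exact ⟨h1, by linarith [h2 x0 h0.1, h0.2 x h1]⟩
    · rintro ⟨h1, h2⟩
      exact ⟨h1, fun y hy => by linarith [h0.2 y hy]⟩

lemma form_exposed (P : Set E) (f : Dual ℝ (E × ℝ)) (hf : ∀ v ∈ P, 0 ≤ f (v, 1)) :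
    IsExposed ℝ P {x ∈ P | f (x, 1) = 0} := by
  rintro ⟨x0, hx0, h0⟩
  have e : ∀ x, f (x, 1) = f (x, 0) + f (0, 1) := by
    intro x
    rw [← map_add]
    simp
  refine ⟨LinearMap.toContinuousLinearMap (-(f ∘ₗ LinearMap.inl ℝ E ℝ)), ?_⟩
  ext x
  simp only [Set.mem_ofPred_eq, LinearMap.coe_toContinuousLinearMap', LinearMap.neg_apply,
    LinearMap.comp_apply, LinearMap.inl_apply]
  constructor
  · rintro ⟨h1, h2⟩
    exact ⟨h1, fun y hy => by linarith [hf y hy, e y, e x]⟩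
  · rintro ⟨h1, h2⟩
    exact ⟨h1, by linarith [hf x h1, h2 x0 hx0, e x0, e x]⟩

lemma exposed_iff (V : Finset E) (hV : ∀ v ∈ V, v ∈ (convexHull ℝ (V : Set E)).extremePoints ℝ)
    (A : Set E) (hA : A ⊆ V) : IsExposed ℝ (convexHull ℝ (V : Set E)) (convexHull ℝ A) ↔
      ∃ f : Dual ℝ (E × ℝ), (∀ v ∈ V, 0 ≤ f (v, 1)) ∧ ∀ v ∈ V, (f (v, 1) = 0 ↔ v ∈ A) := by
  constructor
  · intro h
    rcases A.eq_empty_or_nonempty with rfl | hne
    · exact ⟨LinearMap.snd ℝ E ℝ, by simp, by simp⟩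
    obtain ⟨f, h1, h2⟩ := exposed_form _ _ h (hne.mono (subset_convexHull ℝ A))
    refine ⟨f, fun v hv => h1 v (subset_convexHull ℝ _ hv), fun v hv => ⟨fun h0 => ?_, fun h0 => ?_⟩⟩
    · have h3 : v ∈ convexHull ℝ A := by
        rw [h2]
        exact ⟨subset_convexHull ℝ _ hv, h0⟩
      exact extremePoints_convexHull_subset
        (inter_extremePoints_subset_extremePoints_of_subset (convexHull_mono hA) ⟨h3, hV v hv⟩)
    · have h3 : v ∈ convexHull ℝ A := subset_convexHull ℝ _ h0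
      rw [h2] at h3
      exact h3.2
  · rintro ⟨f, h1, h2⟩
    have : A = ((V.filter fun v => f (v, 1) = 0 : Finset E) : Set E) := by
      ext v
      simp only [Finset.coe_filter, Set.mem_ofPred_eq]
      exact ⟨fun h => ⟨hA h, (h2 v (hA h)).2 h⟩, fun h => (h2 v h.1).1 h.2⟩
    rw [this, ← zero_face V f h1]
    exact form_exposed _ f (nonneg_hull V f h1)

/-- normalised extreme nonnegative affine functionals -/
def Ext (V : Finset E) (f : Dual ℝ (E × ℝ)) : Prop :=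
  (∀ v ∈ V, 0 ≤ f (v, 1)) ∧ ∑ v ∈ V, f (v, 1) = 1 ∧
    ∀ g : Dual ℝ (E × ℝ), (∀ v ∈ V, f (v, 1) = 0 → g (v, 1) = 0) → ∃ c : ℝ, g = c • f

omit [FiniteDimensional ℝ E] in
lemma step (V : Finset E) (f g : Dual ℝ (E × ℝ)) (hf : ∀ v ∈ V, 0 ≤ f (v, 1))
    (hg : ∀ v ∈ V, f (v, 1) = 0 → g (v, 1) = 0) (hs : ∑ v ∈ V, g (v, 1) = 0)
    (hne : ∃ v ∈ V, g (v, 1) ≠ 0) : ∃ t : ℝ, 0 < t ∧ (∀ v ∈ V, 0 ≤ (f + t • g) (v, 1)) ∧
      (V.filter fun v => (f + t • g) (v, 1) ≠ 0).card < (V.filter fun v => f (v, 1) ≠ 0).card := by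
  have hN : (V.filter fun v => g (v, 1) < 0).Nonempty := by
    by_contra hc
    rw [Finset.not_nonempty_iff_eq_empty, Finset.filter_eq_empty_iff] at hc
    rw [Finset.sum_eq_zero_iff_of_nonneg (fun v hv => not_lt.1 (hc hv))] at hs
    obtain ⟨v, hv, h⟩ := hne
    exact h (hs v hv)
  obtain ⟨u, hu, hmin⟩ := Finset.exists_min_image _ (fun v => f (v, 1) / -g (v, 1)) hN
  obtain ⟨hu1, hu2⟩ := Finset.mem_filter.1 hu
  have hfu : 0 < f (u, 1) := lt_of_le_of_ne (hf u hu1) (fun h => hu2.ne (hg u hu1 h.symm))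
  have ht : 0 < f (u, 1) / -g (u, 1) := div_pos hfu (by linarith)
  refine ⟨_, ht, fun v hv => ?_, Finset.card_lt_card ⟨fun v hv => ?_, fun h => ?_⟩⟩
  · simp only [LinearMap.add_apply, LinearMap.smul_apply, smul_eq_mul]
    by_cases h : g (v, 1) < 0
    · have := hmin v (Finset.mem_filter.2 ⟨hv, h⟩)
      rw [le_div_iff₀ (by linarith)] at this
      linarith
    · have := mul_nonneg ht.le (not_lt.1 h)
      linarith [hf v hv]
  · obtain ⟨h1, h2⟩ := Finset.mem_filter.1 hv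
    refine Finset.mem_filter.2 ⟨h1, fun h => h2 ?_⟩
    simp [h, hg v h1 h]
  · have := (Finset.mem_filter.1 (h (Finset.mem_filter.2 ⟨hu1, hfu.ne'⟩))).2
    apply this
    simp only [LinearMap.add_apply, LinearMap.smul_apply, smul_eq_mul]
    have h3 : g (u, 1) ≠ 0 := hu2.ne
    field_simp
    ring

omit [FiniteDimensional ℝ E] in
lemma decomp (V : Finset E) (hspan : ∀ g : Dual ℝ (E × ℝ), (∀ v ∈ V, g (v, 1) = 0) → g = 0)
    (A : Set E) (y : E × ℝ)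
    (h : ∀ f, Ext V f → (∀ v ∈ V, v ∈ A → f (v, 1) = 0) → f y = 0) :
    ∀ (n : ℕ) (f : Dual ℝ (E × ℝ)), (V.filter fun v => f (v, 1) ≠ 0).card = n →
      (∀ v ∈ V, 0 ≤ f (v, 1)) → (∀ v ∈ V, v ∈ A → f (v, 1) = 0) → f y = 0 := by
  intro n
  induction n using Nat.strong_induction_on with
  | _ n ih =>
  intro f hn hf hA
  by_cases h0 : ∀ v ∈ V, f (v, 1) = 0
  · simp [hspan f h0]
  push Not at h0
  obtain ⟨u, hu, hu0⟩ := h0
  have hσ : 0 < ∑ v ∈ V, f (v, 1) :=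
    Finset.sum_pos' hf ⟨u, hu, lt_of_le_of_ne (hf u hu) (Ne.symm hu0)⟩
  by_cases hE : ∀ g : Dual ℝ (E × ℝ), (∀ v ∈ V, f (v, 1) = 0 → g (v, 1) = 0) → ∃ c : ℝ, g = c • f
  · have := h ((∑ v ∈ V, f (v, 1))⁻¹ • f) ⟨fun v hv => ?_, ?_, fun g hg => ?_⟩
      (fun v hv hvA => by simp [hA v hv hvA])
    · simpa [hσ.ne'] using this
    · exact mul_nonneg (inv_nonneg.2 hσ.le) (hf v hv)
    · simp only [LinearMap.smul_apply, smul_eq_mul, ← Finset.mul_sum]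
      exact inv_mul_cancel₀ hσ.ne'
    · obtain ⟨c, rfl⟩ := hE g (fun v hv h1 => hg v hv (by simp [h1]))
      exact ⟨c * ∑ v ∈ V, f (v, 1), by rw [smul_smul, mul_assoc, mul_inv_cancel₀ hσ.ne', mul_one]⟩
  push Not at hE
  obtain ⟨g, hg, hg'⟩ := hE
  obtain ⟨g', hg1, hg2, hg3⟩ : ∃ g' : Dual ℝ (E × ℝ), (∀ v ∈ V, f (v, 1) = 0 → g' (v, 1) = 0) ∧
      ∑ v ∈ V, g' (v, 1) = 0 ∧ ∃ v ∈ V, g' (v, 1) ≠ 0 := by
    refine ⟨g - ((∑ v ∈ V, g (v, 1)) / ∑ v ∈ V, f (v, 1)) • f, fun v hv h1 => ?_, ?_, ?_⟩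
    · simp [h1, hg v hv h1]
    · simp only [LinearMap.sub_apply, LinearMap.smul_apply, smul_eq_mul, Finset.sum_sub_distrib,
        ← Finset.mul_sum]
      rw [div_mul_cancel₀ _ hσ.ne', sub_self]
    · by_contra hc
      push Not at hc
      exact hg' _ (sub_eq_zero.1 (hspan _ hc))
  obtain ⟨t1, p1, q1, r1⟩ := step V f g' hf hg1 hg2 hg3
  obtain ⟨t2, p2, q2, r2⟩ := step V f (-g') hf (fun v hv h1 => by simp [hg1 v hv h1])
    (by simp [hg2]) (by simpa using hg3)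
  have e1 := ih _ (hn ▸ r1) _ rfl q1 (fun v hv hvA => by simp [hA v hv hvA, hg1 v hv (hA v hv hvA)])
  have e2 := ih _ (hn ▸ r2) _ rfl q2 (fun v hv hvA => by simp [hA v hv hvA, hg1 v hv (hA v hv hvA)])
  simp only [LinearMap.add_apply, LinearMap.smul_apply, smul_eq_mul, LinearMap.neg_apply] at e1 e2
  have : (t1 + t2) * f y = 0 := by linear_combination t2 * e1 + t1 * e2
  exact (mul_eq_zero.1 this).resolve_left (by linarith)

omit [FiniteDimensional ℝ E] in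
lemma kill (V : Finset E) (hspan : ∀ g : Dual ℝ (E × ℝ), (∀ v ∈ V, g (v, 1) = 0) → g = 0)
    (A : Set E) (f0 : Dual ℝ (E × ℝ)) (h1 : ∀ v ∈ V, 0 ≤ f0 (v, 1))
    (h2 : ∀ v ∈ V, (f0 (v, 1) = 0 ↔ v ∈ A)) (y : E × ℝ)
    (h : ∀ f, Ext V f → (∀ v ∈ V, v ∈ A → f (v, 1) = 0) → f y = 0)
    (g : Dual ℝ (E × ℝ)) (hg : ∀ v ∈ V, v ∈ A → g (v, 1) = 0) : g y = 0 := by
  have e0 := decomp V hspan A y h _ f0 rfl h1 (fun v hv hA => (h2 v hv).2 hA)
  have e1 := decomp V hspan A y h _ ((∑ u ∈ V, |g (u, 1)| / f0 (u, 1)) • f0 + g) rfl (fun v hv => ?_)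
    (fun v hv hA => by simp [(h2 v hv).2 hA, hg v hv hA])
  · simpa [e0] using e1
  simp only [LinearMap.add_apply, LinearMap.smul_apply, smul_eq_mul]
  by_cases h0 : f0 (v, 1) = 0
  · simp [h0, hg v hv ((h2 v hv).1 h0)]
  have hp : 0 < f0 (v, 1) := lt_of_le_of_ne (h1 v hv) (Ne.symm h0)
  have h3 : |g (v, 1)| / f0 (v, 1) ≤ ∑ u ∈ V, |g (u, 1)| / f0 (u, 1) :=
    Finset.single_le_sum (f := fun u => |g (u, 1)| / f0 (u, 1))
      (fun u hu => div_nonneg (abs_nonneg _) (h1 u hu)) hv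
  rw [div_le_iff₀ hp] at h3
  linarith [neg_abs_le (g (v, 1))]

lemma facet (V : Finset E) (hd : 1 ≤ finrank ℝ E) (f : Dual ℝ (E × ℝ)) (hf : Ext V f) :
    {x ∈ convexHull ℝ (V : Set E) | f (x, 1) = 0}.Nonempty ∧
      finrank ℝ (vectorSpan ℝ {x ∈ convexHull ℝ (V : Set E) | f (x, 1) = 0}) + 1 = finrank ℝ E := by
  have hf0 : f ≠ 0 := by
    rintro rfl
    have := hf.2.1
    simp at this
  have hker : ∀ N : Submodule ℝ (E × ℝ), (∀ v ∈ V, f (v, 1) = 0 → ((v, 1) : E × ℝ) ∈ N) →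
      ∀ y, f y = 0 → y ∈ N := by
    intro N hN y hy
    by_contra hc
    obtain ⟨g, hg1, hg2⟩ := Submodule.exists_dual_map_eq_bot_of_notMem hc inferInstance
    obtain ⟨c, rfl⟩ := hf.2.2 g (fun v hv h0 => by
      have : g (v, 1) ∈ N.map g := ⟨_, hN v hv h0, rfl⟩
      rw [hg2] at this
      exact this)
    exact hg1 (by simp [hy])
  have hz : ∃ z ∈ V, f (z, 1) = 0 := by
    by_contra hc
    push Not at hc
    have h1 : LinearMap.ker f = ⊥ := by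
      rw [eq_bot_iff]
      exact fun y hy => hker ⊥ (fun v hv h => absurd h (hc v hv)) y hy
    have h2 := LinearMap.finrank_le_finrank_of_injective (LinearMap.ker_eq_bot.1 h1)
    rw [Module.finrank_prod, Module.finrank_self] at h2
    omega
  obtain ⟨z, hz, hz0⟩ := hz
  have hzF : z ∈ {x ∈ convexHull ℝ (V : Set E) | f (x, 1) = 0} := ⟨subset_convexHull ℝ _ hz, hz0⟩
  refine ⟨⟨z, hzF⟩, ?_⟩
  have e : ∀ x, f (x, 1) = f (x, 0) + f (0, 1) := by
    intro x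
    rw [← map_add]
    simp
  have h1 : vectorSpan ℝ {x ∈ convexHull ℝ (V : Set E) | f (x, 1) = 0} =
      LinearMap.ker (f ∘ₗ LinearMap.inl ℝ E ℝ) := by
    apply le_antisymm
    · rw [vectorSpan_def, Submodule.span_le]
      rintro _ ⟨x, hx, y, hy, rfl⟩
      simp only [vsub_eq_sub, SetLike.mem_coe, LinearMap.mem_ker, map_sub, LinearMap.comp_apply,
        LinearMap.inl_apply]
      linarith [e x, e y, hx.2, hy.2]
    · intro w hw
      have := hker ((vectorSpan ℝ {x ∈ convexHull ℝ (V : Set E) | f (x, 1) = 0}).comap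
        (LinearMap.fst ℝ E ℝ - (LinearMap.snd ℝ E ℝ).smulRight z)) (fun v hv h0 => ?_) (w, 0) hw
      · simpa using this
      · have := vsub_mem_vectorSpan ℝ (show v ∈ {x ∈ convexHull ℝ (V : Set E) | f (x, 1) = 0} from
          ⟨subset_convexHull ℝ _ hv, h0⟩) hzF
        simpa using this
  have h2 : f ∘ₗ LinearMap.inl ℝ E ℝ ≠ 0 := by
    intro h
    have h3 : ∀ x, f (x, 0) = 0 := fun x => LinearMap.congr_fun h x
    have h4 : f (0, 1) = 0 := by linarith [e z, h3 z]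
    apply hf0
    refine LinearMap.ext fun y => ?_
    have : y = (y.1, 0) + y.2 • ((0, 1) : E × ℝ) := by ext <;> simp
    rw [this, map_add, map_smul, h3, h4]
    simp
  rw [h1]
  exact Module.Dual.finrank_ker_add_one_of_ne_zero h2

end Pool.Agent.Lib.helper25.Insc
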