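import Pool.Agent.Lib.helper25.InscD

namespace Pool.Agent.Lib.helper25.Insc

open Finset Module

variable {E : Type*} [NormedAddCommGroup E] [NormedSpace ℝ E] [FiniteDimensional ℝ E]

omit [FiniteDimensional ℝ E] in
lemma span_of_int (V : Finset E) (hint : (interior (convexHull ℝ (V : Set E))).Nonempty)
    (g : Dual ℝ (E × ℝ)) (hg : ∀ v ∈ V, g (v, 1) = 0) : g = 0 := by
  have h1 : ∀ x ∈ convexHull ℝ (V : Set E), g (x, 1) = 0 := by
    intro x hx
    obtain ⟨w, -, h2, rfl⟩ := Finset.mem_convexHull'.1 hx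
    rw [val V g w h2]
    exact Finset.sum_eq_zero fun y hy => by simp [hg y hy]
  obtain ⟨x0, hx0⟩ := hint
  have h0 := h1 x0 (interior_subset hx0)
  have h2 : ∀ w, g (w, 0) = 0 := by
    intro w
    have hc : Continuous fun t : ℝ => x0 + t • w := by fun_prop
    have h3 : ∀ᶠ t : ℝ in nhds 0, x0 + t • w ∈ convexHull ℝ (V : Set E) :=
      hc.continuousAt.eventually_mem (by simpa using mem_interior_iff_mem_nhds.1 hx0)
    obtain ⟨t, ht, ht0⟩ := ((h3.filter_mono nhdsWithin_le_nhds).and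
      (self_mem_nhdsWithin (a := (0 : ℝ)) (s := {0}ᶜ))).exists
    have h4 := h1 _ ht
    have h5 : ((x0 + t • w, 1) : E × ℝ) = (x0, 1) + t • (w, 0) := by ext <;> simp
    rw [h5, map_add, map_smul, h0, zero_add, smul_eq_mul] at h4
    exact (mul_eq_zero.1 h4).resolve_left ht0
  have h3 : g (0, 1) = 0 := by
    have h5 : ((x0, 1) : E × ℝ) = (x0, 0) + (0, 1) := by ext <;> simp
    rw [h5, map_add, h2, zero_add] at h0
    exact h0
  refine LinearMap.ext fun y => ?_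
  have : y = (y.1, 0) + y.2 • ((0, 1) : E × ℝ) := by ext <;> simp
  rw [this, map_add, map_smul, h2, h3]
  simp

omit [FiniteDimensional ℝ E] in
lemma sep_vertex (V : Finset E) (v : E) (hv : v ∈ (convexHull ℝ (V : Set E)).extremePoints ℝ) :
    ∃ f0 : Dual ℝ (E × ℝ), (∀ u ∈ V, 0 ≤ f0 (u, 1)) ∧
      ∀ u ∈ V, (f0 (u, 1) = 0 ↔ u ∈ ({v} : Set E)) := by
  have h1 : v ∉ convexHull ℝ ((V : Set E) \ {v}) := fun h =>
    ((convex_convexHull ℝ _).mem_extremePoints_iff_mem_sdiff_convexHull_sdiff.1 hv).2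
      (convexHull_mono (Set.diff_subset_diff_left (subset_convexHull ℝ _)) h)
  obtain ⟨l, u0, h2, h3⟩ := geometric_hahn_banach_point_closed (convex_convexHull ℝ _)
    ((V.finite_toSet.diff).isCompact_convexHull (𝕜 := ℝ)).isClosed h1
  have h4 : ∀ u ∈ V, u ≠ v → l v < l u := fun u hu h =>
    h2.trans (h3 u (subset_convexHull ℝ _ ⟨hu, h⟩))
  refine ⟨(l : E →ₗ[ℝ] ℝ) ∘ₗ LinearMap.fst ℝ E ℝ - l v • LinearMap.snd ℝ E ℝ, fun u hu => ?_,
    fun u hu => ?_⟩
  · by_cases h : u = v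
    · simp [h]
    · simpa using (h4 u hu h).le
  · by_cases h : u = v
    · simp [h]
    · have := h4 u hu h
      simp only [LinearMap.sub_apply, LinearMap.comp_apply, LinearMap.fst_apply,
        ContinuousLinearMap.coe_coe, LinearMap.smul_apply, LinearMap.snd_apply, smul_eq_mul,
        mul_one, Set.mem_singleton_iff, h, iff_false]
      linarith

lemma ext_count (V : Finset E) (hd : 1 ≤ finrank ℝ E) :
    {f | Ext V f}.Finite ∧ {f | Ext V f}.ncard ≤ {F : Set E |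
      IsExposed ℝ (convexHull ℝ (V : Set E)) F ∧ F.Nonempty ∧
        finrank ℝ (vectorSpan ℝ F) + 1 = finrank ℝ E}.ncard := by
  have hfin : {F : Set E | IsExposed ℝ (convexHull ℝ (V : Set E)) F ∧ F.Nonempty ∧
      finrank ℝ (vectorSpan ℝ F) + 1 = finrank ℝ E}.Finite := by
    refine (V.powerset.finite_toSet.image fun A : Finset E => convexHull ℝ (A : Set E)).subset ?_
    rintro F ⟨h1, h2, -⟩
    obtain ⟨f, h3, h4⟩ := exposed_form _ _ h1 h2
    refine ⟨V.filter fun v => f (v, 1) = 0,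
      Finset.mem_coe.2 (Finset.mem_powerset.2 (Finset.filter_subset _ _)), ?_⟩
    rw [h4, zero_face V f fun v hv => h3 v (subset_convexHull ℝ _ hv)]
  have hmap : ∀ f ∈ {f | Ext V f}, {x ∈ convexHull ℝ (V : Set E) | f (x, 1) = 0} ∈
      {F : Set E | IsExposed ℝ (convexHull ℝ (V : Set E)) F ∧ F.Nonempty ∧
        finrank ℝ (vectorSpan ℝ F) + 1 = finrank ℝ E} := fun f hf =>
    ⟨form_exposed _ f (nonneg_hull V f hf.1), facet V hd f hf⟩
  have hinj : Set.InjOn (fun f : Dual ℝ (E × ℝ) => {x ∈ convexHull ℝ (V : Set E) | f (x, 1) = 0})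
      {f | Ext V f} := by
    intro f hf g hg h
    obtain ⟨c, rfl⟩ := hf.2.2 g (fun v hv h0 => by
      have : v ∈ {x ∈ convexHull ℝ (V : Set E) | f (x, 1) = 0} := ⟨subset_convexHull ℝ _ hv, h0⟩
      simp only at h
      rw [h] at this
      exact this.2)
    have h1 := hg.2.1
    simp only [LinearMap.smul_apply, smul_eq_mul, ← Finset.mul_sum, hf.2.1, mul_one] at h1
    rw [h1, one_smul]
  exact ⟨Set.Finite.of_injOn hmap hinj hfin, Set.ncard_le_ncard_of_injOn _ hmap hinj hfin⟩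

lemma sphere_ext {d : ℕ} (T : Finset (EuclideanSpace ℝ (Fin d))) (c : EuclideanSpace ℝ (Fin d))
    (r : ℝ) (h : ∀ x ∈ T, dist x c = r) (x : EuclideanSpace ℝ (Fin d)) (hx : x ∈ T) :
    x ∈ (convexHull ℝ (T : Set (EuclideanSpace ℝ (Fin d)))).extremePoints ℝ := by
  have h1 : convexHull ℝ (T : Set (EuclideanSpace ℝ (Fin d))) ⊆ Metric.closedBall c r :=
    convexHull_min (fun y hy => (h y hy).le) (convex_closedBall c r)
  refine mem_extremePoints_iff_left.2 ⟨subset_convexHull ℝ _ hx, fun y hy z hz hxyz => ?_⟩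
  obtain ⟨a, b, ha, hb, hab, rfl⟩ := hxyz
  by_cases hyz : y = z
  · rw [← hyz, ← add_smul, hab, one_smul]
  · have := combo_mem_ball_of_ne (h1 hy) (h1 hz) hyz ha hb hab
    exact absurd (h _ hx) (Metric.mem_ball.1 this).ne

theorem main {d : ℕ} (hd : 1 ≤ d) (V : Finset (EuclideanSpace ℝ (Fin d)))
    (hV : ∀ v ∈ V, v ∈ (convexHull ℝ (V : Set (EuclideanSpace ℝ (Fin d)))).extremePoints ℝ)
    (hint : (interior (convexHull ℝ (V : Set (EuclideanSpace ℝ (Fin d))))).Nonempty)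
    (hcard : {F : Set (EuclideanSpace ℝ (Fin d)) |
      IsExposed ℝ (convexHull ℝ (V : Set (EuclideanSpace ℝ (Fin d)))) F ∧ F.Nonempty ∧
        finrank ℝ (vectorSpan ℝ F) + 1 = d}.ncard ≤ d + 3) :
    ∃ (T : Finset (EuclideanSpace ℝ (Fin d))) (c : EuclideanSpace ℝ (Fin d)) (r : ℝ)
      (e : EuclideanSpace ℝ (Fin d) → EuclideanSpace ℝ (Fin d)),
      (∀ x ∈ T, dist x c = r) ∧ Set.BijOn e V T ∧ ∀ A ⊆ (V : Set (EuclideanSpace ℝ (Fin d))),
        (IsExposed ℝ (convexHull ℝ (V : Set (EuclideanSpace ℝ (Fin d)))) (convexHull ℝ A) ↔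
          IsExposed ℝ (convexHull ℝ (T : Set (EuclideanSpace ℝ (Fin d))))
            (convexHull ℝ (e '' A))) := by
  classical
  have hE : finrank ℝ (EuclideanSpace ℝ (Fin d)) = d := by simp
  have hW : finrank ℝ (EuclideanSpace ℝ (Fin d) × ℝ) = d + 1 := by simp
  have hspan := span_of_int V hint
  obtain ⟨hfin, hle⟩ := ext_count V (by rw [hE]; exact hd)
  rw [hE] at hle
  haveI : Fintype {f | Ext V f} := hfin.fintype
  let σ : (EuclideanSpace ℝ (Fin d) × ℝ) →ₗ[ℝ] ({f | Ext V f} → ℝ) := LinearMap.pi fun i => i.1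
  have hσ : Function.Injective σ := by
    rw [← LinearMap.ker_eq_bot, eq_bot_iff]
    intro y hy
    refine (Module.forall_dual_apply_eq_zero_iff ℝ y).1 fun g => ?_
    exact kill V hspan ∅ (LinearMap.snd ℝ _ ℝ) (by simp) (by simp) y
      (fun f hf _ => congrFun hy ⟨f, hf⟩) g (by simp)
  obtain ⟨ℓ, B, hB, hneg, hvert⟩ := exists_form σ hσ (by
    rw [hW, ← Nat.card_eq_fintype_card, Nat.card_coe_set_eq]
    omega)
  have hv : ∀ v ∈ V, 0 < ℓ (v, 1) ∧ B (v, 1) (v, 1) = 0 := by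
    intro v hv
    refine hvert _ (by simp) (fun i => i.2.1 v hv) fun z hz => ?_
    obtain ⟨f0, h1, h2⟩ := sep_vertex V v (hV v hv)
    have hk := kill V hspan {v} f0 h1 h2 z (fun f hf h => hz ⟨f, hf⟩ (h v hv rfl))
    by_contra hc
    have hz' : z ∉ Submodule.span ℝ {((v, 1) : EuclideanSpace ℝ (Fin d) × ℝ)} := by
      intro h
      obtain ⟨a, ha⟩ := Submodule.mem_span_singleton.1 h
      exact hc ⟨a, ha.symm⟩
    obtain ⟨g, hg1, hg2⟩ := Submodule.exists_dual_map_eq_bot_of_notMem hz' inferInstance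
    refine hg1 (hk g ?_)
    rintro u - rfl
    have : g (u, 1) ∈ (Submodule.span ℝ {((u, 1) : EuclideanSpace ℝ (Fin d) × ℝ)}).map g :=
      ⟨_, Submodule.mem_span_singleton_self _, rfl⟩
    rw [hg2] at this
    exact this
  obtain ⟨v0, hv0⟩ : V.Nonempty := by
    rw [Finset.nonempty_iff_ne_empty]
    rintro rfl
    simp at hint
  obtain ⟨ρ, c, R, hinj, hR⟩ := exists_sphere hW ℓ ((ℓ (v0, 1))⁻¹ • (v0, 1))
    (by rw [map_smul, smul_eq_mul, inv_mul_cancel₀ (hv v0 hv0).1.ne']) B hB hneg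
  let e : EuclideanSpace ℝ (Fin d) → EuclideanSpace ℝ (Fin d) := fun x => (ℓ (x, 1))⁻¹ • ρ (x, 1)
  let M : (EuclideanSpace ℝ (Fin d) × ℝ) →ₗ[ℝ] (EuclideanSpace ℝ (Fin d) × ℝ) := ρ.prod ℓ
  have hM : ∀ v ∈ V, ((e v, 1) : EuclideanSpace ℝ (Fin d) × ℝ) = M ((ℓ (v, 1))⁻¹ • (v, 1)) := by
    intro v h
    rw [map_smul]
    refine Prod.ext rfl ?_
    simp [M, (hv v h).1.ne']
  obtain ⟨N, hN⟩ := LinearMap.exists_leftInverse_of_injective M (by
    rw [eq_bot_iff]
    intro y hy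
    exact hinj y (congrArg Prod.fst hy) (congrArg Prod.snd hy))
  have hN' : ∀ v ∈ V, N (e v, 1) = (ℓ (v, 1))⁻¹ • (v, 1) := by
    intro v h
    rw [hM v h]
    exact LinearMap.congr_fun hN _
  have he : Set.InjOn e V := by
    intro u hu v hv' h
    have h1 := hN' u hu
    rw [h, hN' v hv'] at h1
    have h2 := congrArg Prod.snd h1
    have h3 := congrArg Prod.fst h1
    simp only [Prod.smul_snd, smul_eq_mul, mul_one, Prod.smul_fst] at h2 h3
    rw [h2] at h3
    exact (smul_right_injective _ (inv_ne_zero (hv u hu).1.ne') h3).symm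
  have hT : ∀ x ∈ V.image e, dist x c = R := by
    intro x hx
    obtain ⟨v, h, rfl⟩ := Finset.mem_image.1 hx
    have := hR ((ℓ (v, 1))⁻¹ • (v, 1))
      (by rw [map_smul, smul_eq_mul, inv_mul_cancel₀ (hv v h).1.ne'])
      (by simp only [map_smul, LinearMap.smul_apply, (hv v h).2, smul_zero])
    rwa [map_smul] at this
  refine ⟨V.image e, c, R, e, hT, ?_, fun A hA => ?_⟩
  · rw [Finset.coe_image]
    exact he.bijOn_image
  have hmem : ∀ v ∈ V, (e v ∈ e '' A ↔ v ∈ A) := fun v h => he.mem_image_iff hA h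
  rw [exposed_iff V hV A hA, exposed_iff (V.image e) (sphere_ext _ c R hT) (e '' A)
    (by rw [Finset.coe_image]; exact Set.image_mono hA)]
  constructor
  · rintro ⟨f, h1, h2⟩
    have q : ∀ v ∈ V, (f ∘ₗ N) (e v, 1) = (ℓ (v, 1))⁻¹ * f (v, 1) := by
      intro v h
      rw [LinearMap.comp_apply, hN' v h, map_smul, smul_eq_mul]
    refine ⟨f ∘ₗ N, fun x hx => ?_, fun x hx => ?_⟩
    · obtain ⟨v, h, rfl⟩ := Finset.mem_image.1 hx
      rw [q v h]
      exact mul_nonneg (inv_nonneg.2 (hv v h).1.le) (h1 v h)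
    · obtain ⟨v, h, rfl⟩ := Finset.mem_image.1 hx
      rw [q v h, hmem v h, ← h2 v h, mul_eq_zero]
      simp [(hv v h).1.ne']
  · rintro ⟨f, h1, h2⟩
    have q : ∀ v ∈ V, (f ∘ₗ M) (v, 1) = ℓ (v, 1) * f (e v, 1) := by
      intro v h
      rw [LinearMap.comp_apply, hM v h, map_smul, map_smul, smul_eq_mul, ← mul_assoc,
        mul_inv_cancel₀ (hv v h).1.ne', one_mul]
    refine ⟨f ∘ₗ M, fun v h => ?_, fun v h => ?_⟩
    · rw [q v h]
      exact mul_nonneg (hv v h).1.le (h1 _ (Finset.mem_image_of_mem e h))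
    · rw [q v h, ← hmem v h, ← h2 _ (Finset.mem_image_of_mem e h), mul_eq_zero]
      simp [(hv v h).1.ne']

end Pool.Agent.Lib.helper25.Insc
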