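import Mathlib

set_option autoImplicit false

namespace Pool.Agent.Lib.H25MinRank

open Matrix MvPolynomial

section Minor
variable {K : Type} [Field K]

lemma cols {m n : Type} [Fintype m] [Fintype n] (A : Matrix m n K) {s : ℕ} (h : s ≤ A.rank) :
    ∃ g : Fin s → n, LinearIndependent K (A.submatrix id g).col := by
  obtain ⟨κ, a, ha, hs, hl⟩ := exists_linearIndependent' K A.col
  have : Finite κ := Finite.of_injective a ha
  have := Fintype.ofFinite κ
  have hc : Fintype.card κ = A.rank := by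
    rw [rank_eq_finrank_span_cols, ← hs, finrank_span_eq_card hl]
  obtain ⟨e⟩ : Nonempty (Fin s ↪ κ) := Function.Embedding.nonempty_of_card_le (by simpa [hc] using h)
  exact ⟨a ∘ e, hl.comp e e.injective⟩

lemma minor_iff {m n : Type} [Fintype m] [Fintype n] (A : Matrix m n K) (s : ℕ) :
    s ≤ A.rank ↔ ∃ (f : Fin s → m) (g : Fin s → n), (A.submatrix f g).det ≠ 0 := by
  constructor
  · intro h
    obtain ⟨g, hg⟩ := cols A h
    have h2 : s ≤ (A.submatrix id g)ᵀ.rank := by
      have : LinearIndependent K (A.submatrix id g)ᵀ.row := hg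
      rw [this.rank_matrix, Fintype.card_fin]
    obtain ⟨f, hf⟩ := cols _ h2
    refine ⟨f, g, ?_⟩
    have : LinearIndependent K (A.submatrix f g).row := hf
    rw [linearIndependent_rows_iff_isUnit, isUnit_iff_isUnit_det] at this
    exact this.ne_zero
  · rintro ⟨f, g, h⟩
    have := rank_of_det_ne_zero h
    rw [Fintype.card_fin] at this
    rw [← this]
    exact rank_submatrix_le _ _ _

lemma factor {m n : Type} [Fintype m] [Fintype n] (A : Matrix m n K) :
    ∃ (X : Matrix m (Fin A.rank) K) (Y : Matrix (Fin A.rank) n K), A = X * Y := by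
  let b := Module.finBasisOfFinrankEq K (Submodule.span K (Set.range A.col))
    (rank_eq_finrank_span_cols A).symm
  refine ⟨fun i l => (b l).1 i, fun l j => b.repr ⟨A.col j, Submodule.subset_span ⟨j, rfl⟩⟩ l, ?_⟩
  ext i j
  have := congrArg (fun v => v.1 i) (b.sum_repr ⟨A.col j, Submodule.subset_span ⟨j, rfl⟩⟩)
  simp only [AddSubmonoidClass.coe_finsetSum, Finset.sum_apply, SetLike.val_smul, Pi.smul_apply,
    smul_eq_mul] at this
  rw [Matrix.mul_apply]
  simp only [mul_comm ((b _).1 i)]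
  exact this.symm

lemma rank_kron {m n m' n' : Type} [Fintype m] [Fintype n] [Fintype m'] [Fintype n']
    (A : Matrix m n K) (B : Matrix m' n' K) :
    (kroneckerMap (fun u v : K => u * v) A B).rank ≤ A.rank * B.rank := by
  obtain ⟨X, Y, h⟩ := factor A
  obtain ⟨X', Y', h'⟩ := factor B
  have : kroneckerMap (fun u v : K => u * v) A B =
      kroneckerMap (fun u v : K => u * v) X X' * kroneckerMap (fun u v : K => u * v) Y Y' := by
    conv_lhs => rw [h, h']
    exact mul_kronecker_mul X Y X' Y'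
  rw [this]
  refine (rank_mul_le_left _ _).trans ((rank_le_card_width _).trans ?_)
  simp

end Minor

section Val
variable {K : Type} [Field K]

lemma scale (V : ValuationSubring K) {ι : Type} [Finite ι] (z : ι → K) (i0 : ι) (h : z i0 ≠ 0) :
    ∃ u, z u ≠ 0 ∧ ∀ i, z i / z u ∈ V := by
  have : Nonempty ι := ⟨i0⟩
  obtain ⟨u, hu⟩ := Finite.exists_max fun i => V.valuation (z i)
  have h0 : V.valuation (z u) ≠ 0 := by
    intro h1
    have := hu i0
    rw [h1, le_zero_iff, Valuation.zero_iff] at this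
    exact h this
  refine ⟨u, fun h1 => h0 (by rw [h1, map_zero]), fun i => ?_⟩
  rw [← V.valuation_le_one_iff, map_div₀]
  exact div_le_one_of_le₀ (hu i) zero_le

lemma point [Algebra ℂ K] (V : ValuationSubring K) (hC : ∀ c : ℂ, algebraMap ℂ K c ∈ V)
    {σ : Type} [Finite σ] (w : σ → K) (hw : ∀ i, w i ∈ V) :
    ∃ x : σ → ℂ, ∀ f : MvPolynomial σ ℂ, V.valuation (aeval w f) < 1 → eval x f = 0 := by
  have hV : ∀ f : MvPolynomial σ ℂ, aeval w f ∈ V := by
    intro f
    induction f using MvPolynomial.induction_on with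
    | C a => rw [aeval_C]; exact hC a
    | add f g hf hg => rw [map_add]; exact add_mem hf hg
    | mul_X f i hf => rw [map_mul, aeval_X]; exact mul_mem hf (hw i)
  let I : Ideal (MvPolynomial σ ℂ) :=
    { carrier := {f | V.valuation (aeval w f) < 1}
      add_mem' := fun {f g} hf hg => by
        show V.valuation (aeval w (f + g)) < 1
        rw [map_add]; exact Valuation.map_add_lt _ hf hg
      zero_mem' := by
        show V.valuation (aeval w 0) < 1
        rw [map_zero, map_zero]; exact zero_lt_one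
      smul_mem' := fun a f hf => by
        show V.valuation (aeval w (a * f)) < 1
        rw [map_mul, map_mul]
        exact mul_lt_one_of_nonneg_of_lt_one_right ((V.valuation_le_one_iff _).2 (hV a)) zero_le hf }
  have hI : I ≠ ⊤ := by
    rw [Ideal.ne_top_iff_one]
    show ¬ V.valuation (aeval w 1) < 1
    rw [map_one, map_one]; exact lt_irrefl _
  obtain ⟨M, hM, hle⟩ := I.exists_le_maximal hI
  obtain ⟨x, rfl⟩ := isMaximal_iff_eq_vanishingIdeal_singleton.1 hM
  refine ⟨x, fun f hf => ?_⟩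
  have := (mem_vanishingIdeal_singleton_iff x f).1 (hle hf)
  simpa using this

end Val

/-- properness of projective space, in the form needed here -/
theorem proper {τ γ : Type} [Finite τ] [Fintype γ] (G : Set (MvPolynomial (τ ⊕ γ) ℂ))
    (hom : ∀ (K : Type) [Field K] [Algebra ℂ K] (a : τ → K) (c : γ → K) (t : K), ∀ g ∈ G,
      aeval (Sum.elim a c) g = 0 → aeval (Sum.elim a (fun i => c i / t)) g = 0)
    (a0 : τ → ℂ) (h0 : ∀ c : γ → ℂ, (∀ g ∈ G, eval (Sum.elim a0 c) g = 0) → c = 0) :
    ∃ P : MvPolynomial τ ℂ, P ≠ 0 ∧ ∀ a : τ → ℂ, eval a P ≠ 0 →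
      ∀ c : γ → ℂ, (∀ g ∈ G, eval (Sum.elim a c) g = 0) → c = 0 := by
  have key : ∀ i : γ, ∃ P : MvPolynomial τ ℂ, P ≠ 0 ∧ ∃ D : ℕ,
      rename Sum.inl P * X (Sum.inr i) ^ D ∈ Ideal.span G := by
    intro i
    by_contra hcon
    push Not at hcon
    let S : Submonoid (MvPolynomial (τ ⊕ γ) ℂ) :=
      { carrier := {f | ∃ P : MvPolynomial τ ℂ, P ≠ 0 ∧ ∃ D : ℕ, f = rename Sum.inl P * X (Sum.inr i) ^ D}
        mul_mem' := by
          rintro _ _ ⟨P, hP, D, rfl⟩ ⟨Q, hQ, E, rfl⟩
          exact ⟨P * Q, mul_ne_zero hP hQ, D + E, by rw [map_mul]; ring⟩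
        one_mem' := ⟨1, one_ne_zero, 0, by simp⟩ }
    obtain ⟨p, hp, hG, hS⟩ := (Ideal.span G).exists_le_prime_disjoint S (by
      rw [Set.disjoint_right]
      rintro _ ⟨P, hP, D, rfl⟩
      exact hcon P hP D)
    let K := FractionRing (MvPolynomial (τ ⊕ γ) ℂ ⧸ p)
    let φ : MvPolynomial (τ ⊕ γ) ℂ →ₐ[ℂ] K :=
      (IsScalarTower.toAlgHom ℂ (MvPolynomial (τ ⊕ γ) ℂ ⧸ p) K).comp (Ideal.Quotient.mkₐ ℂ p)
    have hφ : ∀ f, φ f = 0 ↔ f ∈ p := fun f => by
      show algebraMap (MvPolynomial (τ ⊕ γ) ℂ ⧸ p) K (Ideal.Quotient.mk p f) = 0 ↔ _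
      rw [IsFractionRing.to_map_eq_zero_iff, Ideal.Quotient.eq_zero_iff_mem]
    let ψ : MvPolynomial τ ℂ →+* K := (φ.comp (rename Sum.inl)).toRingHom
    have hψ : Function.Injective ψ := by
      rw [injective_iff_map_eq_zero]
      intro P hP
      by_contra h
      exact Set.disjoint_left.1 hS ((hφ _).1 hP) ⟨P, h, 0, by simp⟩
    have hi : φ (X (Sum.inr i)) ≠ 0 := fun h =>
      Set.disjoint_left.1 hS ((hφ _).1 h) ⟨1, one_ne_zero, 1, by simp⟩
    let e : MvPolynomial τ ℂ ≃+* ψ.range := RingEquiv.ofBijective ψ.rangeRestrict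
      ⟨fun x y h => hψ (congrArg Subtype.val h), ψ.rangeRestrict_surjective⟩
    obtain ⟨V, hV1, hV2⟩ := Ideal.image_subset_nonunits_valuationSubring
      (RingHom.ker ((eval a0).comp e.symm.toRingHom)) (RingHom.ker_ne_top _)
    obtain ⟨u, hu, hz⟩ := scale V (fun j => φ (X (Sum.inr j))) i hi
    obtain ⟨x, hx⟩ := point V (fun c => hV1 ⟨C c, by simp [ψ]⟩)
      (Sum.elim (fun j => φ (X (Sum.inl j))) (fun j => φ (X (Sum.inr j)) / φ (X (Sum.inr u))))
      (by
        rintro (j | j)
        · exact hV1 ⟨X j, by simp [ψ]⟩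
        · exact hz j)
    have x1 : ∀ j, x (Sum.inl j) = a0 j := fun j => by
      have := hx (X (Sum.inl j) - C (a0 j)) (by
        rw [← ValuationSubring.mem_nonunits_iff]
        apply hV2
        refine ⟨e (X j - C (a0 j)), ?_, ?_⟩
        · simp [RingHom.mem_ker]
        · show ψ (X j - C (a0 j)) = _
          simp [ψ])
      simpa [sub_eq_zero] using this
    have x2 : x (Sum.inr u) = 1 := by
      have := hx (X (Sum.inr u) - 1) (by simp [div_self hu])
      simpa [sub_eq_zero] using this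
    have := h0 (fun j => x (Sum.inr j)) (fun g hg => by
      have e1 : Sum.elim a0 (fun j => x (Sum.inr j)) = x := by
        funext k; rcases k with k | k <;> simp [x1]
      rw [e1]
      apply hx
      rw [hom K _ _ _ g hg]
      · simp
      · have e2 : aeval (Sum.elim (fun j => φ (X (Sum.inl j))) fun j => φ (X (Sum.inr j))) = φ := by
          apply MvPolynomial.algHom_ext
          rintro (k | k) <;> simp
        rw [e2, hφ]
        exact hG (Ideal.subset_span hg))
    have h1 := congrFun this u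
    rw [x2] at h1
    exact one_ne_zero h1
  choose P hP D hD using key
  refine ⟨∏ i, P i, Finset.prod_ne_zero_iff.2 fun i _ => hP i, fun a ha c hc => ?_⟩
  funext i
  have h1 : eval (Sum.elim a c) (rename Sum.inl (P i) * X (Sum.inr i) ^ D i) = 0 := by
    have : Ideal.span G ≤ RingHom.ker (eval (Sum.elim a c)) := Ideal.span_le.2 hc
    exact this (hD i)
  rw [map_prod, Finset.prod_ne_zero_iff] at ha
  rw [map_mul, eval_rename, map_pow, eval_X] at h1
  exact IsNilpotent.eq_zero ⟨_, (mul_eq_zero.1 h1).resolve_left (ha i (Finset.mem_univ _))⟩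

end Pool.Agent.Lib.H25MinRank
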