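import Pool.Agent.Lib.helper25.MinRankA

set_option autoImplicit false

namespace Pool.Agent.Lib.H25MinRank

open Matrix MvPolynomial

lemma card_big (a b r : ℕ) :
    (Finset.univ.filter fun p : Fin a × Fin b => ¬ (p.1.val < r ∨ p.2.val < r)).card ≤ (a - r) * (b - r) := by
  have := Finset.card_le_card_of_injOn
    (s := Finset.univ.filter fun p : Fin a × Fin b => ¬ (p.1.val < r ∨ p.2.val < r))
    (t := Finset.range (a - r) ×ˢ Finset.range (b - r)) (fun p => (p.1.val - r, p.2.val - r))
    (by
      intro p hp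
      have h1 := p.1.2
      have h2 := p.2.2
      simp only [Finset.coe_filter, Finset.mem_univ, true_and, Set.mem_ofPred_eq] at hp
      simp only [Finset.coe_product, Finset.coe_range, Set.mem_prod, Set.mem_Iio]
      omega)
    (by
      intro p hp q hq h
      simp only [Finset.coe_filter, Finset.mem_univ, true_and, Set.mem_ofPred_eq] at hp hq
      simp only [Prod.mk.injEq] at h
      exact Prod.ext (Fin.ext (by omega)) (Fin.ext (by omega)))
  simpa using this

/-- a generic matrix of rank at most `r` -/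
lemma generic (K : Type) [Field K] {a b r : ℕ} (ha : r ≤ a) (hb : r ≤ b) (t : Matrix (Fin a) (Fin b) K)
    (ht : (t.submatrix (Fin.castLE ha) (Fin.castLE hb)).det ≠ 0) :
    ∃ Z : Matrix (Fin a) (Fin b) K, Z.rank ≤ r ∧ ∀ i j, (i.val < r ∨ j.val < r) → Z i j = t i j := by
  set T := t.submatrix (Fin.castLE ha) (Fin.castLE hb) with hT
  have hu : IsUnit T.det := ht.isUnit
  refine ⟨t.submatrix id (Fin.castLE hb) * T⁻¹ * t.submatrix (Fin.castLE ha) id, ?_, ?_⟩
  · refine (rank_mul_le_right _ _).trans ((rank_le_card_height _).trans ?_)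
    simp
  · rintro i j (h | h)
    · have e : ∀ l, (t.submatrix id (Fin.castLE hb) * T⁻¹) i l = (1 : Matrix (Fin r) (Fin r) K) ⟨i.val, h⟩ l := by
        intro l
        rw [← mul_nonsing_inv T hu]
        rfl
      rw [Matrix.mul_apply]
      simp only [e, one_apply]
      simp
    · have e : ∀ l, (T⁻¹ * t.submatrix (Fin.castLE ha) id) l j = (1 : Matrix (Fin r) (Fin r) K) l ⟨j.val, h⟩ := by
        intro l
        rw [← nonsing_inv_mul T hu]
        rfl
      rw [Matrix.mul_assoc, Matrix.mul_apply]
      simp only [e, one_apply]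
      simp

theorem upper {a b r k : ℕ} (ha : r ≤ a) (hb : r ≤ b) (hk : (a - r) * (b - r) < k)
    (M : Fin k → Matrix (Fin a) (Fin b) ℂ) (hM : LinearIndependent ℂ M) :
    ∃ s ∈ Submodule.span ℂ (Set.range M), s ≠ 0 ∧ s.rank ≤ r := by
  classical
  set S := Submodule.span ℂ (Set.range M) with hS
  have hSk : Module.finrank ℂ S = k := by rw [hS, finrank_span_eq_card hM, Fintype.card_fin]
  set c := Module.finrank ℂ (Matrix (Fin a) (Fin b) ℂ ⧸ S) with hc
  have hck : c + k = a * b := by
    rw [hc, ← hSk, Submodule.finrank_quotient_add_finrank]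
    simp [Module.finrank_matrix]
  let ℓ : Matrix (Fin a) (Fin b) ℂ →ₗ[ℂ] (Fin c → ℂ) :=
    (Module.finBasis ℂ _).equivFun.toLinearMap ∘ₗ S.mkQ
  have hℓ : ∀ Z, ℓ Z = 0 → Z ∈ S := fun Z h => by
    have : S.mkQ Z = 0 := (Module.finBasis ℂ _).equivFun.map_eq_zero_iff.1 h
    exact (Submodule.Quotient.mk_eq_zero _).1 this
  let L : Fin c → MvPolynomial (Fin a × Fin b) ℂ :=
    fun j => ∑ p : Fin a × Fin b, C (ℓ (Matrix.single p.1 p.2 1) j) * X p
  have hL : ∀ (x : Fin a × Fin b → ℂ) j, eval x (L j) = ℓ (Matrix.of fun i l => x (i, l)) j := by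
    intro x j
    have e : (Matrix.of fun i l => x (i, l)) = ∑ p : Fin a × Fin b, x p • Matrix.single p.1 p.2 (1 : ℂ) := by
      rw [Fintype.sum_prod_type]
      conv_lhs => rw [matrix_eq_sum_single (Matrix.of fun i l => x (i, l))]
      simp
    rw [e, map_sum, map_sum, Finset.sum_apply]
    refine Finset.sum_congr rfl fun p _ => ?_
    rw [map_smul, Pi.smul_apply, smul_eq_mul, map_mul, eval_C, eval_X, mul_comm]
  let K := FractionRing (MvPolynomial (Fin a × Fin b) ℂ)
  let t : Fin a × Fin b → K := fun p => algebraMap (MvPolynomial (Fin a × Fin b) ℂ) K (X p)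
  have hti : AlgebraicIndependent ℂ t :=
    (MvPolynomial.algebraicIndependent_X (Fin a × Fin b) ℂ).map'
      (f := IsScalarTower.toAlgHom ℂ _ K) (IsFractionRing.injective _ _)
  obtain ⟨Z, hZ, hZt⟩ := generic K ha hb (Matrix.of fun i j => t (i, j)) (by
    have e : ((Matrix.of fun i j => t (i, j)).submatrix (Fin.castLE ha) (Fin.castLE hb)).det =
        algebraMap (MvPolynomial (Fin a × Fin b) ℂ) K
          (Matrix.of fun i j => (X (Fin.castLE ha i, Fin.castLE hb j) : MvPolynomial (Fin a × Fin b) ℂ)).det := by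
      rw [RingHom.map_det]; rfl
    rw [e, ne_eq, IsFractionRing.to_map_eq_zero_iff]
    intro h
    have := congrArg (eval fun p : Fin a × Fin b => if p.1.val = p.2.val then (1 : ℂ) else 0) h
    rw [RingHom.map_det, map_zero] at this
    have e2 : (eval fun p : Fin a × Fin b => if p.1.val = p.2.val then (1 : ℂ) else 0).mapMatrix
        (Matrix.of fun i j => (X (Fin.castLE ha i, Fin.castLE hb j) : MvPolynomial (Fin a × Fin b) ℂ)) = 1 := by
      ext i j
      simp [one_apply, Fin.ext_iff]
    rw [e2, det_one] at this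
    exact one_ne_zero this)
  let z : Fin a × Fin b → K := fun p => Z p.1 p.2
  let y : Fin c → K := fun j => aeval z (L j)
  let T : Finset (Fin a × Fin b) := Finset.univ.filter fun p => p.1.val < r ∨ p.2.val < r
  have hT : c < T.card := by
    have h1 := card_big a b r
    have h2 := Finset.card_filter_add_card_filter_not (s := (Finset.univ : Finset (Fin a × Fin b)))
      (fun p => p.1.val < r ∨ p.2.val < r)
    simp only [Finset.card_univ, Fintype.card_prod, Fintype.card_fin] at h2
    show c < (Finset.univ.filter fun p : Fin a × Fin b => p.1.val < r ∨ p.2.val < r).card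
    omega
  obtain ⟨p, hpT, hp⟩ : ∃ p ∈ T, ¬ IsAlgebraic (Algebra.adjoin ℂ (Set.range y)) (t p) := by
    by_contra hcon
    push Not at hcon
    have h1 : (AlgebraicIndependent.matroid ℂ K).Indep (t '' T) :=
      AlgebraicIndependent.matroid_indep_iff.2 ((hti.to_subtype_range).mono (Set.image_subset_range _ _))
    have h2 : t '' T ⊆ (AlgebraicIndependent.matroid ℂ K).closure (Set.range y) := by
      rw [AlgebraicIndependent.matroid_closure_eq]
      rintro _ ⟨p, hp, rfl⟩
      exact hcon p hp
    have h3 := h1.encard_le_eRk_of_subset h2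
    rw [Matroid.eRk_closure_eq] at h3
    have h4 := h3.trans (Matroid.eRk_le_encard _ _)
    rw [hti.injective.encard_image, Set.encard_coe_eq_coe_finsetCard, ← Set.image_univ] at h4
    have h5 := h4.trans (Set.encard_image_le _ _)
    rw [Set.encard_univ, ENat.card_eq_coe_fintype_card, Fintype.card_fin] at h5
    have : T.card ≤ c := by exact_mod_cast h5
    omega
  obtain ⟨V, hV, hpV⟩ : ∃ V : ValuationSubring K,
      (Algebra.adjoin ℂ (Set.range y)).toSubring ≤ V.toSubring ∧ t p ∉ V := by
    obtain ⟨V, h1, h2⟩ := Subring.exists_le_valuationSubring_of_isIntegrallyClosedIn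
      (R := (integralClosure (Algebra.adjoin ℂ (Set.range y)).toSubring K).toSubring) (x := t p)
      (fun h => hp (IsIntegral.isAlgebraic (R := Algebra.adjoin ℂ (Set.range y)) h))
    exact ⟨V, fun x hx => h1 (Subalgebra.algebraMap_mem
      (integralClosure (Algebra.adjoin ℂ (Set.range y)).toSubring K) ⟨x, hx⟩), h2⟩
  have hzp : z p = t p := hZt p.1 p.2 (Finset.mem_filter.1 hpT).2
  obtain ⟨u, hu, hzu⟩ := scale V z p (by rw [hzp]; rintro h; exact hpV (h ▸ zero_mem _))
  have huV : z u ∉ V := fun h => hpV (by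
    have := mul_mem (hzu p) h
    rwa [div_mul_cancel₀ _ hu, hzp] at this)
  obtain ⟨x, hx⟩ := point V (fun c => hV (Subalgebra.algebraMap_mem _ c)) _ hzu
  refine ⟨Matrix.of fun i l => x (i, l), hℓ _ ?_, fun h => ?_, ?_⟩
  · funext j
    rw [← hL]
    apply hx
    have e : aeval (fun i => z i / z u) (L j) = y j * (z u)⁻¹ := by
      simp only [y, L, map_sum, map_mul, aeval_C, aeval_X, div_eq_mul_inv]
      rw [Finset.sum_mul]
      simp only [mul_assoc]
    rw [e, map_mul]
    refine mul_lt_one_of_nonneg_of_lt_one_right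
      ((V.valuation_le_one_iff _).2 (hV (Algebra.subset_adjoin ⟨j, rfl⟩))) zero_le ?_
    rw [map_inv₀]
    apply inv_lt_one_of_one_lt₀
    rwa [← not_le, V.valuation_le_one_iff]
  · have h1 := hx (X u - 1) (by simp [div_self hu])
    have h2 : x u = 0 := congrFun (congrFun h u.1) u.2
    simp [h2] at h1
  · rw [← Nat.lt_succ_iff, ← not_le, minor_iff]
    rintro ⟨f, g, h⟩
    apply h
    have := hx (Matrix.of fun i j => X (f i, g j)).det (by
      rw [AlgHom.map_det]
      have e : (aeval fun i => z i / z u).mapMatrix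
          (Matrix.of fun i j => (X (f i, g j) : MvPolynomial (Fin a × Fin b) ℂ)) =
          (z u)⁻¹ • Z.submatrix f g := by
        ext i j
        simp [z, div_eq_inv_mul]
      have e0 : (Z.submatrix f g).det = 0 := by
        by_contra h0
        have := (minor_iff Z _).2 ⟨f, g, h0⟩
        omega
      rw [e, det_smul, e0]
      simp)
    rw [RingHom.map_det] at this
    rw [← this]
    congr 1
    ext i j
    simp

end Pool.Agent.Lib.H25MinRank
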