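import Pool.Agent.Lib.helper25.MinRankB

set_option autoImplicit false

namespace Pool.Agent.Lib.H25MinRank

open Matrix Polynomial

lemma hajos (m : ℕ) : ∀ f : ℂ[X], f ≠ 0 → (X + 1) ^ m ∣ f → m + 1 ≤ f.support.card := by
  induction m with
  | zero =>
    intro f hf _
    exact Finset.card_pos.2 (support_nonempty.2 hf)
  | succ m ih =>
    rintro f hf ⟨h, hh⟩
    obtain ⟨n, hn⟩ := support_nonempty.2 hf
    have hc : ∀ i : ℕ, (X * derivative f - C (n : ℂ) * f).coeff i = ((i : ℂ) - n) * f.coeff i := by
      intro i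
      rw [coeff_sub, coeff_C_mul]
      cases i with
      | zero => simp
      | succ i => rw [coeff_X_mul, coeff_derivative]; push_cast; ring
    have hs : (X * derivative f - C (n : ℂ) * f).support = f.support.erase n := by
      ext i
      rw [mem_support_iff, hc]
      simp [sub_eq_zero]
    have h1 := ih (X * derivative f - C (n : ℂ) * f) (by
      intro h0
      rw [h0, support_zero] at hs
      have h2 : f.support = {n} := by
        rw [← Finset.insert_erase hn, ← hs]; rfl
      have h3 : f = monomial n (f.coeff n) := by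
        conv_lhs => rw [f.as_sum_support, h2, Finset.sum_singleton]
      have h4 : f.eval (-1) = 0 := by rw [hh]; simp
      rw [h3, eval_monomial] at h4
      exact mem_support_iff.1 hn (by simpa using h4)) (by
      refine dvd_sub (Dvd.dvd.mul_left ?_ _) (Dvd.dvd.mul_left ?_ _)
      · rw [hh, derivative_mul, derivative_pow_succ]
        exact dvd_add (Dvd.dvd.mul_right (Dvd.dvd.mul_right (Dvd.dvd.mul_left dvd_rfl _) _) _)
          (Dvd.dvd.mul_right (pow_dvd_pow _ (Nat.le_succ m)) _)
      · rw [hh]
        exact Dvd.dvd.mul_right (pow_dvd_pow _ (Nat.le_succ m)) _)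
    rw [hs, Finset.card_erase_of_mem hn] at h1
    omega

open Classical in
/-- every nontrivial combination has at least `r` nonzero entries -/
def Heavy {κ m n : Type} [Fintype κ] [Fintype m] [Fintype n] (E : κ → Matrix m n ℂ) (r : ℕ) : Prop :=
  ∀ c : κ → ℂ, c ≠ 0 → r ≤ (Finset.univ.filter fun p : m × n => (∑ i, c i • E i) p.1 p.2 ≠ 0).card

lemma graded {κ m n : Type} [Fintype κ] [Fintype m] [Fintype n] (E : κ → Matrix m n ℂ) (R : ℕ)
    (ρ : m → ℕ) (γ : n → ℕ) (d : κ → ℕ) (hρ : Function.Injective ρ) (hγ : Function.Injective γ)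
    (hd : ∀ k i j, E k i j ≠ 0 → ρ i + γ j = d k) (hE : Heavy E R) (c : κ → ℂ) (hc : c ≠ 0) :
    R ≤ (∑ i, c i • E i).rank := by
  classical
  obtain ⟨k0, hk0, hmax⟩ := Finset.exists_max_image (Finset.univ.filter fun k => c k ≠ 0) d (by
    obtain ⟨k, hk⟩ := Function.ne_iff.1 hc
    exact ⟨k, by simpa using hk⟩)
  simp only [Finset.mem_filter, Finset.mem_univ, true_and] at hk0 hmax
  set c' : κ → ℂ := fun k => if d k = d k0 then c k else 0 with hc'
  have h1 := hE c' (fun h => hk0 (by simpa [hc'] using congrFun h k0))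
  set S := Finset.univ.filter fun p : m × n => (∑ i, c' i • E i) p.1 p.2 ≠ 0 with hS
  have hS1 : ∀ p ∈ S, ρ p.1 + γ p.2 = d k0 := by
    intro p hp
    have := (Finset.mem_filter.1 hp).2
    rw [Matrix.sum_apply] at this
    obtain ⟨k, -, hk⟩ := Finset.exists_ne_zero_of_sum_ne_zero this
    simp only [Matrix.smul_apply, smul_eq_mul, ne_eq, mul_eq_zero, not_or, hc'] at hk
    rw [hd k _ _ hk.2]
    by_contra h
    simp [h] at hk
  have hS2 : ∀ p ∈ S, (∑ i, c i • E i) p.1 p.2 ≠ 0 := by
    intro p hp
    have := (Finset.mem_filter.1 hp).2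
    convert this using 1
    rw [Matrix.sum_apply, Matrix.sum_apply]
    refine Finset.sum_congr rfl fun k _ => ?_
    by_cases h : E k p.1 p.2 = 0
    · simp [h]
    · simp [hc', ← hd k _ _ h, hS1 p hp]
  have hinj : Function.Injective fun p : S => ρ p.1.1 := by
    intro p q h
    have e1 := hS1 _ p.2
    have e2 := hS1 _ q.2
    simp only at h
    exact Subtype.ext (Prod.ext (hρ h) (hγ (by omega)))
  let _ : LinearOrder S := LinearOrder.lift' _ hinj
  have hdet : ((∑ i, c i • E i).submatrix (fun p : S => p.1.1) (fun p : S => p.1.2)).det ≠ 0 := by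
    rw [det_of_isUpperTriangular]
    · exact Finset.prod_ne_zero_iff.2 fun p _ => hS2 _ p.2
    · intro p q h
      have h' : ρ q.1.1 < ρ p.1.1 := h
      rw [submatrix_apply, Matrix.sum_apply]
      refine Finset.sum_eq_zero fun k _ => ?_
      by_contra h0
      simp only [Matrix.smul_apply, smul_eq_mul, mul_eq_zero, not_or] at h0
      have e1 := hd k _ _ h0.2
      have e2 := hmax k h0.1
      have e3 := hS1 _ q.2
      omega
  have h2 := rank_of_det_ne_zero hdet
  rw [Fintype.card_coe] at h2
  refine le_trans ?_ (h2 ▸ rank_submatrix_le _ _ _)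
  convert h1

lemma Heavy.kron {κ m n κ' m' n' : Type} [Fintype κ] [Fintype m] [Fintype n] [Fintype κ'] [Fintype m']
    [Fintype n'] {E : κ → Matrix m n ℂ} {r : ℕ} {F : κ' → Matrix m' n' ℂ} {s : ℕ}
    (hE : Heavy E r) (hF : Heavy F s) :
    Heavy (fun p : κ × κ' => kroneckerMap (fun u v : ℂ => u * v) (E p.1) (F p.2)) (r * s) := by
  classical
  intro c hc
  obtain ⟨⟨p0, q0⟩, h0⟩ := Function.ne_iff.1 hc
  have h1 := hF (fun q => c (p0, q)) (fun h => h0 (congrFun h q0))
  set U := Finset.univ.filter fun u : m' × n' => (∑ q, c (p0, q) • F q) u.1 u.2 ≠ 0 with hU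
  set W := ∑ p : κ × κ', c p • kroneckerMap (fun u v : ℂ => u * v) (E p.1) (F p.2) with hW
  have h2 : ∀ u ∈ U, r ≤ ((Finset.univ.filter fun p : (m × m') × (n × n') => W p.1 p.2 ≠ 0).filter
      fun p => (p.1.2, p.2.2) = u).card := by
    intro u hu
    have h3 := hE (fun p => (∑ q, c (p, q) • F q) u.1 u.2) (fun h => (Finset.mem_filter.1 hu).2 (congrFun h p0))
    refine h3.trans (Finset.card_le_card_of_injOn (fun v => ((v.1, u.1), (v.2, u.2))) ?_ ?_)
    · intro v hv
      simp only [Finset.coe_filter, Finset.mem_univ, true_and, Set.mem_ofPred_eq, Finset.mem_filter,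
        and_true] at hv ⊢
      convert hv using 1
      simp only [hW, Matrix.sum_apply, Matrix.smul_apply, kroneckerMap_apply, smul_eq_mul,
        Fintype.sum_prod_type, Finset.sum_mul]
      refine Finset.sum_congr rfl fun p _ => Finset.sum_congr rfl fun q _ => by ring
    · intro v _ w _ h
      simp only [Prod.mk.injEq, and_true] at h
      exact Prod.ext h.1 h.2
  have h5 : r * U.card ≤ (Finset.univ.filter fun p : (m × m') × (n × n') => W p.1 p.2 ≠ 0).card := by
    rw [mul_comm, ← smul_eq_mul]
    refine (Finset.card_nsmul_le_sum _ _ _ h2).trans ?_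
    rw [Finset.sum_card_fiberwise_eq_card_filter]
    exact Finset.card_filter_le _ _
  refine le_trans (Nat.mul_le_mul_left r ?_) (by convert h5)
  convert h1

lemma code {a b r k : ℕ} (hk : k ≤ (a - r) * (b - r)) :
    ∃ (E : Fin k → Matrix (Fin a) (Fin b) ℂ) (d : Fin k → ℕ),
      (∀ l i j, E l i j ≠ 0 → i.val + j.val = d l) ∧ Heavy E (r + 1) := by
  classical
  obtain ⟨ι⟩ : Nonempty (Fin k ↪ Fin (a - r) × Fin (b - r)) :=
    Function.Embedding.nonempty_of_card_le (by simpa using hk)
  let d : Fin k → ℕ := fun l => (ι l).1.val + (ι l).2.val + r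
  let P : Fin k → ℂ[X] := fun l => (X + 1) ^ r * X ^ (a * d l + (ι l).1.val)
  have hP : ∀ l e, (P l).coeff e ≠ 0 → ∃ t ≤ r, e = a * d l + ((ι l).1.val + t) := by
    intro l e he
    simp only [P, coeff_mul_X_pow'] at he
    split_ifs at he with h
    · refine ⟨e - (a * d l + (ι l).1.val), ?_, by omega⟩
      rw [coeff_X_add_one_pow] at he
      by_contra h2
      rw [Nat.choose_eq_zero_of_lt (by omega)] at he
      simp at he
    · simp at he
  have dec : ∀ u v i j : ℕ, i < a → j < a → a * u + i = a * v + j → u = v ∧ i = j := by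
    intro u v i j hi hj h
    have h1 := congrArg (· % a) h
    have h2 := congrArg (· / a) h
    have h0 : 0 < a := by omega
    simp only [Nat.mul_add_mod, Nat.mod_eq_of_lt hi, Nat.mod_eq_of_lt hj, Nat.mul_add_div h0,
      Nat.div_eq_of_lt hi, Nat.div_eq_of_lt hj] at h1 h2
    omega
  refine ⟨fun l i j => (P l).coeff (a * (i.val + j.val) + i.val), d, ?_, ?_⟩
  · intro l i j h
    obtain ⟨t, ht, e⟩ := hP l _ h
    have := (ι l).1.2
    exact (dec _ _ _ _ i.2 (by omega) e).1
  · intro c hc
    have h1 := hajos r (∑ l, c l • P l) (by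
      intro h
      have e : ∑ l, c l • P l = (X + 1) ^ r * ∑ l, monomial (a * d l + (ι l).1.val) (c l) := by
        rw [Finset.mul_sum]
        refine Finset.sum_congr rfl fun l _ => ?_
        rw [← C_mul_X_pow_eq_monomial, smul_eq_C_mul]
        ring
      rw [e, mul_eq_zero] at h
      rcases h with h | h
      · exact (monic_X_add_C (1 : ℂ)).ne_zero (by simpa using pow_eq_zero_iff'.1 h |>.1)
      · apply hc
        funext l
        have := congrArg (fun f => f.coeff (a * d l + (ι l).1.val)) h
        simp only [finsetSum_coeff, coeff_monomial, coeff_zero] at this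
        rw [Finset.sum_eq_single l (by
          intro l' _ hl
          rw [if_neg]
          intro h
          have h1 := (ι l).1.2
          have h2 := (ι l').1.2
          obtain ⟨e1, e2⟩ := dec _ _ _ _ (by omega) (by omega) h
          simp only [d] at e1
          exact hl (ι.injective (Prod.ext (Fin.ext e2) (Fin.ext (by omega))))) (by simp)] at this
        simpa using this) (Finset.dvd_sum fun l _ => by
          rw [smul_eq_C_mul]
          exact Dvd.dvd.mul_left (Dvd.dvd.mul_right dvd_rfl _) _)
    refine h1.trans (Finset.card_le_card_of_surjOn (fun p => a * (p.1.val + p.2.val) + p.1.val) ?_)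
    intro e he
    have he' := mem_support_iff.1 he
    have h2 := he'
    rw [finsetSum_coeff] at h2
    obtain ⟨l, -, hl⟩ := Finset.exists_ne_zero_of_sum_ne_zero h2
    obtain ⟨t, ht, rfl⟩ := hP l e (fun h => hl (by simp [h]))
    have h3 := (ι l).1.2
    have h4 := (ι l).2.2
    have e1 : (ι l).1.val + t + ((ι l).2.val + r - t) = d l := by simp only [d]; omega
    refine ⟨(⟨(ι l).1.val + t, by omega⟩, ⟨(ι l).2.val + r - t, by omega⟩), ?_, by simp only [e1]⟩
    simp only [Finset.coe_filter, Finset.mem_univ, true_and, Set.mem_ofPred_eq, Matrix.sum_apply,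
      Matrix.smul_apply, e1]
    simpa [finsetSum_coeff] using he'

end Pool.Agent.Lib.H25MinRank
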