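import Mathlib

set_option autoImplicit false

namespace Pool.Agent.Lib.H25Mix

open MeasureTheory Set Filter Topology ProbabilityTheory
open scoped ENNReal

/-- the uniform law on `(0,1]` -/
noncomputable abbrev U : Measure ℝ := volume.restrict (Ioc 0 1)

instance : IsProbabilityMeasure U := ⟨by simp [U]⟩

lemma quantile (ρ : Measure ℝ) [IsProbabilityMeasure ρ] {a b : ℝ} (h : ∀ᵐ x ∂ρ, x ∈ Icc a b) :
    ∃ q : ℝ → ℝ, Monotone q ∧ (∀ u, q u ∈ Icc a b) ∧ U.map q = ρ := by
  have hab : a ≤ b := by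
    obtain ⟨x, hx⟩ := h.exists
    exact hx.1.trans hx.2
  have hb : cdf ρ b = 1 := by
    rw [cdf_eq_real, measureReal_def, ENNReal.toReal_eq_one_iff, ← prob_compl_eq_zero_iff measurableSet_Iic, ← mem_ae_iff]
    filter_upwards [h] with x hx using hx.2
  have ha : ∀ x, x < a → ρ (Iic x) = 0 := by
    intro x hx
    rw [measure_eq_zero_iff_ae_notMem]
    filter_upwards [h] with y hy h2
    exact absurd (hy.1.trans h2) (not_le.2 hx)
  let S : ℝ → Set ℝ := fun u => {x | a ≤ x ∧ min u 1 ≤ cdf ρ x}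
  have hbS : ∀ u, b ∈ S u := fun u => ⟨hab, by rw [hb]; exact min_le_right _ _⟩
  have hbd : ∀ u, BddBelow (S u) := fun u => ⟨a, fun x hx => hx.1⟩
  have hmono : Monotone fun u => sInf (S u) := fun u v huv =>
    csInf_le_csInf (hbd u) ⟨b, hbS v⟩ fun x hx => ⟨hx.1, (min_le_min_right _ huv).trans hx.2⟩
  have hq : ∀ u x, sInf (S u) ≤ x ↔ x ∈ S u := by
    intro u x
    refine ⟨fun hx => ⟨(le_csInf ⟨b, hbS u⟩ fun y hy => hy.1).trans hx, ?_⟩, fun hx => csInf_le (hbd u) hx⟩
    have h1 : Tendsto (cdf ρ) (𝓝[>] x) (𝓝 (cdf ρ x)) :=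
      ((cdf ρ).right_continuous x).tendsto.mono_left (nhdsWithin_mono _ Ioi_subset_Ici_self)
    refine ge_of_tendsto h1 ?_
    filter_upwards [self_mem_nhdsWithin] with y hy
    obtain ⟨z, hz, hzy⟩ := exists_lt_of_csInf_lt ⟨b, hbS u⟩ (lt_of_le_of_lt hx hy)
    exact hz.2.trans (monotone_cdf ρ hzy.le)
  refine ⟨_, hmono, fun u => ⟨le_csInf ⟨b, hbS u⟩ fun y hy => hy.1, csInf_le (hbd u) (hbS u)⟩, ?_⟩
  symm
  refine Measure.ext_of_Iic _ _ fun x => ?_
  rw [Measure.map_apply hmono.measurable measurableSet_Iic,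
    Measure.restrict_apply' measurableSet_Ioc]
  by_cases hx : a ≤ x
  · have e : (fun u => sInf (S u)) ⁻¹' Iic x ∩ Ioc 0 1 = Ioc 0 (cdf ρ x) := by
      ext u
      simp only [mem_inter_iff, mem_preimage, mem_Iic, hq, S, mem_ofPred_eq, hx, true_and, mem_Ioc]
      have := cdf_le_one ρ x
      constructor
      · rintro ⟨h1, h2, h3⟩
        exact ⟨h2, by rwa [min_eq_left h3] at h1⟩
      · rintro ⟨h1, h2⟩
        exact ⟨(min_le_left _ _).trans h2, h1, h2.trans this⟩
    rw [e, Real.volume_Ioc, sub_zero, ofReal_cdf]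
  · have e : (fun u => sInf (S u)) ⁻¹' Iic x ∩ Ioc 0 1 = ∅ := by
      ext u
      simp only [mem_inter_iff, mem_preimage, mem_Iic, hq, S, mem_ofPred_eq, hx, false_and, mem_empty_iff_false]
    rw [e, ha x (not_le.1 hx), measure_empty]

lemma split (j : ℕ) (hj : 0 < j) :
    ∑ l : Fin j, U.map (fun u => ((l : ℝ) + u) / j) = (j : ℝ≥0∞) • U := by
  have hj' : (0 : ℝ) < j := by exact_mod_cast hj
  have h1 : ∀ l : ℕ, U.map (fun u => ((l : ℝ) + u) / j) =
      (j : ℝ≥0∞) • volume.restrict (Ioc ((l : ℝ) / j) (((l + 1 : ℕ) : ℝ) / j)) := by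
    intro l
    ext s hs
    have hm : Measurable fun u : ℝ => ((l : ℝ) + u) / j := by fun_prop
    rw [Measure.map_apply hm hs, Measure.restrict_apply' measurableSet_Ioc, Measure.smul_apply,
      Measure.restrict_apply hs]
    have e : (fun u : ℝ => ((l : ℝ) + u) / j) ⁻¹' s ∩ Ioc 0 1 =
        (fun u : ℝ => (l : ℝ) + u) ⁻¹' ((fun u : ℝ => (j : ℝ)⁻¹ * u) ⁻¹'
          (s ∩ Ioc ((l : ℝ) / j) (((l + 1 : ℕ) : ℝ) / j))) := by
      ext u
      simp only [mem_inter_iff, mem_preimage, mem_Ioc, ← div_eq_inv_mul, div_lt_div_iff_of_pos_right hj',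
        div_le_div_iff_of_pos_right hj']
      push_cast
      simp
    rw [e, measure_preimage_add, Real.volume_preimage_mul_left (by positivity)]
    simp
  have h2 : ∀ k : ℕ, ∑ l ∈ Finset.range k, volume.restrict (Ioc ((l : ℝ) / j) (((l + 1 : ℕ) : ℝ) / j)) =
      volume.restrict (Ioc (0 : ℝ) (k / j)) := by
    intro k
    induction k with
    | zero => simp
    | succ k ih =>
      rw [Finset.sum_range_succ, ih, ← Measure.restrict_union (Ioc_disjoint_Ioc_of_le le_rfl) measurableSet_Ioc,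
        Ioc_union_Ioc_eq_Ioc (by positivity) (by gcongr; omega)]
  rw [Fin.sum_univ_eq_sum_range (fun l => U.map (fun u => ((l : ℝ) + u) / j)) j]
  simp only [h1]
  rw [← Finset.smul_sum, h2, div_self hj'.ne']

lemma integ {ρ : Measure ℝ} [IsFiniteMeasure ρ] {a b : ℝ} (h : ∀ᵐ x ∂ρ, x ∈ Icc a b) :
    Integrable (fun x => x) ρ := by
  refine (integrable_const (|a| + |b|)).mono' measurable_id.aestronglyMeasurable ?_
  filter_upwards [h] with x hx
  rw [Real.norm_eq_abs, abs_le]
  constructor <;> linarith [hx.1, hx.2, neg_abs_le a, le_abs_self b, abs_nonneg a, abs_nonneg b]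

/-- `j` variables with average law `ρ` and bounded sum -/
lemma couple (ρ : Measure ℝ) [IsProbabilityMeasure ρ] {a b : ℝ} (h : ∀ᵐ x ∂ρ, x ∈ Icc a b)
    (h0 : ∫ x, x ∂ρ = 0) (j : ℕ) (hj : 0 < j) :
    ∃ X : Fin j → ℝ → ℝ, (∀ l, Measurable (X l)) ∧ ∑ l, U.map (X l) = (j : ℝ≥0∞) • ρ ∧
      ∀ u ∈ Ioc (0 : ℝ) 1, |∑ l, X l u| ≤ b - a := by
  obtain ⟨q, hq, hqab, rfl⟩ := quantile ρ h
  have hj' : (0 : ℝ) < j := by exact_mod_cast hj
  have hm : ∀ l : Fin j, Measurable fun u : ℝ => ((l : ℝ) + u) / j := fun l => by fun_prop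
  have hs : ∑ l : Fin j, U.map (fun u => q (((l : ℝ) + u) / j)) = (j : ℝ≥0∞) • U.map q := by
    rw [← Measure.map_smul, ← split j hj, Measure.map_finset_sum' hq.measurable.aemeasurable]
    exact Finset.sum_congr rfl fun l _ => (Measure.map_map hq.measurable (hm l)).symm
  refine ⟨fun l u => q (((l : ℝ) + u) / j), fun l => hq.measurable.comp (hm l), hs, ?_⟩
  have hint : ∀ l : Fin j, Integrable (fun u => q (((l : ℝ) + u) / j)) U := by
    intro l
    refine (integrable_const (|a| + |b|)).mono' (hq.measurable.comp (hm l)).aestronglyMeasurable ?_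
    refine Eventually.of_forall fun u => ?_
    have hx := hqab (((l : ℝ) + u) / j)
    rw [Real.norm_eq_abs, abs_le]
    constructor <;> linarith [hx.1, hx.2, neg_abs_le a, le_abs_self b, abs_nonneg a, abs_nonneg b]
  have hz : ∫ u, ∑ l : Fin j, q (((l : ℝ) + u) / j) ∂U = 0 := by
    rw [integral_finsetSum _ fun l _ => hint l]
    have e : ∀ l : Fin j, ∫ u, q (((l : ℝ) + u) / j) ∂U = ∫ x, x ∂U.map (fun u => q (((l : ℝ) + u) / j)) :=
      fun l => (integral_map (hq.measurable.comp (hm l)).aemeasurable measurable_id.aestronglyMeasurable).symm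
    simp only [e]
    rw [← integral_finsetSum_measure, hs, integral_smul_measure, h0, smul_zero]
    intro l _
    exact (integrable_map_measure measurable_id.aestronglyMeasurable
      (hq.measurable.comp (hm l)).aemeasurable).2 (hint l)
  have hd : ∀ u ∈ Ioc (0 : ℝ) 1, ∀ v ∈ Ioc (0 : ℝ) 1,
      ∑ l : Fin j, q (((l : ℝ) + u) / j) - ∑ l : Fin j, q (((l : ℝ) + v) / j) ≤ b - a := by
    intro u hu v hv
    have e1 : ∑ l : Fin j, q (((l : ℝ) + u) / j) ≤ ∑ l : Fin j, q (((l + 1 : ℕ) : ℝ) / j) :=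
      Finset.sum_le_sum fun l _ => hq (by push_cast; gcongr; exact hu.2)
    have e2 : ∑ l : Fin j, q ((l : ℝ) / j) ≤ ∑ l : Fin j, q (((l : ℝ) + v) / j) :=
      Finset.sum_le_sum fun l _ => hq (by gcongr; linarith [hv.1])
    have e3 := Finset.sum_range_sub (fun l : ℕ => q ((l : ℝ) / j)) j
    rw [Finset.sum_sub_distrib, ← Fin.sum_univ_eq_sum_range (fun l => q (((l + 1 : ℕ) : ℝ) / j)),
      ← Fin.sum_univ_eq_sum_range (fun l => q ((l : ℝ) / j))] at e3
    linarith [(hqab ((j : ℝ) / j)).2, (hqab (((0 : ℕ) : ℝ) / j)).1]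
  intro u hu
  have hI := integrable_finsetSum Finset.univ fun l _ => hint l
  rw [abs_le]
  constructor
  · have := integral_mono_ae hI (integrable_const (∑ l : Fin j, q (((l : ℝ) + u) / j) + (b - a))) (by
      filter_upwards [ae_restrict_mem measurableSet_Ioc] with v hv
      linarith [hd v hv u hu])
    rw [hz, integral_const, probReal_univ, one_smul] at this
    linarith
  · have := integral_mono_ae (integrable_const (∑ l : Fin j, q (((l : ℝ) + u) / j) - (b - a))) hI (by
      filter_upwards [ae_restrict_mem measurableSet_Ioc] with v hv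
      linarith [hd u hu v hv])
    rw [hz, integral_const, probReal_univ, one_smul] at this
    linarith

lemma dens {E A : Set ℝ} (hE : MeasurableSet E) (hA : MeasurableSet A) (h : volume (E ∩ A) ≠ 0) :
    ∃ y ∈ A, ∃ h0 > 0, ∀ h, 0 < h → h < h0 →
      volume (Metric.closedBall y h \ E) ≤ ENNReal.ofReal (h / 5) := by
  have : (ae (volume.restrict (E ∩ A))).NeBot := ae_neBot.2 (by simpa using h)
  obtain ⟨y, hy1, hy2⟩ := ((Besicovitch.ae_tendsto_measure_inter_div volume (E ∩ A)).and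
    (ae_restrict_mem (hE.inter hA))).exists
  have h1 := hy1.eventually (lt_mem_nhds (show ENNReal.ofReal (9 / 10) < 1 by
    rw [ENNReal.ofReal_lt_one]; norm_num))
  obtain ⟨h0, hh0, h2⟩ := (mem_nhdsGT_iff_exists_Ioo_subset).1 h1
  refine ⟨y, hy2.2, h0, hh0, fun r hr hr' => ?_⟩
  have h3 : ENNReal.ofReal (9 / 10) < volume (E ∩ A ∩ Metric.closedBall y r) / volume (Metric.closedBall y r) :=
    h2 ⟨hr, hr'⟩
  rw [Real.volume_closedBall, ENNReal.lt_div_iff_mul_lt (Or.inl (by simp; linarith)) (Or.inl ENNReal.ofReal_ne_top),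
    ← ENNReal.ofReal_mul (by norm_num)] at h3
  have h4 := measure_inter_add_sdiff (μ := volume) (Metric.closedBall y r) hE
  have h5 : volume (E ∩ A ∩ Metric.closedBall y r) ≤ volume (Metric.closedBall y r ∩ E) :=
    measure_mono fun x hx => ⟨hx.2, hx.1.1⟩
  rw [Real.volume_closedBall, show 2 * r = 9 / 10 * (2 * r) + r / 5 by ring,
    ENNReal.ofReal_add (by positivity) (by positivity)] at h4
  by_contra h6
  exact (ENNReal.add_lt_add (h3.trans_le h5) (not_le.1 h6)).ne' h4

lemma flex {E : Set ℝ} (hE : MeasurableSet E) (h1 : volume (E ∩ Ioi 0) ≠ 0) (h2 : volume (E ∩ Iio 0) ≠ 0)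
    {C : ℝ} (hC : 0 ≤ C) : ∃ r s : ℕ, 0 < r ∧ 0 < s ∧ ∃ h > 0, ∀ t, |t| ≤ C →
      ENNReal.ofReal h ≤ volume {y | y ∈ E ∧ -(t + r * y) / s ∈ E} := by
  obtain ⟨y0, hy0, a, ha, hya⟩ := dens hE measurableSet_Ioi h1
  obtain ⟨z0, hz0, b, hb, hzb⟩ := dens hE measurableSet_Iio h2
  rw [mem_Ioi] at hy0
  rw [mem_Iio] at hz0
  set m := -z0 / y0 with hm
  have hm0 : 0 < m := div_pos (by linarith) hy0
  have hmy : m * y0 = -z0 := by rw [hm]; field_simp
  obtain ⟨h, hh, hha, hhb⟩ : ∃ h, 0 < h ∧ h < a ∧ 2 * (m + 1) * h < b := by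
    refine ⟨min (a / 2) (b / (4 * (m + 1))), by positivity, (min_le_left _ _).trans_lt (by linarith), ?_⟩
    refine (mul_le_mul_of_nonneg_left (min_le_right _ _) (by positivity)).trans_lt ?_
    have : 2 * (m + 1) * (b / (4 * (m + 1))) = b / 2 := by field_simp; ring
    linarith
  obtain ⟨s, hs⟩ := exists_nat_gt ((y0 + C) / (m * h))
  have hs0 : (0 : ℝ) < s := lt_trans (by positivity) hs
  have hs1 : (1 : ℝ) ≤ s := by exact_mod_cast (show 0 < s by exact_mod_cast hs0)
  rw [div_lt_iff₀ (by positivity)] at hs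
  set r := ⌈m * s⌉₊ with hr
  have r1 : m * s ≤ r := Nat.le_ceil _
  have r2 : (r : ℝ) < m * s + 1 := Nat.ceil_lt_add_one (by positivity)
  have r0 : (0 : ℝ) < r := lt_of_lt_of_le (by positivity) r1
  refine ⟨r, s, by exact_mod_cast r0, by exact_mod_cast hs0, h, hh, fun t ht => ?_⟩
  set l : ℝ := r / s with hl
  have l0 : 0 < l := by positivity
  have l1 : l * s = r := by rw [hl]; field_simp
  have l2 : l ≤ m + 1 := by rw [hl, div_le_iff₀ hs0]; nlinarith
  have hsub : Metric.closedBall y0 h ⊆ {y | y ∈ E ∧ -(t + r * y) / s ∈ E} ∪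
      ((Metric.closedBall y0 h \ E) ∪ (fun y => -l * y) ⁻¹' ((fun z => -t / s + z) ⁻¹'
        (Metric.closedBall z0 (2 * l * h) \ E))) := by
    intro y hy
    by_cases e1 : y ∈ E
    · have e : -t / s + -l * y = -(t + r * y) / s := by rw [hl]; field_simp; ring
      by_cases e2 : -(t + r * y) / s ∈ E
      · exact Or.inl ⟨e1, e2⟩
      · refine Or.inr (Or.inr ⟨?_, by simpa only [e] using e2⟩)
        rw [Metric.mem_closedBall, Real.dist_eq, abs_le] at hy ⊢
        rw [abs_le] at ht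
        simp only [e]
        have e3 : -(t + r * y) / s - z0 = (-(t + r * y) - z0 * s) / s := by field_simp
        rw [e3, le_div_iff₀ hs0, div_le_iff₀ hs0]
        have e4 : 2 * l * h * s = 2 * r * h := by rw [← l1]; ring
        have e5 : z0 * s = -(m * s * y0) := by rw [mul_right_comm, hmy]; ring
        have e6 := mul_le_mul_of_nonneg_left hy.1 r0.le
        have e7 := mul_le_mul_of_nonneg_left hy.2 r0.le
        have e8 := mul_le_mul_of_nonneg_right r1 hy0.le
        have e9 := mul_le_mul_of_nonneg_right r2.le hy0.le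
        have e10 := mul_le_mul_of_nonneg_right r1 hh.le
        constructor <;> nlinarith
    · exact Or.inr (Or.inl ⟨hy, e1⟩)
  have h3 := (measure_mono (μ := volume) hsub).trans ((measure_union_le _ _).trans
    (add_le_add le_rfl (measure_union_le _ _)))
  rw [Real.volume_preimage_mul_left (by linarith), measure_preimage_add, Real.volume_closedBall] at h3
  have h4 := hzb (2 * l * h) (by positivity) (by nlinarith)
  have h5 := h3.trans (add_le_add le_rfl (add_le_add (hya h hh hha) (mul_le_mul_right h4 _)))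
  rw [← ENNReal.ofReal_mul (abs_nonneg _), ← ENNReal.ofReal_add (by positivity) (by positivity),
    show h / 5 + |(-l)⁻¹| * (2 * l * h / 5) = 3 * h / 5 by
      rw [abs_inv, abs_neg, abs_of_pos l0]; field_simp; ring,
    show 2 * h = 7 * h / 5 + 3 * h / 5 by ring, ENNReal.ofReal_add (by positivity) (by positivity),
    ENNReal.add_le_add_iff_right ENNReal.ofReal_ne_top] at h5
  exact (ENNReal.ofReal_le_ofReal (by linarith)).trans h5

end Pool.Agent.Lib.H25Mix
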