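import Pool.Agent.Lib.helper25.MixA

set_option autoImplicit false

namespace Pool.Agent.Lib.H25Mix

open MeasureTheory Set Filter Topology
open scoped ENNReal

/-- `π` lives on the zero-sum hyperplane and its marginals add up to `ν` -/
def Mix {ι : Type} [Fintype ι] (π : Measure (ι → ℝ)) (ν : Measure ℝ) : Prop :=
  π {x | ∑ i, x i ≠ 0} = 0 ∧ ∑ i, π.map (fun x => x i) = ν

lemma Mix.smul {ι : Type} [Fintype ι] {π : Measure (ι → ℝ)} {ν : Measure ℝ} (h : Mix π ν) (c : ℝ≥0∞) :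
    Mix (c • π) (c • ν) :=
  ⟨by rw [Measure.smul_apply, h.1, smul_zero], by simp only [Measure.map_smul, ← Finset.smul_sum, h.2]⟩

lemma Mix.mean {ι : Type} [Fintype ι] {π : Measure (ι → ℝ)} {ν : Measure ℝ} (h : Mix π ν)
    (hi : Integrable (fun x => x) ν) : ∫ x, x ∂ν = 0 := by
  obtain ⟨h1, rfl⟩ := h
  rw [integrable_finsetSum_measure] at hi
  rw [integral_finsetSum_measure hi]
  have e : ∀ i, ∫ x, x ∂π.map (fun x => x i) = ∫ x, x i ∂π := fun i =>
    integral_map (measurable_pi_apply i).aemeasurable measurable_id.aestronglyMeasurable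
  simp only [e]
  rw [← integral_finsetSum (f := fun i (x : ι → ℝ) => x i) _ fun i hi' => (integrable_map_measure measurable_id.aestronglyMeasurable
    (measurable_pi_apply i).aemeasurable).1 (hi i hi')]
  exact integral_eq_zero_of_ae h1

lemma key {E : Set ℝ} (hE : MeasurableSet E) (hE' : volume E ≠ ∞) {r s : ℕ} (hr : 0 < r) (hs : 0 < s)
    {h : ℝ} (hh : 0 < h) {a b : ℝ} (hf : ∀ t, |t| ≤ b - a →
      ENNReal.ofReal h ≤ volume {y | y ∈ E ∧ -(t + r * y) / s ∈ E})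
    (ρ : Measure ℝ) [IsProbabilityMeasure ρ] (hρ : ∀ᵐ x ∂ρ, x ∈ Icc a b) (h0 : ∫ x, x ∂ρ = 0)
    (j : ℕ) (hj : 0 < j) :
    ∃ (π : Measure (Fin j ⊕ Fin r ⊕ Fin s → ℝ)) (σ : Measure ℝ), Mix π ((j : ℝ≥0∞) • ρ + σ) ∧
      σ ≤ ((ENNReal.ofReal h)⁻¹ * (r + s * s)) • volume.restrict E := by
  obtain ⟨X, hX, hXρ, hT⟩ := couple ρ hρ h0 j hj
  have hs' : (0 : ℝ) < s := by exact_mod_cast hs
  have hr' : (1 : ℝ) ≤ r := by exact_mod_cast hr
  let φ : ℝ × ℝ → ℝ := fun p => -((∑ l, X l p.1) + r * p.2) / s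
  have hφ : Measurable φ := by fun_prop
  let G : Set (ℝ × ℝ) := {p | p.2 ∈ E ∧ φ p ∈ E}
  have hG : MeasurableSet G := (measurable_snd hE).inter (hφ hE)
  let w : ℝ → ℝ≥0∞ := fun u => (volume (Prod.mk u ⁻¹' G))⁻¹
  have hw : Measurable w := (measurable_measure_prodMk_left hG).inv
  let Λ : Measure (ℝ × ℝ) := ((U.withDensity w).prod volume).restrict G
  have hΛ : ∀ S, MeasurableSet S → Λ S = ∫⁻ u, w u * volume (Prod.mk u ⁻¹' (S ∩ G)) ∂U := by
    intro S hS
    rw [Measure.restrict_apply hS, Measure.prod_apply (hS.inter hG),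
      lintegral_withDensity_eq_lintegral_mul _ hw (measurable_measure_prodMk_left (hS.inter hG))]
    rfl
  have hw1 : ∀ u ∈ Ioc (0 : ℝ) 1, w u ≤ (ENNReal.ofReal h)⁻¹ := fun u hu =>
    ENNReal.inv_le_inv.2 (hf _ (hT u hu))
  have hw2 : ∀ u ∈ Ioc (0 : ℝ) 1, w u * volume (Prod.mk u ⁻¹' G) = 1 := fun u hu =>
    ENNReal.inv_mul_cancel (ne_of_gt (lt_of_lt_of_le (by simpa using hh) (hf _ (hT u hu))))
      (ne_top_of_le_ne_top hE' (measure_mono fun y hy => hy.1))
  have hfst : Λ.map Prod.fst = U := by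
    ext S hS
    rw [Measure.map_apply measurable_fst hS, hΛ _ (measurable_fst hS), ← lintegral_indicator_one hS]
    refine lintegral_congr_ae ?_
    filter_upwards [ae_restrict_mem measurableSet_Ioc] with u hu
    by_cases h1 : u ∈ S
    · rw [indicator_of_mem h1, Pi.one_apply, ← hw2 u hu]
      congr 2
      ext y
      simp [h1]
    · rw [indicator_of_notMem h1, show Prod.mk u ⁻¹' (Prod.fst ⁻¹' S ∩ G) = ∅ by ext y; simp [h1]]
      simp
  have hb : ∀ (g : ℝ × ℝ → ℝ) (c : ℝ≥0∞), Measurable g →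
      (∀ u S, MeasurableSet S → volume (Prod.mk u ⁻¹' (g ⁻¹' S ∩ G)) ≤ c * volume (S ∩ E)) →
      Λ.map g ≤ ((ENNReal.ofReal h)⁻¹ * c) • volume.restrict E := by
    intro g c hg H
    refine Measure.le_iff.2 fun S hS => ?_
    rw [Measure.map_apply hg hS, hΛ _ (hg hS), Measure.smul_apply, Measure.restrict_apply hS]
    refine (lintegral_mono_ae (g := fun _ => (ENNReal.ofReal h)⁻¹ * (c * volume (S ∩ E))) ?_).trans ?_
    · filter_upwards [ae_restrict_mem measurableSet_Ioc] with u hu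
      exact mul_le_mul' (hw1 u hu) (H u S hS)
    · simp [mul_assoc]
  have hsnd := hb Prod.snd 1 measurable_snd (fun u S _ => by
    rw [one_mul]
    exact measure_mono fun y hy => ⟨hy.1, hy.2.1⟩)
  have hphi := hb φ s hφ (fun u S _ => by
    have e : Prod.mk u ⁻¹' (φ ⁻¹' S ∩ G) ⊆
        (fun y => -(r / s : ℝ) * y) ⁻¹' ((fun z => -(∑ l, X l u) / s + z) ⁻¹' (S ∩ E)) := by
      intro y hy
      have e : -(∑ l, X l u) / s + -(r / s : ℝ) * y = φ (u, y) := by
        simp only [φ]; field_simp; ring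
      simp only [mem_preimage, e]
      exact ⟨hy.1, hy.2.2⟩
    refine (measure_mono e).trans ?_
    rw [Real.volume_preimage_mul_left (by simp; constructor <;> omega), measure_preimage_add]
    gcongr
    rw [← ENNReal.ofReal_natCast]
    refine ENNReal.ofReal_le_ofReal ?_
    rw [abs_inv, abs_neg, abs_of_pos (by positivity), inv_div]
    exact div_le_self hs'.le hr')
  let Φ : ℝ × ℝ → Fin j ⊕ Fin r ⊕ Fin s → ℝ := fun p =>
    Sum.elim (fun l => X l p.1) (Sum.elim (fun _ => p.2) (fun _ => φ p))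
  have hΦ : Measurable Φ := by
    refine measurable_pi_lambda _ ?_
    rintro (l | l | l)
    · exact (hX l).comp measurable_fst
    · exact measurable_snd
    · exact hφ
  refine ⟨Λ.map Φ, (r : ℝ≥0∞) • Λ.map Prod.snd + (s : ℝ≥0∞) • Λ.map φ, ⟨?_, ?_⟩, ?_⟩
  · rw [Measure.map_apply hΦ (by measurability)]
    convert measure_empty (μ := Λ)
    ext p
    simp only [Φ, φ, mem_preimage, mem_ofPred_eq, Fintype.sum_sum_type, Sum.elim_inl, Sum.elim_inr,
      Finset.sum_const, Finset.card_univ, Fintype.card_fin, nsmul_eq_mul, mem_empty_iff_false, iff_false,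
      ne_eq, not_not]
    field_simp
    ring
  · have e : ∀ i, (Λ.map Φ).map (fun x => x i) = Λ.map (fun p => Φ p i) := fun i =>
      Measure.map_map (measurable_pi_apply i) hΦ
    simp only [e, Fintype.sum_sum_type, Φ, Sum.elim_inl, Sum.elim_inr, Finset.sum_const, Finset.card_univ,
      Fintype.card_fin, Nat.cast_smul_eq_nsmul]
    congr 1
    rw [← Nat.cast_smul_eq_nsmul ℝ≥0∞, ← hXρ, ← hfst]
    exact Finset.sum_congr rfl fun l _ => (Measure.map_map (hX l) measurable_fst).symm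
  · refine Measure.le_iff.2 fun S hS => ?_
    have e1 := hsnd S
    have e2 := hphi S
    simp only [Measure.add_apply, Measure.smul_apply, smul_eq_mul] at e1 e2 ⊢
    refine (add_le_add (mul_le_mul_right e1 _) (mul_le_mul_right e2 _)).trans (le_of_eq ?_)
    ring

lemma step {F : Measure ℝ} [IsProbabilityMeasure F] (hF : F ≪ volume) {a b : ℝ}
    (hab : ∀ᵐ x ∂F, x ∈ Icc a b) (h0 : ∫ x, x ∂F = 0) :
    ∃ r s J : ℕ, ∀ j, J ≤ j → ∀ (ρ : Measure ℝ), ρ univ ≤ 1 → (∀ᵐ x ∂ρ, x ∈ Icc a b) → ∫ x, x ∂ρ = 0 →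
      ∃ (π : Measure (Fin j ⊕ Fin r ⊕ Fin s → ℝ)) (σ : Measure ℝ), Mix π (ρ + σ) ∧ (2 : ℝ≥0∞) • σ ≤ F := by
  have hi := integ hab
  have side : ∀ A : Set ℝ, MeasurableSet A → F A ≠ 0 →
      ∃ k : ℕ, volume ({x | (k : ℝ≥0∞)⁻¹ < F.rnDeriv volume x} ∩ A) ≠ 0 := by
    intro A hA h
    by_contra hc
    push Not at hc
    apply h
    rw [← Measure.withDensity_rnDeriv_eq F volume hF, withDensity_apply_eq_zero (Measure.measurable_rnDeriv _ _)]
    refine measure_mono_null (fun x hx => ?_) (measure_iUnion_null hc)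
    obtain ⟨k, hk⟩ := ENNReal.exists_inv_nat_lt hx.1
    exact mem_iUnion.2 ⟨k, hk, hx.2⟩
  have hz : ¬ ∀ᵐ x ∂F, x = 0 := by
    intro h
    have h1 : ∀ᵐ x ∂F, x ≠ 0 := hF.ae_le (Measure.ae_ne volume 0)
    obtain ⟨x, h2, h3⟩ := (h.and h1).exists
    exact h3 h2
  obtain ⟨k1, hk1⟩ := side (Ioi 0) measurableSet_Ioi (fun h => hz (by
    have h1 : 0 ≤ᵐ[F] fun x => -x := by
      filter_upwards [measure_eq_zero_iff_ae_notMem.1 h] with x hx
      simpa using hx
    have := (integral_eq_zero_iff_of_nonneg_ae h1 hi.neg).1 (by rw [integral_neg, h0, neg_zero])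
    filter_upwards [this] with x hx
    simpa using hx))
  obtain ⟨k2, hk2⟩ := side (Iio 0) measurableSet_Iio (fun h => hz (by
    have h1 : 0 ≤ᵐ[F] fun x => x := by
      filter_upwards [measure_eq_zero_iff_ae_notMem.1 h] with x hx
      simpa using hx
    exact (integral_eq_zero_iff_of_nonneg_ae h1 hi).1 h0))
  set k := k1 + k2 + 1 with hk
  set E := {x | (k : ℝ≥0∞)⁻¹ < F.rnDeriv volume x} with hEd
  have hE : MeasurableSet E := measurableSet_lt measurable_const (Measure.measurable_rnDeriv _ _)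
  have hEF : volume.restrict E ≤ (k : ℝ≥0∞) • F := by
    refine Measure.le_iff.2 fun S hS => ?_
    rw [Measure.restrict_apply hS, Measure.smul_apply, smul_eq_mul]
    have h1 : (k : ℝ≥0∞)⁻¹ * volume (S ∩ E) ≤ F S := by
      refine le_trans ?_ (measure_mono (inter_subset_left (t := E)))
      rw [← Measure.setLIntegral_rnDeriv hF, ← setLIntegral_const]
      exact setLIntegral_mono' (hS.inter hE) fun x hx => le_of_lt hx.2
    refine le_trans (le_of_eq ?_) (mul_le_mul_right h1 _)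
    rw [← mul_assoc, ENNReal.mul_inv_cancel (by simp [hk]) (by simp), one_mul]
  have mono : ∀ k' : ℕ, k' ≤ k → {x | (k' : ℝ≥0∞)⁻¹ < F.rnDeriv volume x} ⊆ E := fun k' h x hx =>
    lt_of_le_of_lt (ENNReal.inv_le_inv.2 (by exact_mod_cast h)) hx
  have hab' : 0 ≤ b - a := by
    obtain ⟨x, hx⟩ := hab.exists
    linarith [hx.1, hx.2]
  obtain ⟨r, s, hr, hs, h, hh, hf⟩ := flex hE
    (fun h => hk1 (measure_mono_null (inter_subset_inter_left _ (mono _ (by omega))) h))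
    (fun h => hk2 (measure_mono_null (inter_subset_inter_left _ (mono _ (by omega))) h)) hab'
  have hE' : volume E ≠ ∞ := by
    have := hEF univ
    rw [Measure.restrict_apply_univ] at this
    exact ne_top_of_le_ne_top (by simp) this
  set D : ℝ≥0∞ := (ENNReal.ofReal h)⁻¹ * (r + s * s) with hD
  have hD' : 2 * D * k ≠ ∞ := by
    refine ENNReal.mul_ne_top (ENNReal.mul_ne_top (by simp) (ENNReal.mul_ne_top (by simpa using hh) ?_)) (by simp)
    simp [ENNReal.mul_ne_top]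
  obtain ⟨J, hJ⟩ := ENNReal.exists_nat_gt hD'
  refine ⟨r, s, J + 1, fun j hj ρ h1 h2 h3 => ?_⟩
  by_cases hρ : ρ = 0
  · exact ⟨0, 0, ⟨rfl, by simp [hρ]⟩, by simp [Measure.zero_le]⟩
  have : NeZero ρ := ⟨hρ⟩
  have : IsFiniteMeasure ρ := ⟨h1.trans_lt ENNReal.one_lt_top⟩
  have hm : ρ univ ≠ 0 := by simpa using hρ
  have hj0 : (j : ℝ≥0∞) ≠ 0 := by simp; omega
  obtain ⟨π, σ, h4, h5⟩ := key hE hE' hr hs hh hf ((ρ univ)⁻¹ • ρ) (Measure.ae_smul_measure h2 _)
    (by rw [integral_smul_measure, h3, smul_zero]) j (by omega)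
  refine ⟨_, (ρ univ / j) • σ, by
    convert h4.smul (ρ univ / j) using 1
    rw [smul_add, smul_smul, smul_smul, ENNReal.div_mul_cancel hj0 (by simp),
      ENNReal.mul_inv_cancel hm (measure_ne_top _ _), one_smul], ?_⟩
  refine Measure.le_iff.2 fun S hS => ?_
  have e1 := h5 S
  have e2 := hEF S
  simp only [Measure.smul_apply, smul_eq_mul] at e1 e2 ⊢
  calc 2 * (ρ univ / j * σ S) ≤ 2 * (1 / j * (D * (k * F S))) := by
        gcongr
        exact e1.trans (by gcongr)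
    _ = (2 * D * k / j) * F S := by simp only [div_eq_mul_inv]; ring
    _ ≤ 1 * F S := by
        gcongr
        rw [ENNReal.div_le_iff hj0 (by simp), one_mul]
        exact hJ.le.trans (by exact_mod_cast (by omega : J ≤ j))
    _ = F S := one_mul _

lemma iter {ι : Type} [Fintype ι] {F : Measure ℝ} [IsProbabilityMeasure F] {a b : ℝ}
    (hab : ∀ᵐ x ∂F, x ∈ Icc a b) (h0 : ∫ x, x ∂F = 0)
    (H : ∀ (ρ : Measure ℝ), ρ univ ≤ 1 → (∀ᵐ x ∂ρ, x ∈ Icc a b) → ∫ x, x ∂ρ = 0 →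
      ∃ (π : Measure (ι → ℝ)) (σ : Measure ℝ), Mix π (ρ + σ) ∧ (2 : ℝ≥0∞) • σ ≤ F) :
    ∃ π : Measure (ι → ℝ), Mix π ((2 : ℝ≥0∞) • F) := by
  let S := {ρ : Measure ℝ // ρ univ ≤ 1 ∧ (∀ᵐ x ∂ρ, x ∈ Icc a b) ∧ ∫ x, x ∂ρ = 0}
  have st : ∀ ρ : S, ∃ (ρ' : S) (π : Measure (ι → ℝ)) (σ : Measure ℝ),
      Mix π (ρ.1 + σ) ∧ ρ'.1 + (2 : ℝ≥0∞) • σ = F := by
    rintro ⟨ρ, h1, h2, h3⟩
    obtain ⟨π, σ, h4, h5⟩ := H ρ h1 h2 h3
    have := isFiniteMeasure_of_le _ h5
    have e := Measure.sub_add_cancel_of_le h5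
    have l1 : F - (2 : ℝ≥0∞) • σ ≤ F := Measure.sub_le
    have := isFiniteMeasure_of_le _ l1
    have : IsFiniteMeasure ρ := ⟨h1.trans_lt ENNReal.one_lt_top⟩
    have a1 := ae_mono l1 hab
    have a2 := ae_mono h5 hab
    have i2 : Integrable (fun x => x) σ := (integrable_smul_measure (by simp) (by simp)).1 (integ a2)
    refine ⟨⟨F - (2 : ℝ≥0∞) • σ, (l1 univ).trans (by simp), a1, ?_⟩, π, σ, h4, e⟩
    have m1 := h4.mean ((integ h2).add_measure i2)
    rw [integral_add_measure (integ h2) i2, h3, zero_add] at m1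
    rw [← e, integral_add_measure (integ a1) (integ a2), integral_smul_measure, m1] at h0
    simpa using h0
  choose g π σ h1 h2 using st
  let s : ℕ → S := fun k => g^[k] ⟨F, by simp, hab, h0⟩
  refine ⟨Measure.sum fun k => (2⁻¹ : ℝ≥0∞) ^ k • π (s k), ?_, ?_⟩
  · rw [Measure.sum_apply _ (by measurability)]
    simp only [Measure.smul_apply, (h1 _).1, smul_zero, tsum_zero]
  · ext A hA
    have e : ∀ i, ((Measure.sum fun k => (2⁻¹ : ℝ≥0∞) ^ k • π (s k)).map (fun x => x i)) A =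
        ∑' k, (2⁻¹ : ℝ≥0∞) ^ k * (π (s k)).map (fun x => x i) A := by
      intro i
      rw [Measure.map_apply (measurable_pi_apply i) hA, Measure.sum_apply _ (measurable_pi_apply i hA)]
      refine tsum_congr fun k => ?_
      rw [Measure.map_apply (measurable_pi_apply i) hA]
      rfl
    rw [Measure.finsetSum_apply]
    simp only [e]
    rw [← Summable.tsum_finsetSum fun _ _ => ENNReal.summable]
    have e2 : ∀ k, ∑ i, (2⁻¹ : ℝ≥0∞) ^ k * (π (s k)).map (fun x => x i) A =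
        2⁻¹ ^ k * (s k).1 A + 2⁻¹ ^ k * σ (s k) A := by
      intro k
      rw [← Finset.mul_sum, ← Measure.finsetSum_apply, (h1 _).2, Measure.add_apply, mul_add]
    simp only [e2]
    rw [ENNReal.tsum_add, tsum_eq_zero_add' ENNReal.summable, add_assoc, ← ENNReal.tsum_add]
    have e3 : ∀ k, (2⁻¹ : ℝ≥0∞) ^ (k + 1) * (s (k + 1)).1 A + 2⁻¹ ^ k * σ (s k) A = 2⁻¹ ^ (k + 1) * F A := by
      intro k
      have : s (k + 1) = g (s k) := Function.iterate_succ_apply' _ _ _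
      rw [this, ← h2 (s k), Measure.add_apply, Measure.smul_apply, smul_eq_mul, mul_add, pow_succ,
        ← mul_assoc, mul_assoc (2⁻¹ ^ k) 2⁻¹ 2, ENNReal.inv_mul_cancel (by simp) (by simp), mul_one]
    simp only [e3]
    rw [ENNReal.tsum_mul_right, ENNReal.tsum_geometric_add_one]
    simp [s, two_mul, ENNReal.inv_mul_cancel]

lemma symm {ι : Type} [Fintype ι] {n : ℕ} [NeZero n] (e : ι ≃ Fin n) {π : Measure (ι → ℝ)} {ν : Measure ℝ}
    (h : Mix π ν) : ∃ π' : Measure (Fin n → ℝ), π' {x | ∑ i, x i ≠ 0} = 0 ∧ ∀ i, π'.map (fun x => x i) = ν := by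
  have hm : ∀ c : Fin n, Measurable fun (x : ι → ℝ) (i : Fin n) => x (e.symm (i + c)) := fun c => by fun_prop
  refine ⟨∑ c : Fin n, π.map fun x i => x (e.symm (i + c)), ?_, fun i => ?_⟩
  · rw [Measure.finsetSum_apply]
    refine Finset.sum_eq_zero fun c _ => ?_
    rw [Measure.map_apply (hm c) (by measurability), ← h.1]
    congr 1
    ext x
    simp only [mem_preimage, mem_ofPred_eq]
    rw [Fintype.sum_equiv ((Equiv.addRight c).trans e.symm) (fun i => x (e.symm (i + c))) x fun _ => rfl]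
  · rw [Measure.map_finset_sum' (measurable_pi_apply i).aemeasurable, ← h.2]
    refine Fintype.sum_equiv ((Equiv.addLeft i).trans e.symm) _ _ fun c => ?_
    rw [Measure.map_map (measurable_pi_apply i) (hm c)]
    rfl

theorem mixable {F : Measure ℝ} [IsProbabilityMeasure F] (hF : F ≪ volume) {a b : ℝ}
    (hab : ∀ᵐ x ∂F, x ∈ Icc a b) (h0 : ∫ x, x ∂F = 0) :
    ∃ N : ℕ, ∀ n : ℕ, N ≤ n → ∃ π : Measure (Fin n → ℝ), IsProbabilityMeasure π ∧
      (∀ i, π.map (fun x => x i) = F) ∧ ∀ᵐ x ∂π, ∑ i, x i = 0 := by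
  obtain ⟨r, s, J, H⟩ := step hF hab h0
  refine ⟨J + r + s + 1, fun n hn => ?_⟩
  have : NeZero n := ⟨by omega⟩
  obtain ⟨π, h1⟩ := iter hab h0 (H (n - r - s) (by omega))
  obtain ⟨π', h2, h3⟩ := symm (n := n) (Fintype.equivFinOfCardEq (by simp; omega)) (h1.smul 2⁻¹)
  rw [smul_smul, ENNReal.inv_mul_cancel (by simp) (by simp), one_smul] at h3
  refine ⟨π', ⟨?_⟩, h3, h2⟩
  have := congrArg (fun m : Measure ℝ => m univ) (h3 0)
  simpa [Measure.map_apply (measurable_pi_apply (0 : Fin n)) MeasurableSet.univ] using this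

end Pool.Agent.Lib.H25Mix
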