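import Mathlib

set_option autoImplicit false

namespace Pool.Agent.Lib.H25Rigid

open Cardinal Set

lemma card_meas : #{h : ℝ → ℝ // Measurable h} ≤ 𝔠 := by
  have h1 : #{s : Set ℝ | MeasurableSet s} ≤ 𝔠 := by
    have := MeasurableSpace.cardinal_measurableSet_le_continuum
      (s := MeasurableSpace.countableGeneratingSet ℝ)
      ((le_aleph0_iff_set_countable.2 MeasurableSpace.countable_countableGeneratingSet).trans
        aleph0_le_continuum)
    rwa [MeasurableSpace.generateFrom_countableGeneratingSet] at this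
  let F : {h : ℝ → ℝ // Measurable h} → ℚ → {s : Set ℝ | MeasurableSet s} :=
    fun h q => ⟨h.1 ⁻¹' Iio q, h.2 measurableSet_Iio⟩
  have hF : Function.Injective F := by
    intro g h e
    ext x
    have : ∀ q : ℚ, g.1 x < q ↔ h.1 x < q := fun q =>
      Set.ext_iff.1 (congrArg Subtype.val (congrFun e q)) x
    rcases lt_trichotomy (g.1 x) (h.1 x) with h1 | h1 | h1
    · obtain ⟨q, h2, h3⟩ := exists_rat_btwn h1
      exact absurd ((this q).1 h2) h3.not_gt
    · exact h1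
    · obtain ⟨q, h2, h3⟩ := exists_rat_btwn h1
      exact absurd ((this q).2 h2) h3.not_gt
  refine (mk_le_of_injective hF).trans ?_
  rw [← power_def, mk_eq_aleph0 ℚ, ← continuum_power_aleph0]
  exact power_le_power_right h1

lemma extend {D : Set ℝ} {φ : ℝ → ℝ} (h : MonotoneOn φ D) : ∃ g : ℝ → ℝ, Measurable g ∧ EqOn g φ D := by
  let G : ℝ → EReal := fun x => ⨆ y ∈ D ∩ Iic x, (φ y : EReal)
  have hG : Monotone G := fun x y hxy => biSup_mono fun z hz => ⟨hz.1, hz.2.trans hxy⟩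
  refine ⟨fun x => (G x).toReal, hG.measurable.ereal_toReal, fun x hx => ?_⟩
  have : G x = φ x := le_antisymm (iSup₂_le fun y hy => EReal.coe_le_coe (h hy.1 hx hy.2))
    (le_biSup (fun y => (φ y : EReal)) (⟨hx, self_mem_Iic⟩ : x ∈ D ∩ Iic x))
  simp [this]

/-- a rigid set of reals (Sierpinski, Dushnik-Miller) meeting countably many given intervals in
continuum many points -/
theorem rigid {κ : Type} [Countable κ] [Nonempty κ] (a b : κ → ℝ) (hab : ∀ k, a k < b k) :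
    ∃ X : Set ℝ, (∀ k, 𝔠 ≤ #(X ∩ Ioo (a k) (b k) : Set ℝ)) ∧
      ∀ D ⊆ X, ∀ φ : ℝ → ℝ, StrictMonoOn φ D → MapsTo φ D X → (∀ x ∈ D, φ x ≠ x) → #D < 𝔠 := by
  classical
  let ι := (𝔠 : Cardinal.{0}).ord.ToType
  have hι : #ι = 𝔠 := mk_ord_toType _
  have hlt : ∀ α : ι, #(Iio α) < 𝔠 := fun α => by simpa [hι] using mk_Iio_lt α (by simp [ι])
  obtain ⟨e⟩ : Nonempty (ι ≃ ℝ × κ) := Cardinal.eq.1 (by
    rw [hι, mk_prod, lift_id, lift_id, mk_real]
    exact (mul_eq_left aleph0_le_continuum (mk_le_aleph0.trans aleph0_le_continuum) (mk_ne_zero κ)).symm)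
  obtain ⟨u⟩ : Nonempty ({h : ℝ → ℝ // Measurable h} ↪ ι) := (le_def _ _).1 (card_meas.trans hι.ge)
  have : Nonempty {h : ℝ → ℝ // Measurable h} := ⟨⟨id, measurable_id⟩⟩
  let H : ι → ℝ → ℝ := fun β => (Function.invFun u β).1
  have hH : ∀ h : ℝ → ℝ, Measurable h → ∃ β, H β = h := fun h hh =>
    ⟨u ⟨h, hh⟩, by simp only [H, Function.leftInverse_invFun u.injective _]⟩
  let P : (α : ι) → ((γ : ι) → γ < α → ℝ) → ℝ → Prop := fun α ih y =>
    y ∈ Ioo (a (e α).2) (b (e α).2) ∧ ∀ γ (hγ : γ < α), y ≠ ih γ hγ ∧ ∀ β < α, y ≠ H β (ih γ hγ)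
  have hP : ∀ α ih, ∃ y, P α ih y := by
    intro α ih
    by_contra hc
    have h1 : Ioo (a (e α).2) (b (e α).2) ⊆ range (fun γ : Iio α => ih γ.1 γ.2) ∪
        range (fun p : Iio α × Iio α => H p.1 (ih p.2.1 p.2.2)) := by
      intro y hy
      by_contra h2
      refine hc ⟨y, hy, fun γ hγ => ⟨fun h => h2 (Or.inl ⟨⟨γ, hγ⟩, h.symm⟩),
        fun β hβ h => h2 (Or.inr ⟨(⟨β, hβ⟩, ⟨γ, hγ⟩), h.symm⟩)⟩⟩
    have h2 := (mk_le_mk_of_subset h1).trans ((mk_union_le _ _).trans (add_le_add mk_range_le mk_range_le))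
    have h3 : #(Iio α) < 𝔠 := hlt α
    rw [mk_Ioo_real (hab _), mk_prod, lift_id] at h2
    exact (add_lt_of_lt aleph0_le_continuum h3 (mul_lt_of_lt aleph0_le_continuum h3 h3)).not_ge h2
  let x : ι → ℝ := WellFoundedLT.fix fun α ih => (hP α ih).choose
  have hx : ∀ α, P α (fun γ _ => x γ) (x α) := by
    intro α
    have : x α = (hP α fun γ _ => x γ).choose := WellFoundedLT.fix_eq _ α
    rw [this]
    exact (hP α _).choose_spec
  have hinj : Function.Injective x := by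
    intro α β h
    rcases lt_trichotomy α β with h1 | h1 | h1
    · exact absurd h.symm ((hx β).2 α h1).1
    · exact h1
    · exact absurd h ((hx α).2 β h1).1
  refine ⟨range x, fun k => ?_, fun D hD φ h1 h2 h3 => ?_⟩
  · rw [← mk_real]
    refine mk_le_of_injective (f := fun t : ℝ => ⟨x (e.symm (t, k)), ⟨_, rfl⟩, by
      simpa using (hx (e.symm (t, k))).1⟩) fun s t h => ?_
    simpa using hinj (congrArg Subtype.val h)
  · obtain ⟨g, hg, hgφ⟩ := extend h1.monotoneOn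
    obtain ⟨g', hg', hgφ'⟩ := extend (D := φ '' D) (φ := Function.invFunOn φ D) (by
      rintro _ ⟨s, hs, rfl⟩ _ ⟨t, ht, rfl⟩ h
      rw [h1.injOn.leftInvOn_invFunOn hs, h1.injOn.leftInvOn_invFunOn ht]
      exact (h1.le_iff_le hs ht).1 h)
    obtain ⟨β, hβ⟩ := hH g hg
    obtain ⟨β', hβ'⟩ := hH g' hg'
    have h4 : D ⊆ x '' Iic (max β β') := by
      intro y hy
      obtain ⟨γ, rfl⟩ := hD hy
      obtain ⟨δ, hδ⟩ := h2 hy
      refine ⟨γ, ?_, rfl⟩
      by_contra hc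
      rw [mem_Iic, not_le, max_lt_iff] at hc
      rcases lt_trichotomy γ δ with h5 | h5 | h5
      · exact ((hx δ).2 γ h5).2 β (hc.1.trans h5) (by rw [hβ, hgφ hy, hδ])
      · exact h3 _ hy (by rw [← hδ, h5])
      · refine ((hx γ).2 δ h5).2 β' hc.2 ?_
        show x γ = H β' (x δ)
        rw [hβ', hδ, hgφ' ⟨_, hy, rfl⟩, h1.injOn.leftInvOn_invFunOn hy]
    refine ((mk_le_mk_of_subset h4).trans mk_image_le).trans_lt ?_
    rw [← Iio_insert]
    exact mk_insert_le.trans_lt (add_lt_of_lt aleph0_le_continuum (hlt _)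
      (one_lt_aleph0.trans_le aleph0_le_continuum))

end Pool.Agent.Lib.H25Rigid
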