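import Mathlib

set_option autoImplicit false

namespace Pool.Agent.Lib.H25Sign

open Matrix

/-- ten points with coordinates in `ℤ[√2]` -/
def P : Matrix (Fin 10) (Fin 3) (ℤ√2) :=
  !![⟨1,0⟩, ⟨0,0⟩, ⟨0,0⟩; ⟨0,0⟩, ⟨1,0⟩, ⟨0,0⟩; ⟨0,0⟩, ⟨0,0⟩, ⟨1,0⟩; ⟨1,0⟩, ⟨1,0⟩, ⟨1,0⟩;
     ⟨1,0⟩, ⟨0,1⟩, ⟨0,0⟩; ⟨0,0⟩, ⟨1,0⟩, ⟨1,0⟩; ⟨1,0⟩, ⟨0,0⟩, ⟨1,0⟩; ⟨1,0⟩, ⟨1,0⟩, ⟨1,-1⟩;
     ⟨2,-1⟩, ⟨1,0⟩, ⟨1,-1⟩; ⟨1,0⟩, ⟨2,0⟩, ⟨1,-1⟩]

/-- twelve lines with coordinates in `ℤ[√2]` (as rows) -/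
def L : Matrix (Fin 12) (Fin 3) (ℤ√2) :=
  !![⟨1,0⟩, ⟨0,0⟩, ⟨0,0⟩; ⟨0,0⟩, ⟨1,0⟩, ⟨0,0⟩; ⟨0,0⟩, ⟨0,0⟩, ⟨1,0⟩;
     ⟨0,0⟩, ⟨1,0⟩, ⟨-1,0⟩; ⟨1,0⟩, ⟨0,0⟩, ⟨-1,0⟩; ⟨0,1⟩, ⟨-1,0⟩, ⟨1,0⟩;
     ⟨1,0⟩, ⟨-1,0⟩, ⟨0,0⟩; ⟨0,-1⟩, ⟨1,0⟩, ⟨-1,1⟩; ⟨0,0⟩, ⟨1,-1⟩, ⟨-1,0⟩;
     ⟨0,1⟩, ⟨-1,0⟩, ⟨0,-1⟩; ⟨1,-1⟩, ⟨0,0⟩, ⟨-1,0⟩; ⟨0,-1⟩, ⟨2,-1⟩, ⟨-2,1⟩]

/-- the three points of each line -/
def Z : Fin 12 → Finset (Fin 10) :=
  ![{1,2,5}, {0,2,6}, {0,1,4}, {0,3,5}, {1,3,6}, {4,5,7}, {2,3,7}, {3,4,8}, {0,7,8}, {4,6,9},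
    {1,7,9}, {5,8,9}]

lemma PL : ∀ i j, (P i 0 * L j 0 + P i 1 * L j 1 + P i 2 * L j 2 = 0) ↔ i ∈ Z j := by
  decide +kernel

lemma Zcard : ∀ j, (Z j).card ≤ 3 := by decide +kernel

noncomputable def f : ℤ√2 →+* ℝ := Zsqrtd.toReal (by norm_num)

lemma f_inj : Function.Injective f := by
  apply Zsqrtd.toReal_injective
  intro n hn
  have h1 : n ≤ 1 ∨ 2 ≤ n := by omega
  have h2 : -1 ≤ n ∨ n ≤ -2 := by omega
  rcases h1 with h1 | h1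
  · rcases h2 with h2 | h2
    · interval_cases n <;> omega
    · nlinarith
  · nlinarith

noncomputable def B : Matrix (Fin 10) (Fin 12) ℝ := P.map f * (L.map f)ᵀ

lemma B_zero (i : Fin 10) (j : Fin 12) : B i j = 0 ↔ i ∈ Z j := by
  rw [← PL, ← map_eq_zero_iff f f_inj]
  simp [B, Matrix.mul_apply, Fin.sum_univ_three]

lemma B_rank_le : B.rank ≤ 3 := le_trans (rank_mul_le_left _ _) (rank_le_width _)

lemma rank_ge {K : Type} [Field K] (M : Matrix (Fin 10) (Fin 12) K)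
    (h : ∀ i j, M i j = 0 ↔ i ∈ Z j) : 3 ≤ M.rank := by
  have h1 := rank_submatrix_le M (![0, 1, 2] : Fin 3 → Fin 10) (![0, 1, 2] : Fin 3 → Fin 12)
  rw [rank_of_det_ne_zero] at h1
  · simpa using h1
  · have z : ∀ i j, i ∈ Z j → M i j = 0 := fun i j => (h i j).2
    have n : ∀ i j, i ∉ Z j → M i j ≠ 0 := fun i j hh hh' => hh ((h i j).1 hh')
    rw [det_fin_three]
    simp [z 0 1 (by decide), z 0 2 (by decide), z 1 0 (by decide), z 1 2 (by decide),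
      z 2 0 (by decide), z 2 1 (by decide), n 0 0 (by decide), n 1 1 (by decide),
      n 2 2 (by decide)]

lemma col {K : Type} [Field K] (M : Matrix (Fin 10) (Fin 12) K) (hr : M.rank ≤ 3)
    (a b c e : Fin 10) (j : Fin 12) (ha : M a j = 0) (hb : M b j = 0) (hc : M c j = 0)
    (he : M e j ≠ 0) :
    M a 0 * M b 1 * M c 2 - M a 0 * M b 2 * M c 1 - M a 1 * M b 0 * M c 2 + M a 1 * M b 2 * M c 0
      + M a 2 * M b 0 * M c 1 - M a 2 * M b 1 * M c 0 = 0 := by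
  by_contra hne
  have h1 := rank_submatrix_le M (![e, a, b, c] : Fin 4 → Fin 10) (![j, 0, 1, 2] : Fin 4 → Fin 12)
  rw [rank_of_det_ne_zero] at h1
  · simp at h1; omega
  · rw [det_succ_column_zero]
    simp only [Fin.sum_univ_four, det_fin_three]
    simp [ha, hb, hc, he, Fin.succAbove]
    exact hne

lemma alg {K : Type} [Field K] (x3 y3 z3 x4 y4 y5 z5 x6 z6 x7 y7 z7 x8 y8 z8 x9 y9 z9 : K)
    (n3x : x3 ≠ 0) (n3y : y3 ≠ 0) (n3z : z3 ≠ 0) (n4x : x4 ≠ 0) (n4y : y4 ≠ 0) (n5 : y5 ≠ 0)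
    (n6 : x6 ≠ 0) (n7x : x7 ≠ 0) (n7z : z7 ≠ 0) (n8 : y8 ≠ 0) (n9 : x9 ≠ 0)
    (e5 : y3 * z5 - z3 * y5 = 0) (e6 : x3 * z6 - z3 * x6 = 0)
    (e7 : x3 * y7 - y3 * x7 = 0) (e8 : y7 * z8 - z7 * y8 = 0) (e9 : x7 * z9 - z7 * x9 = 0)
    (d457 : x4 * y5 * z7 - x4 * z5 * y7 + y4 * z5 * x7 = 0)
    (d348 : -x3 * y4 * z8 + x4 * y3 * z8 - x4 * z3 * y8 + y4 * z3 * x8 = 0)
    (d469 : -x4 * z6 * y9 - y4 * x6 * z9 + y4 * z6 * x9 = 0)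
    (d589 : -y5 * x8 * z9 + y5 * z8 * x9 + z5 * x8 * y9 - z5 * y8 * x9 = 0) :
    ∃ t : K, t ^ 2 = 2 := by
  obtain ⟨a4, rfl⟩ : ∃ a, x4 = x3 * a := ⟨x4 / x3, by field_simp⟩
  obtain ⟨a5, rfl⟩ : ∃ a, y5 = y3 * a := ⟨y5 / y3, by field_simp⟩
  obtain ⟨a6, rfl⟩ : ∃ a, x6 = x3 * a := ⟨x6 / x3, by field_simp⟩
  obtain ⟨a7, rfl⟩ : ∃ a, x7 = x3 * a := ⟨x7 / x3, by field_simp⟩
  obtain ⟨a8, rfl⟩ : ∃ a, y8 = y3 * a := ⟨y8 / y3, by field_simp⟩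
  obtain ⟨a9, rfl⟩ : ∃ a, x9 = x3 * a := ⟨x9 / x3, by field_simp⟩
  have m4 : a4 ≠ 0 := right_ne_zero_of_mul n4x
  have m5 : a5 ≠ 0 := right_ne_zero_of_mul n5
  have m6 : a6 ≠ 0 := right_ne_zero_of_mul n6
  have m7 : a7 ≠ 0 := right_ne_zero_of_mul n7x
  have m8 : a8 ≠ 0 := right_ne_zero_of_mul n8
  have m9 : a9 ≠ 0 := right_ne_zero_of_mul n9
  obtain ⟨t, rfl⟩ : ∃ t, y4 = y3 * a4 * t := ⟨y4 / (y3 * a4), by field_simp⟩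
  have mt : t ≠ 0 := right_ne_zero_of_mul n4y
  obtain rfl : z5 = z3 * a5 := mul_left_cancel₀ n3y (by linear_combination e5)
  obtain rfl : z6 = z3 * a6 := mul_left_cancel₀ n3x (by linear_combination e6)
  obtain rfl : y7 = y3 * a7 := mul_left_cancel₀ n3x (by linear_combination e7)
  obtain rfl : z7 = z3 * a7 * (1 - t) :=
    mul_left_cancel₀ (show x3 * a4 * y3 * a5 ≠ 0 by simp [*]) (by linear_combination d457)
  have m1 : 1 - t ≠ 0 := right_ne_zero_of_mul n7z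
  obtain rfl : z8 = z3 * a8 * (1 - t) :=
    mul_left_cancel₀ (show y3 * a7 ≠ 0 by simp [*]) (by linear_combination e8)
  obtain rfl : z9 = z3 * a9 * (1 - t) :=
    mul_left_cancel₀ (show x3 * a7 ≠ 0 by simp [*]) (by linear_combination e9)
  obtain rfl : x8 = x3 * a8 * (2 - t) :=
    mul_left_cancel₀ (show y3 * a4 * t * z3 ≠ 0 by simp [*]) (by linear_combination d348)
  obtain rfl : y9 = y3 * a9 * t ^ 2 :=
    mul_left_cancel₀ (show x3 * a4 * z3 * a6 ≠ 0 by simp [*]) (by linear_combination -d469)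
  refine ⟨t, mul_left_cancel₀ (show x3 * y3 * z3 * a5 * a8 * a9 * (1 - t) ≠ 0 by simp [*]) ?_⟩
  linear_combination d589

lemma sqrt_two {K : Type} [Field K] (M : Matrix (Fin 10) (Fin 12) K)
    (h : ∀ i j, M i j = 0 ↔ i ∈ Z j) (hr : M.rank ≤ 3) : ∃ t : K, t ^ 2 = 2 := by
  have z : ∀ i j, i ∈ Z j → M i j = 0 := fun i j => (h i j).2
  have n : ∀ i j, i ∉ Z j → M i j ≠ 0 := fun i j hh hh' => hh ((h i j).1 hh')
  have c : ∀ (a b c e : Fin 10) (j : Fin 12), a ∈ Z j ∧ b ∈ Z j ∧ c ∈ Z j ∧ e ∉ Z j → _ :=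
    fun a b c e j hh => col M hr a b c e j (z _ _ hh.1) (z _ _ hh.2.1) (z _ _ hh.2.2.1)
      (n _ _ hh.2.2.2)
  have z01 := z 0 1 (by decide)
  have z02 := z 0 2 (by decide)
  have z10 := z 1 0 (by decide)
  have z12 := z 1 2 (by decide)
  have z20 := z 2 0 (by decide)
  have z21 := z 2 1 (by decide)
  have z42 := z 4 2 (by decide)
  have z50 := z 5 0 (by decide)
  have z61 := z 6 1 (by decide)
  have c3 := c 0 3 5 1 3 (by decide)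
  have c4 := c 1 3 6 0 4 (by decide)
  have c5 := c 4 5 7 0 5 (by decide)
  have c6 := c 2 3 7 0 6 (by decide)
  have c7 := c 4 3 8 0 7 (by decide)
  have c8 := c 0 7 8 1 8 (by decide)
  have c9 := c 4 6 9 0 9 (by decide)
  have c10 := c 1 7 9 0 10 (by decide)
  have c11 := c 5 8 9 0 11 (by decide)
  simp only [z01, z02, z10, z12, z20, z21, z42, z50, z61] at c3 c4 c5 c6 c7 c8 c9 c10 c11
  exact alg (M 3 0) (M 3 1) (M 3 2) (M 4 0) (M 4 1) (M 5 1) (M 5 2) (M 6 0) (M 6 2) (M 7 0) (M 7 1)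
    (M 7 2) (M 8 0) (M 8 1) (M 8 2) (M 9 0) (M 9 1) (M 9 2) (n _ _ (by decide)) (n _ _ (by decide))
    (n _ _ (by decide)) (n _ _ (by decide)) (n _ _ (by decide)) (n _ _ (by decide))
    (n _ _ (by decide)) (n _ _ (by decide)) (n _ _ (by decide)) (n _ _ (by decide))
    (n _ _ (by decide))
    (mul_left_cancel₀ (n 0 0 (by decide)) (by linear_combination c3))
    (mul_left_cancel₀ (n 1 1 (by decide)) (by linear_combination -c4))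
    (mul_left_cancel₀ (n 2 2 (by decide)) (by linear_combination c6))
    (mul_left_cancel₀ (n 0 0 (by decide)) (by linear_combination c8))
    (mul_left_cancel₀ (n 1 1 (by decide)) (by linear_combination -c10))
    (by linear_combination c5) (by linear_combination c7) (by linear_combination c9)
    (by linear_combination c11)

noncomputable def A : Matrix (Fin 10) (Fin 12) SignType := fun i j => SignType.sign (B i j)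

lemma A_zero (i : Fin 10) (j : Fin 12) : A i j = 0 ↔ i ∈ Z j := by
  rw [← B_zero, A, sign_eq_zero_iff]

lemma A_col (j : Fin 12) : (Finset.univ.filter (fun i : Fin 10 => A i j = 0)).card ≤ 3 := by
  refine le_trans (Finset.card_le_card ?_) (Zcard j)
  intro i hi
  simpa [A_zero] using hi

lemma A_min (M : Matrix (Fin 10) (Fin 12) ℝ) (h : ∀ i j, SignType.sign (M i j) = A i j) :
    3 ≤ M.rank :=
  rank_ge M fun i j => by rw [← A_zero, ← h, sign_eq_zero_iff]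

lemma A_real : ∃ M : Matrix (Fin 10) (Fin 12) ℝ,
    (∀ i j, SignType.sign (M i j) = A i j) ∧ M.rank = 3 :=
  ⟨B, fun _ _ => rfl, le_antisymm B_rank_le (rank_ge B B_zero)⟩

lemma A_rat (Q : Matrix (Fin 10) (Fin 12) ℚ) (h : ∀ i j, SignType.sign (Q i j) = A i j) :
    Q.rank ≠ 3 := by
  intro hr
  obtain ⟨t, ht⟩ := sqrt_two Q (fun i j => by rw [← A_zero, ← h, sign_eq_zero_iff]) hr.le
  have h2 : ((t : ℝ)) ^ 2 = 2 := by exact_mod_cast ht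
  have h3 : Real.sqrt 2 = ((|t| : ℚ) : ℝ) := by
    rw [← h2, Real.sqrt_sq_eq_abs]; simp
  exact irrational_sqrt_two ⟨_, h3.symm⟩

end Pool.Agent.Lib.H25Sign
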