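import Pool.Agent.Lib.helper14.Deg3

/-! A sphere is not separated by a set of codimension two. -/

namespace Pool.Agent.H25Sph

open Set Metric Module

variable {E : Type} [NormedAddCommGroup E] [InnerProductSpace ℝ E] [FiniteDimensional ℝ E]

lemma miranda {W : Type} [NormedAddCommGroup W] [NormedSpace ℝ W] [FiniteDimensional ℝ W]
    (G1 : W × ℝ → W) (G2 : W × ℝ → ℝ) (h1 : Continuous G1) (h2 : Continuous G2)
    (a1 : ∀ x : W × ℝ, ‖x‖ ≤ 1 → ‖x.1 - G1 x‖ ≤ 1)
    (a2 : ∀ u : W, ‖u‖ ≤ 1 → G2 (u, -1) < 0) (a3 : ∀ u : W, ‖u‖ ≤ 1 → 0 < G2 (u, 1)) :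
    ∃ x : W × ℝ, ‖x‖ ≤ 1 ∧ G1 x = 0 ∧ G2 x = 0 := by
  let T : W × ℝ → W × ℝ := fun x => (x.1 - G1 x, max (-1) (min 1 (x.2 - G2 x)))
  have hT : Continuous T := by fun_prop
  obtain ⟨x, hx, hfix⟩ := Pool.Agent.H14Deg.brouwer (f := T) hT.continuousOn (by
    intro x hx
    rw [mem_closedBall_zero_iff] at hx ⊢
    rw [Prod.norm_def]
    refine max_le (a1 x hx) ?_
    rw [Real.norm_eq_abs, abs_le]
    exact ⟨le_max_left _ _, max_le (by norm_num) (min_le_left _ _)⟩)
  rw [mem_closedBall_zero_iff] at hx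
  have hu : ‖x.1‖ ≤ 1 := (norm_fst_le x).trans hx
  have e1 : x.1 - G1 x = x.1 := congrArg Prod.fst hfix
  have e2 : max (-1) (min 1 (x.2 - G2 x)) = x.2 := congrArg Prod.snd hfix
  refine ⟨x, hx, by simpa using e1, ?_⟩
  rcases lt_trichotomy (G2 x) 0 with h | h | h
  · have : x.2 = 1 := by
      rcases le_total 1 (x.2 - G2 x) with q | q
      · rw [min_eq_left q, max_eq_right (by norm_num)] at e2; exact e2.symm
      · rw [min_eq_right q] at e2
        have := le_max_right (-1) (x.2 - G2 x)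
        linarith
    have h3 := a3 x.1 hu
    rw [← this] at h3
    exact absurd h3 (not_lt.mpr h.le)
  · exact h
  · have : x.2 = -1 := by
      rcases le_total (-1) (min 1 (x.2 - G2 x)) with q | q
      · rw [max_eq_right q] at e2
        have := min_le_right 1 (x.2 - G2 x)
        linarith
      · rw [max_eq_left q] at e2; exact e2.symm
    have h3 := a2 x.1 hu
    rw [← this] at h3
    exact absurd h3 (not_lt.mpr h.le)

lemma sep (C1 C2 : Set (sphere (0 : E) 1)) (hC1 : IsClosed C1) (hC2 : IsClosed C2)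
    (hU : ∀ x, x ∈ C1 ∨ x ∈ C2) (p q : sphere (0 : E) 1) (hp : p ∉ C2) (hq : q ∉ C1)
    (hpq : (p : E) ≠ -(q : E))
    (hP : ∀ W : Submodule ℝ E, finrank ℝ E ≤ finrank ℝ W + 2 →
      ∀ f : sphere (0 : E) 1 → W, Continuous f → ∀ ε > 0,
      ∃ f' : sphere (0 : E) 1 → W, Continuous f' ∧ (∀ x, ‖f x - f' x‖ ≤ ε) ∧
        ∀ x ∈ C1 ∩ C2, f' x ≠ 0) : False := by
  classical
  have np : ‖(p : E)‖ = 1 := by simp
  have nq : ‖(q : E)‖ = 1 := by simp
  let K : Submodule ℝ E := Submodule.span ℝ {(p : E), (q : E)}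
  let W : Submodule ℝ E := Kᗮ
  have hW : finrank ℝ E ≤ finrank ℝ W + 2 := by
    have h1 := Submodule.finrank_add_finrank_orthogonal K
    have h2 : finrank ℝ K ≤ 2 := by
      have := finrank_span_finset_le_card (R := ℝ) ({(p : E), (q : E)} : Finset E)
      rw [Set.finrank, Finset.coe_pair] at this
      exact this.trans Finset.card_le_two
    simp only [W]; omega
  let k : ℝ → E := fun s => ((1 - s) / 2) • (p : E) + ((1 + s) / 2) • (q : E)
  have hk : ∀ s, k s ∈ K := fun s =>
    K.add_mem (K.smul_mem _ (Submodule.subset_span (by simp)))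
      (K.smul_mem _ (Submodule.subset_span (by simp)))
  let v : W × ℝ → E := fun x => k x.2 + (x.1 : E)
  have hv : Continuous v := by simp only [v, k]; fun_prop
  have hproj : ∀ x : W × ℝ, W.orthogonalProjectionOnto (v x) = x.1 := by
    intro x
    simp only [v, map_add, Submodule.orthogonalProjectionOnto_mem_subspace_eq_self]
    rw [Submodule.orthogonalProjectionOnto_apply_of_mem_orthogonal
      (K.le_orthogonal_orthogonal (hk _)), zero_add]
  have hv0 : ∀ x, v x ≠ 0 := by
    intro x h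
    have h1 := hproj x
    rw [h, map_zero] at h1
    have h2 : k x.2 = 0 := by
      have := h; simp only [v, ← h1] at this; simpa using this
    have h3 : ((1 - x.2) / 2) • (p : E) = -(((1 + x.2) / 2) • (q : E)) := eq_neg_of_add_eq_zero_left h2
    have h4 := congrArg norm h3
    rw [norm_neg, norm_smul, norm_smul, np, nq, mul_one, mul_one, Real.norm_eq_abs,
      Real.norm_eq_abs, abs_eq_abs] at h4
    rcases h4 with h4 | h4
    · have h5 : x.2 = 0 := by linarith
      rw [h5, ← smul_neg] at h3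
      norm_num at h3
      apply hpq
      have := congrArg (fun z => (2 : ℝ) • z) h3
      simpa [smul_smul] using this
    · linarith
  let Φ : W × ℝ → sphere (0 : E) 1 := fun x => ⟨‖v x‖⁻¹ • v x, by
    rw [mem_sphere_zero_iff_norm, norm_smul, norm_inv, norm_norm,
      inv_mul_cancel₀ (norm_ne_zero_iff.mpr (hv0 x))]⟩
  have hΦ : Continuous Φ :=
    Continuous.subtype_mk ((hv.norm.inv₀ fun x => norm_ne_zero_iff.mpr (hv0 x)).smul hv) _
  have Φp : Φ (0, -1) = p := by
    apply Subtype.ext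
    have : v (0, -1) = p := by simp [v, k]
    simp only [Φ, this, np, inv_one, one_smul]
  have Φq : Φ (0, 1) = q := by
    apply Subtype.ext
    have : v (0, 1) = q := by simp [v, k]
    simp only [Φ, this, nq, inv_one, one_smul]
  have o1 : IsOpen {u : W | Φ (u, -1) ∈ C2ᶜ ∧ Φ (u, 1) ∈ C1ᶜ} :=
    (hC2.isOpen_compl.preimage (by fun_prop : Continuous fun u : W => Φ (u, -1))).inter
      (hC1.isOpen_compl.preimage (by fun_prop : Continuous fun u : W => Φ (u, 1)))
  obtain ⟨r, hr, hball⟩ := Metric.isOpen_iff.mp o1 0 ⟨by rw [Φp]; exact hp, by rw [Φq]; exact hq⟩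
  set δ : ℝ := min (r / 2) 1 with hδ
  have δ0 : 0 < δ := lt_min (half_pos hr) one_pos
  have δ1 : δ ≤ 1 := min_le_right _ _
  have δr : δ < r := (min_le_left _ _).trans_lt (half_lt_self hr)
  have hin : ∀ u : W, ‖u‖ ≤ 1 → Φ (δ • u, -1) ∉ C2 ∧ Φ (δ • u, 1) ∉ C1 := by
    intro u hu
    apply hball
    rw [mem_ball_zero_iff, norm_smul, Real.norm_of_nonneg δ0.le]
    nlinarith
  obtain ⟨f', c1, c2, c3⟩ := hP W hW (fun x => W.orthogonalProjectionOnto (x : E)) (by fun_prop)
    (δ / 2) (half_pos δ0)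
  have ne1 : C1.Nonempty := ⟨p, (hU p).resolve_right hp⟩
  have ne2 : C2.Nonempty := ⟨q, (hU q).resolve_left hq⟩
  let σ : W × ℝ → W × ℝ := fun x => (δ • x.1, x.2)
  have hσ : Continuous σ := by fun_prop
  obtain ⟨x, -, g1, g2⟩ := miranda (fun x => (‖v (σ x)‖ / δ) • f' (Φ (σ x)))
    (fun x => infDist (Φ (σ x)) C1 - infDist (Φ (σ x)) C2) (by fun_prop)
    (((continuous_infDist_pt C1).comp (hΦ.comp hσ)).sub
      ((continuous_infDist_pt C2).comp (hΦ.comp hσ))) (by
      intro x hx
      have hu : ‖x.1‖ ≤ 1 := (norm_fst_le x).trans hx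
      have hs : |x.2| ≤ 1 := (norm_snd_le x).trans hx
      rw [abs_le] at hs
      have hn : ‖v (σ x)‖ ≤ 2 := by
        have b1 : ‖k x.2‖ ≤ 1 := by
          refine (norm_add_le _ _).trans ?_
          rw [norm_smul, norm_smul, np, nq, Real.norm_of_nonneg (by linarith),
            Real.norm_of_nonneg (by linarith)]
          linarith
        have b2 : ‖((δ • x.1 : W) : E)‖ ≤ 1 := by
          rw [← Submodule.coe_norm, norm_smul, Real.norm_of_nonneg δ0.le]
          nlinarith [norm_nonneg x.1]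
        exact (norm_add_le _ _).trans (by linarith)
      have e : x.1 = (‖v (σ x)‖ / δ) • W.orthogonalProjectionOnto ((Φ (σ x) : sphere (0 : E) 1) : E) := by
        simp only [Φ, map_smul, hproj, σ, smul_smul]
        have := norm_ne_zero_iff.mpr (hv0 (δ • x.1, x.2))
        rw [show ‖v (δ • x.1, x.2)‖ / δ * (‖v (δ • x.1, x.2)‖⁻¹ * δ) = 1 by field_simp, one_smul]
      calc ‖x.1 - (‖v (σ x)‖ / δ) • f' (Φ (σ x))‖
          = (‖v (σ x)‖ / δ) * ‖W.orthogonalProjectionOnto ((Φ (σ x) : sphere (0 : E) 1) : E)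
              - f' (Φ (σ x))‖ := by
            conv_lhs => rw [e]
            rw [← smul_sub, norm_smul, Real.norm_of_nonneg (by positivity)]
        _ ≤ (2 / δ) * (δ / 2) := by
            gcongr
            exact c2 _
        _ = 1 := by field_simp)
    (by
      intro u hu
      have h2 := (hin u hu).1
      have h1 := (hU _).resolve_right h2
      have := (hC2.notMem_iff_infDist_pos ne2).mp h2
      simp only [σ]
      rw [infDist_zero_of_mem h1]; linarith)
    (by
      intro u hu
      have h1 := (hin u hu).2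
      have h2 := (hU _).resolve_left h1
      have := (hC1.notMem_iff_infDist_pos ne1).mp h1
      simp only [σ]
      rw [infDist_zero_of_mem h2]; linarith)
  have hm : Φ (σ x) ∈ C1 ∩ C2 := by
    rcases hU (Φ (σ x)) with h | h
    · refine ⟨h, (hC2.mem_iff_infDist_zero ne2).mpr ?_⟩
      rw [infDist_zero_of_mem h] at g2; linarith
    · refine ⟨(hC1.mem_iff_infDist_zero ne1).mpr ?_, h⟩
      rw [infDist_zero_of_mem h] at g2; linarith
  rcases smul_eq_zero.mp g1 with h | h
  · have := norm_pos_iff.mpr (hv0 (σ x))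
    have h' : 0 < ‖v (σ x)‖ / δ := by positivity
    exact h'.ne' h
  · exact c3 _ hm h

theorem not_separated {R : Type} [NormedAddCommGroup R] [NormedSpace ℝ R] [FiniteDimensional ℝ R]
    (X X1 X2 : Set R) (hX : IsClosed X) (h1 : IsClosed X1) (h2 : IsClosed X2) (hU : X ⊆ X1 ∪ X2)
    (h : X ≃ₜ sphere (0 : E) 1) (d : ℕ) (hd : dimH (X1 ∩ X2) ≤ d) (hE : d + 3 ≤ finrank ℝ E)
    (p p' q : X) (hp : (p : R) ∉ X2) (hp' : (p' : R) ∉ X2) (hne : p ≠ p') (hq : (q : R) ∉ X1) :
    False := by
  have main : ∀ p : X, (p : R) ∉ X2 → ((h p : sphere (0 : E) 1) : E) ≠ -((h q : sphere (0 : E) 1) : E)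
      → False := by
    intro p hp hpq
    refine sep (E := E) ((fun y => ((h.symm y : X) : R)) ⁻¹' X1)
      ((fun y => ((h.symm y : X) : R)) ⁻¹' X2) (h1.preimage (by fun_prop))
      (h2.preimage (by fun_prop)) (fun y => hU (h.symm y).2) (h p) (h q) (by simpa using hp)
      (by simpa using hq) hpq ?_
    intro W hW f hf ε hε
    have : TietzeExtension W := TietzeExtension.of_tvs ℝ
    obtain ⟨G, hG⟩ := ContinuousMap.exists_restrict_eq hX
      (⟨fun x => f (h x), by fun_prop⟩ : C(X, W))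
    obtain ⟨w, hw, hwa, -⟩ := G.continuous.exists_contDiff_approx 1
      (ε := fun _ => ε / 2) continuous_const fun _ => half_pos hε
    have hdim : dimH (w '' (X1 ∩ X2)) < finrank ℝ W := by
      refine lt_of_le_of_lt ((hw.contDiffOn.dimH_image_le convex_univ (subset_univ _)).trans hd) ?_
      exact_mod_cast (by omega : d < finrank ℝ W)
    obtain ⟨y, hy1, hy2⟩ := (dense_compl_of_dimH_lt_finrank hdim).exists_dist_lt 0 (half_pos hε)
    refine ⟨fun z => w (h.symm z : X) - y, ?_, fun z => ?_, fun z hz h0 => ?_⟩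
    · have := hw.continuous
      fun_prop
    · have e : f z = G (h.symm z : X) := by
        have := congrArg (fun g : C(X, W) => g (h.symm z)) hG
        simpa using this.symm
      have a := hwa (h.symm z : X)
      rw [dist_comm, dist_eq_norm] at a
      rw [dist_comm, dist_zero_right] at hy2
      rw [e, show G (h.symm z : X) - (w (h.symm z : X) - y) = (G (h.symm z : X) - w (h.symm z : X)) + y
        by abel]
      exact (norm_add_le _ _).trans (by linarith)
    · exact hy1 ⟨_, hz, sub_eq_zero.mp h0⟩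
  by_cases hc : ((h p : sphere (0 : E) 1) : E) = -((h q : sphere (0 : E) 1) : E)
  · refine main p' hp' fun h' => hne (h.injective (Subtype.ext (hc.trans h'.symm)))
  · exact main p hp hc

end Pool.Agent.H25Sph
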