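import Mathlib

set_option autoImplicit false

namespace Pool.Agent.Lib.H25SqrtCF

/-- one step of the continued fraction algorithm for `(m + √k) / d` -/
lemma step (k : ℕ) (r m d a m' d' : ℤ) (hr0 : 0 ≤ r) (hr1 : r ^ 2 < k) (hr2 : (k : ℤ) < (r + 1) ^ 2)
    (hd : 0 < d) (hd' : 0 < d') (h1 : m' = a * d - m) (h2 : d * d' = k - m' ^ 2)
    (h3 : a * d ≤ m + r) (h4 : m + r + 1 ≤ (a + 1) * d) :
    ⌊((m : ℝ) + Real.sqrt k) / d⌋ = a ∧
      (Int.fract (((m : ℝ) + Real.sqrt k) / d))⁻¹ = ((m' : ℝ) + Real.sqrt k) / d' := by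
  have hs1 : (r : ℝ) < Real.sqrt k := Real.lt_sqrt_of_sq_lt (by exact_mod_cast hr1)
  have hs2 : Real.sqrt k < r + 1 := by
    rw [Real.sqrt_lt' (by have : (0 : ℝ) ≤ r := by exact_mod_cast hr0
                          linarith)]
    exact_mod_cast hr2
  have hdR : (0 : ℝ) < d := by exact_mod_cast hd
  have hdR' : (0 : ℝ) < d' := by exact_mod_cast hd'
  have h3R : (a : ℝ) * d ≤ m + r := by exact_mod_cast h3
  have h4R : (m : ℝ) + r + 1 ≤ (a + 1) * d := by exact_mod_cast h4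
  have h1R : (m' : ℝ) = a * d - m := by exact_mod_cast h1
  have h2R : (d : ℝ) * d' = k - m' ^ 2 := by exact_mod_cast h2
  have hsq : Real.sqrt k ^ 2 = k := Real.sq_sqrt (Nat.cast_nonneg k)
  have hfl : ⌊((m : ℝ) + Real.sqrt k) / d⌋ = a := by
    rw [Int.floor_eq_iff, le_div_iff₀ hdR, div_lt_iff₀ hdR]
    constructor <;> linarith
  refine ⟨hfl, ?_⟩
  rw [Int.fract, hfl]
  apply inv_eq_of_mul_eq_one_right
  field_simp
  rw [h1R] at h2R ⊢
  nlinarith

end Pool.Agent.Lib.H25SqrtCF
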