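import Mathlib

namespace Pool.Agent.Lib.helper25.WangShi

open Finset

/-- Index pairs `(i, j)` of the `3d` division points on the boundary of the triangle. -/
def IsDiv (d : ℕ) (q : ℕ × ℕ) : Prop :=
  q.1 + q.2 ≤ d ∧ (q.1 = 0 ∨ q.2 = 0 ∨ q.1 + q.2 = d)

/-- The two division points lie on a common side. -/
def SameSide (d : ℕ) (q r : ℕ × ℕ) : Prop :=
  (q.1 = 0 ∧ r.1 = 0) ∨ (q.2 = 0 ∧ r.2 = 0) ∨ (q.1 + q.2 = d ∧ r.1 + r.2 = d)

/-- The point `A + s (B - A) + t (C - A)` of the plane. -/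
def pt (A B C : ℝ × ℝ) (s t : ℝ) : ℝ × ℝ := A + s • (B - A) + t • (C - A)

/-- The division point with index `(i, j)`: `A + (i/d)(B - A) + (j/d)(C - A)`. -/
noncomputable def divPt (A B C : ℝ × ℝ) (d : ℕ) (q : ℕ × ℕ) : ℝ × ℝ :=
  pt A B C (q.1 / d) (q.2 / d)

/-- The lines of the Wang-Shi split `WS_d` of the triangle `A B C`. -/
def WS (A B C : ℝ × ℝ) (d : ℕ) : Set (AffineSubspace ℝ (ℝ × ℝ)) :=
  {l | ∃ q r, IsDiv d q ∧ IsDiv d r ∧ ¬ SameSide d q r ∧
    l = line[ℝ, divPt A B C d q, divPt A B C d r]}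

lemma gap_count (H : Finset ℤ) (hne : H.Nonempty) (h1 : ∀ a ∈ H, ∀ b ∈ H, a < b → a + 2 ≤ b)
    (h2 : ∀ a ∈ H, ∀ b ∈ H, a + 2 ∈ H → b + 2 ∈ H → a = b) :
    ∃ a ∈ H, ∃ b ∈ H, 3 * (H.card : ℤ) ≤ b - a + 4 := by
  classical
  obtain ⟨z, hz⟩ : ∃ z : ℤ, ∀ a ∈ H, a + 2 ∈ H → a = z := by
    by_cases h : ∃ a ∈ H, a + 2 ∈ H
    · obtain ⟨a, ha, ha'⟩ := h
      exact ⟨a, fun b hb hb' => h2 b hb a ha hb' ha'⟩
    · exact ⟨0, fun a ha ha' => absurd ⟨a, ha, ha'⟩ h⟩
  refine ⟨H.min' hne, min'_mem _ _, H.max' hne, max'_mem _ _, ?_⟩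
  have key : ∀ a ∈ H, ∀ b ∈ H, a < b →
      (if a ≤ z then a else a + 1) + 3 ≤ (if b ≤ z then b else b + 1) := by
    intro a ha b hb hab
    have := h1 a ha b hb hab
    by_cases e : b = a + 2
    · have := hz a ha (e ▸ hb)
      split_ifs <;> omega
    · split_ifs <;> omega
  have hc := card_le_card_of_injOn (s := H ×ˢ range 3) (t := Icc (H.min' hne) (H.max' hne + 3))
    (fun q => (if q.1 ≤ z then q.1 else q.1 + 1) + (q.2 : ℤ)) (by
      rintro ⟨a, r⟩ h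
      simp only [coe_product, Set.mem_prod, mem_coe, mem_range] at h
      have := min'_le H a h.1
      have := le_max' H a h.1
      simp only [coe_Icc, Set.mem_Icc]
      split_ifs <;> omega) (by
      rintro ⟨a, r⟩ h ⟨b, r'⟩ h' e
      simp only [coe_product, Set.mem_prod, mem_coe, mem_range] at h h' e
      rcases lt_trichotomy a b with hab | hab | hab
      · have := key a h.1 b h'.1 hab; omega
      · subst hab
        have : r = r' := by omega
        rw [this]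
      · have := key b h'.1 a h.1 hab; omega)
  rw [card_product, card_range, Int.card_Icc] at hc
  have := min'_le_max' H hne
  omega

noncomputable def N (d : ℕ) (b c : ℝ) : Finset (ℕ × ℕ) := by
  classical exact (Icc 1 d ×ˢ Icc 1 d).filter (fun q => b * q.2 + c * q.1 = q.1 * q.2)

lemma mem_N {d : ℕ} {b c : ℝ} {q : ℕ × ℕ} : q ∈ N d b c ↔
    (1 ≤ q.1 ∧ q.1 ≤ d) ∧ (1 ≤ q.2 ∧ q.2 ≤ d) ∧ b * q.2 + c * q.1 = q.1 * q.2 := by
  simp [N, and_assoc]

lemma gt_of {b c i j : ℝ} (hb : 0 < b) (hc : 0 < c) (hi : 0 < i) (hj : 0 < j)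
    (h : b * j + c * i = i * j) : b < i ∧ c < j := by
  constructor <;> nlinarith [mul_pos hc hi, mul_pos hb hj]

lemma anti {b c i j i' j' : ℝ} (hb : 0 < b) (hc : 0 < c) (h1 : b < i)
    (h : b * j + c * i = i * j) (h' : b * j' + c * i' = i' * j') (hi : i < i') : j' < j := by
  have e1 : (i - b) * (j - c) = b * c := by linarith
  have e2 : (i' - b) * (j' - c) = b * c := by linarith
  have hp := mul_pos hb hc
  by_contra hn
  push Not at hn
  have h3 : 0 < j - c := by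
    by_contra h4
    nlinarith
  nlinarith

lemma N_anti {d : ℕ} {b c : ℝ} (hb : 0 < b) (hc : 0 < c) {q r : ℕ × ℕ} (hq : q ∈ N d b c)
    (hr : r ∈ N d b c) : (q.1 < r.1 → r.2 < q.2) ∧ (q.2 < r.2 → r.1 < q.1) := by
  obtain ⟨⟨a1, _⟩, ⟨a2, _⟩, a3⟩ := mem_N.1 hq
  obtain ⟨_, _, b3⟩ := mem_N.1 hr
  have p1 : (0 : ℝ) < q.1 := by exact_mod_cast a1
  have p2 : (0 : ℝ) < q.2 := by exact_mod_cast a2
  obtain ⟨g1, g2⟩ := gt_of hb hc p1 p2 a3
  constructor
  · intro h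
    exact_mod_cast anti hb hc g1 a3 b3 (by exact_mod_cast h)
  · intro h
    exact_mod_cast anti (i := q.2) (j := q.1) (i' := r.2) (j' := r.1) hc hb g2 (by linarith)
      (by linarith) (by exact_mod_cast h)

lemma N_tri {d : ℕ} {b c : ℝ} (hb : 0 < b) (hc : 0 < c) {q r : ℕ × ℕ} (hq : q ∈ N d b c)
    (hr : r ∈ N d b c) : q = r ∨ (q.1 < r.1 ∧ r.2 < q.2) ∨ (r.1 < q.1 ∧ q.2 < r.2) := by
  have h1 := N_anti hb hc hq hr
  have h2 := N_anti hb hc hr hq
  by_cases e : q.1 = r.1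
  · left
    apply Prod.ext e
    omega
  · right; omega

lemma N_low {d : ℕ} {a b c : ℝ} (ha : 0 < a) (hb : 0 < b) (hc : 0 < c) (hs : a + b + c = d)
    {q : ℕ × ℕ} (hq : q ∈ N d b c) :
    d * b / (a + b) ≤ q.1 ∧ (q.2 < d → d * b / (a + b) < q.1) := by
  obtain ⟨⟨a1, _⟩, ⟨a2, a4⟩, a3⟩ := mem_N.1 hq
  have p1 : (0 : ℝ) < q.1 := by exact_mod_cast a1
  have p2 : (0 : ℝ) < q.2 := by exact_mod_cast a2
  have p4 : (q.2 : ℝ) ≤ d := by exact_mod_cast a4
  obtain ⟨g1, _⟩ := gt_of hb hc p1 p2 a3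
  have e : (q.1 : ℝ) * (a + b) - d * b = (q.1 - b) * (d - q.2) := by
    rw [show a + b = d - c by linarith]; linarith
  constructor
  · rw [div_le_iff₀ (by positivity)]
    nlinarith [mul_nonneg (sub_nonneg.2 g1.le) (sub_nonneg.2 p4)]
  · intro h
    have p5 : (q.2 : ℝ) < d := by exact_mod_cast h
    rw [div_lt_iff₀ (by positivity)]
    nlinarith [mul_pos (sub_pos.2 g1) (sub_pos.2 p5)]

lemma N_swap {d : ℕ} {b c : ℝ} {q : ℕ × ℕ} (hq : q ∈ N d b c) : q.swap ∈ N d c b := by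
  rw [mem_N] at hq ⊢
  exact ⟨hq.2.1, hq.1, by simp only [Prod.fst_swap, Prod.snd_swap]; linarith [hq.2.2]⟩

/-- `E d b c`: the arc contains a lattice point with second coordinate `d`. -/
def E (d : ℕ) (b c : ℝ) : Prop := ∃ q ∈ N d b c, q.2 = d

lemma low2 {d : ℕ} {a b c : ℝ} (ha : 0 < a) (hb : 0 < b) (hc : 0 < c) (hs : a + b + c = d)
    {q : ℕ × ℕ} (hq : q ∈ N d b c) :
    d * b / (a + b) - d ≤ (q.1 : ℝ) - q.2 ∧ (¬ E d b c → d * b / (a + b) - d + 1 < (q.1 : ℝ) - q.2) := by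
  obtain ⟨h1, h2⟩ := N_low ha hb hc hs hq
  have a4 := (mem_N.1 hq).2.1.2
  have p4 : (q.2 : ℝ) ≤ d := by exact_mod_cast a4
  refine ⟨by linarith, fun h => ?_⟩
  have h3 : q.2 + 1 ≤ d := by
    have : q.2 ≠ d := fun e => h ⟨q, hq, e⟩
    omega
  have p5 : (q.2 : ℝ) + 1 ≤ d := by exact_mod_cast h3
  linarith [h2 h3]

lemma arc {d : ℕ} {a b c : ℝ} (ha : 0 < a) (hb : 0 < b) (hc : 0 < c) (hs : a + b + c = d) :
    ∃ e1 e2 : ℝ, (e1 = 0 ∧ E d c b ∨ 1 < e1 ∧ ¬ E d c b) ∧ (e2 = 0 ∧ E d b c ∨ 1 < e2 ∧ ¬ E d b c) ∧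
      3 * ((N d b c).card : ℝ) ≤ 2 * d - d * b / (a + b) - d * c / (a + c) + 4 - e1 - e2 := by
  classical
  have hd : (0 : ℝ) < d := by linarith
  have l1 : d * b / (a + b) < d := by rw [div_lt_iff₀ (by positivity)]; nlinarith
  have l2 : d * c / (a + c) < d := by rw [div_lt_iff₀ (by positivity)]; nlinarith
  rcases (N d b c).eq_empty_or_nonempty with h0 | hne
  · refine ⟨2, 2, Or.inr ⟨by norm_num, ?_⟩, Or.inr ⟨by norm_num, ?_⟩, ?_⟩
    · rintro ⟨q, hq, _⟩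
      have := N_swap hq
      rw [h0] at this; simp at this
    · rintro ⟨q, hq, _⟩
      rw [h0] at hq; simp at hq
    · rw [h0]; simp; linarith
  let h : ℕ × ℕ → ℤ := fun q => (q.1 : ℤ) - q.2
  have hinj : Set.InjOn h (N d b c) := by
    intro q hq r hr e
    simp only [h] at e
    rcases N_tri hb hc hq hr with t | t | t
    · exact t
    · omega
    · omega
  obtain ⟨u, hu, v, hv, huv⟩ := gap_count ((N d b c).image h) (hne.image h) (by
    intro u hu v hv huv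
    obtain ⟨q, hq, rfl⟩ := mem_image.1 hu
    obtain ⟨r, hr, rfl⟩ := mem_image.1 hv
    simp only [h] at huv ⊢
    rcases N_tri hb hc hq hr with t | t | t
    · subst t; omega
    · omega
    · omega) (by
    have step : ∀ q ∈ N d b c, h q + 2 ∈ (N d b c).image h → (h q : ℝ) = b - c - 1 := by
      intro q hq hv
      obtain ⟨r, hr, e⟩ := mem_image.1 hv
      simp only [h] at e ⊢
      have t : r.1 = q.1 + 1 ∧ q.2 = r.2 + 1 := by
        rcases N_tri hb hc hq hr with t | t | t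
        · subst t; omega
        · omega
        · omega
      have a3 := (mem_N.1 hq).2.2
      have b3 := (mem_N.1 hr).2.2
      rw [t.1] at b3
      rw [t.2] at a3 ⊢
      push_cast at a3 b3 ⊢
      linarith
    intro u hu v hv hu' hv'
    obtain ⟨q, hq, rfl⟩ := mem_image.1 hu
    obtain ⟨r, hr, rfl⟩ := mem_image.1 hv
    have := (step q hq hu').trans (step r hr hv').symm
    exact_mod_cast this)
  rw [card_image_of_injOn hinj] at huv
  obtain ⟨q, hq, rfl⟩ := mem_image.1 hu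
  obtain ⟨r, hr, rfl⟩ := mem_image.1 hv
  have huv' : 3 * ((N d b c).card : ℝ) ≤ ((r.1 : ℝ) - r.2) - ((q.1 : ℝ) - q.2) + 4 := by
    simp only [h] at huv
    exact_mod_cast huv
  obtain ⟨m1, m2⟩ := low2 ha hb hc hs hq
  obtain ⟨m3, m4⟩ := low2 ha hc hb (by linarith) (N_swap hr)
  simp only [Prod.fst_swap, Prod.snd_swap] at m3 m4
  by_cases c1 : E d c b <;> by_cases c2 : E d b c
  · exact ⟨0, 0, Or.inl ⟨rfl, c1⟩, Or.inl ⟨rfl, c2⟩, by linarith⟩
  · exact ⟨0, (q.1 : ℝ) - q.2 - (d * b / (a + b) - d), Or.inl ⟨rfl, c1⟩,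
      Or.inr ⟨by linarith [m2 c2], c2⟩, by linarith⟩
  · exact ⟨(r.2 : ℝ) - r.1 - (d * c / (a + c) - d), 0, Or.inr ⟨by linarith [m4 c1], c1⟩,
      Or.inl ⟨rfl, c2⟩, by linarith⟩
  · exact ⟨(r.2 : ℝ) - r.1 - (d * c / (a + c) - d), (q.1 : ℝ) - q.2 - (d * b / (a + b) - d),
      Or.inr ⟨by linarith [m4 c1], c1⟩, Or.inr ⟨by linarith [m2 c2], c2⟩, by linarith⟩

lemma ne_dd {d : ℕ} {a b c : ℝ} (ha : 0 < a) (hb : 0 < b) (hc : 0 < c) (hs : a + b + c = d)
    {q : ℕ × ℕ} (hq : q ∈ N d b c) (h2 : q.2 = d) : q.1 < d := by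
  obtain ⟨⟨_, a1⟩, _, a3⟩ := mem_N.1 hq
  rcases Nat.lt_or_eq_of_le a1 with h | h
  · exact h
  · rw [h, h2] at a3
    have hd : (0 : ℝ) < d := by linarith
    nlinarith

lemma shift {d : ℕ} {a b c : ℝ} (ha : 0 < a) (hb : 0 < b) (hc : 0 < c) (hs : a + b + c = d)
    {q : ℕ × ℕ} (hq : q ∈ N d b c) (h2 : q.2 = d) : (d - q.1, d) ∈ N d a c := by
  have h1 := ne_dd ha hb hc hs hq h2
  obtain ⟨⟨a0, a1⟩, _, a3⟩ := mem_N.1 hq
  rw [mem_N]
  refine ⟨by simp only; omega, by simp only; omega, ?_⟩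
  simp only
  rw [Nat.cast_sub a1]
  rw [h2] at a3
  rw [show a = d - b - c by linarith]
  linarith

lemma E_shift {d : ℕ} {a b c : ℝ} (ha : 0 < a) (hb : 0 < b) (hc : 0 < c) (hs : a + b + c = d)
    (h : E d b c) : E d a c := by
  obtain ⟨q, hq, h2⟩ := h
  exact ⟨_, shift ha hb hc hs hq h2, rfl⟩

noncomputable def N' (d : ℕ) (b c : ℝ) : Finset (ℕ × ℕ) := (N d b c).filter (fun q => q.2 ≠ d)

lemma N'_card (d : ℕ) (b c : ℝ) : ((N' d b c).card : ℝ) ≤ (N d b c).card ∧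
    (E d b c → ((N' d b c).card : ℝ) + 1 ≤ (N d b c).card) := by
  constructor
  · exact_mod_cast card_filter_le _ _
  · rintro ⟨q, hq, h⟩
    have : (N' d b c).card < (N d b c).card :=
      card_lt_card (filter_ssubset.2 ⟨q, hq, by simp [h]⟩)
    exact_mod_cast this

lemma key (P : Prop) (x y e f : ℝ) (h1 : x ≤ y) (h2 : P → x + 1 ≤ y)
    (h3 : e = 0 ∧ P ∨ 1 < e ∧ ¬ P) (h4 : f = 0 ∧ P ∨ 1 < f ∧ ¬ P) :
    3 * x + 2 < 3 * y + e + f := by
  rcases h3 with h3 | h3 <;> rcases h4 with h4 | h4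
  · linarith [h2 h3.2, h3.1, h4.1]
  · exact absurd h3.2 h4.2
  · exact absurd h4.2 h3.2
  · linarith [h3.1, h4.1]

lemma total {d : ℕ} {a b c : ℝ} (ha : 0 < a) (hb : 0 < b) (hc : 0 < c) (hs : a + b + c = d) :
    (N' d b c).card + (N' d c a).card + (N' d a b).card ≤ d + 1 := by
  obtain ⟨e1, f1, he1, hf1, g1⟩ := arc ha hb hc hs
  obtain ⟨e2, f2, he2, hf2, g2⟩ := arc (d := d) hb hc ha (by linarith)
  obtain ⟨e3, f3, he3, hf3, g3⟩ := arc (d := d) hc ha hb (by linarith)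
  have s1 : d * b / (a + b) + d * a / (b + a) = d := by field_simp; ring
  have s2 : d * c / (b + c) + d * b / (c + b) = d := by field_simp; ring
  have s3 : d * a / (c + a) + d * c / (a + c) = d := by field_simp; ring
  have i1 : E d a c ↔ E d b c := ⟨E_shift hb ha hc (by linarith), E_shift ha hb hc hs⟩
  have i2 : E d b a ↔ E d c a :=
    ⟨E_shift hc hb ha (by linarith), E_shift hb hc ha (by linarith)⟩
  have i3 : E d c b ↔ E d a b :=
    ⟨E_shift ha hc hb (by linarith), E_shift hc ha hb (by linarith)⟩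
  rw [i1] at he2
  rw [i2] at he3
  rw [i3] at he1
  obtain ⟨n1, n1'⟩ := N'_card d b c
  obtain ⟨n2, n2'⟩ := N'_card d c a
  obtain ⟨n3, n3'⟩ := N'_card d a b
  have k1 := key _ _ _ _ _ n1 n1' hf1 he2
  have k2 := key _ _ _ _ _ n2 n2' hf2 he3
  have k3 := key _ _ _ _ _ n3 n3' hf3 he1
  have : ((N' d b c).card : ℝ) + (N' d c a).card + (N' d a b).card < d + 2 := by linarith
  have : (N' d b c).card + (N' d c a).card + (N' d a b).card < d + 2 := by exact_mod_cast this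
  omega

lemma coords {A B C : ℝ × ℝ}
    (hT : (B - A).1 * (C - A).2 - (B - A).2 * (C - A).1 ≠ 0) {s t s1 t1 s2 t2 : ℝ}
    (h : pt A B C s t ∈ line[ℝ, pt A B C s1 t1, pt A B C s2 t2]) :
    (s - s1) * (t2 - t1) = (t - t1) * (s2 - s1) := by
  obtain ⟨r, hr⟩ := mem_affineSpan_pair_iff_exists_lineMap_eq.1 h
  rw [AffineMap.lineMap_apply] at hr
  have h1 := congrArg Prod.fst hr
  have h2 := congrArg Prod.snd hr
  simp only [pt, vsub_eq_sub, vadd_eq_add, Prod.fst_add, Prod.snd_add, Prod.smul_fst, Prod.smul_snd,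
    Prod.fst_sub, Prod.snd_sub, smul_eq_mul] at h1 h2 hT
  have e1 : s - s1 - r * (s2 - s1) = 0 := by
    apply (mul_eq_zero.1 (_ : _ * _ = (0 : ℝ))).resolve_right hT
    linear_combination (A.2 - C.2) * h1 + (C.1 - A.1) * h2
  have e2 : t - t1 - r * (t2 - t1) = 0 := by
    apply (mul_eq_zero.1 (_ : _ * _ = (0 : ℝ))).resolve_right hT
    linear_combination (B.2 - A.2) * h1 + (A.1 - B.1) * h2
  linear_combination (t2 - t1) * e1 - (s2 - s1) * e2

theorem main (A B C : ℝ × ℝ) (hT : (B - A).1 * (C - A).2 - (B - A).2 * (C - A).1 ≠ 0)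
    (d : ℕ) (hd : 1 ≤ d) (s t : ℝ) (hs : 0 < s) (ht : 0 < t) (hst : s + t < 1) :
    {l ∈ WS A B C d | pt A B C s t ∈ l}.encard ≤ d + 1 := by
  classical
  have hd' : (0 : ℝ) < d := by exact_mod_cast hd
  obtain ⟨x, hx⟩ : ∃ x, x = d * s := ⟨_, rfl⟩
  obtain ⟨y, hy⟩ : ∃ y, y = d * t := ⟨_, rfl⟩
  obtain ⟨z, hz⟩ : ∃ z, z = d * (1 - s - t) := ⟨_, rfl⟩
  have x0 : 0 < x := by rw [hx]; positivity
  have y0 : 0 < y := by rw [hy]; positivity
  have z0 : 0 < z := by rw [hz]; exact mul_pos hd' (by linarith)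
  have hsum : z + x + y = d := by rw [hx, hy, hz]; ring
  let L : ℕ × ℕ → ℕ × ℕ → AffineSubspace ℝ (ℝ × ℝ) := fun q r =>
    line[ℝ, divPt A B C d q, divPt A B C d r]
  have Lc : ∀ q r, L q r = L r q := fun q r => by simp only [L, Set.pair_comm]
  let f1 : ℕ × ℕ → AffineSubspace ℝ (ℝ × ℝ) := fun q => L (q.1, 0) (0, q.2)
  let f2 : ℕ × ℕ → AffineSubspace ℝ (ℝ × ℝ) := fun q => L (d - q.1, q.1) (d - q.2, 0)
  let f3 : ℕ × ℕ → AffineSubspace ℝ (ℝ × ℝ) := fun q => L (0, d - q.1) (q.2, d - q.2)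
  let U := (N' d x y).image f1 ∪ (N' d y z).image f2 ∪ (N' d z x).image f3
  have m1 : ∀ q ∈ N d x y, f1 q ∈ U := by
    intro q hq
    by_cases e : q.2 = d
    · have h1 := N_swap (shift z0 x0 y0 hsum hq e)
      have h2 := (mem_N.1 hq).1
      refine mem_union_left _ (mem_union_right _ (mem_image.2 ⟨_, mem_filter.2 ⟨h1, ?_⟩, ?_⟩))
      · simp only [Prod.swap_prod_mk]; omega
      · simp only [f1, f2, Prod.swap_prod_mk, Nat.sub_self, e, Nat.sub_sub_self h2.2]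
        exact Lc _ _
    · exact mem_union_left _ (mem_union_left _ (mem_image.2 ⟨q, mem_filter.2 ⟨hq, e⟩, rfl⟩))
  have m2 : ∀ q ∈ N d y z, f2 q ∈ U := by
    intro q hq
    by_cases e : q.2 = d
    · have h1 := N_swap (shift x0 y0 z0 (by linarith) hq e)
      have h2 := (mem_N.1 hq).1
      refine mem_union_right _ (mem_image.2 ⟨_, mem_filter.2 ⟨h1, ?_⟩, ?_⟩)
      · simp only [Prod.swap_prod_mk]; omega
      · simp only [f3, f2, Prod.swap_prod_mk, Nat.sub_self, e, Nat.sub_sub_self h2.2]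
        exact Lc _ _
    · exact mem_union_left _ (mem_union_right _ (mem_image.2 ⟨q, mem_filter.2 ⟨hq, e⟩, rfl⟩))
  have m3 : ∀ q ∈ N d z x, f3 q ∈ U := by
    intro q hq
    by_cases e : q.2 = d
    · have h1 := N_swap (shift y0 z0 x0 (by linarith) hq e)
      have h2 := (mem_N.1 hq).1
      refine mem_union_left _ (mem_union_left _ (mem_image.2 ⟨_, mem_filter.2 ⟨h1, ?_⟩, ?_⟩))
      · simp only [Prod.swap_prod_mk]; omega
      · simp only [f3, f1, Prod.swap_prod_mk, Nat.sub_self, e]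
        exact Lc _ _
    · exact mem_union_right _ (mem_image.2 ⟨q, mem_filter.2 ⟨hq, e⟩, rfl⟩)
  have eqn : ∀ q r, pt A B C s t ∈ L q r →
      (x - q.1) * ((r.2 : ℝ) - q.2) = (y - q.2) * ((r.1 : ℝ) - q.1) := by
    intro q r h
    have := coords hT h
    rw [hx, hy]
    field_simp at this
    linarith
  have c1 : ∀ q r, IsDiv d q → IsDiv d r → ¬ SameSide d q r → pt A B C s t ∈ L q r →
      q.2 = 0 → r.1 = 0 → L q r ∈ U := by
    rintro ⟨i, j⟩ ⟨k, l⟩ hq hr hn h rfl rfl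
    have := eqn _ _ h
    unfold IsDiv at hq hr
    unfold SameSide at hn
    dsimp only at hq hr hn
    refine m1 (i, l) (mem_N.2 ⟨by simp only; omega, by simp only; omega, ?_⟩)
    simp only [Nat.cast_zero] at this ⊢
    linarith
  have c2 : ∀ q r, IsDiv d q → IsDiv d r → ¬ SameSide d q r → pt A B C s t ∈ L q r →
      q.1 + q.2 = d → r.2 = 0 → L q r ∈ U := by
    rintro ⟨i, j⟩ ⟨k, l⟩ hq hr hn h e rfl
    have := eqn _ _ h
    unfold IsDiv at hq hr
    unfold SameSide at hn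
    dsimp only at hq hr hn e
    have h1 := m2 (j, d - k) (mem_N.2 ⟨by simp only; omega, by simp only; omega, by
      have e' : (i : ℝ) = d - j := by rw [← e]; push_cast; ring
      simp only [Nat.cast_zero] at this ⊢
      rw [Nat.cast_sub (by omega), show z = d - x - y by linarith]
      rw [e'] at this
      linarith⟩)
    simp only [f2] at h1
    rwa [show d - j = i by omega, show d - (d - k) = k by omega] at h1
  have c3 : ∀ q r, IsDiv d q → IsDiv d r → ¬ SameSide d q r → pt A B C s t ∈ L q r →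
      q.1 = 0 → r.1 + r.2 = d → L q r ∈ U := by
    rintro ⟨i, j⟩ ⟨k, l⟩ hq hr hn h rfl e
    have := eqn _ _ h
    unfold IsDiv at hq hr
    unfold SameSide at hn
    dsimp only at hq hr hn e
    have h1 := m3 (d - j, k) (mem_N.2 ⟨by simp only; omega, by simp only; omega, by
      have e' : (l : ℝ) = d - k := by rw [← e]; push_cast; ring
      simp only [Nat.cast_zero] at this ⊢
      rw [Nat.cast_sub (by omega), show z = d - x - y by linarith]
      rw [e'] at this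
      linarith⟩)
    simp only [f3] at h1
    rwa [show d - (d - j) = j by omega, show d - k = l by omega] at h1
  have hsub : {l ∈ WS A B C d | pt A B C s t ∈ l} ⊆ (U : Set (AffineSubspace ℝ (ℝ × ℝ))) := by
    rintro l ⟨⟨q, r, hq, hr, hn, rfl⟩, h⟩
    have hn' : ¬ SameSide d r q := by unfold SameSide at hn ⊢; tauto
    have h' : pt A B C s t ∈ L r q := by rw [Lc]; exact h
    show L q r ∈ U
    rcases hq.2 with a | a | a <;> rcases hr.2 with b | b | b
    · exact absurd (Or.inl ⟨a, b⟩) hn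
    · rw [Lc]; exact c1 r q hr hq hn' h' b a
    · exact c3 q r hq hr hn h a b
    · exact c1 q r hq hr hn h a b
    · exact absurd (Or.inr (Or.inl ⟨a, b⟩)) hn
    · rw [Lc]; exact c2 r q hr hq hn' h' b a
    · rw [Lc]; exact c3 r q hr hq hn' h' b a
    · exact c2 q r hq hr hn h a b
    · exact absurd (Or.inr (Or.inr ⟨a, b⟩)) hn
  refine (Set.encard_le_encard hsub).trans ?_
  rw [Set.encard_coe_eq_coe_finsetCard]
  have h1 : U.card ≤ d + 1 := by
    refine le_trans ?_ (total z0 x0 y0 hsum)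
    refine (card_union_le _ _).trans (add_le_add ((card_union_le _ _).trans
      (add_le_add card_image_le card_image_le)) card_image_le)
  exact_mod_cast h1

end Pool.Agent.Lib.helper25.WangShi
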